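import Mathlib

/-! Module TQ AMa: majority amplification, counting form. -/

namespace Pool.Agent.Helper33.TQ

open Function

open scoped Classical in
/-- `∑_f 2^{#{i | P (f i)}} = (∑_ω 2^{[P ω]})^t ≤ (4/3 |Ω|)^t` -/
theorem sum_two_pow_card {Ω : Type} [Fintype Ω] (P : Ω → Prop) (t : ℕ) :
    ∑ f : Fin t → Ω, 2 ^ (Finset.univ.filter fun i => P (f i)).card =
      (Fintype.card Ω + (Finset.univ.filter P).card) ^ t := by
  have h1 : ∀ f : Fin t → Ω, 2 ^ (Finset.univ.filter fun i => P (f i)).card =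
      ∏ i : Fin t, (if P (f i) then 2 else 1) := by
    intro f
    rw [Finset.prod_ite, Finset.prod_const, Finset.prod_const_one, mul_one]
  have h2 : ∑ ω : Ω, (if P ω then 2 else 1) =
      Fintype.card Ω + (Finset.univ.filter P).card := by
    rw [Finset.card_filter, ← Finset.card_univ, Finset.card_eq_sum_ones,
      ← Finset.sum_add_distrib]
    refine Finset.sum_congr rfl fun ω _ => ?_
    split_ifs <;> rfl
  simp only [h1]
  have h3 := Finset.prod_univ_sum (fun _ : Fin t => (Finset.univ : Finset Ω))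
    (fun (_ : Fin t) (ω : Ω) => if P ω then 2 else 1)
  rw [Fintype.piFinset_univ] at h3
  rw [← h3, Finset.prod_const, Finset.card_univ, Fintype.card_fin, h2]

open scoped Classical in
/-- if `P` has density at most `1/3` then having `P` at least `32 s` times in `64 s` independent
trials has density at most `32^(-s)`; from `(8/9)^32 ≤ 1/32` -/
theorem majority_bound {Ω : Type} [Fintype Ω] (P : Ω → Prop)
    (hP : 3 * (Finset.univ.filter P).card ≤ Fintype.card Ω) (s : ℕ) :
    (Finset.univ.filter fun f : Fin (64 * s) → Ω =>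
      32 * s ≤ (Finset.univ.filter fun i => P (f i)).card).card * 32 ^ s ≤
      Fintype.card Ω ^ (64 * s) := by
  set M := (Finset.univ.filter fun f : Fin (64 * s) → Ω =>
      32 * s ≤ (Finset.univ.filter fun i => P (f i)).card).card with hM
  have h1 : M * 2 ^ (32 * s) ≤
      (Fintype.card Ω + (Finset.univ.filter P).card) ^ (64 * s) := by
    rw [← sum_two_pow_card P (64 * s), hM, ← smul_eq_mul, ← Finset.sum_const]
    refine le_trans (Finset.sum_le_sum fun f hf => ?_)
      (Finset.sum_le_sum_of_subset (Finset.filter_subset _ _))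
    exact Nat.pow_le_pow_right (by norm_num) (Finset.mem_filter.1 hf).2
  have h2 : 3 ^ (64 * s) * (Fintype.card Ω + (Finset.univ.filter P).card) ^ (64 * s) ≤
      4 ^ (64 * s) * Fintype.card Ω ^ (64 * s) := by
    rw [← mul_pow, ← mul_pow]
    refine Nat.pow_le_pow_left ?_ _
    omega
  have h3 : 4 ^ (64 * s) * 32 ^ s ≤ 2 ^ (32 * s) * 3 ^ (64 * s) := by
    rw [pow_mul, pow_mul, pow_mul, ← mul_pow, ← mul_pow]
    refine Nat.pow_le_pow_left ?_ _
    norm_num
  have h4 : (2 ^ (32 * s) * 3 ^ (64 * s)) * (M * 32 ^ s) ≤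
      (2 ^ (32 * s) * 3 ^ (64 * s)) * Fintype.card Ω ^ (64 * s) := by
    calc (2 ^ (32 * s) * 3 ^ (64 * s)) * (M * 32 ^ s)
        = 32 ^ s * (3 ^ (64 * s) * (M * 2 ^ (32 * s))) := by ring
      _ ≤ 32 ^ s * (3 ^ (64 * s) *
          (Fintype.card Ω + (Finset.univ.filter P).card) ^ (64 * s)) :=
          Nat.mul_le_mul_left _ (Nat.mul_le_mul_left _ h1)
      _ ≤ 32 ^ s * (4 ^ (64 * s) * Fintype.card Ω ^ (64 * s)) := Nat.mul_le_mul_left _ h2
      _ = (4 ^ (64 * s) * 32 ^ s) * Fintype.card Ω ^ (64 * s) := by ring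
      _ ≤ _ := Nat.mul_le_mul_right _ h3
  exact Nat.le_of_mul_le_mul_left h4 (by positivity)

end Pool.Agent.Helper33.TQ
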