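import Pool.Agent.Helper33.TQ.StrB

/-! Module TQ Hw: the finite set of all words of a given length. -/

namespace Pool.Agent.Helper33.TQ

open Function

/-- all words of length `b` -/
noncomputable def wds (b : ℕ) : Finset Str := (List.finite_length_eq Bool b).toFinset

@[simp] theorem mem_wds {b : ℕ} {x : Str} : x ∈ wds b ↔ x.length = b := by
  simp [wds]

theorem sum_wds_zero {M : Type*} [AddCommMonoid M] (f : Str → M) :
    ∑ x ∈ wds 0, f x = f [] := by
  have h : wds 0 = {[]} := by
    ext x
    simp
  rw [h, Finset.sum_singleton]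

theorem sum_wds_succ {M : Type*} [AddCommMonoid M] (b : ℕ) (f : Str → M) :
    ∑ x ∈ wds (b + 1), f x = ∑ x ∈ wds b, (f (false :: x) + f (true :: x)) := by
  classical
  have h : wds (b + 1) = (wds b).image (fun x => false :: x) ∪ (wds b).image (fun x => true :: x) := by
    ext x
    simp only [mem_wds, Finset.mem_union, Finset.mem_image]
    constructor
    · intro hx
      cases x with
      | nil => simp at hx
      | cons c x =>
        have hx' : x.length = b := by simpa using hx
        cases c
        · exact Or.inl ⟨x, hx', rfl⟩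
        · exact Or.inr ⟨x, hx', rfl⟩
    · rintro (⟨y, hy, rfl⟩ | ⟨y, hy, rfl⟩) <;> simp [hy]
  have hd : Disjoint ((wds b).image (fun x => false :: x)) ((wds b).image (fun x => true :: x)) := by
    rw [Finset.disjoint_left]
    intro x hx hy
    rw [Finset.mem_image] at hx hy
    obtain ⟨y, _, rfl⟩ := hx
    obtain ⟨z, _, hz⟩ := hy
    simp at hz
  rw [h, Finset.sum_union hd, Finset.sum_image, Finset.sum_image, Finset.sum_add_distrib]
  · intro x _ y _ hxy
    simpa using hxy
  · intro x _ y _ hxy
    simpa using hxy

theorem card_wds (b : ℕ) : (wds b).card = 2 ^ b := by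
  induction b with
  | zero => rw [Finset.card_eq_sum_ones, sum_wds_zero, pow_zero]
  | succ b ih =>
    rw [Finset.card_eq_sum_ones, sum_wds_succ, Finset.sum_const, ih, pow_succ, smul_eq_mul]

theorem sum_wds_add {M : Type*} [AddCommMonoid M] (a b : ℕ) (f : Str → M) :
    ∑ x ∈ wds (a + b), f x = ∑ x ∈ wds a, ∑ y ∈ wds b, f (x ++ y) := by
  induction a generalizing f with
  | zero => rw [sum_wds_zero, Nat.zero_add]; rfl
  | succ a ih =>
    rw [show a + 1 + b = (a + b) + 1 from by omega, sum_wds_succ, sum_wds_succ,
      Finset.sum_add_distrib, Finset.sum_add_distrib, ih, ih]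
    rfl

theorem countP_allS {Q b : ℕ} (hQ : 2 ^ b ≤ Q) (p : Str → Prop) [DecidablePred p] :
    (allS Q b).countP (fun x => decide (p x)) = ((wds b).filter p).card := by
  classical
  rw [List.countP_eq_length_filter,
    ← List.toFinset_card_of_nodup ((nodup_allS Q b).filter _)]
  congr 1
  ext x
  simp [mem_allS hQ]

theorem ncard_eq_card_wds (b : ℕ) (p : Str → Prop) [DecidablePred p] :
    Set.ncard {x : Str | x.length = b ∧ p x} = ((wds b).filter p).card := by
  rw [← Set.ncard_coe_finset]
  congr 1
  ext x
  simp

private theorem xorS_xorS (x u : Str) (h : x.length = u.length) : xorS (xorS x u) u = x := by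
  induction x generalizing u with
  | nil => simp [xorS]
  | cons a x ih =>
    cases u with
    | nil => simp at h
    | cons c u =>
      have h' : x.length = u.length := by simpa using h
      have h2 := ih u h'
      unfold xorS at h2 ⊢
      rw [List.zipWith_cons_cons, List.zipWith_cons_cons, h2]
      cases a <;> cases c <;> rfl

/-- translations are bijections -/
theorem card_filter_xorS {b : ℕ} {u : Str} (hu : u.length = b) (p : Str → Prop)
    [DecidablePred p] : ((wds b).filter fun x => p (xorS x u)).card =
      ((wds b).filter p).card := by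
  refine Finset.card_nbij' (fun x => xorS x u) (fun x => xorS x u) ?_ ?_ ?_ ?_
  · intro x hx
    simp only [Finset.coe_filter, mem_wds, Set.mem_ofPred_eq] at hx ⊢
    refine ⟨?_, hx.2⟩
    rw [length_xorS, hx.1, hu, min_self]
  · intro x hx
    simp only [Finset.coe_filter, mem_wds, Set.mem_ofPred_eq] at hx ⊢
    refine ⟨?_, ?_⟩
    · rw [length_xorS, hx.1, hu, min_self]
    · rw [xorS_xorS x u (hx.1.trans hu.symm)]
      exact hx.2
  · intro x hx
    simp only [Finset.coe_filter, mem_wds, Set.mem_ofPred_eq] at hx
    exact xorS_xorS x u (hx.1.trans hu.symm)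
  · intro x hx
    simp only [Finset.coe_filter, mem_wds, Set.mem_ofPred_eq] at hx
    exact xorS_xorS x u (hx.1.trans hu.symm)

/-- bilinearity of the inner product -/
theorem ip_cons (a c : Bool) (u v : Str) : ip (a :: u) (c :: v) = xor (a && c) (ip u v) := by
  simp [ip]

theorem ip_comm (u v : Str) : ip u v = ip v u := by
  induction u generalizing v with
  | nil => cases v <;> simp [ip]
  | cons a u ih =>
    cases v with
    | nil => simp [ip]
    | cons c v => rw [ip_cons, ip_cons, ih, Bool.and_comm]

end Pool.Agent.Helper33.TQ
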