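import Pool.Agent.Helper33.TQ.AMa
import Pool.Agent.Helper33.TQ.Hw

/-! Module TQ AMb: majority amplification for words. -/

namespace Pool.Agent.Helper33.TQ

open Function

/-- chunk number `i` of length `l` -/
def chunk (l i : ℕ) (ρ : Str) : Str := (ρ.drop (i * l)).take l

theorem AMb_length_chunk {l i t : ℕ} {ρ : Str} (hi : i < t) (hρ : ρ.length = t * l) :
    (chunk l i ρ).length = l := by
  have h : i * l + l ≤ t * l := by
    rw [← Nat.succ_mul]
    exact Nat.mul_le_mul_right _ hi
  rw [chunk, List.length_take, List.length_drop, hρ]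
  omega

theorem AMb_chunk_flatten {l : ℕ} : ∀ (L : List Str), (∀ a ∈ L, a.length = l) →
    ∀ (i : ℕ) (hi : i < L.length), chunk l i L.flatten = L[i] := by
  intro L
  induction L with
  | nil => intro _ i hi; simp at hi
  | cons a L ih =>
    intro hL i hi
    have ha : a.length = l := hL a (by simp)
    cases i with
    | zero =>
      rw [chunk, Nat.zero_mul, List.drop_zero, List.flatten_cons, List.getElem_cons_zero,
        List.take_append_of_le_length (by rw [ha]), List.take_of_length_le (by rw [ha])]
    | succ i =>
      have h1 := ih (fun b hb => hL b (by simp [hb])) i (by simpa using hi)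
      rw [List.getElem_cons_succ, ← h1, chunk, chunk, List.flatten_cons,
        show (i + 1) * l = a.length + i * l by rw [ha]; ring, List.drop_append,
        List.drop_of_length_le (by omega), Nat.add_sub_cancel_left, List.nil_append]

theorem AMb_flatten_chunks {l : ℕ} : ∀ (t : ℕ) (ρ : Str), ρ.length = t * l →
    (List.ofFn fun i : Fin t => chunk l i ρ).flatten = ρ := by
  intro t
  induction t with
  | zero =>
    intro ρ hρ
    rw [Nat.zero_mul] at hρ
    simp [List.length_eq_zero_iff.1 hρ]
  | succ t ih =>
    intro ρ hρ
    rw [List.ofFn_succ, List.flatten_cons]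
    have h1 : (ρ.drop l).length = t * l := by
      rw [List.length_drop, hρ, Nat.succ_mul]
      omega
    have h2 := ih (ρ.drop l) h1
    have h3 : (fun i : Fin t => chunk l (i.succ : Fin (t + 1)) ρ) =
        fun i : Fin t => chunk l i (ρ.drop l) := by
      funext i
      rw [chunk, chunk, List.drop_drop, Fin.val_succ, Nat.succ_mul, Nat.add_comm]
    rw [h3, h2, chunk]
    simp

open scoped Classical in
/-- counting words of length `t * l` by their chunks -/
theorem card_chunks (l t : ℕ) (Q : (Fin t → Str) → Prop) :
    ((wds (t * l)).filter fun ρ => Q fun i => chunk l i ρ).card =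
      (Finset.univ.filter fun f : Fin t → wds l => Q fun i => (f i : Str)).card := by
  refine Finset.card_bij'
    (fun ρ hρ => fun i : Fin t => (⟨chunk l i ρ, mem_wds.2 (AMb_length_chunk i.2
      (mem_wds.1 (Finset.mem_filter.1 hρ).1))⟩ : wds l))
    (fun f _ => (List.ofFn fun i : Fin t => (f i : Str)).flatten) ?_ ?_ ?_ ?_
  · intro ρ hρ
    rw [Finset.mem_filter]
    exact ⟨Finset.mem_univ _, (Finset.mem_filter.1 hρ).2⟩
  · intro f hf
    have h0 : ∀ a ∈ List.ofFn fun i : Fin t => (f i : Str), a.length = l := by
      intro a ha
      obtain ⟨i, rfl⟩ := List.mem_ofFn.1 ha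
      exact mem_wds.1 (f i).2
    rw [Finset.mem_filter, mem_wds]
    constructor
    · rw [List.length_flatten, List.map_ofFn, List.sum_ofFn]
      have : ∀ i : Fin t, (List.length ∘ fun i : Fin t => (f i : Str)) i = l :=
        fun i => mem_wds.1 (f i).2
      rw [Finset.sum_congr rfl fun i _ => this i]
      simp
    · have h1 : (fun i : Fin t => chunk l i (List.ofFn fun i : Fin t => (f i : Str)).flatten) =
          fun i : Fin t => (f i : Str) := by
        funext i
        rw [AMb_chunk_flatten _ h0 i (by rw [List.length_ofFn]; exact i.2)]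
        simp
      rw [h1]
      exact (Finset.mem_filter.1 hf).2
  · intro ρ hρ
    exact AMb_flatten_chunks t ρ (mem_wds.1 (Finset.mem_filter.1 hρ).1)
  · intro f hf
    have h0 : ∀ a ∈ List.ofFn fun i : Fin t => (f i : Str), a.length = l := by
      intro a ha
      obtain ⟨i, rfl⟩ := List.mem_ofFn.1 ha
      exact mem_wds.1 (f i).2
    funext i
    apply Subtype.ext
    change chunk l i (List.ofFn fun i : Fin t => (f i : Str)).flatten = f i
    rw [AMb_chunk_flatten _ h0 i (by rw [List.length_ofFn]; exact i.2)]
    simp

open scoped Classical in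
theorem AMb_countP_range (n : ℕ) (p : ℕ → Prop) :
    (List.range n).countP (fun i => decide (p i)) =
      (Finset.univ.filter fun i : Fin n => p i).card := by
  rw [← Finset.card_map Fin.valEmbedding, List.countP_eq_length_filter]
  have h : ((List.range n).filter fun i => decide (p i)).toFinset =
      (Finset.univ.filter fun i : Fin n => p i).map Fin.valEmbedding := by
    ext i
    simp only [List.mem_toFinset, List.mem_filter, List.mem_range, decide_eq_true_eq,
      Finset.mem_map, Finset.mem_filter, Finset.mem_univ, true_and, Fin.valEmbedding_apply]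
    constructor
    · rintro ⟨h1, h2⟩
      exact ⟨⟨i, h1⟩, h2, rfl⟩
    · rintro ⟨j, h2, rfl⟩
      exact ⟨j.2, h2⟩
  rw [← h, List.toFinset_card_of_nodup (List.nodup_range.filter _)]

open scoped Classical in
/-- `majority_bound` for words; `P` has density at most `1/3` among words of length `l` -/
theorem majority_words (l s : ℕ) (P : Str → Prop)
    (hP : 3 * ((wds l).filter P).card ≤ 2 ^ l) :
    ((wds (64 * s * l)).filter fun ρ =>
      32 * s ≤ (List.range (64 * s)).countP fun i => decide (P (chunk l i ρ))).card * 32 ^ s ≤
      2 ^ (64 * s * l) := by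
  have h1 : Fintype.card (wds l) = 2 ^ l := by rw [Fintype.card_coe, card_wds]
  have h2 : (Finset.univ.filter fun ω : wds l => P ω).card = ((wds l).filter P).card := by
    rw [← Finset.card_map (Embedding.subtype _)]
    congr 1
    ext x
    simp only [Finset.mem_map, Finset.mem_filter, Finset.mem_univ, true_and,
      Embedding.subtype_apply, Subtype.exists, exists_and_left, exists_prop]
    constructor
    · rintro ⟨a, h1, h2, rfl⟩
      exact ⟨h2, h1⟩
    · rintro ⟨h1, h2⟩
      exact ⟨x, h2, h1, rfl⟩
  have h3 := majority_bound (Ω := wds l) (fun ω => P ω) (by rw [h2, h1]; exact hP) s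
  rw [h1, ← pow_mul] at h3
  have h4 := card_chunks l (64 * s) (fun g => 32 * s ≤ (Finset.univ.filter fun i => P (g i)).card)
  have h5 : ((wds (64 * s * l)).filter fun ρ =>
      32 * s ≤ (Finset.univ.filter fun i : Fin (64 * s) => P (chunk l i ρ)).card).card =
      (Finset.univ.filter fun f : Fin (64 * s) → wds l =>
        32 * s ≤ (Finset.univ.filter fun i => P (f i)).card).card := by
    convert h4
  simp only [AMb_countP_range]
  rw [h5, mul_comm (64 * s) l]
  exact h3

end Pool.Agent.Helper33.TQ
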