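import Pool.Agent.Helper33.TQ.Hw

/-! Module TQ AMc: Lautemann's argument. -/

namespace Pool.Agent.Helper33.TQ

open Function

theorem AMc_xorS_comm (u v : Str) : xorS u v = xorS v u := by
  unfold xorS
  rw [List.zipWith_comm]
  congr 1
  funext a b
  exact Bool.xor_comm _ _

open scoped Classical in
theorem AMc_card_shift {R : ℕ} (B : Str → Prop) {ρ : Str} (hρ : ρ.length = R) :
    (Finset.univ.filter fun u : wds R => B (xorS ρ u)).card = ((wds R).filter B).card := by
  rw [← card_filter_xorS hρ B, ← Finset.card_map (Embedding.subtype _)]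
  congr 1
  ext x
  simp only [Finset.mem_map, Finset.mem_filter, Finset.mem_univ, true_and,
    Embedding.subtype_apply, Subtype.exists, exists_and_left, exists_prop]
  constructor
  · rintro ⟨a, h1, h2, rfl⟩
    rw [AMc_xorS_comm] at h1
    exact ⟨h2, h1⟩
  · rintro ⟨h1, h2⟩
    rw [AMc_xorS_comm] at h2
    exact ⟨x, h2, h1, rfl⟩

open scoped Classical in
/-- few bad words: some `K` translations avoid them for every word. Count the tuples `U` of `K`
words such that some `ρ` has all `ρ ⊕ u` bad: at most `2^R |B|^K < 2^(R K)` -/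
theorem exists_shifts {R s K : ℕ} (B : Str → Prop)
    (hB : ((wds R).filter B).card * 2 ^ s ≤ 2 ^ R) (hK : R < s * K) :
    ∃ U : List Str, U.length = K ∧ (∀ u ∈ U, u.length = R) ∧
      ∀ ρ : Str, ρ.length = R → ∃ u ∈ U, ¬ B (xorS ρ u) := by
  have h1 : Fintype.card (wds R) = 2 ^ R := by rw [Fintype.card_coe, card_wds]
  set b := ((wds R).filter B).card with hb
  -- the bad tuples
  let bad : Finset (Fin K → wds R) :=
    (wds R).biUnion fun ρ => Fintype.piFinset fun _ => Finset.univ.filter fun u : wds R =>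
      B (xorS ρ u)
  have h2 : bad.card ≤ 2 ^ R * b ^ K := by
    refine Finset.card_biUnion_le.trans ?_
    have h3 : ∀ ρ ∈ wds R, (Fintype.piFinset fun _ : Fin K => Finset.univ.filter
        fun u : wds R => B (xorS ρ u)).card = b ^ K := by
      intro ρ hρ
      rw [Fintype.card_piFinset, Finset.prod_const, Finset.card_univ, Fintype.card_fin,
        AMc_card_shift B (mem_wds.1 hρ)]
    rw [Finset.sum_congr rfl h3, Finset.sum_const, card_wds, smul_eq_mul]
  have h4 : b ^ K * 2 ^ (s * K) ≤ 2 ^ (R * K) := by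
    rw [pow_mul, pow_mul, ← mul_pow]
    exact Nat.pow_le_pow_left hB K
  have h5 : bad.card < Fintype.card (Fin K → wds R) := by
    rw [Fintype.card_fun, Fintype.card_fin, h1, ← pow_mul]
    have h6 : 2 ^ R * b ^ K * 2 ^ (s * K) < 2 ^ (R * K) * 2 ^ (s * K) := by
      calc 2 ^ R * b ^ K * 2 ^ (s * K) = 2 ^ R * (b ^ K * 2 ^ (s * K)) := by ring
        _ ≤ 2 ^ R * 2 ^ (R * K) := Nat.mul_le_mul_left _ h4
        _ < 2 ^ (s * K) * 2 ^ (R * K) :=
            Nat.mul_lt_mul_of_pos_right (Nat.pow_lt_pow_right (by norm_num) hK)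
              (by positivity)
        _ = _ := by ring
    exact lt_of_le_of_lt h2 (Nat.lt_of_mul_lt_mul_right h6)
  obtain ⟨U, hU⟩ : ∃ U : Fin K → wds R, U ∉ bad := by
    by_contra hcon
    push Not at hcon
    have h6 : bad = Finset.univ := Finset.eq_univ_of_forall hcon
    rw [h6, Finset.card_univ] at h5
    exact lt_irrefl _ h5
  refine ⟨List.ofFn fun i => (U i : Str), List.length_ofFn, fun u hu => ?_, fun ρ hρ => ?_⟩
  · obtain ⟨i, rfl⟩ := List.mem_ofFn.1 hu
    exact mem_wds.1 (U i).2
  · by_contra hcon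
    push Not at hcon
    apply hU
    refine Finset.mem_biUnion.2 ⟨ρ, mem_wds.2 hρ, ?_⟩
    rw [Fintype.mem_piFinset]
    intro i
    rw [Finset.mem_filter]
    exact ⟨Finset.mem_univ _, hcon _ (List.mem_ofFn.2 ⟨i, rfl⟩)⟩

open scoped Classical in
theorem AMc_card_union {R : ℕ} (A : Str → Prop) : ∀ U : List Str, (∀ u ∈ U, u.length = R) →
    ((wds R).filter fun ρ => ∃ u ∈ U, A (xorS ρ u)).card ≤
      U.length * ((wds R).filter A).card := by
  intro U
  induction U with
  | nil => intro _; simp
  | cons u U ih =>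
    intro hU
    have h1 := ih fun v hv => hU v (by simp [hv])
    have h2 := card_filter_xorS (hU u (by simp)) A
    have h3 : ((wds R).filter fun ρ => ∃ v ∈ u :: U, A (xorS ρ v)) ⊆
        ((wds R).filter fun ρ => A (xorS ρ u)) ∪
          ((wds R).filter fun ρ => ∃ v ∈ U, A (xorS ρ v)) := by
      intro ρ hρ
      rw [Finset.mem_filter] at hρ
      obtain ⟨h4, v, hv, h5⟩ := hρ
      rw [Finset.mem_union, Finset.mem_filter, Finset.mem_filter]
      rcases List.mem_cons.1 hv with rfl | hv
      · exact Or.inl ⟨h4, h5⟩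
      · exact Or.inr ⟨h4, v, hv, h5⟩
    refine (Finset.card_le_card h3).trans ((Finset.card_union_le _ _).trans ?_)
    rw [h2, List.length_cons, Nat.succ_mul, Nat.add_comm]
    exact Nat.add_le_add_right h1 _

open scoped Classical in
/-- few good words: no `K` translations cover more than half of all words -/
theorem dense_of_shifts {R s K : ℕ} (A : Str → Prop)
    (hA : ((wds R).filter A).card * 2 ^ s ≤ 2 ^ R) (hK : 2 * K ≤ 2 ^ s)
    {U : List Str} (hU : U.length = K) (hU' : ∀ u ∈ U, u.length = R) :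
    2 ^ R ≤ 2 * Set.ncard {ρ : Str | ρ.length = R ∧ ∀ u ∈ U, ¬ A (xorS ρ u)} := by
  rw [ncard_eq_card_wds]
  have h1 := AMc_card_union A U hU'
  have h2 := Finset.card_filter_add_card_filter_not (s := wds R)
    (fun ρ => ∃ u ∈ U, A (xorS ρ u))
  rw [card_wds] at h2
  have h3 : ((wds R).filter fun ρ => ∀ u ∈ U, ¬ A (xorS ρ u)) =
      (wds R).filter fun ρ => ¬ ∃ u ∈ U, A (xorS ρ u) := by
    refine Finset.filter_congr fun ρ _ => ?_
    push Not
    rfl
  rw [h3]
  rw [hU] at h1
  have h4 : 2 * K * ((wds R).filter A).card ≤ 2 ^ R :=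
    (Nat.mul_le_mul_right _ hK).trans (by rw [mul_comm]; exact hA)
  have h5 : 2 * K * ((wds R).filter A).card = 2 * (K * ((wds R).filter A).card) := by ring
  omega

end Pool.Agent.Helper33.TQ
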