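import Pool.Agent.Helper33.TQ.NPa
import Pool.Agent.Helper72.Tableau
import Pool.Agent.Helper72.ProgV

/-! Module TQ KarpC1: deciding programs with two input registers. -/

namespace Pool.Agent.Helper33.TQ

open Function Pool.Agent.Helper72

theorem KarpC1_enc_prop (p : Prop) : ((enc p : Str)[0]? = some true) ↔ p := by
  classical
  show ((if p then [true] else [] : Str)[0]? = some true) ↔ p
  by_cases h : p
  · simp [h]
  · simp [h]

/-- a polynomial time decision procedure reading two registers -/
theorem exists_accept {R : Str → Str → Prop} (hR : PTF (fun x : Str × Str => R x.1 x.2)) :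
    ∃ (c : Cmd) (T : ℕ → ℕ) (k acc : ℕ), PB T ∧ Monotone T ∧ c.ok = true ∧ c.bd ≤ k ∧ 2 ≤ k ∧
      acc < k ∧ ∀ z w : Str, c.time (init2 z w) ≤ T (z.length + w.length) ∧
        ((c.eval (init2 z w) acc)[0]? = some true ↔ R z w) := by
  have hR' : PTime (fun w => enc (R (unp w).1 (unp w).2)) := hR
  obtain ⟨d, T, hT, hTm, hok, hwr, hspec⟩ := (ptime_iff_CF _).1 hR' 100
  set c : Cmd := Cmd.seq Cmd.mkPair d with hc
  refine ⟨c, fun n => c.tb (n + T (2 * n + 2)), max c.bd 101, 100,
    (PB.tb c).comp (PB.id.add (hT.comp (((PB.const 2).mul PB.id).add (PB.const 2)))), ?_, ?_,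
    le_max_left _ _, (by norm_num : 2 ≤ 101).trans (le_max_right _ _),
    (by norm_num : 100 < 101).trans_le (le_max_right _ _), fun z w => ?_⟩
  · intro a b hab
    have h1 : T (2 * a + 2) ≤ T (2 * b + 2) := hTm (by omega)
    exact c.tb_mono (by omega)
  · rw [hc]
    simp [Cmd.ok, Cmd.ok_mkPair, hok]
  · have h0 : init2 z w 0 = z := rfl
    have h1 : init2 z w 1 = w := rfl
    have hr : ∀ r, 2 ≤ r → init2 z w r = [] := by
      intro r hr
      unfold init2
      rw [if_neg (by omega), if_neg (by omega)]
    obtain ⟨e1, l1⟩ := Cmd.mkPair_spec (s := init2 z w) (hr 30 (by norm_num))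
      (hr 31 (by norm_num)) (hr 100 (by norm_num))
    rw [h0, h1] at e1 l1
    obtain ⟨l2, e2⟩ := hspec (pairCode (z, w)) (update (init2 z w) 100 (pairCode (z, w)))
      (fun r hr' => by
        rw [update_of_ne (by omega)]
        exact hr r (by omega)) (by simp)
    constructor
    · have hlb : c.LB (z.length + w.length + T (2 * (z.length + w.length) + 2)) (init2 z w) := by
        rw [hc, Cmd.LB_seq, e1]
        refine ⟨l1.mono (by omega), l2.mono ?_⟩
        have : T (pairCode (z, w)).length ≤ T (2 * (z.length + w.length) + 2) := by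
          apply hTm
          rw [length_pairCode]
          omega
        omega
      exact Cmd.time_le_tb hlb
    · rw [hc, Cmd.eval_seq, e1, e2, update_self]
      simp only [unp_pairCode]
      exact KarpC1_enc_prop (R z w)

end Pool.Agent.Helper33.TQ
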