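import Pool.Agent.Helper33.TQ.KarpB
import Pool.Agent.Helper33.TQ.KarpC1

/-! Module TQ KarpC: Cook-Levin theorem in the form of Karp reductions to `SAT`. -/

namespace Pool.Agent.Helper33.TQ

open Function Pool.Agent.Helper72

variable {α : Type} [Cd α]

/-- Cook-Levin: NP predicates reduce to `SAT`. Use `exists_accept` for
`R' z w := R (dec z) w ∧ w.length ≤ b (dec z)`. -/
theorem NPP.karp {p : α → Prop} (hp : NPP p) :
    ∃ κ : α → Str, PTF κ ∧ ∀ a, κ a ∈ SAT ↔ p a := by
  obtain ⟨R, b, hR, hb, h⟩ := hp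
  have hR' : PTF (fun x : Str × Str =>
      R (dec x.1 : α) x.2 ∧ x.2.length ≤ b (dec x.1 : α)) := by
    have h1 : PTF (fun x : Str × Str => R (dec x.1 : α) x.2) :=
      PTF.comp hR (PTF.mk (PTF.decNPa (PTF.fst PTF.id)) (PTF.snd PTF.id))
    have h2 : PTF (fun x : Str × Str => x.2.length ≤ b (dec x.1 : α)) :=
      PTF.le (PTF.lengthS (PTF.snd PTF.id)) (PTF.comp hb (PTF.decNPa (PTF.fst PTF.id)))
    exact PTF.and h1 h2
  obtain ⟨c, T, k, acc, hT, hTm, hok, hbd, hk, hacc, hspec⟩ := exists_accept
    (R := fun (z w : Str) => R (dec z : α) w ∧ w.length ≤ b (dec z : α)) hR'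
  obtain ⟨P, hP, hPm, hTP⟩ := PB.exists_ptf hT
  have hF : PTF (fun x : Str × ℕ => (karpF c.code k acc x.1 x.2).code) :=
    karpF_ptime c.code k acc
  have hB : PTF (fun a : α => sz a + b a + P (sz a + b a) + 1) := by fun_prop
  refine ⟨fun a => (karpF c.code k acc (enc a) (sz a + b a + P (sz a + b a) + 1)).code, ?_,
    fun a => ?_⟩
  · exact PTF.comp (f := fun x : Str × ℕ => (karpF c.code k acc x.1 x.2).code)
      (g := fun a : α => ((enc a : Str), sz a + b a + P (sz a + b a) + 1)) hF
      (PTF.mk (PTF.enc_fun PTF.id) hB)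
  · constructor
    · intro hs
      obtain ⟨w, hw⟩ := accept_of_karpF hok hbd hk hacc (z := enc a)
        (B := sz a + b a + P (sz a + b a) + 1)
        (by show sz a ≤ _; omega) (by omega) hs
      have h1 := ((hspec (enc a) w).2).1 hw
      rw [Cd.dec_enc] at h1
      exact (h a).2 ⟨w, h1.2, h1.1⟩
    · intro hpa
      obtain ⟨w, l, r⟩ := (h a).1 hpa
      have h1 : (c.eval (init2 (enc a) w) acc)[0]? = some true := by
        refine ((hspec (enc a) w).2).2 ?_
        rw [Cd.dec_enc]
        exact ⟨r, l⟩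
      refine karpF_of_accept hok hbd hk hacc ?_ h1
      have h2 := (hspec (enc a) w).1
      have h3 : T ((enc a : Str).length + w.length) ≤ T (sz a + b a) := hTm (by
        show sz a + w.length ≤ _
        omega)
      have h4 := hTP (sz a + b a)
      have h5 : max (enc a : Str).length w.length ≤ sz a + b a := by
        apply max_le
        · show sz a ≤ _
          omega
        · omega
      omega

end Pool.Agent.Helper33.TQ
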