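import Pool.Agent.Helper33.TQ.NPa

/-! Module TQ OffN: comparison with the official definition of NP. -/

namespace Pool.Agent.Helper33.TQ

open Function Turing Computability Pool.Agent.Helper72

/-- a function on words coded as pairs, computed by a machine, extends to a polynomial time
word function -/
private theorem offN_fwd {h : Str × Str → Str}
    (H : Nonempty (TM2ComputableInPolyTime pairCode (id : List Bool → List Bool) h)) :
    PTime (fun w => h (unp w)) := by
  have hN : PTime (fun w => pairCode ((unp w).1, (unp w).2)) :=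
    PTime.pair (PTime.unp1 PTime.id) (PTime.unp2 PTime.id)
  have hN' := (ptime_iff_CF _).1 hN
  refine (ptime_iff_CF _).2 fun base => ?_
  obtain ⟨c1, T1, hT1, hm1, hok1, hwr1, h1⟩ := hN' base
  obtain ⟨c2, T2, hT2, hm2, hok2, hwr2, h2⟩ :=
    Pool.Agent.Helper9.TM2Sim.exists_funCmd pairCode h H base
  refine ⟨.seq c1 c2, fun n => T1 n + T2 (2 * n + 2 + n), ?_, ?_, ?_, ?_, ?_⟩
  · exact hT1.add (hT2.comp ((((PB.const 2).mul PB.id).add (PB.const 2)).add PB.id))
  · intro a b hab
    exact Nat.add_le_add (hm1 hab) (hm2 (by omega))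
  · simp [Cmd.ok, hok1, hok2]
  · intro x hx
    simp [Cmd.wr, hwr1 x hx, hwr2 x hx]
  · intro a s hs ha
    obtain ⟨h3, h4⟩ := h1 a s hs ha
    have h5 := h2 (unp a) (update s base (pairCode ((unp a).1, (unp a).2)))
      (fun r hr => by rw [update_of_ne (by omega)]; exact hs r hr) (by simp)
    have hlen : (pairCode (unp a)).length ≤ 2 * a.length + 2 + a.length := by
      have h6 := length_pairCode (unp a).1 (unp a).2
      have h7 := unp_length a
      have h8 : pairCode (unp a) = pairCode ((unp a).1, (unp a).2) := rfl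
      rw [h8, h6]
      omega
    refine ⟨?_, ?_⟩
    · rw [Cmd.LB_seq]
      refine ⟨h3.mono (Nat.le_add_right _ _), ?_⟩
      rw [h4]
      exact h5.1.mono ((hm2 hlen).trans (Nat.le_add_left _ _))
    · rw [Cmd.eval_seq, h4, h5.2]
      simp

/-- a decision word function gives an official machine on pairs -/
private theorem offN_bwd {g : Str → Str} (hg : PTime g) (χ : Str × Str → Bool)
    (h : ∀ a, g (pairCode a) = if χ a then [true] else []) :
    Nonempty (TM2ComputableInPolyTime pairCode encodeBool χ) := by
  obtain ⟨c, T, hT, hm, hok, -, h1⟩ := (ptime_iff_CF _).1 hg 0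
  refine Pool.Agent.Helper4.Glue.polyTime_of_cmd pairCode χ c hok 0 T hT fun a => ?_
  obtain ⟨h2, h3⟩ := h1 (pairCode a) (initSt 0 (pairCode a))
    (fun r hr => by simp [initSt, Nat.pos_iff_ne_zero.1 hr]) (by simp [initSt])
  refine ⟨h2, ?_⟩
  rw [h3, update_self, h]

/-- `→`: use `Pool.Agent.Helper9.TM2Sim.exists_funCmd` with `ea = pairCode` and
`h = encodeBool ∘ R` to see that `w ↦ encodeBool (R (unp w))` is `CF` (first normalise `w` to
`pairCode (unp w)`). `←`: `Pool.Agent.Helper4.Glue.polyTime_of_cmd` with `ea = pairCode`. -/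
theorem inNP_iff (L : Set Str) : InNP L ↔ NPP (fun w : Str => w ∈ L) := by
  classical
  constructor
  · rintro ⟨q, R, ⟨M⟩, hR⟩
    refine ⟨fun z w => R (z, w) = true, fun z => q.eval z.length, ?_, ?_, fun z => hR z⟩
    · refine PTF.prop_iff.2 ⟨fun w => encodeBool (R (unp w)),
        offN_fwd (h := fun p => encodeBool (R p)) ⟨{ toTM2ComputableAux := M.toTM2ComputableAux
                                                     time := M.time
                                                     outputsFun := M.outputsFun }⟩, fun a => ?_⟩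
      have h1 : unp (enc a) = a := unp_pairCode a
      show (encodeBool (R (unp (enc a)))).head? = some true ↔ R (a.1, a.2) = true
      rw [h1]
      show (encodeBool (R a)).head? = some true ↔ R a = true
      cases R a <;> simp [encodeBool]
    · exact PTF.comp (f := fun n : ℕ => q.eval n) (PTF.polynomial q)
        (PTF.sz_fun (f := fun z : Str => z) PTF.id)
  · rintro ⟨R, b, hR, hb, h⟩
    obtain ⟨q, hq1, hq2, hq3⟩ := PTF.sz_le hb
    obtain ⟨A, D, hAD⟩ := hq1
    have hP : PTF (fun x : Str × Str => x.2.length ≤ b x.1 ∧ R x.1 x.2) := by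
      refine PTF.and (PTF.le (PTF.sz_fun (f := fun x : Str × Str => x.2) (PTF.snd PTF.id))
        (PTF.comp hb (PTF.fst PTF.id))) hR
    obtain ⟨g, hg, hgs⟩ := PTF.prop_iff.1 hP
    have h2 := PTime.ite hg (PTime.const [true]) (PTime.const [])
    refine ⟨Polynomial.C A * (Polynomial.X + 1) ^ D,
      fun x => decide (x.2.length ≤ b x.1 ∧ R x.1 x.2), offN_bwd h2 _ fun a => ?_, fun z => ?_⟩
    · have h3 := hgs a
      have h4 : (enc a : Str) = pairCode a := rfl
      rw [h4] at h3
      by_cases h5 : a.2.length ≤ b a.1 ∧ R a.1 a.2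
      · rw [if_pos (h3.2 h5)]
        simp [h5]
      · rw [if_neg (fun h6 => h5 (h3.1 h6))]
        rw [if_neg]
        simpa using h5
    · have hz : z ∈ L ↔ ∃ w, List.length w ≤ b z ∧ R z w := h z
      rw [hz]
      constructor
      · rintro ⟨w, hw1, hw2⟩
        refine ⟨w, ?_, by simp [hw1, hw2]⟩
        have h3 := hq3 z
        rw [sz_nat] at h3
        have h4 := hAD (sz z)
        simp only [sz_str] at h3 h4
        simp
        omega
      · rintro ⟨w, -, hw⟩
        exact ⟨w, (of_decide_eq_true hw).1, (of_decide_eq_true hw).2⟩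

end Pool.Agent.Helper33.TQ
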