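import Pool.Agent.Helper33.TQ.OffP
import Pool.Agent.Helper33.TQ.OffN
import Pool.Agent.Helper4.SatNP

/-! `SAT` is an NP predicate. -/

namespace Pool.Agent.Helper33.TQ

open Function Turing Computability Pool.Agent.Helper72

@[fun_prop] theorem NPP.sat : NPP (fun w : Str => w ∈ SAT) :=
  (inNP_iff SAT).1 Pool.Agent.Helper4.SatNP.sat_inNP

end Pool.Agent.Helper33.TQ
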