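import Pool.Agent.Helper33.TQ.NPb
import Pool.Agent.Helper33.TQ.Off
import Pool.Agent.Helper33.TQ.KarpC

/-! The whole calculus: polynomial time functions, NP predicates, Karp reductions. -/
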