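import Pool.Agent.Helper33.TQ.AMb
import Pool.Agent.Helper33.TQ.AMc
import Pool.Agent.Helper33.TQ.Calc

/-! Module TQ AMd: Arthur-Merlin games in amplified form with shifts. -/

namespace Pool.Agent.Helper33.TQ

open Function Pool.Agent.Helper72

/-- amplified Arthur-Merlin game for `L` -/
structure AMD (L : Set Str) where
  r : ℕ → ℕ
  k : ℕ → ℕ
  Sat : Str → Str → Prop
  hr : PTF r
  hk : PTF k
  hr0 : ∀ n, 0 < r n
  hSat : NPP (fun x : Str × Str => Sat x.1 x.2)
  yes : ∀ x ∈ L, ∃ U : List Str, U.length = k x.length ∧ (∀ u ∈ U, u.length = r x.length) ∧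
    ∀ ρ : Str, ρ.length = r x.length → ∃ u ∈ U, Sat x (xorS ρ u)
  no : ∀ x ∉ L, ∀ U : List Str, U.length = k x.length → (∀ u ∈ U, u.length = r x.length) →
    2 ^ r x.length ≤ 2 * Set.ncard {ρ : Str | ρ.length = r x.length ∧
      ∀ u ∈ U, ¬ Sat x (xorS ρ u)}

/-- one round: Merlin can convince Arthur who has tossed the coins `c.take p` -/
def sat0 (V : Set Str) (p q : Polynomial ℕ) (x c : Str) : Prop :=
  ∃ w : Str, w.length ≤ q.eval x.length ∧
    pairCode (x, pairCode (c.take (p.eval x.length), w)) ∈ V

theorem npp_sat0 {V : Set Str} (hV : InP V) (p q : Polynomial ℕ) :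
    NPP (fun x : Str × Str => sat0 V p q x.1 x.2) := by
  have h := (inP_iff V).1 hV
  have hp := PTF.polynomial p
  have hq := PTF.polynomial q
  refine NPP.ex (p := fun (x : Str × Str) (w : Str) => w.length ≤ q.eval x.1.length ∧
    pairCode (x.1, pairCode (x.2.take (p.eval x.1.length), w)) ∈ V)
    (g := fun x => q.eval x.1.length) ?_ (by fun_prop) (fun a b h => h.1)
  have h1 : PTF (fun x : (Str × Str) × Str =>
      (enc (x.1.1, (x.1.2.take (p.eval x.1.1.length), x.2)) : Str)) := by
    fun_prop
  have h2 : PTF (fun x : (Str × Str) × Str =>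
      (enc (x.1.1, (x.1.2.take (p.eval x.1.1.length), x.2)) : Str) ∈ V) :=
    PTF.comp h h1
  have h3 : PTF (fun x : (Str × Str) × Str => x.2.length ≤ q.eval x.1.1.length) := by
    fun_prop
  exact NPP.of_PTF (PTF.and h3 h2)

private theorem AMd_count (b : List Bool) :
    b.count true = (List.range b.length).countP (fun i => decide (b[i]?.getD false = true)) := by
  induction b with
  | nil => simp
  | cons a b ih =>
    rw [List.length_cons, List.range_succ_eq_map, List.countP_cons, List.countP_map,
      List.count_cons, ih]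
    congr 1

/-- the number of chunks (of length `l`) for which one round succeeds is at least `32 s`:
Merlin names them by a word of length `64 s` with at least `32 s` letters `true` -/
theorem npp_majority {S : Str → Str → Prop} (hS : NPP (fun x : Str × Str => S x.1 x.2))
    {l s : ℕ → ℕ} (hl : PTF l) (hs : PTF s) :
    NPP (fun x : Str × Str => 32 * s x.1.length ≤ (open scoped Classical in
      (List.range (64 * s x.1.length)).countP
        fun i => decide (S x.1 (chunk (l x.1.length) i x.2)))) := by
  classical
  have h1 : NPP (fun x : Str × Str => ∃ b : Str, b.length ≤ 64 * s x.1.length ∧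
      32 * s x.1.length ≤ b.count true ∧ ∀ i ∈ List.range (64 * s x.1.length),
        b[i]?.getD false = true → S x.1 (chunk (l x.1.length) i x.2)) := by
    refine NPP.ex (p := fun (x : Str × Str) (b : Str) => b.length ≤ 64 * s x.1.length ∧
      32 * s x.1.length ≤ b.count true ∧ ∀ i ∈ List.range (64 * s x.1.length),
        b[i]?.getD false = true → S x.1 (chunk (l x.1.length) i x.2))
      (g := fun x => 64 * s x.1.length) ?_ (by fun_prop) (fun a b h => h.1)
    refine NPP.and (NPP.of_PTF (by fun_prop)) (NPP.and (NPP.of_PTF (by fun_prop)) ?_)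
    refine NPP.ball (l := fun x : (Str × Str) × Str => List.range (64 * s x.1.1.length))
      (p := fun (x : (Str × Str) × Str) (i : ℕ) => x.2[i]?.getD false = true →
        S x.1.1 (chunk (l x.1.1.length) i x.1.2)) (by fun_prop) ?_
    refine NPP.imp (by fun_prop) ?_
    unfold chunk
    exact NPP.comp hS (f := fun x : ((Str × Str) × Str) × ℕ =>
      (x.1.1.1, (x.1.1.2.drop (x.2 * l x.1.1.1.length)).take (l x.1.1.1.length)))
      (by fun_prop)
  refine NPP.congr h1 fun x => ?_
  constructor
  · rintro ⟨b, hb, hc, h⟩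
    refine hc.trans ?_
    rw [AMd_count]
    have h2 : (List.range b.length).countP (fun i => decide (b[i]?.getD false = true)) ≤
        (List.range b.length).countP
          (fun i => decide (S x.1 (chunk (l x.1.length) i x.2))) := by
      refine List.countP_mono_left fun i hi hi' => ?_
      rw [decide_eq_true_eq] at hi' ⊢
      exact h i (List.mem_range.2 ((List.mem_range.1 hi).trans_le hb)) hi'
    refine h2.trans ((List.range_sublist.2 hb).countP_le)
  · intro h
    refine ⟨(List.range (64 * s x.1.length)).map
      (fun i => decide (S x.1 (chunk (l x.1.length) i x.2))), ?_, ?_, ?_⟩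
    · rw [List.length_map, List.length_range]
    · refine h.trans (le_of_eq ?_)
      rw [List.count_eq_countP, List.countP_map]
      refine List.countP_congr fun i _ => ?_
      simp
    · intro i hi hi'
      rw [List.getElem?_map, List.getElem?_range (List.mem_range.1 hi)] at hi'
      simpa using hi'

open scoped Classical in
/-- density of `sat0` among words of length `p + 1` versus `goodCoins` -/
theorem card_sat0 (V : Set Str) (p q : Polynomial ℕ) (x : Str) :
    ((wds (p.eval x.length + 1)).filter fun c => sat0 V p q x c).card =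
      2 * (goodCoins V x (p.eval x.length) (q.eval x.length)).ncard := by
  have h1 : (goodCoins V x (p.eval x.length) (q.eval x.length)).ncard =
      ((wds (p.eval x.length)).filter fun c => sat0 V p q x c).card := by
    rw [← ncard_eq_card_wds]
    rw [← Set.ncard_image_of_injective _ (List.ofFn_injective (n := p.eval x.length))]
    congr 1
    ext c
    simp only [Set.mem_image, goodCoins, Set.mem_ofPred_eq, sat0]
    constructor
    · rintro ⟨r, ⟨w, hw, h⟩, rfl⟩
      refine ⟨List.length_ofFn, w, hw, ?_⟩
      rw [List.take_of_length_le (by rw [List.length_ofFn])]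
      exact h
    · rintro ⟨hc, w, hw, h⟩
      rw [List.take_of_length_le (by rw [hc])] at h
      have h3 : (List.ofFn fun i : Fin (p.eval x.length) => c.get (i.cast hc.symm)) = c := by
        apply List.ext_getElem
        · rw [List.length_ofFn, hc]
        · intro i h1 h2
          rw [List.getElem_ofFn]
          rfl
      refine ⟨fun i => c.get (i.cast hc.symm), ⟨w, hw, ?_⟩, h3⟩
      rw [h3]
      exact h
  rw [h1, Finset.card_filter, sum_wds_add]
  have h2 : ∀ a ∈ wds (p.eval x.length), ∑ y ∈ wds 1, (if sat0 V p q x (a ++ y) then 1 else 0) =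
      2 * (if sat0 V p q x a then 1 else 0) := by
    intro a ha
    have ha' := mem_wds.1 ha
    have h3 : ∀ y : Str, sat0 V p q x (a ++ y) ↔ sat0 V p q x a := by
      intro y
      unfold sat0
      rw [List.take_append_of_le_length (by rw [ha']), List.take_of_length_le (by rw [ha'])]
    simp only [h3]
    rw [Finset.sum_const, card_wds, pow_one, smul_eq_mul]
  rw [Finset.sum_congr rfl h2, ← Finset.mul_sum, Finset.card_filter]

/-- `l n = p n + 1`, `s n = l n + 1`, `r n = 64 s l`, `k n = 13 s`; `32 ^ s = 2 ^ (5 s)`,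
`64 s l < 5 s * 13 s`, `2 * 13 s ≤ 2 ^ (5 s)` -/
theorem exists_AMD {L : Set Str} (hL : InAM L) : Nonempty (AMD L) := by
  classical
  obtain ⟨p, q, V, hV, hG⟩ := hL
  have hp := PTF.polynomial p
  have hl : PTF (fun n : ℕ => p.eval n + 1) := by fun_prop
  have hs : PTF (fun n : ℕ => p.eval n + 1 + 1) := by fun_prop
  have hnum : ∀ s : ℕ, 2 ≤ s → 2 * (13 * s) ≤ 2 ^ (5 * s) := by
    intro s hs
    have h1 : s ≤ 2 ^ (s - 1) := by
      have := Nat.lt_two_pow_self (n := s - 1)
      omega
    calc 2 * (13 * s) ≤ 32 * s := by omega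
      _ ≤ 32 * 2 ^ (s - 1) := Nat.mul_le_mul_left _ h1
      _ ≤ 32 * 32 ^ (s - 1) := Nat.mul_le_mul_left _ (Nat.pow_le_pow_left (by norm_num) _)
      _ = 32 ^ s := by
        rw [← pow_succ']
        congr 1
        omega
      _ = 2 ^ (5 * s) := by rw [pow_mul]; norm_num
  have h32 : ∀ s : ℕ, (32 : ℕ) ^ s = 2 ^ (5 * s) := by
    intro s
    rw [pow_mul]
    norm_num
  refine ⟨{
    r := fun n => 64 * (p.eval n + 1 + 1) * (p.eval n + 1)
    k := fun n => 13 * (p.eval n + 1 + 1)
    Sat := fun x ρ => 32 * (p.eval x.length + 1 + 1) ≤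
      (List.range (64 * (p.eval x.length + 1 + 1))).countP
        fun i => decide (sat0 V p q x (chunk (p.eval x.length + 1) i ρ))
    hr := by fun_prop
    hk := by fun_prop
    hr0 := fun n => by positivity
    hSat := npp_majority (npp_sat0 hV p q) hl hs
    yes := ?_
    no := ?_ }⟩
  · intro x hx
    have h1 := (hG x).1 hx
    have h2 := card_sat0 V p q x
    set l := p.eval x.length + 1 with hl'
    have h3 := Finset.card_filter_add_card_filter_not (s := wds l) (fun c => sat0 V p q x c)
    rw [card_wds] at h3
    obtain ⟨N, hN⟩ : ∃ N : Str → Prop, ∀ c, N c ↔ ¬ sat0 V p q x c := ⟨_, fun _ => Iff.rfl⟩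
    have h4 : 3 * ((wds l).filter N).card ≤ 2 ^ l := by
      have h5 : 2 ^ l = 2 * 2 ^ p.eval x.length := by rw [hl', pow_succ']
      have h6 : (wds l).filter N = (wds l).filter fun c => ¬ sat0 V p q x c :=
        Finset.filter_congr fun c _ => hN c
      rw [h6]
      omega
    have h5 := majority_words l (l + 1) N h4
    rw [h32] at h5
    obtain ⟨Bd, hBd⟩ : ∃ Bd : Str → Prop, ∀ ρ, Bd ρ ↔
      ¬ (32 * (l + 1) ≤ (List.range (64 * (l + 1))).countP
        fun i => decide (sat0 V p q x (chunk l i ρ))) := ⟨_, fun _ => Iff.rfl⟩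
    refine exists_shifts (R := 64 * (l + 1) * l) (s := 5 * (l + 1)) (K := 13 * (l + 1))
      Bd ?_ ?_ |>.imp fun U hU => ⟨hU.1, hU.2.1, fun ρ hρ => ?_⟩
    · refine le_trans (Nat.mul_le_mul_right _ (Finset.card_le_card ?_)) h5
      intro ρ hρ
      rw [Finset.mem_filter] at hρ ⊢
      refine ⟨hρ.1, ?_⟩
      have h6 := List.length_eq_countP_add_countP
        (fun i => decide (sat0 V p q x (chunk l i ρ))) (l := List.range (64 * (l + 1)))
      rw [List.length_range] at h6
      have h7 : (List.range (64 * (l + 1))).countP (fun i => decide (N (chunk l i ρ))) =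
          (List.range (64 * (l + 1))).countP
          (fun i => decide (¬ decide (sat0 V p q x (chunk l i ρ)) = true)) := by
        refine List.countP_congr fun i _ => ?_
        simp [hN]
      have h8 := (hBd ρ).1 hρ.2
      rw [h7]
      omega
    · nlinarith
    · obtain ⟨u, hu, h⟩ := hU.2.2 ρ hρ
      exact ⟨u, hu, not_not.1 fun h' => h ((hBd _).2 h')⟩
  · intro x hx U hU hU'
    have h1 := (hG x).2 hx
    have h2 := card_sat0 V p q x
    set l := p.eval x.length + 1 with hl'
    have h4 : 3 * ((wds l).filter fun c => sat0 V p q x c).card ≤ 2 ^ l := by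
      have h5 : 2 ^ l = 2 * 2 ^ p.eval x.length := by rw [hl', pow_succ']
      omega
    have h5 := majority_words l (l + 1) (fun c => sat0 V p q x c) h4
    rw [h32] at h5
    exact dense_of_shifts (R := 64 * (l + 1) * l) (s := 5 * (l + 1)) (K := 13 * (l + 1))
      (fun ρ => 32 * (l + 1) ≤ (List.range (64 * (l + 1))).countP
        fun i => decide (sat0 V p q x (chunk l i ρ))) (by convert h5) (hnum _ (by omega)) hU hU'

end Pool.Agent.Helper33.TQ
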