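import Pool.Agent.Helper33.TQ.Raw

/-! Module TQ CFbas. -/

namespace Pool.Agent.Helper33.TQ

open Function Pool.Agent.Helper72

theorem CF.id : CF (fun w => w) := fun base =>
  ⟨.nop, fun _ => 0, PB.const 0, monotone_const, rfl, fun _ _ => rfl, fun a s _ hs =>
    ⟨trivial, by rw [Cmd.eval_nop, ← hs, update_eq_self]⟩⟩

theorem CF.const (v : Str) : CF (fun _ => v) := fun base => by
  refine ⟨.seq (.clear base) (.pushL base v), fun n => n, PB.id, monotone_id, by simp [Cmd.ok],
    fun x hx => ?_, fun a s _ hs => ⟨⟨Cmd.LB_clear (by rw [hs]), Cmd.LB_pushL _ _ _ _⟩, ?_⟩⟩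
  · have h : (Cmd.pushL base v).wr x = false := Cmd.wr_pushL _ (by omega)
    have h2 : x ≠ base := by omega
    simp [Cmd.wr, Cmd.clear, h, h2]
  · rw [Cmd.eval_seq, Cmd.eval_clear, Cmd.eval_pushL]
    simp

theorem CF.cons (b : Bool) : CF (fun w => b :: w) := fun base =>
  ⟨.push base b, fun _ => 0, PB.const 0, monotone_const, rfl,
    fun x hx => by simp only [Cmd.wr, beq_eq_false_iff_ne]; omega,
    fun a s _ hs => ⟨trivial, by rw [Cmd.eval_push, hs]⟩⟩

theorem CF.tail : CF (fun w => w.tail) := fun base =>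
  ⟨.pop base, fun _ => 0, PB.const 0, monotone_const, rfl,
    fun x hx => by simp only [Cmd.wr, beq_eq_false_iff_ne]; omega,
    fun a s _ hs => ⟨trivial, by rw [Cmd.eval_pop, hs]⟩⟩

/-- values are polynomially long; use `Pool.Agent.Helper9.TM2Sim.eval_length` and
`Cmd.time_le_tb` -/
theorem CF.len {h : Str → Str} (hh : CF h) :
    ∃ q : ℕ → ℕ, PB q ∧ Monotone q ∧ ∀ w, (h w).length ≤ q w.length := by
  obtain ⟨c, T, hT, hTm, hok, -, hc⟩ := hh 0
  refine ⟨fun n => n + c.tb (T n), PB.id.add ((PB.tb c).comp hT), fun a b hab => ?_, fun w => ?_⟩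
  · have := c.tb_mono (hTm hab)
    simp only
    omega
  · have hs : (update (fun _ => []) 0 w : St) 0 = w := by simp
    obtain ⟨h1, h2⟩ := hc w (update (fun _ => []) 0 w)
      (fun r hr => update_of_ne (by omega) _ _) hs
    have h3 := Pool.Agent.Helper9.TM2Sim.eval_length hok (update (fun _ => []) 0 w) 0
    have h4 := Cmd.time_le_tb h1
    rw [h2, hs, update_self] at h3
    simp only
    omega

theorem CF.comp {f g : Str → Str} (hf : CF f) (hg : CF g) : CF (fun w => f (g w)) := by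
  intro base
  obtain ⟨cf, Tf, hTf, hTfm, hfok, hfwr, hcf⟩ := hf base
  obtain ⟨cg, Tg, hTg, hTgm, hgok, hgwr, hcg⟩ := hg base
  obtain ⟨q, hq, hqm, hql⟩ := hg.len
  refine ⟨.seq cg cf, fun n => Tg n + Tf (q n), hTg.add (hTf.comp hq), fun a b hab => ?_,
    by simp [Cmd.ok, hfok, hgok], fun x hx => by simp [Cmd.wr, hfwr x hx, hgwr x hx],
    fun a s hs hsa => ?_⟩
  · exact add_le_add (hTgm hab) (hTfm (hqm hab))
  · obtain ⟨h1, h2⟩ := hcg a s hs hsa
    obtain ⟨h3, h4⟩ := hcf (g a) (cg.eval s)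
      (fun r hr => by rw [h2, update_of_ne (by omega)]; exact hs r hr) (by rw [h2, update_self])
    refine ⟨⟨h1.mono (Nat.le_add_right _ _), h3.mono ?_⟩, ?_⟩
    · exact (hTfm (hql a)).trans (Nat.le_add_left _ _)
    · rw [Cmd.eval_seq, h4, h2, update_idem]

end Pool.Agent.Helper33.TQ
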