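import Pool.Agent.Helper33.TQ.Raw

/-! Module TQ CFeq. -/

namespace Pool.Agent.Helper33.TQ

open Function Turing Computability Pool.Agent.Helper72

/-- a program started with its input in register 0 and leaving its output in register `o` gives
a polynomial time word function; use `Pool.Agent.Helper4.Glue.outputs_aux`
(see the proof of `polyTime_of_cmd` there) -/
theorem PTime.of_cmd {f : Str → Str} (c : Cmd) (hok : c.ok = true) (o : ℕ) {T : ℕ → ℕ}
    (hT : PB T) (h : ∀ y, c.LB (T y.length) (initSt 0 y) ∧ c.eval (initSt 0 y) o = f y) :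
    PTime f := by
  obtain ⟨M, g, hg, hmono, -, hM⟩ := Pool.Agent.Helper4.Glue.outputs_aux c hok o
  obtain ⟨a, d, had⟩ := hg.comp (PB.id.add hT)
  refine ⟨{ toTM2ComputableAux := M
            time := Polynomial.C a * (Polynomial.X + 1) ^ d
            outputsFun := fun x => ?_ }⟩
  obtain ⟨h1, h2⟩ := h x
  have h5 := hM x _ h1
  rw [h2] at h5
  refine Classical.choice ?_
  obtain ⟨h6⟩ := h5
  refine ⟨⟨h6.toEvalsTo, h6.steps_le_m.trans ?_⟩⟩
  have := had x.length
  simp only [Polynomial.eval_mul, Polynomial.eval_C, Polynomial.eval_pow, Polynomial.eval_add,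
    Polynomial.eval_X, Polynomial.eval_one]
  exact this

/-- Turing machines and programs compute the same polynomial time word functions.
`→` is `Pool.Agent.Helper9.TM2Sim.exists_funCmd` with `α = Str`, `ea = id`.
`←`: take `base = 0`, `o = 0` in `PTime.of_cmd`. -/
theorem ptime_iff_CF (h : Str → Str) : PTime h ↔ CF h := by
  constructor
  · intro H base
    obtain ⟨c, T, h1, h2, h3, h4, h5⟩ := Pool.Agent.Helper9.TM2Sim.exists_funCmd id h H base
    exact ⟨c, T, h1, h2, h3, h4, fun a s hs hb => h5 a s hs hb⟩
  · intro H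
    obtain ⟨c, T, h1, h2, h3, h4, h5⟩ := H 0
    refine PTime.of_cmd c h3 0 h1 fun y => ?_
    have h6 := h5 y (initSt 0 y) (fun r hr => by
      unfold initSt
      rw [if_neg (by omega)]) (by unfold initSt; rw [if_pos rfl])
    refine ⟨h6.1, ?_⟩
    rw [h6.2, update_self]

end Pool.Agent.Helper33.TQ
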