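import Pool.Agent.Helper33.TQ.CFbas

/-! Module TQ CFite. -/

namespace Pool.Agent.Helper33.TQ

open Function Pool.Agent.Helper72

/-- compute the test in a fresh register, branch on its first letter -/
theorem CF.ite3 {c f0 f1 f2 h : Str → Str} (hc : CF c) (h0 : CF f0) (h1 : CF f1) (h2 : CF f2)
    (e0 : ∀ w, c w = [] → h w = f0 w) (e1 : ∀ w l, c w = false :: l → h w = f1 w)
    (e2 : ∀ w l, c w = true :: l → h w = f2 w) : CF h := by
  intro base
  obtain ⟨cc, Tc, hTc, hTcm, hcok, hcwr, hcc⟩ := hc (base + 1)
  obtain ⟨c0, T0, hT0, hT0m, h0ok, h0wr, hc0⟩ := h0 base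
  obtain ⟨c1, T1, hT1, hT1m, h1ok, h1wr, hc1⟩ := h1 base
  obtain ⟨c2, T2, hT2, hT2m, h2ok, h2wr, hc2⟩ := h2 base
  obtain ⟨q, hq, hqm, hql⟩ := hc.len
  refine ⟨.seq (.copy base (base + 1) (base + 2)) (.seq cc
    (.ite (base + 1) (.seq (.clear (base + 1)) c0) (.seq (.clear (base + 1)) c1)
      (.seq (.clear (base + 1)) c2))), fun n => n + Tc n + q n + T0 n + T1 n + T2 n,
    ((((PB.id.add hTc).add hq).add hT0).add hT1).add hT2, ?_, ?_, ?_, ?_⟩
  · intro a b hab
    have k1 := hTcm hab
    have k2 := hqm hab
    have k3 := hT0m hab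
    have k4 := hT1m hab
    have k5 := hT2m hab
    simp only
    omega
  · simp [Cmd.ok, Cmd.ok_copy, hcok, h0ok, h1ok, h2ok]
  · intro x hx
    have k1 := hcwr x (by omega)
    have k3 := h0wr x hx
    have k4 := h1wr x hx
    have k5 := h2wr x hx
    have k6 : x ≠ base := by omega
    have k7 : x ≠ base + 1 := by omega
    have k8 : x ≠ base + 2 := by omega
    simp [Cmd.wr, Cmd.copy, Cmd.mv, Cmd.mv2, Cmd.clear, k1, k3, k4, k5, k6, k7, k8]
  · intro a s hs hsa
    set T := (fun n => n + Tc n + q n + T0 n + T1 n + T2 n) a.length with hT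
    simp only at hT
    have z : ∀ k, base < k → s k = [] := hs
    have i1 : (Cmd.copy base (base + 1) (base + 2)).eval s = update s (base + 1) a := by
      rw [Cmd.eval_copy (by omega) (by omega) (by omega) (z _ (by omega)),
        z (base + 1) (by omega), hsa, List.append_nil]
    have l1 : (Cmd.copy base (base + 1) (base + 2)).LB T s :=
      Cmd.LB_copy (by omega) (by omega) (by omega) (z _ (by omega)) (by rw [hsa]; omega)
    obtain ⟨l2, i2⟩ := hcc a (update s (base + 1) a)
      (fun r hr => by rw [update_of_ne (by omega)]; exact z r (by omega)) (update_self _ _ _)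
    rw [update_idem] at i2
    set s2 := update s (base + 1) (c a) with hs2
    have s21 : s2 (base + 1) = c a := by rw [hs2, update_self]
    have i3 : (Cmd.clear (base + 1)).eval s2 = s := by
      rw [Cmd.eval_clear, hs2, update_idem]
      have := update_eq_self (base + 1) s
      rwa [z (base + 1) (by omega)] at this
    have l3 : (Cmd.clear (base + 1)).LB T s2 := Cmd.LB_clear (by
      rw [s21]
      have := hql a
      omega)
    obtain ⟨m0, n0⟩ := hc0 a s hs hsa
    obtain ⟨m1, n1⟩ := hc1 a s hs hsa
    obtain ⟨m2, n2⟩ := hc2 a s hs hsa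
    refine ⟨⟨l1, ?_⟩, ?_⟩
    · rw [i1]
      refine ⟨l2.mono (by omega), ?_⟩
      rw [i2]
      rcases hca : c a with _ | ⟨_ | _, l⟩
      · rw [hca] at s21
        simp only [Cmd.LB, s21]
        refine ⟨l3, ?_⟩
        rw [i3]
        exact m0.mono (by omega)
      · rw [hca] at s21
        simp only [Cmd.LB, s21]
        refine ⟨l3, ?_⟩
        rw [i3]
        exact m1.mono (by omega)
      · rw [hca] at s21
        simp only [Cmd.LB, s21]
        refine ⟨l3, ?_⟩
        rw [i3]
        exact m2.mono (by omega)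
    · rw [Cmd.eval_seq, i1, Cmd.eval_seq, i2]
      rcases hca : c a with _ | ⟨_ | _, l⟩
      · rw [hca] at s21
        simp only [Cmd.eval, s21]
        rw [i3, n0, e0 a hca]
      · rw [hca] at s21
        simp only [Cmd.eval, s21]
        rw [i3, n1, e1 a l hca]
      · rw [hca] at s21
        simp only [Cmd.eval, s21]
        rw [i3, n2, e2 a l hca]

/-- branch on the first letter of `c w` -/
theorem CF.ite {c f g : Str → Str} (hc : CF c) (hf : CF f) (hg : CF g) :
    CF (fun w => if (c w).head? = some true then f w else g w) :=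
  CF.ite3 hc hg hg hf (fun w h => by simp [h]) (fun w l h => by simp [h])
    (fun w l h => by simp [h])

/-- branch on emptiness -/
theorem CF.iteNil {c f g : Str → Str} (hc : CF c) (hf : CF f) (hg : CF g) :
    CF (fun w => if c w = [] then f w else g w) :=
  CF.ite3 hc hf hg hg (fun w h => by simp [h]) (fun w l h => by simp [h])
    (fun w l h => by simp [h])

end Pool.Agent.Helper33.TQ
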