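import Pool.Agent.Helper33.TQ.CFpair
import Pool.Agent.Helper72.Arith

/-! Module TQ CFiter. -/

namespace Pool.Agent.Helper33.TQ

open Function Pool.Agent.Helper72

/-- bounded iteration. The step function sees the environment `e w` and the current state `s`
as `pairCode (e w, s)`; the number of iterations is the length of `l w`; all intermediate states
are polynomially long in `w`. -/
theorem CF.iter {e l s₀ step : Str → Str} (he : CF e) (hl : CF l) (hs : CF s₀)
    (hstep : CF step) {B : ℕ → ℕ} (hB : PB B)
    (hb : ∀ w, ∀ i ≤ (l w).length,
      ((fun s => step (pairCode (e w, s)))^[i] (s₀ w)).length ≤ B w.length) :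
    CF (fun w => (fun s => step (pairCode (e w, s)))^[(l w).length] (s₀ w)) := by
  obtain ⟨A, D, hAD⟩ := hB
  intro base
  obtain ⟨cl, Tl, hTl, hTlm, hlok, hlwr, hcl⟩ := hl (base + 1)
  obtain ⟨ce, Te, hTe, hTem, heok, hewr, hce⟩ := he (base + 2)
  obtain ⟨cs, Ts, hTs, hTsm, hsok, hswr, hcs⟩ := hs (base + 3)
  obtain ⟨cp, Tp, hTp, hTpm, hpok, hpwr, hcp⟩ := hstep (base + 3)
  obtain ⟨ql, hql, hqlm, hqll⟩ := hl.len
  obtain ⟨qe, hqe, hqem, hqel⟩ := he.len
  set B' : ℕ → ℕ := fun n => A * (n + 1) ^ D with hB'
  have hB'm : Monotone B' := fun a b hab => by
    simp only [hB']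
    exact Nat.mul_le_mul_left _ (Nat.pow_le_pow_left (by omega) _)
  have hPB : PB B' := ⟨A, D, fun n => le_rfl⟩
  set body : Cmd := .seq (pairC (base + 2) (base + 3) (base + 4) (base + 5)) cp with hbody
  set c : Cmd := .seq (.copy base (base + 1) (base + 2)) (.seq cl
    (.seq (.copy base (base + 2) (base + 3)) (.seq ce
    (.seq (.copy base (base + 3) (base + 4)) (.seq cs
    (.seq (.loop (base + 1) body body)
    (.seq (.clear base) (.seq (.clear (base + 2))
    (.seq (.mv (base + 3) (base + 2)) (.mv (base + 2) base)))))))))) with hc
  set T : ℕ → ℕ := fun n => n + Tl n + Te n + Ts n + ql n + qe n + B' n +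
    Tp (2 * qe n + 2 + B' n) with hT
  have hbodyok : body.ok = true := by simp [hbody, Cmd.ok, pairC_ok, hpok]
  have hbodywr : ∀ x < base + 2, body.wr x = false := fun x hx => by
    have h3 : (pairC (base + 2) (base + 3) (base + 4) (base + 5)).wr x = false :=
      pairC_wr (by omega) (by omega) (by omega) (by omega)
    simp [hbody, Cmd.wr, h3, hpwr x (by omega)]
  refine ⟨c, T, ?_, ?_, ?_, ?_, ?_⟩
  · exact (((((((PB.id.add hTl).add hTe).add hTs).add hql).add hqe).add hPB).add
      (hTp.comp ((((PB.const 2).mul hqe).add (PB.const 2)).add hPB)))
  · intro a b hab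
    have h1 := hTlm hab
    have h2 := hTem hab
    have h3 := hTsm hab
    have h4 := hqlm hab
    have h5 := hqem hab
    have h6 := hB'm hab
    have h7 : Tp (2 * qe a + 2 + B' a) ≤ Tp (2 * qe b + 2 + B' b) := hTpm (by omega)
    simp only [hT]
    omega
  · simp [hc, Cmd.ok, Cmd.ok_copy, hlok, heok, hsok, hbodyok, hbodywr (base + 1) (by omega)]
  · intro x hx
    have h1 := hlwr x (by omega)
    have h2 := hewr x (by omega)
    have h2' := hswr x (by omega)
    have h3 := hbodywr x (by omega)
    have h4 : x ≠ base := by omega
    have h5 : x ≠ base + 1 := by omega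
    have h6 : x ≠ base + 2 := by omega
    have h7 : x ≠ base + 3 := by omega
    have h8 : x ≠ base + 4 := by omega
    simp [hc, Cmd.wr, Cmd.copy, Cmd.mv, Cmd.mv2, Cmd.clear, h1, h2, h2', h3, h4, h5, h6, h7, h8]
  · intro a s hs' hsa
    set it : ℕ → Str := fun i => (fun s => step (pairCode (e a, s)))^[i] (s₀ a) with hit
    have hitB : ∀ i ≤ (l a).length, (it i).length ≤ B' a.length := fun i hi =>
      (hb a i hi).trans (hAD _)
    have hit0 : it 0 = s₀ a := rfl
    have hitS : ∀ i, it (i + 1) = step (pairCode (e a, it i)) := fun i => by
      simp only [hit]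
      rw [Function.iterate_succ_apply']
    have hT1 : a.length ≤ T a.length := by simp only [hT]; omega
    have hT2 : Tl a.length ≤ T a.length := by simp only [hT]; omega
    have hT3 : Te a.length ≤ T a.length := by simp only [hT]; omega
    have hT4 : Ts a.length ≤ T a.length := by simp only [hT]; omega
    have hT5 : (l a).length ≤ T a.length := by
      have := hqll a
      simp only [hT]; omega
    have hT6 : (e a).length ≤ T a.length := by
      have := hqel a
      simp only [hT]; omega
    have hT7 : B' a.length ≤ T a.length := by simp only [hT]; omega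
    have hT8 : ∀ i ≤ (l a).length, Tp (pairCode (e a, it i)).length ≤ T a.length := by
      intro i hi
      have h1 := hqel a
      have h2 := hitB i hi
      have h3 : Tp (pairCode (e a, it i)).length ≤ Tp (2 * qe a.length + 2 + B' a.length) := by
        apply hTpm
        rw [length_pairCode]
        omega
      refine h3.trans ?_
      simp only [hT]
      omega
    have z : ∀ k, base < k → s k = [] := hs'
    -- length register
    have e1 : (Cmd.copy base (base + 1) (base + 2)).eval s = update s (base + 1) a := by
      rw [Cmd.eval_copy (by omega) (by omega) (by omega) (z _ (by omega)),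
        z (base + 1) (by omega), hsa, List.append_nil]
    have l1 : (Cmd.copy base (base + 1) (base + 2)).LB (T a.length) s :=
      Cmd.LB_copy (by omega) (by omega) (by omega) (z _ (by omega)) (by rw [hsa]; exact hT1)
    obtain ⟨l2, e2⟩ := hcl a (update s (base + 1) a)
      (fun r hr => by rw [update_of_ne (by omega)]; exact z r (by omega)) (update_self _ _ _)
    rw [update_idem] at e2
    set s2 := update s (base + 1) (l a) with hs2
    have s2b : s2 base = a := by rw [hs2, update_of_ne (by omega), hsa]
    have z2 : ∀ k, base + 1 < k → s2 k = [] := fun k hk => by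
      rw [hs2, update_of_ne (by omega)]; exact z k (by omega)
    -- environment register
    have e3 : (Cmd.copy base (base + 2) (base + 3)).eval s2 = update s2 (base + 2) a := by
      rw [Cmd.eval_copy (by omega) (by omega) (by omega) (z2 _ (by omega)),
        z2 (base + 2) (by omega), s2b, List.append_nil]
    have l3 : (Cmd.copy base (base + 2) (base + 3)).LB (T a.length) s2 :=
      Cmd.LB_copy (by omega) (by omega) (by omega) (z2 _ (by omega)) (by rw [s2b]; exact hT1)
    obtain ⟨l4, e4⟩ := hce a (update s2 (base + 2) a)
      (fun r hr => by rw [update_of_ne (by omega)]; exact z2 r (by omega)) (update_self _ _ _)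
    rw [update_idem] at e4
    set s4 := update s2 (base + 2) (e a) with hs4
    have s4b : s4 base = a := by rw [hs4, update_of_ne (by omega), s2b]
    have z4 : ∀ k, base + 2 < k → s4 k = [] := fun k hk => by
      rw [hs4, update_of_ne (by omega)]; exact z2 k (by omega)
    -- state register
    have e5 : (Cmd.copy base (base + 3) (base + 4)).eval s4 = update s4 (base + 3) a := by
      rw [Cmd.eval_copy (by omega) (by omega) (by omega) (z4 _ (by omega)),
        z4 (base + 3) (by omega), s4b, List.append_nil]
    have l5 : (Cmd.copy base (base + 3) (base + 4)).LB (T a.length) s4 :=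
      Cmd.LB_copy (by omega) (by omega) (by omega) (z4 _ (by omega)) (by rw [s4b]; exact hT1)
    obtain ⟨l6, e6⟩ := hcs a (update s4 (base + 3) a)
      (fun r hr => by rw [update_of_ne (by omega)]; exact z4 r (by omega)) (update_self _ _ _)
    rw [update_idem] at e6
    set s6 := update s4 (base + 3) (s₀ a) with hs6
    have s61 : s6 (base + 1) = l a := by
      rw [hs6, update_of_ne (by omega), hs4, update_of_ne (by omega), hs2, update_self]
    have s62 : s6 (base + 2) = e a := by rw [hs6, update_of_ne (by omega), hs4, update_self]
    have z6 : ∀ k, base + 3 < k → s6 k = [] := fun k hk => by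
      rw [hs6, update_of_ne (by omega)]; exact z4 k (by omega)
    -- the loop
    set g : ℕ → St := fun j => update (update s6 (base + 1) ((l a).drop j)) (base + 3) (it j)
      with hg
    obtain ⟨e7, l7⟩ := Cmd.loop_rule (L := T a.length) (r := base + 1) (c0 := body) (c1 := body)
      (s := s6) g (by
        simp only [hg, hit0, List.drop_zero]
        rw [← s61, update_eq_self]
        have : s6 (base + 3) = s₀ a := by rw [hs6, update_self]
        rw [← this, update_eq_self]) (by
        intro j b hj
        have hjl : j < (l a).length := by
          rw [s61] at hj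
          exact (List.getElem?_eq_some_iff.1 hj).1
        have hbb : (if b = true then body else body) = body := by cases b <;> rfl
        rw [hbb, s61]
        set t := update (g j) (base + 1) ((l a).drop (j + 1)) with ht
        have ht2 : t (base + 2) = e a := by
          rw [ht, update_of_ne (by omega)]
          simp only [hg]
          rw [update_of_ne (by omega), update_of_ne (by omega), s62]
        have ht3 : t (base + 3) = it j := by
          rw [ht, update_of_ne (by omega)]
          simp only [hg]
          rw [update_self]
        have zt : ∀ k, base + 3 < k → t k = [] := fun k hk => by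
          rw [ht, update_of_ne (by omega)]
          simp only [hg]
          rw [update_of_ne (by omega), update_of_ne (by omega)]
          exact z6 k hk
        obtain ⟨u1, u2⟩ := pairC_spec (a := base + 2) (b := base + 3) (t := base + 4)
          (u := base + 5) (L := T a.length) (by omega) (by omega) (by omega) (by omega)
          (by omega) (by omega) (s := t) (zt _ (by omega)) (zt _ (by omega))
          (by rw [ht2]; exact hT6)
        rw [ht2, ht3] at u1
        obtain ⟨u3, u4⟩ := hcp (pairCode (e a, it j)) (update t (base + 3) (pairCode (e a, it j)))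
          (fun r hr => by rw [update_of_ne (by omega)]; exact zt r hr) (update_self _ _ _)
        rw [update_idem, ← hitS] at u4
        refine ⟨?_, u2, ?_⟩
        · rw [hbody, Cmd.eval_seq, u1, u4, ht]
          simp only [hg]
          rw [update_comm (show base + 1 ≠ base + 3 by omega), update_idem, update_comm (show
            base + 3 ≠ base + 1 by omega), update_idem]
        · rw [u1]
          exact u3.mono (hT8 j (by omega))) (by rw [s61]; exact hT5)
    rw [s61] at e7
    set s7 := g (l a).length with hs7
    have hs7' : s7 = update (update s6 (base + 1) []) (base + 3) (it (l a).length) := by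
      rw [hs7]
      simp only [hg, List.drop_length]
    set s8 := update (update s7 base []) (base + 2) [] with hs8
    have s7b : s7 base = a := by
      rw [hs7', update_of_ne (by omega), update_of_ne (by omega), hs6, update_of_ne (by omega),
        s4b]
    have s72 : s7 (base + 2) = e a := by
      rw [hs7', update_of_ne (by omega), update_of_ne (by omega), s62]
    have s83 : s8 (base + 3) = it (l a).length := by
      rw [hs8, update_of_ne (by omega), update_of_ne (by omega), hs7', update_self]
    have s82 : s8 (base + 2) = [] := by rw [hs8, update_self]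
    have hlen : (it (l a).length).length ≤ T a.length := (hitB _ le_rfl).trans hT7
    have e9 : (Cmd.mv (base + 3) (base + 2)).eval s8 =
        update (update s8 (base + 3) []) (base + 2) (it (l a).length).reverse := by
      rw [Cmd.eval_mv (by omega), s83, s82, List.append_nil]
    constructor
    · refine ⟨l1, ?_⟩
      rw [e1]
      refine ⟨l2.mono hT2, ?_⟩
      rw [e2]
      refine ⟨l3, ?_⟩
      rw [e3]
      refine ⟨l4.mono hT3, ?_⟩
      rw [e4]
      refine ⟨l5, ?_⟩
      rw [e5]
      refine ⟨l6.mono hT4, ?_⟩
      rw [e6]
      refine ⟨l7, ?_⟩
      rw [e7]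
      refine ⟨Cmd.LB_clear ?_, ?_⟩
      · rw [s7b]; exact hT1
      rw [Cmd.eval_clear]
      refine ⟨Cmd.LB_clear ?_, ?_⟩
      · rw [update_of_ne (by omega), s72]
        exact hT6
      rw [Cmd.eval_clear]
      refine ⟨Cmd.LB_mv (by omega) ?_, ?_⟩
      · rw [← hs8, s83]
        exact hlen
      rw [← hs8, e9]
      refine Cmd.LB_mv (by omega) ?_
      rw [update_self, List.length_reverse]
      exact hlen
    · rw [hc, Cmd.eval_seq, e1, Cmd.eval_seq, e2, Cmd.eval_seq, e3, Cmd.eval_seq, e4,
        Cmd.eval_seq, e5, Cmd.eval_seq, e6, Cmd.eval_seq, e7, Cmd.eval_seq, Cmd.eval_clear,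
        Cmd.eval_seq, Cmd.eval_clear, ← hs8, Cmd.eval_seq, e9, Cmd.eval_mv (by omega),
        update_self, List.reverse_reverse]
      have s8b : s8 base = [] := by rw [hs8, update_of_ne (by omega), update_self]
      rw [update_of_ne (show base ≠ base + 2 by omega),
        update_of_ne (show base ≠ base + 3 by omega), s8b, List.append_nil]
      funext x
      by_cases h1 : x = base
      · subst h1
        rw [update_self, update_self]
      · rw [update_of_ne h1, update_of_ne h1]
        by_cases h2 : x = base + 2
        · subst h2
          rw [update_self]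
          exact (z _ (by omega)).symm
        · rw [update_of_ne h2, update_of_ne h2]
          by_cases h3 : x = base + 3
          · subst h3
            rw [update_self]
            exact (z _ (by omega)).symm
          · rw [update_of_ne h3, hs8, update_of_ne h2, update_of_ne h1, hs7', update_of_ne h3]
            by_cases h4 : x = base + 1
            · subst h4
              rw [update_self]
              exact (z _ (by omega)).symm
            · rw [update_of_ne h4, hs6, update_of_ne h3, hs4, update_of_ne h2, hs2,
                update_of_ne h4]

end Pool.Agent.Helper33.TQ
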