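import Pool.Agent.Helper33.TQ.CFbas

/-! Module TQ CFpair. -/

namespace Pool.Agent.Helper33.TQ

open Function Pool.Agent.Helper72

/-- push the content of `r`, reversed, with every letter doubled, onto `b` -/
def dblC (r b : ℕ) : Cmd :=
  .loop r (.seq (.push b false) (.push b false)) (.seq (.push b true) (.push b true))

theorem dblC_ok {r b : ℕ} (h : r ≠ b) : (dblC r b).ok = true := by
  simp [dblC, Cmd.ok, Cmd.wr, h]

theorem dblC_wr {r b x : ℕ} (h1 : x ≠ r) (h2 : x ≠ b) : (dblC r b).wr x = false := by
  simp [dblC, Cmd.wr, h1, h2]

theorem dblC_loop {r b : ℕ} (hrb : r ≠ b) (p : Bool → St → Prop) (hp : ∀ b s, p b s) :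
    ∀ (l : Str) (s : St), s r = l →
    loopEval (fun x => if x then Cmd.eval (.seq (.push b true) (.push b true))
        else Cmd.eval (.seq (.push b false) (.push b false))) r l s
      = update (update s r []) b (l.reverse.flatMap (fun x => [x, x]) ++ s b) ∧
    loopLB (fun x => if x then Cmd.eval (.seq (.push b true) (.push b true))
        else Cmd.eval (.seq (.push b false) (.push b false))) p r l s
  | [], s, h => by
    constructor
    · rw [loopEval]
      simp only [List.reverse_nil, List.flatMap_nil, List.nil_append]
      rw [← h, update_eq_self, update_eq_self]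
    · trivial
  | x :: l, s, h => by
    have hb : (if x = true then Cmd.eval (.seq (.push b true) (.push b true))
        else Cmd.eval (.seq (.push b false) (.push b false)))
      (update s r l) = update (update s r l) b (x :: x :: s b) := by
      cases x <;> simp [hrb.symm]
    obtain ⟨h1, h2⟩ := dblC_loop hrb p hp l (update (update s r l) b (x :: x :: s b))
      (by simp [hrb])
    constructor
    · rw [loopEval, hb, h1]
      funext y
      by_cases h1 : y = b
      · subst h1; simp
      · by_cases h2 : y = r
        · subst h2; simp [hrb]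
        · simp [h1, h2]
    · refine ⟨hp _ _, ?_⟩
      show loopLB _ _ _ _ ((if x = true then Cmd.eval (.seq (.push b true) (.push b true))
        else Cmd.eval (.seq (.push b false) (.push b false))) (update s r l))
      rw [hb]; exact h2

theorem dblC_eval {r b : ℕ} (hrb : r ≠ b) (s : St) : (dblC r b).eval s =
    update (update s r []) b ((s r).reverse.flatMap (fun x => [x, x]) ++ s b) :=
  (dblC_loop hrb (fun _ _ => True) (fun _ _ => trivial) _ s rfl).1

theorem dblC_LB {r b L : ℕ} (hrb : r ≠ b) {s : St} (h : (s r).length ≤ L) :
    (dblC r b).LB L s :=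
  ⟨h, (dblC_loop hrb _ (fun b s => by cases b <;> exact ⟨trivial, trivial⟩) _ s rfl).2⟩

/-- replace the content `y` of `b` by `pairCode (x, y)` where `x` is the content of `a`, using
the two empty registers `t` and `u` -/
def pairC (a b t u : ℕ) : Cmd :=
  .seq (.push b true) (.seq (.push b false) (.seq (.copyR a t u) (dblC t b)))

theorem pairC_ok {a b t u : ℕ} (h1 : a ≠ t) (h2 : a ≠ u) (h3 : t ≠ b) :
    (pairC a b t u).ok = true := by
  simp [pairC, Cmd.ok, Cmd.ok_copyR h1 h2, dblC_ok h3]

theorem pairC_wr {a b t u x : ℕ} (h1 : x ≠ a) (h2 : x ≠ b) (h3 : x ≠ t) (h4 : x ≠ u) :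
    (pairC a b t u).wr x = false := by
  simp [pairC, Cmd.wr, dblC_wr h3 h2, Cmd.copyR, Cmd.mv, Cmd.mv2, h1, h2, h3, h4]

theorem pairC_spec {a b t u L : ℕ} (hab : a ≠ b) (hat : a ≠ t) (hau : a ≠ u) (hbt : b ≠ t)
    (hbu : b ≠ u) (htu : t ≠ u) {s : St} (ht : s t = []) (hu : s u = [])
    (hL : (s a).length ≤ L) :
    (pairC a b t u).eval s = update s b (pairCode (s a, s b)) ∧ (pairC a b t u).LB L s := by
  set s1 := update s b (false :: true :: s b) with hs1
  have e1 : (Cmd.push b false).eval ((Cmd.push b true).eval s) = s1 := by
    rw [Cmd.eval_push, Cmd.eval_push, update_self, update_idem]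
  have s1a : s1 a = s a := update_of_ne hab _ _
  have s1t : s1 t = [] := by rw [hs1, update_of_ne hbt.symm, ht]
  have s1u : s1 u = [] := by rw [hs1, update_of_ne hbu.symm, hu]
  have e2 : (Cmd.copyR a t u).eval s1 = update s1 t (s a).reverse := by
    rw [Cmd.eval_copyR hat hau htu s1u, s1a, s1t, List.append_nil]
  have l2 : (Cmd.copyR a t u).LB L s1 := Cmd.LB_copyR hat hau htu s1u (by rw [s1a]; exact hL)
  have hh : update s1 t [] = s1 := by
    have := update_eq_self t s1
    rwa [s1t] at this
  refine ⟨?_, trivial, trivial, ?_⟩
  · rw [pairC, Cmd.eval_seq, Cmd.eval_seq, e1, Cmd.eval_seq, e2, dblC_eval hbt.symm, update_self,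
      List.reverse_reverse, update_idem, update_of_ne hbt, hh, hs1, update_self, update_idem]
    rfl
  · rw [e1]
    refine ⟨l2, ?_⟩
    rw [e2]
    exact dblC_LB hbt.symm (by rw [update_self, List.length_reverse]; exact hL)

/-- copy the argument to register `base + 1` (scratch `base + 2`, via `Cmd.copy`), compute `g`
there, which leaves `g w` in `base + 1`; then `f` must be computed with everything above its
base empty: so rather copy the argument twice, compute the last one first, and so on; any
arrangement is fine. At the end register `base` holds `pairCode (f w, g w)` and everything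
above is empty. -/
theorem CF.pair {f g : Str → Str} (hf : CF f) (hg : CF g) :
    CF (fun w => pairCode (f w, g w)) := by
  intro base
  obtain ⟨cg, Tg, hTg, hTgm, hgok, hgwr, hcg⟩ := hg (base + 1)
  obtain ⟨cf, Tf, hTf, hTfm, hfok, hfwr, hcf⟩ := hf (base + 2)
  obtain ⟨qg, hqg, hqgm, hqgl⟩ := hg.len
  obtain ⟨qf, hqf, hqfm, hqfl⟩ := hf.len
  set c : Cmd := .seq (.copy base (base + 1) (base + 2)) (.seq cg
    (.seq (.copy base (base + 2) (base + 3)) (.seq cf
    (.seq (pairC (base + 2) (base + 1) (base + 3) (base + 4))
    (.seq (.clear base) (.seq (.clear (base + 2))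
    (.seq (.mv (base + 1) (base + 2)) (.mv (base + 2) base)))))))) with hc
  set T : ℕ → ℕ := fun n => n + Tg n + Tf n + qf n + (2 * qf n + 2 + qg n) with hT
  refine ⟨c, T, ?_, ?_, ?_, ?_, ?_⟩
  · exact (((PB.id.add hTg).add hTf).add hqf).add ((((PB.const 2).mul hqf).add
      (PB.const 2)).add hqg)
  · intro a b hab
    have h1 := hTgm hab
    have h2 := hTfm hab
    have h3 := hqfm hab
    have h4 := hqgm hab
    simp only [hT]
    omega
  · simp [hc, Cmd.ok, Cmd.ok_copy, hgok, hfok, pairC_ok]
  · intro x hx
    have h1 := hgwr x (by omega)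
    have h2 := hfwr x (by omega)
    have h3 : (pairC (base + 2) (base + 1) (base + 3) (base + 4)).wr x = false :=
      pairC_wr (by omega) (by omega) (by omega) (by omega)
    have h4 : x ≠ base := by omega
    have h5 : x ≠ base + 1 := by omega
    have h6 : x ≠ base + 2 := by omega
    have h7 : x ≠ base + 3 := by omega
    simp [hc, Cmd.wr, Cmd.copy, Cmd.mv, Cmd.mv2, Cmd.clear, h1, h2, h3, h4, h5, h6, h7]
  · intro a s hs hsa
    have hT1 : a.length ≤ T a.length := by simp only [hT]; omega
    have hT2 : Tg a.length ≤ T a.length := by simp only [hT]; omega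
    have hT3 : Tf a.length ≤ T a.length := by simp only [hT]; omega
    have hT4 : (f a).length ≤ T a.length := by
      have := hqfl a
      simp only [hT]; omega
    have hT5 : (pairCode (f a, g a)).length ≤ T a.length := by
      have := hqfl a
      have := hqgl a
      rw [length_pairCode]
      simp only [hT]; omega
    have z : ∀ k, base < k → s k = [] := hs
    -- first copy
    have e1 : (Cmd.copy base (base + 1) (base + 2)).eval s = update s (base + 1) a := by
      rw [Cmd.eval_copy (by omega) (by omega) (by omega) (z _ (by omega)),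
        z (base + 1) (by omega), hsa, List.append_nil]
    have l1 : (Cmd.copy base (base + 1) (base + 2)).LB (T a.length) s :=
      Cmd.LB_copy (by omega) (by omega) (by omega) (z _ (by omega)) (by rw [hsa]; exact hT1)
    obtain ⟨l2, e2⟩ := hcg a (update s (base + 1) a)
      (fun r hr => by rw [update_of_ne (by omega)]; exact z r (by omega)) (update_self _ _ _)
    rw [update_idem] at e2
    set s2 := update s (base + 1) (g a) with hs2
    have s2b : s2 base = a := by rw [hs2, update_of_ne (by omega), hsa]
    have z2 : ∀ k, base + 1 < k → s2 k = [] := fun k hk => by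
      rw [hs2, update_of_ne (by omega)]; exact z k (by omega)
    have e3 : (Cmd.copy base (base + 2) (base + 3)).eval s2 = update s2 (base + 2) a := by
      rw [Cmd.eval_copy (by omega) (by omega) (by omega) (z2 _ (by omega)),
        z2 (base + 2) (by omega), s2b, List.append_nil]
    have l3 : (Cmd.copy base (base + 2) (base + 3)).LB (T a.length) s2 :=
      Cmd.LB_copy (by omega) (by omega) (by omega) (z2 _ (by omega)) (by rw [s2b]; exact hT1)
    obtain ⟨l4, e4⟩ := hcf a (update s2 (base + 2) a)
      (fun r hr => by rw [update_of_ne (by omega)]; exact z2 r (by omega)) (update_self _ _ _)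
    rw [update_idem] at e4
    set s4 := update s2 (base + 2) (f a) with hs4
    have s41 : s4 (base + 1) = g a := by rw [hs4, update_of_ne (by omega), hs2, update_self]
    have s42 : s4 (base + 2) = f a := by rw [hs4, update_self]
    obtain ⟨e5, l5⟩ := pairC_spec (a := base + 2) (b := base + 1) (t := base + 3) (u := base + 4)
      (L := T a.length) (by omega) (by omega) (by omega) (by omega) (by omega) (by omega)
      (s := s4) (by rw [hs4, update_of_ne (by omega)]; exact z2 _ (by omega))
      (by rw [hs4, update_of_ne (by omega)]; exact z2 _ (by omega)) (by rw [s42]; exact hT4)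
    rw [s41, s42] at e5
    set s5 := update s4 (base + 1) (pairCode (f a, g a)) with hs5
    set s6 := update (update s5 base []) (base + 2) [] with hs6
    have s61 : s6 (base + 1) = pairCode (f a, g a) := by
      rw [hs6, update_of_ne (by omega), update_of_ne (by omega), hs5, update_self]
    have s62 : s6 (base + 2) = [] := by rw [hs6, update_self]
    have e7 : (Cmd.mv (base + 1) (base + 2)).eval s6 =
        update (update s6 (base + 1) []) (base + 2) (pairCode (f a, g a)).reverse := by
      rw [Cmd.eval_mv (by omega), s61, s62, List.append_nil]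
    constructor
    · refine ⟨l1, ?_⟩
      rw [e1]
      refine ⟨l2.mono hT2, ?_⟩
      rw [e2]
      refine ⟨l3, ?_⟩
      rw [e3]
      refine ⟨l4.mono hT3, ?_⟩
      rw [e4]
      refine ⟨l5, ?_⟩
      rw [e5]
      refine ⟨Cmd.LB_clear ?_, ?_⟩
      · rw [hs5, update_of_ne (by omega), hs4, update_of_ne (by omega), s2b]
        exact hT1
      rw [Cmd.eval_clear]
      refine ⟨Cmd.LB_clear ?_, ?_⟩
      · rw [update_of_ne (by omega), hs5, update_of_ne (by omega), s42]
        exact hT4
      rw [Cmd.eval_clear]
      refine ⟨Cmd.LB_mv (by omega) ?_, ?_⟩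
      · rw [← hs6, s61]
        exact hT5
      rw [← hs6, e7]
      refine Cmd.LB_mv (by omega) ?_
      rw [update_self, List.length_reverse]
      exact hT5
    · rw [hc, Cmd.eval_seq, e1, Cmd.eval_seq, e2, Cmd.eval_seq, e3, Cmd.eval_seq, e4,
        Cmd.eval_seq, e5, Cmd.eval_seq, Cmd.eval_clear, Cmd.eval_seq, Cmd.eval_clear, ← hs6,
        Cmd.eval_seq, e7, Cmd.eval_mv (by omega), update_self, List.reverse_reverse]
      have s6b : s6 base = [] := by rw [hs6, update_of_ne (by omega), update_self]
      rw [update_of_ne (show base ≠ base + 2 by omega), update_of_ne (show base ≠ base + 1 by omega),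
        s6b, List.append_nil]
      funext x
      by_cases h1 : x = base
      · subst h1
        rw [update_self, update_self]
      · rw [update_of_ne h1, update_of_ne h1]
        by_cases h2 : x = base + 2
        · subst h2
          rw [update_self]
          exact (z _ (by omega)).symm
        · rw [update_of_ne h2, update_of_ne h2]
          by_cases h3 : x = base + 1
          · subst h3
            rw [update_self]
            exact (z _ (by omega)).symm
          · rw [update_of_ne h3, hs6, update_of_ne h2, update_of_ne h1, hs5, update_of_ne h3, hs4,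
              update_of_ne h2, hs2, update_of_ne h3]

end Pool.Agent.Helper33.TQ
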