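import Pool.Agent.Helper33.TQ.CFbas

/-! Module TQ CFunp. -/

namespace Pool.Agent.Helper33.TQ

open Function Pool.Agent.Helper72

/-- one letter of the code of a pair; registers: `A` pending letter, `M` mode,
`Z` first word (reversed), `W` second word (reversed) -/
def unpB (A M Z W : ℕ) (b : Bool) : Cmd :=
  .ite M
    (.ite A (.push A b)
      (if b then .seq (.pop A) (.push M true) else .seq (.pop A) (.push Z false))
      (if b then .seq (.pop A) (.push Z true) else .seq (.pop A) (.push M true)))
    (.push W b) (.push W b)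

section

variable (B : ℕ) (s : St)

/-- intermediate states -/
def unpS (x a m z w : Str) : St := fun r =>
  if r = B then x else if r = B + 1 then a else if r = B + 2 then m else
    if r = B + 3 then z else if r = B + 4 then w else s r

variable {B s}

theorem unpS_0 (x a m z w : Str) : unpS B s x a m z w B = x := by simp [unpS]
theorem unpS_1 (x a m z w : Str) : unpS B s x a m z w (B + 1) = a := by simp [unpS]
theorem unpS_2 (x a m z w : Str) : unpS B s x a m z w (B + 2) = m := by simp [unpS]
theorem unpS_3 (x a m z w : Str) : unpS B s x a m z w (B + 3) = z := by simp [unpS]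
theorem unpS_4 (x a m z w : Str) : unpS B s x a m z w (B + 4) = w := by simp [unpS]

theorem unpS_u0 (x x' a m z w : Str) :
    update (unpS B s x a m z w) B x' = unpS B s x' a m z w := by
  funext r
  by_cases h0 : r = B
  · subst h0; simp [unpS]
  · simp [unpS, h0]

theorem unpS_u1 (x a a' m z w : Str) :
    update (unpS B s x a m z w) (B + 1) a' = unpS B s x a' m z w := by
  funext r
  by_cases h0 : r = B + 1
  · subst h0; simp [unpS]
  · simp [unpS, h0]

theorem unpS_u2 (x a m m' z w : Str) :
    update (unpS B s x a m z w) (B + 2) m' = unpS B s x a m' z w := by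
  funext r
  by_cases h0 : r = B + 2
  · subst h0; simp [unpS]
  · simp [unpS, h0]

theorem unpS_u3 (x a m z z' w : Str) :
    update (unpS B s x a m z w) (B + 3) z' = unpS B s x a m z' w := by
  funext r
  by_cases h0 : r = B + 3
  · subst h0; simp [unpS]
  · simp [unpS, h0]

theorem unpS_u4 (x a m z w w' : Str) :
    update (unpS B s x a m z w) (B + 4) w' = unpS B s x a m z w' := by
  funext r
  by_cases h0 : r = B + 4
  · subst h0; simp [unpS]
  · simp [unpS, h0]

/-- the body of the loop -/
def unpF (B : ℕ) : Bool → St → St := fun b =>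
  if b then (unpB (B + 1) (B + 2) (B + 3) (B + 4) true).eval
  else (unpB (B + 1) (B + 2) (B + 3) (B + 4) false).eval

theorem unpF_1 (b : Bool) (x z w : Str) :
    unpF B b (unpS B s x [] [] z w) = unpS B s x [b] [] z w := by
  cases b <;> simp [unpF, unpB, Cmd.eval, unpS_1, unpS_2, unpS_u1]

theorem unpF_2 (b : Bool) (x z w : Str) :
    unpF B b (unpS B s x [b] [] z w) = unpS B s x [] [] (b :: z) w := by
  cases b <;> simp [unpF, unpB, Cmd.eval, unpS_1, unpS_2, unpS_3, unpS_u1, unpS_u3]

theorem unpF_3 (b c : Bool) (hbc : b ≠ c) (x z w : Str) :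
    unpF B c (unpS B s x [b] [] z w) = unpS B s x [] [true] z w := by
  cases b <;> cases c <;> first
    | exact absurd rfl hbc
    | simp [unpF, unpB, Cmd.eval, unpS_1, unpS_2, unpS_u1, unpS_u2]

theorem unpF_4 (b : Bool) (x a z w : Str) :
    unpF B b (unpS B s x a [true] z w) = unpS B s x a [true] z (b :: w) := by
  cases b <;> simp [unpF, unpB, Cmd.eval, unpS_2, unpS_4, unpS_u4]

theorem unp_loop2 (z : Str) : ∀ (l w : Str),
    loopEval (unpF B) B l (unpS B s l [] [true] z w) = unpS B s [] [] [true] z (l.reverse ++ w)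
  | [], w => by simp [loopEval]
  | b :: l, w => by
    rw [loopEval, unpS_u0, unpF_4, unp_loop2 z l (b :: w)]
    simp

theorem unp_loop1 : ∀ (l z : Str), ∃ a m : Str, a.length ≤ 1 ∧ m.length ≤ 1 ∧
    loopEval (unpF B) B l (unpS B s l [] [] z []) =
      unpS B s [] a m ((unp l).1.reverse ++ z) (unp l).2.reverse
  | [], z => ⟨[], [], by simp, by simp, by simp [loopEval]⟩
  | [b], z => ⟨[b], [], by simp, by simp, by
      rw [loopEval, unpS_u0, unpF_1]; simp [loopEval]⟩
  | b :: c :: l, z => by
    by_cases hbc : b = c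
    · subst hbc
      obtain ⟨a, m, ha, hm, h⟩ := unp_loop1 l (b :: z)
      refine ⟨a, m, ha, hm, ?_⟩
      rw [loopEval, unpS_u0, unpF_1, loopEval, unpS_u0, unpF_2, h]
      simp [unp]
    · refine ⟨[], [true], by simp, by simp, ?_⟩
      rw [loopEval, unpS_u0, unpF_1, loopEval, unpS_u0, unpF_3 b c hbc, unp_loop2]
      simp [unp, hbc]

theorem unp_LB (B L : ℕ) : ∀ (l : List Bool) (s : St),
    loopLB (unpF B) (fun b => if b then (unpB (B + 1) (B + 2) (B + 3) (B + 4) true).LB L
      else (unpB (B + 1) (B + 2) (B + 3) (B + 4) false).LB L) B l s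
  | [], _ => trivial
  | b :: l, s => by
    refine ⟨?_, unp_LB B L l _⟩
    cases b
    · simp only [unpB, Cmd.LB, Bool.false_eq_true, if_false]
      split <;> (try split) <;> simp
    · simp only [unpB, Cmd.LB, if_true]
      split <;> (try split) <;> simp

/-- decode a pair, leaving the two words reversed in registers `B+3`, `B+4` -/
def unpC (B : ℕ) : Cmd :=
  .seq (.loop B (unpB (B + 1) (B + 2) (B + 3) (B + 4) false)
    (unpB (B + 1) (B + 2) (B + 3) (B + 4) true)) (.seq (.pop (B + 1)) (.pop (B + 2)))

theorem ok_unpC (B : ℕ) : (unpC B).ok = true := by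
  simp [unpC, Cmd.ok, unpB, Cmd.wr]

theorem wr_unpC {B x : ℕ} (hx : x < B) : (unpC B).wr x = false := by
  have h0 : x ≠ B := by omega
  have h1 : x ≠ B + 1 := by omega
  have h2 : x ≠ B + 2 := by omega
  have h3 : x ≠ B + 3 := by omega
  have h4 : x ≠ B + 4 := by omega
  simp [unpC, unpB, Cmd.wr, h0, h1, h2, h3, h4]

theorem unpS_init {a : Str} (hs : ∀ r, B < r → s r = []) (ha : s B = a) :
    s = unpS B s a [] [] [] [] := by
  funext r
  unfold unpS
  split_ifs with h0 h1 h2 h3 h4
  · rw [h0, ha]
  · exact hs r (by omega)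
  · exact hs r (by omega)
  · exact hs r (by omega)
  · exact hs r (by omega)
  · rfl

theorem eval_unpC {a : Str} (hs : ∀ r, B < r → s r = []) (ha : s B = a) :
    (unpC B).eval s = unpS B s [] [] [] (unp a).1.reverse (unp a).2.reverse := by
  obtain ⟨p, m, hp, hm, h⟩ := unp_loop1 (B := B) (s := s) a []
  have h1 : (Cmd.loop B (unpB (B + 1) (B + 2) (B + 3) (B + 4) false)
      (unpB (B + 1) (B + 2) (B + 3) (B + 4) true)).eval s =
      unpS B s [] p m ((unp a).1.reverse ++ []) (unp a).2.reverse := by
    rw [← h, ← unpS_init hs ha]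
    show loopEval _ B (s B) s = _
    rw [ha]; rfl
  have hp2 : p.tail = [] := by
    cases p with
    | nil => rfl
    | cons x p => simp at hp; simp [hp]
  have hm2 : m.tail = [] := by
    cases m with
    | nil => rfl
    | cons x m => simp at hm; simp [hm]
  rw [unpC, Cmd.eval_seq, h1, Cmd.eval_seq, Cmd.eval_pop, Cmd.eval_pop, unpS_1, unpS_u1,
    unpS_2, unpS_u2, hp2, hm2, List.append_nil]

theorem LB_unpC {a : Str} (ha : s B = a) : (unpC B).LB a.length s := by
  refine ⟨⟨by rw [ha], ?_⟩, trivial, trivial⟩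
  exact unp_LB B _ _ _

theorem unpS_fin (hs : ∀ r, B < r → s r = []) (x : Str) :
    unpS B s x [] [] [] [] = update s B x := by
  funext r
  unfold unpS
  by_cases h0 : r = B
  · subst h0; simp
  · rw [if_neg h0, update_of_ne h0]
    split_ifs with h1 h2 h3 h4
    · exact (hs r (by omega)).symm
    · exact (hs r (by omega)).symm
    · exact (hs r (by omega)).symm
    · exact (hs r (by omega)).symm
    · rfl

end

/-- one loop over the word with a mode register and a pending letter register
(compare `Pool.Agent.Helper4.Glue.decB`, which does this for words in the range of `pairCode`) -/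
theorem CF.unp1 : CF (fun w => (unp w).1) := by
  intro B
  refine ⟨.seq (unpC B) (.seq (.mv (B + 3) B) (.clear (B + 4))), fun n => n, PB.id,
    monotone_id, ?_, ?_, ?_⟩
  · have h1 : (Cmd.mv (B + 3) B).ok = true := Cmd.ok_mv.2 (by omega)
    simp [Cmd.ok, ok_unpC, h1, Cmd.clear, Cmd.wr]
  · intro x hx
    have h0 : x ≠ B := by omega
    have h3 : x ≠ B + 3 := by omega
    have h4 : x ≠ B + 4 := by omega
    simp [Cmd.wr, wr_unpC hx, Cmd.mv, Cmd.clear, h0, h3, h4]
  · intro a s hs ha
    have hlen := unp_length a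
    constructor
    · refine ⟨LB_unpC ha, ?_⟩
      rw [eval_unpC hs ha]
      refine ⟨Cmd.LB_mv (by omega) ?_, Cmd.LB_clear ?_⟩
      · rw [unpS_3, List.length_reverse]; beta_reduce; omega
      · rw [Cmd.eval_mv (by omega), unpS_3, unpS_u3, unpS_0, unpS_u0, unpS_4,
          List.length_reverse]
        beta_reduce; omega
    · rw [Cmd.eval_seq, eval_unpC hs ha, Cmd.eval_seq, Cmd.eval_mv (by omega), unpS_3, unpS_u3,
        unpS_0, unpS_u0, Cmd.eval_clear, unpS_u4, List.reverse_reverse, List.append_nil,
        unpS_fin hs]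

theorem CF.unp2 : CF (fun w => (unp w).2) := by
  intro B
  refine ⟨.seq (unpC B) (.seq (.mv (B + 4) B) (.clear (B + 3))), fun n => n, PB.id,
    monotone_id, ?_, ?_, ?_⟩
  · have h1 : (Cmd.mv (B + 4) B).ok = true := Cmd.ok_mv.2 (by omega)
    simp [Cmd.ok, ok_unpC, h1, Cmd.clear, Cmd.wr]
  · intro x hx
    have h0 : x ≠ B := by omega
    have h3 : x ≠ B + 3 := by omega
    have h4 : x ≠ B + 4 := by omega
    simp [Cmd.wr, wr_unpC hx, Cmd.mv, Cmd.clear, h0, h3, h4]
  · intro a s hs ha
    have hlen := unp_length a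
    constructor
    · refine ⟨LB_unpC ha, ?_⟩
      rw [eval_unpC hs ha]
      refine ⟨Cmd.LB_mv (by omega) ?_, Cmd.LB_clear ?_⟩
      · rw [unpS_4, List.length_reverse]; beta_reduce; omega
      · rw [Cmd.eval_mv (by omega), unpS_4, unpS_u4, unpS_0, unpS_u0, unpS_3,
          List.length_reverse]
        beta_reduce; omega
    · rw [Cmd.eval_seq, eval_unpC hs ha, Cmd.eval_seq, Cmd.eval_mv (by omega), unpS_4, unpS_u4,
        unpS_0, unpS_u0, Cmd.eval_clear, unpS_u3, List.reverse_reverse, List.append_nil,
        unpS_fin hs]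

end Pool.Agent.Helper33.TQ
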