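import Pool.Agent.Helper72.Defs

/-!
Official definitions for `MP_856fa1_lc`: bounded query classes, Arthur-Merlin games,
nondeterministic polynomial time with constantly many bits of advice.
Formulas, their binary code, `SAT`, `InP`, `InNP` and the code `pairCode` of pairs are those of
`Pool/Agent/Helper72/Defs.lean`; machines are the Turing machines of Mathlib.
-/

namespace Pool.Agent.Helper33.TQ

open Turing Computability Pool.Agent.Helper72

/-- the word function `f` is computable in deterministic polynomial time -/
def PTime (f : List Bool → List Bool) : Prop :=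
  Nonempty (TM2ComputableInPolyTime (id : List Bool → List Bool) (id : List Bool → List Bool) f)

open scoped Classical in
/-- `P^{SAT[1]}`: one query `f x` to `SAT` is computed in polynomial time from `x`; depending on
the answer `b`, the final decision is the one of the polynomial time language `D b`. -/
def InPSAT1 (L : Set (List Bool)) : Prop :=
  ∃ (f : List Bool → List Bool) (D : Bool → Set (List Bool)),
    PTime f ∧ (∀ b, InP (D b)) ∧ ∀ x, x ∈ L ↔ x ∈ D (decide (f x ∈ SAT))

open scoped Classical in
/-- `P_{||}^{SAT[2]}`: two non-adaptive queries `f x`, `g x` to `SAT`. -/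
def InPSAT2 (L : Set (List Bool)) : Prop :=
  ∃ (f g : List Bool → List Bool) (D : Bool → Bool → Set (List Bool)),
    PTime f ∧ PTime g ∧ (∀ b c, InP (D b c)) ∧
      ∀ x, x ∈ L ↔ x ∈ D (decide (f x ∈ SAT)) (decide (g x ∈ SAT))

/-- the random strings of length `m` for which Merlin has an answer of length at most `l`
accepted by Arthur's predicate `V` on the input `x` -/
def goodCoins (V : Set (List Bool)) (x : List Bool) (m l : ℕ) : Set (Fin m → Bool) :=
  {r | ∃ w : List Bool, w.length ≤ l ∧ pairCode (x, pairCode (List.ofFn r, w)) ∈ V}

/-- `AM`: bounded error two-message Arthur-Merlin games. Arthur sends `p(|x|)` random bits,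
Merlin answers with at most `q(|x|)` bits, Arthur decides in deterministic polynomial time;
the acceptance probability is at least `2/3` for `x ∈ L` and at most `1/3` for `x ∉ L`. -/
def InAM (L : Set (List Bool)) : Prop :=
  ∃ (p q : Polynomial ℕ) (V : Set (List Bool)), InP V ∧ ∀ x,
    (x ∈ L → 2 * 2 ^ p.eval x.length ≤
      3 * (goodCoins V x (p.eval x.length) (q.eval x.length)).ncard) ∧
    (x ∉ L → 3 * (goodCoins V x (p.eval x.length) (q.eval x.length)).ncard ≤
      2 ^ p.eval x.length)

/-- `NP_{/k}`: nondeterministic polynomial time with `k` bits of advice depending only on the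
input length -/
def InNPAdvice (k : ℕ) (L : Set (List Bool)) : Prop :=
  ∃ (L' : Set (List Bool)) (a : ℕ → List Bool), InNP L' ∧ (∀ n, (a n).length = k) ∧
    ∀ x, x ∈ L ↔ pairCode (x, a x.length) ∈ L'

end Pool.Agent.Helper33.TQ
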