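import Pool.Agent.Helper33.TQ.Xor

/-! Module TQ Dich: certificates for all unsatisfiable formulas, or advice for a search tree. -/

namespace Pool.Agent.Helper33.TQ

open Function Pool.Agent.Helper72

/-- a finite search tree: items with formulas, status, children -/
structure STree (ι : Type) where
  It : Set ι
  fin : It.Finite
  F : ι → Str
  S : ι → Prop
  leaf : ι → Prop
  ch : Bool → ι → ι
  rk : ι → ℕ
  hF : ∀ i ∈ It, (F i ∈ SAT ↔ S i)
  hch : ∀ i ∈ It, ¬ leaf i → ∀ b, ch b i ∈ It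
  hS : ∀ i ∈ It, ¬ leaf i → (S i ↔ S (ch false i) ∨ S (ch true i))
  hrk : ∀ i ∈ It, ¬ leaf i → ∀ b, rk (ch b i) < rk i

namespace STree

variable {ι : Type} (t : STree ι) (D : TQD)

/-- easy certificate by a satisfiable item -/
def R1 (ψ : Str) : Prop := ∃ i ∈ t.It, t.S i ∧ ¬ D.T (t.F i) ψ ∧ D.q (t.F i) ψ ∈ SAT

/-- certified items -/
def C (i : ι) : Prop := (t.leaf i ∧ ¬ t.S i) ∨ t.R1 D (t.F i)

/-- certificates of unsatisfiability -/
def R (ψ : Str) : Prop := t.R1 D ψ ∨ (∃ i ∈ t.It, t.C D i ∧ D.eqv (t.F i) ψ) ∨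
  (∃ g ∈ t.It, ∃ j ∈ t.It, ¬ t.leaf g ∧ t.C D (t.ch false g) ∧ t.C D (t.ch true g) ∧
    D.eqv (t.F j) (t.F g) ∧ D.eqv (t.F j) ψ)

variable {t D}

theorem R1_sound {ψ : Str} (h : t.R1 D ψ) : ψ ∉ SAT := by
  obtain ⟨i, hi, hS, hT, hq⟩ := h
  have h1 := D.spec (t.F i) ψ
  have h2 := (t.hF i hi).2 hS
  tauto

theorem C_sound {i : ι} (hi : i ∈ t.It) (h : t.C D i) : ¬ t.S i := by
  rcases h with h | h
  · exact h.2
  · intro hS
    exact R1_sound h ((t.hF i hi).2 hS)

theorem R_sound {ψ : Str} (h : t.R D ψ) : ψ ∉ SAT := by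
  rcases h with h | ⟨i, hi, hC, he⟩ | ⟨g, hg, j, hj, hl, h0, h1, he1, he2⟩
  · exact R1_sound h
  · have h1 := TQD.eqv_sound he
    have h2 := t.hF i hi
    have h3 := C_sound hi hC
    tauto
  · have h2 := t.hS g hg hl
    have h3 := C_sound (t.hch g hg hl false) h0
    have h4 := C_sound (t.hch g hg hl true) h1
    have h5 := TQD.eqv_sound he1
    have h6 := TQD.eqv_sound he2
    have h7 := t.hF g hg
    tauto

/-- a satisfiable item passes the test of an uncertified unsatisfiable formula -/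
theorem T_of_sat {ψ : Str} (h1 : ψ ∉ SAT) (h2 : ¬ t.R1 D ψ) {i : ι} (hi : i ∈ t.It)
    (hS : t.S i) : D.T (t.F i) ψ := by
  by_contra hT
  have h3 := D.spec (t.F i) ψ
  have h4 := (t.hF i hi).2 hS
  exact h2 ⟨i, hi, hS, hT, by tauto⟩

/-- a certified item fails the test of a formula without certificate -/
theorem not_T_of_C {ψ : Str} (h1 : ψ ∉ SAT) (h2 : ¬ t.R D ψ) {i : ι} (hi : i ∈ t.It)
    (hC : t.C D i) : ¬ D.T (t.F i) ψ := by
  intro hT
  have h3 := D.spec (t.F i) ψ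
  have h4 := C_sound hi hC
  have h5 := t.hF i hi
  exact h2 (Or.inr (Or.inl ⟨i, hi, hC, hT, by tauto⟩))

/-- below an unsatisfiable uncertified item there is one with two certified children -/
theorem exists_split {i : ι} (hi : i ∈ t.It) (hS : ¬ t.S i) (hC : ¬ t.C D i) :
    ∃ g ∈ t.It, ¬ t.S g ∧ ¬ t.C D g ∧ ¬ t.leaf g ∧ t.C D (t.ch false g) ∧
      t.C D (t.ch true g) := by
  induction hn : t.rk i using Nat.strong_induction_on generalizing i with
  | _ n ih =>
    have hl : ¬ t.leaf i := fun hl => hC (Or.inl ⟨hl, hS⟩)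
    have h0 : ∀ b, ¬ t.S (t.ch b i) := by
      intro b hb
      apply hS
      rw [t.hS i hi hl]
      cases b
      · exact Or.inl hb
      · exact Or.inr hb
    by_cases hc : ∀ b, t.C D (t.ch b i)
    · exact ⟨i, hi, hS, hC, hl, hc false, hc true⟩
    · push Not at hc
      obtain ⟨b, hb⟩ := hc
      exact ih (t.rk (t.ch b i)) (hn ▸ t.hrk i hi hl b) (t.hch i hi hl b) (h0 b) hb rfl

/-- an item with two certified children is rejected by all items accepted by `ψ` -/
private theorem not_T_of_split {ψ : Str} (h1 : ψ ∉ SAT) (h2 : ¬ t.R D ψ) {g : ι} (hg : g ∈ t.It)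
    (hgS : ¬ t.S g) (hgl : ¬ t.leaf g) (hg0 : t.C D (t.ch false g)) (hg1 : t.C D (t.ch true g))
    {j : ι} (hj : j ∈ t.It) (hjS : ¬ t.S j) (hT : D.T (t.F j) ψ) : ¬ D.T (t.F j) (t.F g) := by
  intro hT2
  have h3 := D.spec (t.F j) ψ
  have h4 := D.spec (t.F j) (t.F g)
  have h5 := t.hF j hj
  have h6 := t.hF g hg
  exact h2 (Or.inr (Or.inr ⟨g, hg, j, hj, hgl, hg0, hg1, ⟨hT2, by tauto⟩, ⟨hT, by tauto⟩⟩))

/-- one step of the greedy algorithm: some uncertified unsatisfiable item rejects at least half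
of a nonempty set `Q` of uncertified unsatisfiable items accepted by `ψ` -/
theorem greedy_step {ψ : Str} (h1 : ψ ∉ SAT) (h2 : ¬ t.R D ψ) {Q : Finset ι} (hQ : Q.Nonempty)
    (hQ1 : ∀ i ∈ Q, i ∈ t.It ∧ ¬ t.S i ∧ ¬ t.C D i ∧ D.T (t.F i) ψ) :
    ∃ g ∈ t.It, ¬ t.S g ∧ ¬ t.C D g ∧ (open scoped Classical in
      2 * (Q.filter fun i => D.T (t.F i) (t.F g)).card ≤ Q.card) := by
  classical
  obtain ⟨i, hi⟩ := hQ
  obtain ⟨hi1, hi2, hi3, -⟩ := hQ1 i hi
  obtain ⟨g, hg, hgS, hgC, hgl, hg0, hg1⟩ := exists_split (D := D) hi1 hi2 hi3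
  refine ⟨g, hg, hgS, hgC, ?_⟩
  have h3 : ∀ j ∈ Q, ¬ D.T (t.F j) (t.F g) := fun j hj =>
    not_T_of_split h1 h2 hg hgS hgl hg0 hg1 (hQ1 j hj).1 (hQ1 j hj).2.1 (hQ1 j hj).2.2.2
  rw [Finset.filter_false_of_mem h3]
  simp

/-- if some unsatisfiable formula has no certificate then there is a short advice string
deciding the status of all items -/
theorem dichotomy {ψ : Str} (h1 : ψ ∉ SAT) (h2 : ¬ t.R D ψ) {a : ℕ}
    (ha : t.It.ncard < 2 ^ a) : ∃ A : List Str, A.length ≤ a + 1 ∧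
      (∀ α ∈ A, α = ψ ∨ ∃ i ∈ t.It, α = t.F i) ∧
      ∀ i ∈ t.It, (t.S i ↔ ∀ α ∈ A, D.T (t.F i) α) := by
  by_cases hQ : ∃ i ∈ t.It, ¬ t.S i ∧ ¬ t.C D i ∧ D.T (t.F i) ψ
  · obtain ⟨i, hi1, hi2, hi3, hi4⟩ := hQ
    obtain ⟨g, hg, hgS, hgC, hgl, hg0, hg1⟩ := exists_split (D := D) hi1 hi2 hi3
    have ha1 : 1 ≤ a := by
      rcases Nat.eq_zero_or_pos a with rfl | h
      · exfalso
        have : 0 < t.It.ncard := (Set.ncard_pos t.fin).2 ⟨i, hi1⟩
        simp at ha
        omega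
      · exact h
    have hgF : t.F g ∉ SAT := fun h => hgS ((t.hF g hg).1 h)
    refine ⟨[ψ, t.F g], by simp; omega, ?_, ?_⟩
    · intro α hα
      rcases List.mem_cons.1 hα with rfl | hα
      · exact Or.inl rfl
      · rw [List.mem_singleton] at hα
        exact Or.inr ⟨g, hg, hα⟩
    · intro j hj
      constructor
      · intro hS α hα
        rcases List.mem_cons.1 hα with rfl | hα
        · exact T_of_sat h1 (fun h => h2 (Or.inl h)) hj hS
        · rw [List.mem_singleton] at hα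
          subst hα
          exact T_of_sat hgF (fun h => hgC (Or.inr h)) hj hS
      · intro hA
        by_contra hS
        have e1 := hA ψ (by simp)
        have e2 := hA (t.F g) (by simp)
        exact not_T_of_split h1 h2 hg hgS hgl hg0 hg1 hj hS e1 e2
  · push Not at hQ
    refine ⟨[ψ], by simp, ?_, ?_⟩
    · intro α hα
      rw [List.mem_singleton] at hα
      exact Or.inl hα
    · intro j hj
      constructor
      · intro hS α hα
        rw [List.mem_singleton] at hα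
        subst hα
        exact T_of_sat h1 (fun h => h2 (Or.inl h)) hj hS
      · intro hA
        by_contra hS
        have e1 := hA ψ (by simp)
        by_cases hC : t.C D j
        · exact not_T_of_C h1 h2 hj hC e1
        · exact hQ j hj hS hC e1

end STree

end Pool.Agent.Helper33.TQ
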