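import Pool.Agent.Helper33.TQ.Calc

/-! Module TQ Exact: witnesses of exact length. -/

namespace Pool.Agent.Helper33.TQ

open Function Pool.Agent.Helper72

/-- NP predicates of pairs `(x, ρ)` with `|ρ| = r |x|` have witnesses of length exactly `l |x|`:
pad the witness `w` to `w ++ true :: false^k` (`unpad`, `unpad_pad`, `length_unpad_le`);
`l n` is 1 + a bound (`PTF.bound`) for the witness length at size `2 * n + 2 + r n` -/
theorem NPP.exact {r : ℕ → ℕ} (hr : PTF r) {S : Str → Str → Prop}
    (hS : NPP (fun x : Str × Str => S x.1 x.2)) :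
    ∃ (l : ℕ → ℕ) (V : Str → Str → Str → Prop), PTF l ∧
      PTF (fun x : Str × Str × Str => V x.1 x.2.1 x.2.2) ∧
      ∀ x ρ : Str, ρ.length = r x.length →
        (S x ρ ↔ ∃ w : Str, w.length = l x.length ∧ V x ρ w) := by
  obtain ⟨R, b, hR, hb, e⟩ := hS
  obtain ⟨q, hq, -, hbound⟩ := PTF.bound hb
  refine ⟨fun n => q (2 * n + 2 + r n) + 1,
    fun x ρ w => (unpad w).length ≤ b (x, ρ) ∧ R (x, ρ) (unpad w), ?_, ?_, ?_⟩
  · fun_prop
  · fun_prop
  · intro x ρ hρ
    have h1 : b (x, ρ) ≤ q (2 * x.length + 2 + r x.length) := by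
      have h2 := hbound (x, ρ)
      rw [sz_nat, sz_pair, sz_str, sz_str, hρ] at h2
      exact h2
    constructor
    · intro h
      obtain ⟨w, hw, hRw⟩ := (e (x, ρ)).1 h
      refine ⟨w ++ true :: List.replicate (q (2 * x.length + 2 + r x.length) - w.length) false,
        ?_, ?_⟩
      · rw [List.length_append, List.length_cons, List.length_replicate]
        show w.length + (q (2 * x.length + 2 + r x.length) - w.length + 1) =
          q (2 * x.length + 2 + r x.length) + 1
        omega
      · show (unpad _).length ≤ _ ∧ R _ (unpad _)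
        rw [unpad_pad]
        exact ⟨hw, hRw⟩
    · rintro ⟨w, -, h3, h4⟩
      exact (e (x, ρ)).2 ⟨unpad w, h3, h4⟩

end Pool.Agent.Helper33.TQ
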