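import Pool.Agent.Helper33.TQ.Hbd

section
/-! Module TQ HptfH: the hitting set and the candidates are polynomial time computable. -/

namespace Pool.Agent.Helper33.TQ

open Function

@[fun_prop] theorem ptf_row {α : Type} [Cd α] {b j : α → ℕ} {B : α → Str} (hb : PTF b)
    (hj : PTF j) (hB : PTF B) : PTF (fun a => row (b a) (j a) (B a)) := by
  unfold row; fun_prop

@[fun_prop] theorem ptf_smp {α : Type} [Cd α] {b j : α → ℕ} {B z : α → Str} (hb : PTF b)
    (hj : PTF j) (hB : PTF B) (hz : PTF z) : PTF (fun a => smp (b a) (j a) (B a) (z a)) := by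
  unfold smp
  refine PTF.mapS (l := fun a => List.range (j a))
    (p := fun a i => ip (row (b a) i (B a)) (z a) = true) ?_ ?_
  · fun_prop
  · fun_prop

namespace HP

variable {δ : Type} [Cd δ] (P : HP δ)

@[fun_prop] theorem ptf_Ev {α : Type} [Cd α] {n : α → ℕ} {d : α → δ} {w : α → Str} (hn : PTF n)
    (hd : PTF d) (hw : PTF w) : PTF (fun a => P.Ev (n a) (d a) (w a)) :=
  PTF.comp (f := fun x : ℕ × δ × Str => P.Ev x.1 x.2.1 x.2.2) P.hEv (PTF.mk hn (PTF.mk hd hw))

@[fun_prop] theorem ptf_blocks {α : Type} [Cd α] {n : α → ℕ} {T : α → Str} (hn : PTF n)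
    (hT : PTF T) : PTF (fun a => P.blocks (n a) (T a)) := by
  unfold blocks
  fun_prop

theorem ptf_H : PTF (fun x : ℕ × Str => P.H x.1 x.2) := by
  unfold H
  fun_prop

theorem length_of_mem_H {n : ℕ} {T ρ : Str} (h : ρ ∈ P.H n T) : ρ.length = P.r n := by
  unfold H at h
  rw [List.mem_flatMap] at h
  obtain ⟨B, _, h⟩ := h
  rw [List.mem_map] at h
  obtain ⟨z, _, rfl⟩ := h
  exact length_smp _ _ _ _

@[fun_prop] theorem ptf_cA {α : Type} [Cd α] {n : α → ℕ} {d : α → δ} {j : α → ℕ}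
    {u R v : α → Str} (hn : PTF n) (hd : PTF d) (hj : PTF j) (hu : PTF u) (hR : PTF R)
    (hv : PTF v) : PTF (fun a => P.cA (n a) (d a) (j a) (u a) (R a) (v a)) := by
  classical
  unfold cA
  refine PTF.countP (l := fun a => allS (P.Qb (n a)) (P.b (n a)))
    (p := fun a z => P.Ev (n a) (d a)
      (smp (P.b (n a)) (j a) (R a) z ++ decide (¬ ip (v a) z = true) :: u a)) ?_ ?_
  · fun_prop
  · fun_prop

@[fun_prop] theorem ptf_cB {α : Type} [Cd α] {n : α → ℕ} {d : α → δ} {j : α → ℕ}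
    {u R v : α → Str} (hn : PTF n) (hd : PTF d) (hj : PTF j) (hu : PTF u) (hR : PTF R)
    (hv : PTF v) : PTF (fun a => P.cB (n a) (d a) (j a) (u a) (R a) (v a)) := by
  classical
  unfold cB
  refine PTF.countP (l := fun a => allS (P.Qb (n a)) (P.b (n a)))
    (p := fun a z => P.Ev (n a) (d a)
      (smp (P.b (n a)) (j a) (R a) z ++ decide (ip (v a) z = true) :: u a)) ?_ ?_
  · fun_prop
  · fun_prop

/-- `Cand` in all its arguments: `(n, d, j, u, R)` -/
theorem ptf_Cand : PTF (fun x : ℕ × δ × ℕ × Str × Str =>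
    P.Cand x.1 x.2.1 x.2.2.1 x.2.2.2.1 x.2.2.2.2) := by
  classical
  unfold Cand
  refine PTF.filter (l := fun x : ℕ × δ × ℕ × Str × Str => allS (P.Qb x.1) (P.b x.1))
    (p := fun x v => (allS (P.Qb x.1) (P.b x.1)).length + 2 * P.r x.1 *
      P.cB x.1 x.2.1 x.2.2.1 x.2.2.2.1 x.2.2.2.2 v ≤
      2 * P.r x.1 * P.cA x.1 x.2.1 x.2.2.1 x.2.2.2.1 x.2.2.2.2 v) ?_ ?_
  · fun_prop
  · fun_prop

end HP

end Pool.Agent.Helper33.TQ

end

section
/-! Module TQ HptfG: the generator is polynomial time computable. -/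

namespace Pool.Agent.Helper33.TQ

open Function

namespace HP

variable {δ : Type} [Cd δ] (P : HP δ)

theorem idxOf_inst (x : Str) (l : List Str) :
    @List.idxOf Str instBEqOfDecidableEq x l = @List.idxOf (List Bool) List.instBEq x l := by
  have h : (instBEqOfDecidableEq : BEq Str) = (List.instBEq : BEq (List Bool)) :=
    lawful_beq_subsingleton _ _
  rw [h]

theorem ptf_dec : PTF (fun w : Str => (Cd.dec w : δ)) := Cd.norm

/-- decoding and unpadding, `PTF.unpad`; `Cd.dec : Str → δ` is `PTF` (this is `Cd.norm`) -/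
theorem ptf_hd1 : PTF (fun x : ℕ × Str => P.hd1 x.1 x.2) := by
  unfold hd1
  refine PTF.comp (f := fun w : Str => (Cd.dec w : δ)) ptf_dec ?_
  fun_prop

theorem ptf_hd2 : PTF (fun x : ℕ × Str => P.hd2 x.1 x.2) := by
  unfold hd2
  fun_prop

theorem ptf_hd3 : PTF (fun x : ℕ × Str => P.hd3 x.1 x.2) := by
  unfold hd3
  have h := P.ptf_hd2
  refine PTF.dropS ?_ ?_
  · exact PTF.add h (PTF.const 1)
  · fun_prop

theorem ptf_chunks : PTF (fun x : ℕ × Str => P.chunks x.1 x.2) := by
  unfold chunks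
  fun_prop

theorem ptf_verb : PTF (fun x : ℕ × Str => P.verb x.1 x.2) := by
  unfold verb
  fun_prop

/-- the sizes of blocks: `(P.blk n d j u c).length ≤ c.length + P.b n` -/
theorem length_blk_le (n : ℕ) (d : δ) (j : ℕ) (u c : Str) :
    (P.blk n d j u c).length ≤ c.length + P.b n := by
  unfold blk
  set X := c.drop (P.w1 n + P.w2 n) with hX
  have h1 : ((P.Cand n d j u (X.take (j * P.b n))).getD
      ((allS (P.Q2 n) (P.w2 n)).idxOf ((c.drop (P.w1 n)).take (P.w2 n))) []).length ≤ P.b n := by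
    rw [List.getD_eq_getElem?_getD]
    rcases h : (P.Cand n d j u (X.take (j * P.b n)))[
      ((allS (P.Q2 n) (P.w2 n)).idxOf ((c.drop (P.w1 n)).take (P.w2 n)))]? with _ | v
    · simp
    · have hv : v ∈ P.Cand n d j u (X.take (j * P.b n)) := List.mem_of_getElem? h
      unfold Cand at hv
      have hv2 := (List.mem_filter.1 hv).1
      have := length_mem_allS hv2
      simp [this]
  have h2 : (X.take (j * P.b n)).length + (X.drop (j * P.b n)).length = X.length := by
    rw [← List.length_append, List.take_append_drop]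
  have h3 : X.length ≤ c.length := by
    rw [hX, List.length_drop]
    omega
  rw [List.length_append, List.length_append]
  omega

theorem ptfG_fold {K : ℕ} (pos : Str → ℕ) (blk : Str → Str) (l : List Str) :
    ∀ V : List Str, (∀ x ∈ V, x.length ≤ K) → (∀ c ∈ l, (blk c).length ≤ K) →
      (l.foldl (fun L c => L.insertIdx (pos c) (blk c)) V).length ≤ V.length + l.length ∧
      ∀ x ∈ l.foldl (fun L c => L.insertIdx (pos c) (blk c)) V, x.length ≤ K := by
  induction l with
  | nil =>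
    intro V hV _
    exact ⟨by simp, hV⟩
  | cons c l ih =>
    intro V hV hl
    rw [List.foldl_cons]
    have hlen : (V.insertIdx (pos c) (blk c)).length ≤ V.length + 1 := by
      rw [List.length_insertIdx]
      split_ifs <;> omega
    have hmem : ∀ x ∈ V.insertIdx (pos c) (blk c), x.length ≤ K := by
      intro x hx
      by_cases hp : pos c ≤ V.length
      · rw [List.mem_insertIdx hp] at hx
        rcases hx with rfl | hx
        · exact hl c List.mem_cons_self
        · exact hV x hx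
      · rw [List.insertIdx_of_length_lt (by omega)] at hx
        exact hV x hx
    obtain ⟨h1, h2⟩ := ih _ hmem fun c' hc' => hl c' (List.mem_cons_of_mem _ hc')
    refine ⟨?_, h2⟩
    rw [List.length_cons]
    omega

@[fun_prop] theorem ptf_Cand' {α : Type} [Cd α] {n : α → ℕ} {d : α → δ} {j : α → ℕ}
    {u R : α → Str} (hn : PTF n) (hd : PTF d) (hj : PTF j) (hu : PTF u) (hR : PTF R) :
    PTF (fun a => P.Cand (n a) (d a) (j a) (u a) (R a)) := by
  have h := PTF.comp (f := fun x : ℕ × δ × ℕ × Str × Str =>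
    P.Cand x.1 x.2.1 x.2.2.1 x.2.2.2.1 x.2.2.2.2)
    (g := fun a => (n a, d a, j a, u a, R a)) P.ptf_Cand
    (PTF.mk hn (PTF.mk hd (PTF.mk hj (PTF.mk hu hR))))
  exact h

@[fun_prop] theorem ptf_pos {α : Type} [Cd α] {n : α → ℕ} {c : α → Str} (hn : PTF n)
    (hc : PTF c) : PTF (fun a => P.pos (n a) (c a)) := by
  unfold pos
  have h := PTF.idxOf (β := Str) (l := fun a => allS (P.Q1 (n a)) (P.w1 (n a)))
    (f := fun a => (c a).take (P.w1 (n a))) (by fun_prop) (by fun_prop)
  refine PTF.congr h fun a => ?_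
  exact idxOf_inst _ _

@[fun_prop] theorem ptf_blk {α : Type} [Cd α] {n : α → ℕ} {d : α → δ} {j : α → ℕ}
    {u c : α → Str} (hn : PTF n) (hd : PTF d) (hj : PTF j) (hu : PTF u) (hc : PTF c) :
    PTF (fun a => P.blk (n a) (d a) (j a) (u a) (c a)) := by
  unfold blk
  refine PTF.appendS (by fun_prop) (PTF.appendS (PTF.getD (by fun_prop) ?_ (PTF.const [])) (by fun_prop))
  have h := PTF.idxOf (β := Str) (l := fun a => allS (P.Q2 (n a)) (P.w2 (n a)))
    (f := fun a => ((c a).drop (P.w1 (n a))).take (P.w2 (n a))) (by fun_prop) (by fun_prop)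
  refine PTF.congr h fun a => ?_
  exact idxOf_inst _ _


/-- `PTF.foldl` with states the lists of blocks -/
theorem ptf_ins : PTF (fun x : ℕ × δ × ℕ × Str × List Str × List Str =>
    P.ins x.1 x.2.1 x.2.2.1 x.2.2.2.1 x.2.2.2.2.1 x.2.2.2.2.2) := by
  unfold ins
  refine PTF.foldl (l := fun x : ℕ × δ × ℕ × Str × List Str × List Str => x.2.2.2.2.2)
    (s := fun x => x.2.2.2.2.1)
    (g := fun x L c => L.insertIdx (P.pos x.1 c) (P.blk x.1 x.2.1 x.2.2.1 x.2.2.2.1 c))
    (B := fun x => (x.2.2.2.2.1.length + x.2.2.2.2.2.length) *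
      (2 * (sz x.2.2.2.2.1 + sz x.2.2.2.2.2 + P.b x.1) + 2)) ?_ ?_ ?_ ?_ ?_
  · fun_prop
  · fun_prop
  · fun_prop
  · have h1 : PTF (fun x : ℕ × δ × ℕ × Str × List Str × List Str => sz x.2.2.2.2.1) :=
      PTF.sz_fun (by fun_prop)
    have h2 : PTF (fun x : ℕ × δ × ℕ × Str × List Str × List Str => sz x.2.2.2.2.2) :=
      PTF.sz_fun (by fun_prop)
    fun_prop
  · rintro ⟨n, d, j, u, V, cs⟩ i _
    have h := ptfG_fold (K := sz V + sz cs + P.b n) (P.pos n) (P.blk n d j u) (cs.take i) V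
      (fun x hx => by
        have := sz_le_of_mem hx
        rw [sz_str] at this
        omega)
      (fun c hc => by
        have h1 := sz_le_of_mem (List.mem_of_mem_take hc)
        rw [sz_str] at h1
        have h2 := P.length_blk_le n d j u c
        omega)
    refine sz_list_le (n := V.length + cs.length) (k := sz V + sz cs + P.b n) ?_ ?_
    · refine h.1.trans ?_
      rw [List.length_take]
      omega
    · intro x hx
      rw [sz_str]
      exact h.2 x hx


theorem ptf_ins' {α : Type} [Cd α] {n : α → ℕ} {d : α → δ} {j : α → ℕ}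
    {u : α → Str} {V cs : α → List Str} (hn : PTF n) (hd : PTF d) (hj : PTF j) (hu : PTF u)
    (hV : PTF V) (hc : PTF cs) :
    PTF (fun a => P.ins (n a) (d a) (j a) (u a) (V a) (cs a)) := by
  have h := PTF.comp (f := fun x : ℕ × δ × ℕ × Str × List Str × List Str =>
      P.ins x.1 x.2.1 x.2.2.1 x.2.2.2.1 x.2.2.2.2.1 x.2.2.2.2.2)
      (g := fun a => (n a, d a, j a, u a, V a, cs a)) P.ptf_ins
      (PTF.mk hn (PTF.mk hd (PTF.mk hj (PTF.mk hu (PTF.mk hV hc)))))
  exact h


theorem ptf_G0 : PTF (fun x : ℕ × Str => P.G0 x.1 x.2) := by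
  have h : PTF (fun x : ℕ × Str => P.ins x.1 (P.hd1 x.1 x.2) (P.hd2 x.1 x.2) (P.hd3 x.1 x.2)
      (P.verb x.1 x.2) (P.chunks x.1 x.2)) :=
    P.ptf_ins' (PTF.fst PTF.id) P.ptf_hd1 P.ptf_hd2 P.ptf_hd3 P.ptf_verb P.ptf_chunks
  have h2 : PTF (fun x : ℕ × Str => P.m x.1 + 1) := by fun_prop
  have h3 := PTF.fixLen h2 (PTF.flattenS h)
  exact h3

theorem length_G0 (n : ℕ) (x : Str) : (P.G0 n x).length = P.m n + 1 := by
  simp [G0]

end HP

end Pool.Agent.Helper33.TQ

end
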