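import Pool.Agent.Helper33.TQ.Xor

/-!
Definitions for the win-win theorem: a stretching generator, its iterates, the search tree,
certificates.
-/

namespace Pool.Agent.Helper33.TQ

open Function Pool.Agent.Helper72

/-- a Karp reduction to `SAT` -/
noncomputable def karp {α : Type} [Cd α] {p : α → Prop} (hp : NPP p) : α → Str :=
  (NPP.karp hp).choose

theorem karp_ptf {α : Type} [Cd α] {p : α → Prop} (hp : NPP p) : PTF (karp hp) :=
  (NPP.karp hp).choose_spec.1

@[simp] theorem mem_karp {α : Type} [Cd α] {p : α → Prop} (hp : NPP p) (a : α) :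
    karp hp a ∈ SAT ↔ p a :=
  (NPP.karp hp).choose_spec.2 a

/-- a polynomial time family of maps from words of length `m n` to words of length `m n + 1` -/
structure GData where
  m : ℕ → ℕ
  G0 : ℕ → Str → Str
  hm : PTF m
  hG0 : PTF (fun x : ℕ × Str => G0 x.1 x.2)
  hm0 : ∀ n, 0 < m n
  hlen : ∀ n x, (G0 n x).length = m n + 1

namespace GData

variable (g : GData)

/-- `j` steps of the generator: `j` output bits followed by the last state -/
def run (n : ℕ) : ℕ → Str → Str
  | 0, x => x
  | j + 1, x => (g.G0 n x).take 1 ++ run n j (g.G0 n x).tail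

/-- the length doubling generator -/
def G (n : ℕ) (x : Str) : Str := g.run n (g.m n) x

/-- half of a word -/
def half (n : ℕ) (b : Bool) (y : Str) : Str := if b then y.drop (g.m n) else y.take (g.m n)

/-- label of the node `i` of the tree with root label `x` -/
def decG (n : ℕ) (x i : Str) : Str := i.foldl (fun y b => g.half n b (g.G n y)) x

/-- the tree with root label `x` does NOT list all words with prefix `a` -/
def Inc (n : ℕ) (a x : Str) : Prop :=
  ∃ i : Str, a.length + i.length = 2 * g.m n ∧ g.G n (g.decG n x i) ≠ a ++ i

/-- the last `m n - k` steps of a run producing `y` exist -/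
def Pk (n k : ℕ) (y : Str) : Prop :=
  ∃ x : Str, x.length = g.m n ∧ g.run n (g.m n - k) x = y.drop k

end GData

end Pool.Agent.Helper33.TQ
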