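import Pool.Agent.Helper33.TQ.Hchunk
import Pool.Agent.Helper33.TQ.HptfG
import Pool.Agent.Helper33.TQ.WWdef

/-! Module TQ Hfin: words which do not hit a dense test are in the range of `G0`. -/

namespace Pool.Agent.Helper33.TQ

open Function

/-- cutting the concatenation of words of equal length -/
theorem cut_flatten {l : ℕ} {L : List Str} (hL : ∀ B ∈ L, B.length = l) (y : Str) :
    (List.range L.length).map (fun i => ((L.flatten ++ y).drop (i * l)).take l) = L := by
  induction L with
  | nil => rfl
  | cons B L ih =>
    have hB : B.length = l := hL B (by simp)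
    rw [List.length_cons, List.range_succ_eq_map, List.map_cons, List.map_map]
    congr 1
    · rw [Nat.zero_mul, List.drop_zero, List.flatten_cons, List.append_assoc, ← hB,
        List.take_left]
    · refine Eq.trans ?_ (ih fun B' hB' => hL B' (by simp [hB']))
      refine List.map_congr_left fun i _ => ?_
      show (((B :: L).flatten ++ y).drop ((i + 1) * l)).take l = _
      have e : (i + 1) * l = B.length + i * l := by rw [hB]; ring
      rw [e, List.flatten_cons, List.append_assoc, ← List.drop_drop, List.drop_left]

theorem flatten_cut {l k : ℕ} {T : Str} (hT : T.length = k * l) :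
    ((List.range k).map (fun i => (T.drop (i * l)).take l)).flatten = T := by
  induction k generalizing T with
  | zero =>
    rw [Nat.zero_mul] at hT
    rw [List.length_eq_zero_iff.1 hT]
    rfl
  | succ k ih =>
    have h1 : (T.drop l).length = k * l := by
      rw [List.length_drop, hT, Nat.succ_mul]
      omega
    have h2 := ih h1
    rw [List.range_succ_eq_map, List.map_cons, List.map_map, List.flatten_cons]
    have e : (List.range k).map ((fun i => (T.drop (i * l)).take l) ∘ Nat.succ) =
        (List.range k).map (fun i => ((T.drop l).drop (i * l)).take l) := by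
      refine List.map_congr_left fun i _ => ?_
      show (T.drop ((i + 1) * l)).take l = _
      rw [List.drop_drop]
      congr 2
      ring
    rw [e, h2, Nat.zero_mul, List.drop_zero, List.take_append_drop]

theorem Hfin_length_flatten {l : ℕ} {L : List Str} (hL : ∀ B ∈ L, B.length = l) :
    L.flatten.length = L.length * l := by
  induction L with
  | nil => simp
  | cons B L ih =>
    rw [List.flatten_cons, List.length_append, hL B (by simp),
      ih fun B' hB' => hL B' (by simp [hB']), List.length_cons]
    ring

theorem Hfin_idxOf (j : ℕ) (u : Str) :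
    (List.replicate j false ++ true :: u).idxOf true = j := by
  induction j with
  | zero => simp
  | succ j ih =>
    rw [List.replicate_succ, List.cons_append, List.idxOf_cons_ne _ (by simp), ih]

namespace HP

variable {δ : Type} [Cd δ] (P : HP δ) (n : ℕ)

/-- the header `enc d ++ true :: false^(..) ++ (false^j ++ true :: u)` -/
theorem exists_header {d : δ} (hd : sz d ≤ P.s n) {j : ℕ} (hj : j < P.r n) {u : Str}
    (hu : u.length = P.r n - 1 - j) : ∃ x : Str, x.length = P.h n ∧ ∀ y : Str,
      P.hd1 n (x ++ y) = d ∧ P.hd2 n (x ++ y) = j ∧ P.hd3 n (x ++ y) = u := by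
  have hd' : (enc d : Str).length ≤ P.s n := hd
  set p : Str := enc d ++ true :: List.replicate (P.s n - (enc d : Str).length) false with hp
  have hpl : p.length = P.s n + 1 := by
    rw [hp, List.length_append, List.length_cons, List.length_replicate]
    omega
  have hxl : (p ++ (List.replicate j false ++ true :: u)).length = P.h n := by
    rw [List.length_append, hpl, List.length_append, List.length_replicate, List.length_cons, hu,
      h]
    omega
  refine ⟨p ++ (List.replicate j false ++ true :: u), hxl, fun y => ?_⟩
  have e1 : (p ++ (List.replicate j false ++ true :: u) ++ y).take (P.h n) =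
      p ++ (List.replicate j false ++ true :: u) := by
    rw [← hxl, List.take_left]
  have e2 : (p ++ (List.replicate j false ++ true :: u)).take (P.s n + 1) = p := by
    rw [← hpl, List.take_left]
  have e3 : (p ++ (List.replicate j false ++ true :: u)).drop (P.s n + 1) =
      List.replicate j false ++ true :: u := by
    rw [← hpl, List.drop_left]
  have h2 : P.hd2 n (p ++ (List.replicate j false ++ true :: u) ++ y) = j := by
    rw [hd2, e1, e3, Hfin_idxOf]
  refine ⟨?_, h2, ?_⟩
  · rw [hd1, e1, e2, hp, unpad_pad, Cd.dec_enc]
  · rw [hd3, h2, e1, e3]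
    have e4 : List.replicate j false ++ true :: u =
        (List.replicate j false ++ [true]) ++ u := by simp
    have e5 : (List.replicate j false ++ [true] : Str).length = j + 1 := by simp
    rw [e4, ← e5, List.drop_left]

/-- header, chunks and verbatim blocks -/
theorem exists_input {x : Str} (hx : x.length = P.h n) {V cs : List Str}
    (hV : V.length = P.N n - (P.h n + 1)) (hV' : ∀ B ∈ V, B.length = P.r n * P.b n)
    (hc : cs.length = P.h n + 1) (hc' : ∀ c ∈ cs, c.length = P.r n * P.b n - 1) :
    (x ++ (cs.flatten ++ V.flatten)).length = P.m n ∧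
    P.chunks n (x ++ (cs.flatten ++ V.flatten)) = cs ∧
    P.verb n (x ++ (cs.flatten ++ V.flatten)) = V := by
  have lc := Hfin_length_flatten hc'
  have lv := Hfin_length_flatten hV'
  refine ⟨?_, ?_, ?_⟩
  · rw [List.length_append, List.length_append, lc, lv, hx, hc, hV, P.m_eq]
    ring
  · have h1 := cut_flatten hc' V.flatten
    rw [hc] at h1
    rw [chunks]
    refine Eq.trans (List.map_congr_left fun i _ => ?_) h1
    rw [← List.drop_drop, ← hx, List.drop_left]
  · have h1 := cut_flatten hV' []
    rw [hV, List.append_nil] at h1
    rw [verb]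
    refine Eq.trans (List.map_congr_left fun i _ => ?_) h1
    rw [← List.drop_drop, ← List.drop_drop, ← hx, List.drop_left, hx, ← hc, ← lc,
      List.drop_left]

theorem Hfin_length_blocks {T B : Str} (hT : T.length = P.N n * (P.r n * P.b n))
    (hB : B ∈ P.blocks n T) : B.length = P.r n * P.b n := by
  rw [blocks, List.mem_map] at hB
  obtain ⟨i, hi, rfl⟩ := hB
  rw [List.mem_range] at hi
  rw [List.length_take, List.length_drop, hT]
  have h1 : (i + 1) * (P.r n * P.b n) ≤ P.N n * (P.r n * P.b n) := Nat.mul_le_mul_right _ hi
  rw [Nat.succ_mul] at h1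
  omega

/-- the main result on hitting sets -/
theorem mem_range_G0 {T : Str} (hT : T.length = P.m n + 1) {d : δ} (hd : sz d ≤ P.s n)
    (hdense : 2 ^ P.r n ≤ 2 * Set.ncard {ρ : Str | ρ.length = P.r n ∧ P.Ev n d ρ})
    (hno : ∀ ρ ∈ P.H n T, ¬ P.Ev n d ρ) : ∃ x : Str, x.length = P.m n ∧ P.G0 n x = T := by
  classical
  have hT' : T.length = P.N n * (P.r n * P.b n) := by rw [hT, P.m_succ]
  have hlen : (P.blocks n T).length = P.N n := by
    rw [blocks, List.length_map, List.length_range]
  have hne : P.blocks n T ≠ [] := by
    intro h0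
    rw [h0, List.length_nil] at hlen
    have := P.N_pos n
    omega
  rw [ncard_eq_card_wds] at hdense
  obtain ⟨j, hj, u, hu, hcount⟩ := exists_good (E := P.Ev n d) (r := P.r n) (b := P.b n)
    (by convert hdense) (P.blocks n T) hne (by
      intro B hB z hz
      apply hno
      rw [H, List.mem_flatMap]
      refine ⟨B, hB, ?_⟩
      rw [List.mem_map]
      exact ⟨z, (mem_allS (P.le_Qb n)).2 (mem_wds.1 hz), rfl⟩)
  rw [mem_wds] at hu
  have hk : P.h n + 1 ≤ (P.blocks n T).countP
      (fun B => decide (goodB (P.Ev n d) (P.r n) (P.b n) j u B)) := by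
    rw [hlen] at hcount
    have hN : P.N n = 2 * P.r n * (P.h n + 1) := rfl
    rw [hN] at hcount
    have hr := P.hr0 n
    exact Nat.le_of_mul_le_mul_left hcount (by omega)
  obtain ⟨V, cs, hV, hV', hc, hc', hins⟩ := P.exists_chunks n d j u hj (P.h n + 1)
    (P.blocks n T) hlen.le (fun B hB => P.Hfin_length_blocks n hT' hB) (by convert hk)
  obtain ⟨x, hx, hxy⟩ := P.exists_header n hd hj hu
  have hV2 : V.length = P.N n - (P.h n + 1) := by omega
  obtain ⟨h1, h2, h3⟩ := P.exists_input n hx hV2 hV' hc hc'
  obtain ⟨h4, h5, h6⟩ := hxy (cs.flatten ++ V.flatten)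
  refine ⟨x ++ (cs.flatten ++ V.flatten), h1, ?_⟩
  rw [G0, h2, h3, h4, h5, h6, hins, blocks, flatten_cut hT', fixLen_of_length hT]

/-- the generator of the compressor -/
noncomputable def gdata : GData where
  m := P.m
  G0 := P.G0
  hm := P.ptf_m PTF.id
  hG0 := P.ptf_G0
  hm0 := P.m_pos
  hlen := P.length_G0

end HP

end Pool.Agent.Helper33.TQ
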