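import Pool.Agent.Helper33.TQ.Lev

/-! Module TQ LevW: the walk. -/

namespace Pool.Agent.Helper33.TQ

open Function Pool.Agent.Helper72

namespace Lev

variable (g : Lev)

@[fun_prop] theorem ptf_dec1 {α : Type} [Cd α] {A : α → List Str} {x ρ lam : α → Str}
    (hA : PTF A) (hx : PTF x) (hρ : PTF ρ) (hl : PTF lam) :
    PTF (fun a => g.dec1 (A a) (x a) (ρ a) (lam a)) := by
  unfold dec1; fun_prop

private theorem levW_step (A : List Str) (x ρ lam : Str) :
    (g.step A x ρ lam).length = lam.length + 1 := by
  unfold step
  split_ifs <;> simp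

private theorem levW_len (A : List Str) (x ρ : Str) (i : ℕ) :
    ((g.step A x ρ)^[i] []).length = i := by
  induction i with
  | zero => rfl
  | succ i ih =>
    rw [iterate_succ_apply', levW_step, ih]

@[fun_prop] theorem ptf_walk {α : Type} [Cd α] {A : α → List Str} {x ρ : α → Str}
    (hA : PTF A) (hx : PTF x) (hρ : PTF ρ) : PTF (fun a => g.walk (A a) (x a) (ρ a)) := by
  unfold walk
  refine PTF.iterate (n := fun a => g.l (x a).length) (s := fun _ => ([] : Str))
    (g := fun a => g.step (A a) (x a) (ρ a)) (B := fun a => g.l (x a).length)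
    (by fun_prop) (by fun_prop) ?_ (by fun_prop) ?_
  · unfold step; fun_prop
  · intro a i hi
    rw [sz_str, levW_len]
    exact hi

@[fun_prop] theorem ptf_Pos {α : Type} [Cd α] {A : α → List Str} {x ρ : α → Str}
    (hA : PTF A) (hx : PTF x) (hρ : PTF ρ) : PTF (fun a => g.Pos (A a) (x a) (ρ a)) := by
  unfold Pos; fun_prop

theorem length_walk (A : List Str) (x ρ : Str) : (g.walk A x ρ).length = g.l x.length :=
  levW_len g A x ρ _

theorem Pos_sound {A : List Str} {x ρ : Str} (h : g.Pos A x ρ) : g.Sat x ρ :=
  ⟨_, g.length_walk A x ρ, h⟩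

/-- invariant: the current item is satisfiable (`itm_step`) -/
theorem Pos_complete {n : ℕ} {A : List Str} (hA : g.Good n A) {x ρ : Str} (hx : x.length = n)
    (hρ : ρ.length = g.r n) (h : g.Sat x ρ) : g.Pos A x ρ := by
  have key : ∀ i : ℕ, i ≤ g.l n → g.itm x ρ ((g.step A x ρ)^[i] []) := by
    intro i
    induction i with
    | zero =>
      intro _
      exact g.itm_nil.2 h
    | succ i ih =>
      intro hi
      have h1 := ih (by omega)
      have hl := levW_len g A x ρ i
      rw [iterate_succ_apply']
      set lam := (g.step A x ρ)^[i] [] with hlam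
      have h2 := (g.itm_step (by rw [hx, hl]; omega)).1 h1
      have h3 := hA x ρ (lam ++ [false]) hx hρ (by
        rw [List.length_append, List.length_singleton, hl]; exact hi)
      unfold step
      split_ifs with hd
      · exact h3.2 hd
      · rcases h2 with h2 | h2
        · exact absurd (h3.1 h2) hd
        · exact h2
  have hfin := key (g.l n) le_rfl
  have hw : g.walk A x ρ = (g.step A x ρ)^[g.l n] [] := by
    unfold walk
    rw [hx]
  unfold Pos
  rw [← hw] at hfin
  exact (g.itm_leaf (g.length_walk A x ρ)).1 hfin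

end Lev

end Pool.Agent.Helper33.TQ
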