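import Pool.Agent.Helper33.TQ.WWrun

section
/-! Certificates for the win-win theorem. -/

namespace Pool.Agent.Helper33.TQ

open Function Pool.Agent.Helper72

/-- the data of the win-win theorem -/
structure WW extends GData where
  D : TQD
  M : ℕ → ℕ
  hM : PTF M

namespace WW

variable (g : WW)

/-- words easy at parameter `n` -/
def ez (n : ℕ) (z : Str) : Prop := g.D.easy (g.M n) z

@[fun_prop] theorem npp_ez {α : Type} [Cd α] {f : α → ℕ} {z : α → Str} (hf : PTF f)
    (hz : PTF z) : NPP (fun a => g.ez (f a) (z a)) :=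
  g.D.npp_easy (PTF.comp g.hM hf) hz

/-- formula of `Inc n a x` -/
noncomputable def c (n : ℕ) (a x : Str) : Str := karp g.toGData.npp_Inc (n, a, x)

/-- formula of `Pk n k y` -/
noncomputable def π (n k : ℕ) (y : Str) : Str := karp g.toGData.npp_Pk (n, k, y)

@[simp] theorem mem_c (n : ℕ) (a x : Str) : g.c n a x ∈ SAT ↔ g.Inc n a x := by simp [c]
@[simp] theorem mem_π (n k : ℕ) (y : Str) : g.π n k y ∈ SAT ↔ g.Pk n k y := by simp [π]

@[fun_prop] theorem ptf_c {α : Type} [Cd α] {n : α → ℕ} {a x : α → Str} (hn : PTF n)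
    (ha : PTF a) (hx : PTF x) : PTF (fun t => g.c (n t) (a t) (x t)) :=
  PTF.comp (karp_ptf g.toGData.npp_Inc) (hn.mk (ha.mk hx))

@[fun_prop] theorem ptf_π {α : Type} [Cd α] {n k : α → ℕ} {y : α → Str} (hn : PTF n)
    (hk : PTF k) (hy : PTF y) : PTF (fun t => g.π (n t) (k t) (y t)) :=
  PTF.comp (karp_ptf g.toGData.npp_Pk) (hn.mk (hk.mk hy))

/-- `x` is certified as the root label of a correct tree for `a` -/
def RootC (n : ℕ) (a x : Str) : Prop := x.length = g.m n ∧
  ((a.length < 2 * g.m n ∧ g.ez n (g.c n a x)) ∨ (a.length = 2 * g.m n ∧ g.G n x = a))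

@[fun_prop] theorem npp_RootC {α : Type} [Cd α] {n : α → ℕ} {a x : α → Str} (hn : PTF n)
    (ha : PTF a) (hx : PTF x) : NPP (fun t => g.RootC (n t) (a t) (x t)) := by
  have hm := g.hm
  unfold RootC
  fun_prop

def B (n : ℕ) (a : Str) : Prop := ∃ x, g.RootC n a x

theorem npp_B' : NPP (fun t : ℕ × Str => g.B t.1 t.2) := by
  have hm := g.hm
  refine NPP.ex (p := fun (t : ℕ × Str) x => g.RootC t.1 t.2 x) (by fun_prop)
    (g := fun t => g.m t.1) (by fun_prop) ?_
  rintro t x ⟨h, -⟩
  simp [h]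

@[fun_prop] theorem npp_B {α : Type} [Cd α] {n : α → ℕ} {a : α → Str} (hn : PTF n)
    (ha : PTF a) : NPP (fun t => g.B (n t) (a t)) :=
  NPP.comp (p := fun t : ℕ × Str => g.B t.1 t.2) g.npp_B' (hn.mk ha)

/-- formula of `B n a` -/
noncomputable def β (n : ℕ) (a : Str) : Str :=
  if a.length = 2 * g.m n then g.π n 0 a else karp g.npp_B' (n, a)

@[fun_prop] theorem ptf_β {α : Type} [Cd α] {n : α → ℕ} {a : α → Str} (hn : PTF n)
    (ha : PTF a) : PTF (fun t => g.β (n t) (a t)) := by
  have hm := g.hm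
  have := karp_ptf g.npp_B'
  unfold β
  fun_prop

theorem mem_β {n : ℕ} {a : Str} (ha : a.length ≤ 2 * g.m n) : g.β n a ∈ SAT ↔ g.B n a := by
  unfold β
  split_ifs with h
  · rw [mem_π]
    unfold B RootC GData.Pk
    simp [h, GData.G]
  · simp

/-- `a` is certified as the beginning of the canonical path -/
def Cert (n : ℕ) (a : Str) : Prop := a.length ≤ 2 * g.m n ∧ ∀ j < a.length,
  g.ez n (g.β n (a.take (j + 1))) ∧ (a.getD j false = true → g.B n (a.take j ++ [false]))

@[fun_prop] theorem npp_Cert {α : Type} [Cd α] {n : α → ℕ} {a : α → Str} (hn : PTF n)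
    (ha : PTF a) : NPP (fun t => g.Cert (n t) (a t)) := by
  have hm := g.hm
  unfold Cert
  fun_prop

def E (n j : ℕ) : Prop := ∃ a : Str, a.length = j ∧ g.Cert n a

theorem npp_E : NPP (fun t : ℕ × ℕ => g.E t.1 t.2) := by
  refine NPP.ex (p := fun (t : ℕ × ℕ) (a : Str) => a.length = t.2 ∧ g.Cert t.1 a) (by fun_prop)
    (g := fun t => t.2) (by fun_prop) ?_
  rintro t a ⟨h, -⟩
  simp [h]

/-- formula of `E n j` -/
noncomputable def e (n j : ℕ) : Str := karp g.npp_E (n, j)

@[simp] theorem mem_e (n j : ℕ) : g.e n j ∈ SAT ↔ g.E n j := by simp [e]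

@[fun_prop] theorem ptf_e {α : Type} [Cd α] {n j : α → ℕ} (hn : PTF n)
    (hj : PTF j) : PTF (fun t => g.e (n t) (j t)) :=
  PTF.comp (karp_ptf g.npp_E) (hn.mk hj)

/-- `y` is certified to be outside of the range of `G n` -/
def YC (n : ℕ) (y : Str) : Prop := y.length = 2 * g.m n ∧ g.ez n (g.π n 0 y)

/-- `T` is certified to be outside of the range of `G0 n` -/
def TC (n : ℕ) (T : Str) : Prop := T.length = g.m n + 1 ∧ ∃ y : Str, ∃ k : ℕ,
  y.length = 2 * g.m n ∧ k < g.m n ∧ g.ez n (g.π n k y) ∧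
    g.run n (g.m n - k - 1) T.tail = y.drop (k + 1) ∧ T.take 1 = (y.drop k).take 1

@[fun_prop] theorem npp_YC {α : Type} [Cd α] {n : α → ℕ} {a : α → Str} (hn : PTF n)
    (ha : PTF a) : NPP (fun t => g.YC (n t) (a t)) := by
  have hm := g.hm
  unfold YC
  fun_prop

theorem npp_TC : NPP (fun t : ℕ × Str => g.TC t.1 t.2) := by
  have hm := g.hm
  unfold TC
  refine NPP.and (by fun_prop) ?_
  refine NPP.ex (p := fun (t : ℕ × Str) (y : Str) => ∃ k : ℕ,
    y.length = 2 * g.m t.1 ∧ k < g.m t.1 ∧ g.ez t.1 (g.π t.1 k y) ∧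
    g.run t.1 (g.m t.1 - k - 1) t.2.tail = y.drop (k + 1) ∧ t.2.take 1 = (y.drop k).take 1)
    ?_ (g := fun t => 2 * g.m t.1) (by fun_prop) ?_
  · refine NPP.ex (p := fun (t : (ℕ × Str) × Str) (k : ℕ) =>
      t.2.length = 2 * g.m t.1.1 ∧ k < g.m t.1.1 ∧ g.ez t.1.1 (g.π t.1.1 k t.2) ∧
      g.run t.1.1 (g.m t.1.1 - k - 1) t.1.2.tail = t.2.drop (k + 1) ∧
      t.1.2.take 1 = (t.2.drop k).take 1) (by fun_prop) (g := fun t => g.m t.1.1)
      (by fun_prop) ?_
    rintro t k ⟨-, h, -⟩
    simp; omega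
  · rintro t y ⟨k, h, -⟩
    simp [h]

/-- the five nondeterministic decision procedures for the complement of `SAT` -/
def D1 (n : ℕ) (F : Str) : Prop := ∃ a : Str, a.length < 2 * g.m n ∧ g.Cert n a ∧
  g.ez n (g.e n (a.length + 1)) ∧ g.D.N (g.β n (a ++ [false])) F ∧
    g.D.N (g.β n (a ++ [true])) F

def D2 (n : ℕ) (F : Str) : Prop := ∀ j < 2 * g.m n, g.D.N (g.e n (j + 1)) F

def D3 (n : ℕ) (F : Str) : Prop := ∃ a x0 x1 x : Str, a.length < 2 * g.m n ∧ g.Cert n a ∧
  g.RootC n (a ++ [false]) x0 ∧ g.RootC n (a ++ [true]) x1 ∧ x.length = g.m n ∧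
    g.G n x = x0 ++ x1 ∧ g.D.N (g.c n a x) F

def D4 (n : ℕ) (F : Str) : Prop := ∃ a x0 x1 : Str, a.length < 2 * g.m n ∧ g.Cert n a ∧
  g.RootC n (a ++ [false]) x0 ∧ g.RootC n (a ++ [true]) x1 ∧ g.D.N (g.π n 0 (x0 ++ x1)) F

def D5 (n : ℕ) (F : Str) : Prop := ∃ y : Str, g.YC n y ∧
  ∀ k < g.m n, g.D.N (g.π n k y) F

end WW

end Pool.Agent.Helper33.TQ

end

section
/-! The five procedures of the win-win theorem are in NP. -/

namespace Pool.Agent.Helper33.TQ

open Function Pool.Agent.Helper72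

namespace WW



variable (g : WW)

@[fun_prop] theorem npp_N {α : Type} [Cd α] {z F : α → Str} (hz : PTF z)
    (hF : PTF F) : NPP (fun t => g.D.N (z t) (F t)) := g.D.npp_N hz hF

theorem npp_D1 : NPP (fun t : ℕ × Str => g.D1 t.1 t.2) := by
  have hm := g.hm
  refine NPP.ex (p := fun (t : ℕ × Str) (a : Str) => a.length < 2 * g.m t.1 ∧ g.Cert t.1 a ∧
    g.ez t.1 (g.e t.1 (a.length + 1)) ∧ g.D.N (g.β t.1 (a ++ [false])) t.2 ∧
    g.D.N (g.β t.1 (a ++ [true])) t.2) (by fun_prop) (g := fun t => 2 * g.m t.1)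
    (by fun_prop) ?_
  rintro t a ⟨h, -⟩
  simpa using h.le

theorem npp_D2 : NPP (fun t : ℕ × Str => g.D2 t.1 t.2) := by
  have hm := g.hm
  unfold D2
  fun_prop

theorem npp_D3 : NPP (fun t : ℕ × Str => g.D3 t.1 t.2) := by
  have hm := g.hm
  refine NPP.congr (p := fun t : ℕ × Str => ∃ z : Str × Str × Str × Str,
    z.1.length < 2 * g.m t.1 ∧ g.Cert t.1 z.1 ∧ g.RootC t.1 (z.1 ++ [false]) z.2.1 ∧
    g.RootC t.1 (z.1 ++ [true]) z.2.2.1 ∧ z.2.2.2.length = g.m t.1 ∧
    g.G t.1 z.2.2.2 = z.2.1 ++ z.2.2.1 ∧ g.D.N (g.c t.1 z.1 z.2.2.2) t.2) ?_ ?_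
  · refine NPP.ex (p := fun (t : ℕ × Str) (z : Str × Str × Str × Str) =>
      z.1.length < 2 * g.m t.1 ∧ g.Cert t.1 z.1 ∧ g.RootC t.1 (z.1 ++ [false]) z.2.1 ∧
      g.RootC t.1 (z.1 ++ [true]) z.2.2.1 ∧ z.2.2.2.length = g.m t.1 ∧
      g.G t.1 z.2.2.2 = z.2.1 ++ z.2.2.1 ∧ g.D.N (g.c t.1 z.1 z.2.2.2) t.2) (by fun_prop)
      (g := fun t => 2 * (2 * g.m t.1) + 2 + (2 * g.m t.1 + 2 + (2 * g.m t.1 + 2 + g.m t.1)))
      (by fun_prop) ?_
    rintro t ⟨a, x0, x1, x⟩ ⟨h1, -, ⟨h2, -⟩, ⟨h3, -⟩, h4, -⟩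
    simp only [sz_pair, sz_str] at *
    omega
  · intro t
    constructor
    · rintro ⟨⟨a, x0, x1, x⟩, h⟩
      exact ⟨a, x0, x1, x, h⟩
    · rintro ⟨a, x0, x1, x, h⟩
      exact ⟨⟨a, x0, x1, x⟩, h⟩

theorem npp_D4 : NPP (fun t : ℕ × Str => g.D4 t.1 t.2) := by
  have hm := g.hm
  refine NPP.congr (p := fun t : ℕ × Str => ∃ z : Str × Str × Str,
    z.1.length < 2 * g.m t.1 ∧ g.Cert t.1 z.1 ∧ g.RootC t.1 (z.1 ++ [false]) z.2.1 ∧
    g.RootC t.1 (z.1 ++ [true]) z.2.2 ∧ g.D.N (g.π t.1 0 (z.2.1 ++ z.2.2)) t.2) ?_ ?_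
  · refine NPP.ex (p := fun (t : ℕ × Str) (z : Str × Str × Str) =>
      z.1.length < 2 * g.m t.1 ∧ g.Cert t.1 z.1 ∧ g.RootC t.1 (z.1 ++ [false]) z.2.1 ∧
      g.RootC t.1 (z.1 ++ [true]) z.2.2 ∧ g.D.N (g.π t.1 0 (z.2.1 ++ z.2.2)) t.2)
      (by fun_prop)
      (g := fun t => 2 * (2 * g.m t.1) + 2 + (2 * g.m t.1 + 2 + g.m t.1))
      (by fun_prop) ?_
    rintro t ⟨a, x0, x1⟩ ⟨h1, -, ⟨h2, -⟩, ⟨h3, -⟩, -⟩
    simp only [sz_pair, sz_str] at *
    omega
  · intro t
    constructor
    · rintro ⟨⟨a, x0, x1⟩, h⟩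
      exact ⟨a, x0, x1, h⟩
    · rintro ⟨a, x0, x1, h⟩
      exact ⟨⟨a, x0, x1⟩, h⟩

theorem npp_D5 : NPP (fun t : ℕ × Str => g.D5 t.1 t.2) := by
  have hm := g.hm
  refine NPP.ex (p := fun (t : ℕ × Str) (y : Str) => g.YC t.1 y ∧
    ∀ k < g.m t.1, g.D.N (g.π t.1 k y) t.2) (by fun_prop) (g := fun t => 2 * g.m t.1)
    (by fun_prop) ?_
  rintro t y ⟨⟨h, -⟩, -⟩
  simp [h]

end WW

end Pool.Agent.Helper33.TQ

end

section
/-! Module TQ WWtree: combinatorics of the tree. -/

namespace Pool.Agent.Helper33.TQ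

open Function Pool.Agent.Helper72

namespace GData

variable (g : GData)

private theorem wwtree_decG_cons (n : ℕ) (x : Str) (b : Bool) (i : Str) :
    g.decG n x (b :: i) = g.decG n (g.half n b (g.G n x)) i := rfl

/-- if both halves of `G n x` are roots of correct trees for `a0` and `a1` then `x` is the root
of a correct tree for `a` -/
theorem inc_split {n : ℕ} {a x x0 x1 : Str} (ha : a.length < 2 * g.m n)
    (hx : g.G n x = x0 ++ x1) (h0 : x0.length = g.m n) (h1 : x1.length = g.m n)
    (hc0 : ¬ g.Inc n (a ++ [false]) x0) (hc1 : ¬ g.Inc n (a ++ [true]) x1) :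
    ¬ g.Inc n a x := by
  have _ := h1
  rintro ⟨i, hi, hne⟩
  cases i with
  | nil => simp at hi; omega
  | cons b i =>
    apply hne
    rw [wwtree_decG_cons, hx]
    have e0 : g.half n false (x0 ++ x1) = x0 := by
      simp [half, ← h0]
    have e1 : g.half n true (x0 ++ x1) = x1 := by
      simp [half, ← h0]
    rw [List.length_cons] at hi
    cases b with
    | false =>
      rw [e0]
      by_contra h
      refine hc0 ⟨i, ?_, ?_⟩
      · simp; omega
      · simpa using h
    | true =>
      rw [e1]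
      by_contra h
      refine hc1 ⟨i, ?_, ?_⟩
      · simp; omega
      · simpa using h

/-- no tree is correct for the empty word: the map `i ↦ G n (decG n x i)` would be surjective
onto the words of length `2 * m n`, but `G n` has at most `2 ^ m n` values on words of
length `m n` -/
theorem inc_nil {n : ℕ} {x : Str} (hx : x.length = g.m n) : g.Inc n [] x := by
  by_contra hcon
  have key : ∀ i : Str, i.length = 2 * g.m n → g.G n (g.decG n x i) = i := by
    intro i hi
    by_contra h
    exact hcon ⟨i, by simpa using hi, by simpa using h⟩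
  let f : List.Vector Bool (2 * g.m n) → List.Vector Bool (g.m n) :=
    fun i => ⟨g.decG n x i.1, g.length_decG hx⟩
  have hinj : Injective f := by
    intro i j hij
    have h1 : g.decG n x i.1 = g.decG n x j.1 := congrArg Subtype.val hij
    have h2 := key i.1 i.2
    rw [h1, key j.1 j.2] at h2
    exact Subtype.ext h2.symm
  have hcard := Fintype.card_le_of_injective f hinj
  rw [card_vector, card_vector, Fintype.card_bool] at hcard
  have h3 := (Nat.pow_le_pow_iff_right (by norm_num : 1 < 2)).1 hcard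
  have := g.hm0 n
  omega

/-- at a leaf, correctness means `G n x = a` -/
theorem not_inc_leaf {n : ℕ} {a x : Str} (ha : a.length = 2 * g.m n) :
    ¬ g.Inc n a x ↔ g.G n x = a := by
  constructor
  · intro h
    by_contra hne
    refine h ⟨[], by simp [ha], ?_⟩
    simpa [decG] using hne
  · rintro h ⟨i, hi, hne⟩
    have hi0 : i = [] := by
      apply List.eq_nil_of_length_eq_zero
      omega
    subst hi0
    apply hne
    simpa [decG] using h

theorem Pk_last {n : ℕ} {y : Str} (hy : y.length = 2 * g.m n) : g.Pk n (g.m n) y := by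
  refine ⟨y.drop (g.m n), ?_, ?_⟩
  · rw [List.length_drop]; omega
  · rw [Nat.sub_self]; rfl

/-- backward step: a run for `k + 1` and a preimage of the next word give a run for `k` -/
theorem Pk_of_preimage {n k : ℕ} {y T x : Str} (hk : k < g.m n) (hy : y.length = 2 * g.m n)
    (hx : x.length = g.m n) (hT : g.G0 n x = T)
    (hrun : g.run n (g.m n - k - 1) T.tail = y.drop (k + 1))
    (hhead : T.take 1 = (y.drop k).take 1) : g.Pk n k y := by
  have _ := hy
  refine ⟨x, hx, ?_⟩
  obtain ⟨j, hj⟩ : ∃ j, g.m n - k = j + 1 := ⟨g.m n - k - 1, by omega⟩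
  have hj' : g.m n - k - 1 = j := by omega
  rw [hj'] at hrun
  rw [hj]
  show (g.G0 n x).take 1 ++ g.run n j (g.G0 n x).tail = y.drop k
  rw [hT, hrun, hhead]
  have h2 : y.drop (k + 1) = (y.drop k).drop 1 := by
    rw [List.drop_drop]
  rw [h2]
  exact List.take_append_drop 1 (y.drop k)

end GData

end Pool.Agent.Helper33.TQ

end

section
/-! Module TQ WWpath: the canonical path and its certificates. -/

namespace Pool.Agent.Helper33.TQ

open Function Pool.Agent.Helper72

namespace WW

variable (g : WW)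

theorem ez_sound {n : ℕ} {z : Str} (h : g.ez n z) : z ∉ SAT := TQD.easy_sound h

/-- a certified root label is correct -/
theorem RootC_sound {n : ℕ} {a x : Str} (h : g.RootC n a x) : ¬ g.Inc n a x := by
  obtain ⟨-, ⟨-, h2⟩ | ⟨h1, h2⟩⟩ := h
  · intro h3
    exact g.ez_sound h2 ((g.mem_c n a x).2 h3)
  · exact (g.toGData.not_inc_leaf h1).2 h2

theorem Cert_nil (n : ℕ) : g.Cert n [] := by
  refine ⟨by simp, fun j hj => ?_⟩
  simp at hj

private theorem wwpath_not_B {n : ℕ} {a : Str} (ha : a.length ≤ 2 * g.m n)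
    (h : g.ez n (g.β n a)) : ¬ g.B n a := fun h2 =>
  g.ez_sound h ((g.mem_β ha).2 h2)

theorem Cert_take {n : ℕ} {a : Str} (h : g.Cert n a) (j : ℕ) : g.Cert n (a.take j) := by
  refine ⟨?_, fun i hi => ?_⟩
  · exact (by rw [List.length_take]; exact min_le_right _ _ : (a.take j).length ≤ a.length).trans h.1
  · rw [List.length_take, lt_min_iff] at hi
    have h1 := h.2 i hi.2
    rw [List.take_take, List.take_take, min_eq_left (by omega : i + 1 ≤ j),
      min_eq_left (by omega : i ≤ j)]
    refine ⟨h1.1, fun h2 => h1.2 ?_⟩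
    rw [← h2]
    simp only [List.getD_eq_getElem?_getD]
    rw [List.getElem?_take_of_lt hi.1]

/-- extension of a certified word -/
theorem Cert_snoc {n : ℕ} {a : Str} (ha : g.Cert n a) (hl : a.length < 2 * g.m n) (b : Bool)
    (h1 : g.ez n (g.β n (a ++ [b]))) (h2 : b = true → g.B n (a ++ [false])) :
    g.Cert n (a ++ [b]) := by
  refine ⟨by simp; omega, fun j hj => ?_⟩
  rw [List.length_append, List.length_singleton] at hj
  rcases Nat.lt_succ_iff_lt_or_eq.1 hj with hj | rfl
  · have h3 := ha.2 j hj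
    rw [List.take_append_of_le_length (by omega), List.take_append_of_le_length (by omega)]
    refine ⟨h3.1, fun h4 => h3.2 ?_⟩
    rw [← h4]
    simp only [List.getD_eq_getElem?_getD]
    rw [List.getElem?_append_left hj]
  · have e1 : (a ++ [b]).take (a.length + 1) = a ++ [b] := List.take_of_length_le (by simp)
    have e2 : (a ++ [b]).take a.length = a := List.take_left
    have e3 : (a ++ [b]).getD a.length false = b := by
      simp [List.getD_eq_getElem?_getD]
    rw [e1, e2, e3]
    exact ⟨h1, h2⟩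

private theorem wwpath_last {n : ℕ} {p : Str} {b : Bool} (h : g.Cert n (p ++ [b])) :
    ¬ g.B n (p ++ [b]) ∧ (b = true → g.B n (p ++ [false])) := by
  have h1 := h.2 p.length (by simp)
  have e1 : (p ++ [b]).take (p.length + 1) = p ++ [b] := List.take_of_length_le (by simp)
  have e2 : (p ++ [b]).take p.length = p := List.take_left
  have e3 : (p ++ [b]).getD p.length false = b := by
    simp [List.getD_eq_getElem?_getD]
  rw [e1, e2, e3] at h1
  exact ⟨g.wwpath_not_B h.1 h1.1, h1.2⟩

private theorem wwpath_init {n : ℕ} {p : Str} {b : Bool} (h : g.Cert n (p ++ [b])) :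
    g.Cert n p := by
  have h1 := g.Cert_take h p.length
  rwa [List.take_left] at h1

/-- certified words are on one path -/
theorem Cert_unique {n : ℕ} {a a' : Str} (h : g.Cert n a) (h' : g.Cert n a')
    (hl : a.length = a'.length) : a = a' := by
  induction a using List.reverseRecOn generalizing a' with
  | nil =>
    exact (List.eq_nil_of_length_eq_zero hl.symm).symm
  | append_singleton p b ih =>
    rcases List.eq_nil_or_concat a' with rfl | ⟨p', b', rfl⟩
    · simp at hl
    · rw [List.concat_eq_append] at *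
      have hp : p = p' := ih (g.wwpath_init h) (g.wwpath_init h') (by simpa using hl)
      subst hp
      have h1 := g.wwpath_last h
      have h2 := g.wwpath_last h'
      cases b <;> cases b'
      · rfl
      · exact absurd (h2.2 rfl) h1.1
      · exact absurd (h1.2 rfl) h2.1
      · rfl

/-- a certified word has no certified root label; for the empty word this is `inc_nil` -/
theorem not_B_of_Cert {n : ℕ} {a : Str} (h : g.Cert n a) : ¬ g.B n a := by
  rcases List.eq_nil_or_concat a with rfl | ⟨p, b, rfl⟩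
  · rintro ⟨x, hx⟩
    exact g.RootC_sound hx (g.toGData.inc_nil hx.1)
  · rw [List.concat_eq_append] at *
    exact (g.wwpath_last h).1

/-- if both children of a certified word have certified root labels then no certified word is
longer -/
theorem le_of_split {n : ℕ} {a a' : Str} (h : g.Cert n a) (h0 : g.B n (a ++ [false]))
    (h1 : g.B n (a ++ [true])) (h' : g.Cert n a') : a'.length ≤ a.length := by
  by_contra hc
  rw [not_le] at hc
  have e1 : a'.take (a.length + 1) = a'.take a.length ++ [a'[a.length]] := by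
    rw [List.take_append_getElem]
  have e2 : a = a'.take a.length := g.Cert_unique h (g.Cert_take h' _) (by
    rw [List.length_take]; omega)
  rw [← e2] at e1
  have h2 := g.Cert_take h' (a.length + 1)
  rw [e1] at h2
  have h3 := (g.wwpath_last h2).1
  cases hb : a'[a.length] with
  | false => rw [hb] at h3; exact h3 h0
  | true => rw [hb] at h3; exact h3 h1

/-- certified words outside of the range of `G0` -/
theorem TC_sound {n : ℕ} {T : Str} (h : g.TC n T) {x : Str} (hx : x.length = g.m n) :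
    g.G0 n x ≠ T := by
  intro hT
  obtain ⟨-, y, k, hy, hk, he, hrun, hhead⟩ := h
  exact g.ez_sound he ((g.mem_π n k y).2
    (g.toGData.Pk_of_preimage hk hy hx hT hrun hhead))

end WW

end Pool.Agent.Helper33.TQ

end

section
/-! Module TQ WWcases: the case distinction of the win-win theorem. -/

namespace Pool.Agent.Helper33.TQ

open Function Pool.Agent.Helper72

namespace WW

variable (g : WW)

/-- if some `y` is certified outside of the range of `G` then `D5` is correct or some `T` is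
certified outside of the range of `G0` -/
theorem case_YC {n : ℕ} {y : Str} (hy : g.YC n y) (hT : ¬ ∃ T, g.TC n T) {F : Str}
    (hF : F.length ≤ g.M n) : F ∉ SAT ↔ g.D5 n F := by
  constructor
  · intro h
    exact ⟨y, hy, fun k _ => TQD.N_of_not_mem h⟩
  · rintro ⟨y', ⟨hl, he⟩, hN⟩ hS
    have key : ∀ k ≤ g.m n, ¬ g.Pk n k y' := by
      intro k
      induction k with
      | zero =>
        intro _ h
        exact g.ez_sound he ((g.mem_π n 0 y').2 h)
      | succ k ih =>
        intro hk hP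
        have hno := ih (by omega)
        obtain ⟨x', hx', hr⟩ := hP
        have hns : g.π n k y' ∉ SAT := fun h => hno ((g.mem_π n k y').1 h)
        have hne : ¬ g.ez n (g.π n k y') := by
          intro hez
          have h1 : ((y'.drop k).take 1).length = 1 := by
            rw [List.length_take, List.length_drop]
            omega
          obtain ⟨c, hc⟩ := List.length_eq_one_iff.1 h1
          refine hT ⟨(y'.drop k).take 1 ++ x', ?_, y', k, hl, by omega, hez, ?_, ?_⟩
          · rw [List.length_append, h1, hx']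
            omega
          · rw [hc]
            have h2 : g.m n - k - 1 = g.m n - (k + 1) := by omega
            rw [h2]
            exact hr
          · rw [hc]
            rfl
        exact (TQD.N_iff hns hne hF).1 (hN k (by omega)) hS
    exact key _ le_rfl (g.Pk_last hl)

/-- the first certificate-free level has a hard formula -/
theorem case_hardE {n j : ℕ} (hj : j < 2 * g.m n) (h1 : ¬ g.E n (j + 1))
    (h2 : ¬ g.ez n (g.e n (j + 1))) {F : Str} (hF : F.length ≤ g.M n) :
    F ∉ SAT ↔ g.D2 n F := by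
  constructor
  · intro h j _
    exact TQD.N_of_not_mem h
  · intro h
    exact (TQD.N_iff (fun h3 => h1 ((g.mem_e n (j + 1)).1 h3)) h2 hF).1 (h j hj)

/-- `a` is the last certified word, the next level is certified to be empty, and one of the
children has no certified root label -/
theorem case_D1 {n : ℕ} {a : Str} (ha : g.Cert n a) (hl : a.length < 2 * g.m n)
    (he : g.ez n (g.e n (a.length + 1))) (hB : ¬ (g.B n (a ++ [false]) ∧ g.B n (a ++ [true])))
    {F : Str} (hF : F.length ≤ g.M n) : F ∉ SAT ↔ g.D1 n F := by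
  constructor
  · intro h
    exact ⟨a, hl, ha, he, TQD.N_of_not_mem h, TQD.N_of_not_mem h⟩
  · rintro ⟨a', hl', ha', he', hN0, hN1⟩
    have nE : ∀ j, g.ez n (g.e n j) → ¬ g.E n j := fun j h h' =>
      g.ez_sound h ((g.mem_e n j).2 h')
    have hlen : a.length = a'.length := by
      rcases lt_trichotomy a.length a'.length with h | h | h
      · exact absurd ⟨a'.take (a.length + 1), by rw [List.length_take]; omega,
          g.Cert_take ha' _⟩ (nE _ he)
      · exact h
      · exact absurd ⟨a.take (a'.length + 1), by rw [List.length_take]; omega,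
          g.Cert_take ha _⟩ (nE _ he')
    have haa : a = a' := g.Cert_unique ha ha' hlen
    subst haa
    have hard : ∀ b : Bool, ¬ g.B n (a ++ [b]) → (b = true → g.B n (a ++ [false])) →
        g.D.N (g.β n (a ++ [b])) F → F ∉ SAT := by
      intro b hb hb2 hN
      have hle : (a ++ [b]).length ≤ 2 * g.m n := by
        rw [List.length_append, List.length_singleton]
        omega
      refine (TQD.N_iff (fun h => hb ((g.mem_β hle).1 h)) (fun h => ?_) hF).1 hN
      refine nE _ he ⟨a ++ [b], ?_, g.Cert_snoc ha hl b h hb2⟩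
      rw [List.length_append, List.length_singleton]
    by_cases h0 : g.B n (a ++ [false])
    · exact hard true (fun h1 => hB ⟨h0, h1⟩) (fun _ => h0) hN1
    · exact hard false h0 (fun h => by simp at h) hN0

/-- split with a preimage of a pair of certified root labels -/
theorem case_D3 {n : ℕ} {a x0 x1 x : Str} (ha : g.Cert n a) (hl : a.length < 2 * g.m n)
    (h0 : g.RootC n (a ++ [false]) x0) (h1 : g.RootC n (a ++ [true]) x1)
    (hx : x.length = g.m n) (hG : g.G n x = x0 ++ x1)
    {F : Str} (hF : F.length ≤ g.M n) : F ∉ SAT ↔ g.D3 n F := by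
  constructor
  · intro h
    exact ⟨a, x0, x1, x, hl, ha, h0, h1, hx, hG, TQD.N_of_not_mem h⟩
  · rintro ⟨a', y0, y1, y, hl', ha', h0', h1', hy, hGy, hN⟩
    refine (TQD.N_iff (fun h => ?_) (fun h => ?_) hF).1 hN
    · exact g.inc_split hl' hGy h0'.1 h1'.1 (g.RootC_sound h0') (g.RootC_sound h1')
        ((g.mem_c n a' y).1 h)
    · exact g.not_B_of_Cert ha' ⟨y, hy, Or.inl ⟨hl', h⟩⟩

/-- split without a preimage of a pair of certified root labels -/
theorem case_D4 {n : ℕ} {a x0 x1 : Str} (ha : g.Cert n a) (hl : a.length < 2 * g.m n)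
    (h0 : g.RootC n (a ++ [false]) x0) (h1 : g.RootC n (a ++ [true]) x1)
    (hno : ∀ a x0 x1 x : Str, a.length < 2 * g.m n → g.Cert n a →
      g.RootC n (a ++ [false]) x0 → g.RootC n (a ++ [true]) x1 → x.length = g.m n →
      g.G n x ≠ x0 ++ x1) (hY : ¬ ∃ y, g.YC n y)
    {F : Str} (hF : F.length ≤ g.M n) : F ∉ SAT ↔ g.D4 n F := by
  constructor
  · intro h
    exact ⟨a, x0, x1, hl, ha, h0, h1, TQD.N_of_not_mem h⟩
  · rintro ⟨a', y0, y1, hl', ha', h0', h1', hN⟩
    refine (TQD.N_iff (fun h => ?_) (fun h => ?_) hF).1 hN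
    · obtain ⟨x, hx, hr⟩ := (g.mem_π n 0 (y0 ++ y1)).1 h
      exact hno a' y0 y1 x hl' ha' h0' h1' hx hr
    · refine hY ⟨y0 ++ y1, ?_, h⟩
      rw [List.length_append, h0'.1, h1'.1]
      omega

/-- the win-win theorem -/
theorem winwin (n : ℕ) : (∃ T, g.TC n T) ∨
    (∀ F : Str, F.length ≤ g.M n → (F ∉ SAT ↔ g.D1 n F)) ∨
    (∀ F : Str, F.length ≤ g.M n → (F ∉ SAT ↔ g.D2 n F)) ∨
    (∀ F : Str, F.length ≤ g.M n → (F ∉ SAT ↔ g.D3 n F)) ∨
    (∀ F : Str, F.length ≤ g.M n → (F ∉ SAT ↔ g.D4 n F)) ∨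
    (∀ F : Str, F.length ≤ g.M n → (F ∉ SAT ↔ g.D5 n F)) := by
  classical
  by_contra hcon
  simp only [not_or] at hcon
  obtain ⟨hT, n1, n2, n3, n4, n5⟩ := hcon
  have hY : ¬ ∃ y, g.YC n y := by
    rintro ⟨y, hy⟩
    exact n5 fun F hF => g.case_YC hy hT hF
  -- every level with a certified word, except the last, has a certified word on the next level
  have key : ∀ j ≤ 2 * g.m n, ∃ a : Str, a.length = j ∧ g.Cert n a := by
    intro j
    induction j with
    | zero => intro _; exact ⟨[], rfl, g.Cert_nil n⟩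
    | succ j ih =>
      intro hj
      obtain ⟨a, ha1, ha2⟩ := ih (by omega)
      by_contra hE
      have hE' : ¬ g.E n (j + 1) := hE
      have hez : g.ez n (g.e n (j + 1)) := by
        by_contra h
        exact n2 fun F hF => g.case_hardE (by omega) hE' h hF
      rw [← ha1] at hez
      by_cases hB : g.B n (a ++ [false]) ∧ g.B n (a ++ [true])
      · obtain ⟨⟨x0, h0⟩, x1, h1⟩ := hB
        by_cases hno : ∀ a x0 x1 x : Str, a.length < 2 * g.m n → g.Cert n a →
            g.RootC n (a ++ [false]) x0 → g.RootC n (a ++ [true]) x1 → x.length = g.m n →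
            g.G n x ≠ x0 ++ x1
        · exact n4 fun F hF => g.case_D4 ha2 (by omega) h0 h1 hno hY hF
        · push Not at hno
          obtain ⟨a, x0, x1, x, q1, q2, q3, q4, q5, q6⟩ := hno
          exact n3 fun F hF => g.case_D3 q2 q1 q3 q4 q5 q6 hF
      · exact n1 fun F hF => g.case_D1 ha2 (by omega) hez hB hF
  obtain ⟨a, ha1, ha2⟩ := key _ le_rfl
  refine hY ⟨a, ha1, ?_⟩
  have h2 := ha2.2 (a.length - 1) (by have := g.hm0 n; omega)
  have h3 : a.length - 1 + 1 = a.length := by have := g.hm0 n; omega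
  rw [h3, List.take_length] at h2
  have h4 := h2.1
  unfold β at h4
  rwa [if_pos ha1] at h4

end WW

end Pool.Agent.Helper33.TQ

end
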