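import Pool.Agent.Helper33.TQ.LevR
import Pool.Agent.Helper33.TQ.LevW
import Pool.Agent.Helper33.TQ.Hfin
import Pool.Agent.Helper33.TQ.WWcases

section
/-!
Assembly, part 1: the formulas asking for uncovered coins, the tests, the numerical bounds.
-/

namespace Pool.Agent.Helper33.TQ

open Function Pool.Agent.Helper72

namespace Lev

variable (g : Lev)

/-- shifts for inputs of length `n` -/
def Shf (n : ℕ) (U : List Str) : Prop := U.length = g.k n ∧ ∀ u ∈ U, u.length = g.r n

@[fun_prop] theorem ptf_Shf {α : Type} [Cd α] {n : α → ℕ} {U : α → List Str} (hn : PTF n)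
    (hU : PTF U) : PTF (fun a => g.Shf (n a) (U a)) := by
  unfold Shf; fun_prop

/-- some coins are certified not to be covered by the shifts `U` -/
def Unc (x : Str) (U : List Str) : Prop := ∃ ρ : Str, ρ.length = g.r x.length ∧
  ∀ u ∈ U, g.R x.length (g.κ x (xorS ρ u) [])

theorem npp_Unc : NPP (fun t : Str × List Str => g.Unc t.1 t.2) := by
  refine NPP.ex (p := fun (t : Str × List Str) (ρ : Str) => ρ.length = g.r t.1.length ∧
    ∀ u ∈ t.2, g.R t.1.length (g.κ t.1 (xorS ρ u) [])) (by fun_prop)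
    (g := fun t => g.r t.1.length) (by fun_prop) ?_
  rintro t ρ ⟨h, -⟩
  simp [h]

/-- formula of `Unc` -/
noncomputable def κU (x : Str) (U : List Str) : Str := karp g.npp_Unc (x, U)

@[simp] theorem mem_κU (x : Str) (U : List Str) : g.κU x U ∈ SAT ↔ g.Unc x U := by simp [κU]

@[fun_prop] theorem ptf_κU {α : Type} [Cd α] {x : α → Str} {U : α → List Str} (hx : PTF x)
    (hU : PTF U) : PTF (fun a => g.κU (x a) (U a)) :=
  PTF.comp (karp_ptf g.npp_Unc) (hx.mk hU)

/-- the test: the walk with advice `A` finds no witness for any shift of `ρ` -/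
def Tst (x : Str) (U A : List Str) (ρ : Str) : Prop := ∀ u ∈ U, ¬ g.Pos A x (xorS ρ u)

@[fun_prop] theorem ptf_Tst {α : Type} [Cd α] {x ρ : α → Str} {U A : α → List Str}
    (hx : PTF x) (hU : PTF U) (hA : PTF A) (hρ : PTF ρ) :
    PTF (fun a => g.Tst (x a) (U a) (A a) (ρ a)) := by
  unfold Tst; fun_prop

/-- some coins pass the test -/
def ExT (x : Str) (U A : List Str) : Prop := ∃ ρ : Str, ρ.length = g.r x.length ∧
  g.Tst x U A ρ

theorem npp_ExT : NPP (fun t : Str × List Str × List Str => g.ExT t.1 t.2.1 t.2.2) := by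
  refine NPP.ex (p := fun (t : Str × List Str × List Str) (ρ : Str) =>
    ρ.length = g.r t.1.length ∧ g.Tst t.1 t.2.1 t.2.2 ρ) (by fun_prop)
    (g := fun t => g.r t.1.length) (by fun_prop) ?_
  rintro t ρ ⟨h, -⟩
  simp [h]

/-- formula of `ExT` -/
noncomputable def κE (x : Str) (U A : List Str) : Str := karp g.npp_ExT (x, U, A)

@[simp] theorem mem_κE (x : Str) (U A : List Str) : g.κE x U A ∈ SAT ↔ g.ExT x U A := by
  simp [κE]

@[fun_prop] theorem ptf_κE {α : Type} [Cd α] {x : α → Str} {U A : α → List Str} (hx : PTF x)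
    (hU : PTF U) (hA : PTF A) : PTF (fun a => g.κE (x a) (U a) (A a)) :=
  PTF.comp (karp_ptf g.npp_ExT) (hx.mk (hU.mk hA))

theorem sz_Shf {n : ℕ} {U : List Str} (h : g.Shf n U) :
    sz U ≤ g.k n * (2 * g.r n + 2) :=
  sz_list_le h.1.le fun u hu => by simp [h.2 u hu]

/-- a bound for the lengths of the formulas of items and of `Unc` -/
theorem exists_M1 : ∃ M1 : ℕ → ℕ, PTF M1 ∧
    (∀ n, ∀ i ∈ g.items n, (g.κ i.1 i.2.1 i.2.2).length ≤ M1 n) ∧
    (∀ (x : Str) (U : List Str), g.Shf x.length U → (g.κU x U).length ≤ M1 x.length) := by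
  obtain ⟨p, hp, hpm, hpb⟩ := PTF.bound (karp_ptf g.npp_itm')
  obtain ⟨q, hq, hqm, hqb⟩ := PTF.bound (karp_ptf g.npp_Unc)
  refine ⟨fun n => p (2 * n + 2 + (2 * g.r n + 2 + g.l n)) +
    q (2 * n + 2 + g.k n * (2 * g.r n + 2)), by fun_prop, ?_, ?_⟩
  · rintro n ⟨x, ρ, lam⟩ ⟨h1, h2, h3⟩
    simp only at h1 h2 h3
    have h4 := hpb (x, ρ, lam)
    have h5 : sz (x, ρ, lam) ≤ 2 * n + 2 + (2 * g.r n + 2 + g.l n) := by
      simp only [sz_pair, sz_str]
      omega
    have h6 := hpm h5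
    have h7 : (g.κ x ρ lam).length = sz (karp g.npp_itm' (x, ρ, lam)) := rfl
    show (g.κ x ρ lam).length ≤ _
    rw [h7]
    exact h4.trans (h6.trans (Nat.le_add_right _ _))
  · intro x U hU
    have h4 := hqb (x, U)
    have h5 : sz (x, U) ≤ 2 * x.length + 2 + g.k x.length * (2 * g.r x.length + 2) := by
      have := g.sz_Shf hU
      simp only [sz_pair, sz_str]
      omega
    have h6 := hqm h5
    have h7 : (g.κU x U).length = sz (karp g.npp_Unc (x, U)) := rfl
    rw [h7]
    exact h4.trans (h6.trans (Nat.le_add_left _ _))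

/-- bound for the lengths of formulas -/
noncomputable def M1 : ℕ → ℕ := g.exists_M1.choose

@[fun_prop] theorem ptf_M1 {α : Type} [Cd α] {n : α → ℕ} (hn : PTF n) :
    PTF (fun a => g.M1 (n a)) := PTF.comp g.exists_M1.choose_spec.1 hn

/-- number of advice formulas -/
def na (n : ℕ) : ℕ := n + g.r n + g.l n + 2

/-- advice of the right size -/
def Adv (n : ℕ) (A : List Str) : Prop := A.length ≤ g.na n ∧ ∀ α ∈ A, α.length ≤ g.M1 n

@[fun_prop] theorem ptf_na {α : Type} [Cd α] {n : α → ℕ} (hn : PTF n) :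
    PTF (fun a => g.na (n a)) := by unfold na; fun_prop

@[fun_prop] theorem ptf_Adv {α : Type} [Cd α] {n : α → ℕ} {A : α → List Str} (hn : PTF n)
    (hA : PTF A) : PTF (fun a => g.Adv (n a) (A a)) := by
  unfold Adv; fun_prop

theorem sz_Adv {n : ℕ} {A : List Str} (h : g.Adv n A) :
    sz A ≤ g.na n * (2 * g.M1 n + 2) := sz_list_le h.1 fun α hα => by simpa using h.2 α hα

/-- bound for the size of a test -/
noncomputable def s (n : ℕ) : ℕ :=
  2 * n + 2 + (2 * (g.k n * (2 * g.r n + 2)) + 2 + g.na n * (2 * g.M1 n + 2))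

@[fun_prop] theorem ptf_s {α : Type} [Cd α] {n : α → ℕ} (hn : PTF n) :
    PTF (fun a => g.s (n a)) := by unfold s; fun_prop

theorem sz_test {x : Str} {U A : List Str} (hU : g.Shf x.length U) (hA : g.Adv x.length A) :
    sz (x, U, A) ≤ g.s x.length := by
  have h1 := g.sz_Shf hU
  have h2 := g.sz_Adv hA
  simp only [sz_pair, sz_str, s]
  omega

theorem exists_M2 : ∃ M2 : ℕ → ℕ, PTF M2 ∧
    ∀ (x : Str) (U A : List Str), g.Shf x.length U → g.Adv x.length A →
      (g.κE x U A).length ≤ M2 x.length := by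
  obtain ⟨p, hp, hpm, hpb⟩ := PTF.bound (karp_ptf g.npp_ExT)
  refine ⟨fun n => p (g.s n), by fun_prop, fun x U A hU hA => ?_⟩
  exact (hpb (x, U, A)).trans (hpm (g.sz_test hU hA))

noncomputable def M2 : ℕ → ℕ := g.exists_M2.choose

/-- the hitting set instance -/
noncomputable def hp : HP (Str × List Str × List Str) where
  Ev := fun _ d ρ => g.Tst d.1 d.2.1 d.2.2 ρ
  hEv := by fun_prop
  r := g.r
  s := g.s
  hr := g.hr
  hs := g.ptf_s PTF.id
  hr0 := g.hr0

/-- the win-win instance -/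
noncomputable def ww : WW := { g.hp.gdata with D := g.D, M := g.M2, hM := g.exists_M2.choose_spec.1 }

theorem len_κ {n : ℕ} {i : Itm} (hi : i ∈ g.items n) :
    (g.κ i.1 i.2.1 i.2.2).length ≤ g.M1 n := g.exists_M1.choose_spec.2.1 n i hi

theorem len_κU {x : Str} {U : List Str} (h : g.Shf x.length U) :
    (g.κU x U).length ≤ g.M1 x.length := g.exists_M1.choose_spec.2.2 x U h

theorem len_κE {x : Str} {U A : List Str} (hU : g.Shf x.length U) (hA : g.Adv x.length A) :
    (g.κE x U A).length ≤ g.ww.M x.length := g.exists_M2.choose_spec.2 x U A hU hA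

end Lev

end Pool.Agent.Helper33.TQ

end

section
/-!
Assembly, part 2: the seven nondeterministic procedures and their correctness.
-/

namespace Pool.Agent.Helper33.TQ

open Function Pool.Agent.Helper72

namespace Lev

variable (g : Lev)

/-- the game decides `L` -/
structure Dec (L : Set Str) : Prop where
  yes : ∀ x ∈ L, ∃ U : List Str, g.Shf x.length U ∧
    ∀ ρ : Str, ρ.length = g.r x.length → ∃ u ∈ U, g.Sat x (xorS ρ u)
  no : ∀ x ∉ L, ∀ U : List Str, g.Shf x.length U →
    2 ^ g.r x.length ≤ 2 * Set.ncard {ρ : Str | ρ.length = g.r x.length ∧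
      ∀ u ∈ U, ¬ g.Sat x (xorS ρ u)}

theorem length_xorS_eq {n : ℕ} {ρ u : Str} (h1 : ρ.length = n) (h2 : u.length = n) :
    (xorS ρ u).length = n := by simp [h1, h2]

variable {g}

theorem Dec.exists_unc {L : Set Str} (h : g.Dec L) {x : Str} (hx : x ∉ L) {U : List Str}
    (hU : g.Shf x.length U) : ∃ ρ : Str, ρ.length = g.r x.length ∧
      ∀ u ∈ U, ¬ g.Sat x (xorS ρ u) := by
  by_contra hcon
  have h1 := h.no x hx U hU
  have h2 : {ρ : Str | ρ.length = g.r x.length ∧ ∀ u ∈ U, ¬ g.Sat x (xorS ρ u)} = ∅ := by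
    ext ρ
    simp only [Set.mem_ofPred_eq, Set.mem_empty_iff_false, iff_false]
    intro hρ
    exact hcon ⟨ρ, hρ⟩
  rw [h2, Set.ncard_empty] at h1
  have : 0 < 2 ^ g.r x.length := by positivity
  omega

variable (g)

/-- accept with a certificate of `¬ Unc` -/
def Acc0 (x : Str) : Prop := ∃ U : List Str, g.Shf x.length U ∧ g.R x.length (g.κU x U)

/-- accept with a certified word outside of the range -/
def AccT (x : Str) : Prop := ∃ (T : Str) (U : List Str), g.ww.TC x.length T ∧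
  g.Shf x.length U ∧ ∀ ρ ∈ g.hp.H x.length T, ∃ u ∈ U, g.Sat x (xorS ρ u)

/-- accept with advice and a nondeterministic procedure for the complement of `SAT` -/
def AccD (Pr : ℕ → Str → Prop) (x : Str) : Prop := ∃ U A : List Str, g.Shf x.length U ∧
  g.Adv x.length A ∧ Pr x.length (g.κE x U A)

theorem npp_Acc0 : NPP (fun x : Str => g.Acc0 x) := by
  refine NPP.ex (p := fun (x : Str) (U : List Str) => g.Shf x.length U ∧
    g.R x.length (g.κU x U)) (by fun_prop)
    (g := fun x => g.k x.length * (2 * g.r x.length + 2)) (by fun_prop) ?_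
  rintro x U ⟨h, -⟩
  exact g.sz_Shf h

theorem npp_AccT : NPP (fun x : Str => g.AccT x) := by
  have hTC : NPP (fun t : (Str × Str) × List Str => g.ww.TC t.1.1.length t.1.2) :=
    NPP.comp (p := fun t : ℕ × Str => g.ww.TC t.1 t.2) g.ww.npp_TC
      (f := fun t : (Str × Str) × List Str => (t.1.1.length, t.1.2)) (by fun_prop)
  have hH : PTF (fun t : (Str × Str) × List Str => g.hp.H t.1.1.length t.1.2) :=
    PTF.comp (f := fun t : ℕ × Str => g.hp.H t.1 t.2) g.hp.ptf_H
      (g := fun t : (Str × Str) × List Str => (t.1.1.length, t.1.2)) (by fun_prop)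
  have hm : PTF (fun x : Str => g.hp.m x.length) := by fun_prop
  refine NPP.ex (p := fun (x T : Str) => ∃ U : List Str, g.ww.TC x.length T ∧
    g.Shf x.length U ∧ ∀ ρ ∈ g.hp.H x.length T, ∃ u ∈ U, g.Sat x (xorS ρ u)) ?_
    (g := fun x => g.hp.m x.length + 1) (by fun_prop) ?_
  · refine NPP.ex (p := fun (t : Str × Str) (U : List Str) => g.ww.TC t.1.length t.2 ∧
      g.Shf t.1.length U ∧ ∀ ρ ∈ g.hp.H t.1.length t.2, ∃ u ∈ U, g.Sat t.1 (xorS ρ u)) ?_
      (g := fun t => g.k t.1.length * (2 * g.r t.1.length + 2)) (by fun_prop) ?_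
    · refine NPP.and hTC (NPP.and (by fun_prop) ?_)
      exact NPP.ball hH (by fun_prop)
    · rintro x U ⟨-, h, -⟩
      exact g.sz_Shf h
  · rintro x T ⟨U, h, -⟩
    rw [sz_str]
    exact h.1.le

theorem npp_AccD {Pr : ℕ → Str → Prop} (hPr : NPP (fun t : ℕ × Str => Pr t.1 t.2)) :
    NPP (fun x : Str => g.AccD Pr x) := by
  have h1 : NPP (fun t : (Str × List Str) × List Str =>
      Pr t.1.1.length (g.κE t.1.1 t.1.2 t.2)) :=
    NPP.comp (p := fun t : ℕ × Str => Pr t.1 t.2) hPr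
      (f := fun t : (Str × List Str) × List Str => (t.1.1.length, g.κE t.1.1 t.1.2 t.2))
      (by fun_prop)
  refine NPP.ex (p := fun (x : Str) (U : List Str) => ∃ A : List Str, g.Shf x.length U ∧
    g.Adv x.length A ∧ Pr x.length (g.κE x U A)) ?_
    (g := fun x => g.k x.length * (2 * g.r x.length + 2)) (by fun_prop) ?_
  · refine NPP.ex (p := fun (t : Str × List Str) (A : List Str) => g.Shf t.1.length t.2 ∧
      g.Adv t.1.length A ∧ Pr t.1.length (g.κE t.1 t.2 A)) ?_
      (g := fun t => g.na t.1.length * (2 * g.M1 t.1.length + 2)) (by fun_prop) ?_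
    · exact NPP.and (by fun_prop) (NPP.and (by fun_prop) h1)
    · rintro t A ⟨-, h, -⟩
      exact g.sz_Adv h
  · rintro x U ⟨A, h, -⟩
    exact g.sz_Shf h

variable {g} {L : Set Str}

/-- certificates for all unsatisfiable words up to length `M1` -/
theorem Acc0_iff (hL : g.Dec L) {x : Str}
    (hR : ∀ ψ : Str, ψ.length ≤ g.M1 x.length → ψ ∉ SAT → g.R x.length ψ) :
    x ∈ L ↔ g.Acc0 x := by
  constructor
  · intro hx
    obtain ⟨U, hU, hcov⟩ := hL.yes x hx
    refine ⟨U, hU, hR _ (g.len_κU hU) ?_⟩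
    rw [mem_κU]
    rintro ⟨ρ, hρ, h⟩
    obtain ⟨u, hu, hS⟩ := hcov ρ hρ
    have := g.R_sound (h u hu)
    rw [mem_κ, itm_nil] at this
    exact this hS
  · rintro ⟨U, hU, h⟩
    by_contra hx
    have h1 := g.R_sound h
    rw [mem_κU] at h1
    apply h1
    obtain ⟨ρ, hρ, h2⟩ := hL.exists_unc hx hU
    refine ⟨ρ, hρ, fun u hu => ?_⟩
    refine hR _ ?_ ?_
    · exact g.len_κ (n := x.length) (i := (x, xorS ρ u, []))
        ⟨rfl, length_xorS_eq hρ (hU.2 u hu), Nat.zero_le _⟩
    · rw [mem_κ, itm_nil]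
      exact h2 u hu

/-- advice exists if some unsatisfiable word has no certificate -/
theorem exists_Good {n : ℕ} {ψ : Str} (h1 : ψ.length ≤ g.M1 n) (h2 : ψ ∉ SAT)
    (h3 : ¬ g.R n ψ) : ∃ A : List Str, g.Adv n A ∧ g.Good n A := by
  obtain ⟨A, hA1, hA2, hA3⟩ := STree.dichotomy (t := g.tree n) (D := g.D) h2 h3
    (g.items_ncard n).2
  refine ⟨A, ⟨hA1.trans (by simp [na]), ?_⟩, ?_⟩
  · intro α hα
    rcases hA2 α hα with rfl | ⟨i, hi, rfl⟩
    · exact h1
    · exact g.len_κ hi
  · intro x ρ lam hx hρ hl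
    exact hA3 (x, ρ, lam) ⟨hx, hρ, hl⟩

theorem Pos_iff {n : ℕ} {A : List Str} (hA : g.Good n A) {x ρ : Str} (hx : x.length = n)
    (hρ : ρ.length = g.r n) : g.Pos A x ρ ↔ g.Sat x ρ :=
  ⟨g.Pos_sound, g.Pos_complete hA hx hρ⟩

/-- a procedure for the complement of `SAT` and the existence of advice -/
theorem AccD_iff (hL : g.Dec L) {x : Str} {Pr : ℕ → Str → Prop} {A : List Str}
    (hA : g.Adv x.length A) (hG : g.Good x.length A)
    (hPr : ∀ F : Str, F.length ≤ g.ww.M x.length → (F ∉ SAT ↔ Pr x.length F)) :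
    x ∈ L ↔ g.AccD Pr x := by
  constructor
  · intro hx
    obtain ⟨U, hU, hcov⟩ := hL.yes x hx
    refine ⟨U, A, hU, hA, (hPr _ (g.len_κE hU hA)).1 ?_⟩
    rw [mem_κE]
    rintro ⟨ρ, hρ, h⟩
    obtain ⟨u, hu, hS⟩ := hcov ρ hρ
    exact h u hu (g.Pos_complete hG rfl (length_xorS_eq hρ (hU.2 u hu)) hS)
  · rintro ⟨U, A', hU, hA', h⟩
    by_contra hx
    have h1 := (hPr _ (g.len_κE hU hA')).2 h
    rw [mem_κE] at h1
    apply h1
    obtain ⟨ρ, hρ, h2⟩ := hL.exists_unc hx hU
    exact ⟨ρ, hρ, fun u hu hP => h2 u hu (g.Pos_sound hP)⟩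

/-- a certified word outside of the range of the generator and the existence of advice -/
theorem AccT_iff (hL : g.Dec L) {x : Str} {A : List Str}
    (hA : g.Adv x.length A) (hG : g.Good x.length A) (hT : ∃ T, g.ww.TC x.length T) :
    x ∈ L ↔ g.AccT x := by
  constructor
  · intro hx
    obtain ⟨U, hU, hcov⟩ := hL.yes x hx
    obtain ⟨T, hT⟩ := hT
    exact ⟨T, U, hT, hU, fun ρ hρ => hcov ρ (g.hp.length_of_mem_H hρ)⟩
  · rintro ⟨T, U, hT, hU, h⟩
    by_contra hx
    have hd := hL.no x hx U hU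
    have hlen : T.length = g.hp.m x.length + 1 := hT.1
    have hset : {ρ : Str | ρ.length = g.r x.length ∧ ∀ u ∈ U, ¬ g.Sat x (xorS ρ u)} =
        {ρ : Str | ρ.length = g.hp.r x.length ∧ g.hp.Ev x.length (x, U, A) ρ} := by
      ext ρ
      simp only [Set.mem_ofPred_eq]
      refine and_congr_right fun hρ => ?_
      refine forall_congr' fun u => forall_congr' fun hu => not_congr ?_
      exact (Pos_iff hG rfl (length_xorS_eq hρ (hU.2 u hu))).symm
    rw [hset] at hd
    obtain ⟨y, hy, hyT⟩ := g.hp.mem_range_G0 x.length hlen (g.sz_test hU hA) hd (by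
      intro ρ hρ hE
      obtain ⟨u, hu, hS⟩ := h ρ hρ
      have hl := g.hp.length_of_mem_H hρ
      exact hE u hu (g.Pos_complete hG rfl (length_xorS_eq hl (hU.2 u hu)) hS))
    exact g.ww.TC_sound hT hy hyT

/-- the seven procedures -/
noncomputable def Proc (g : Lev) : Fin 7 → Str → Prop
  | 0 => g.Acc0
  | 1 => g.AccT
  | 2 => g.AccD g.ww.D1
  | 3 => g.AccD g.ww.D2
  | 4 => g.AccD g.ww.D3
  | 5 => g.AccD g.ww.D4
  | 6 => g.AccD g.ww.D5

theorem npp_Proc (g : Lev) (i : Fin 7) : NPP (fun x : Str => g.Proc i x) := by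
  match i with
  | 0 => exact g.npp_Acc0
  | 1 => exact g.npp_AccT
  | 2 => exact g.npp_AccD g.ww.npp_D1
  | 3 => exact g.npp_AccD g.ww.npp_D2
  | 4 => exact g.npp_AccD g.ww.npp_D3
  | 5 => exact g.npp_AccD g.ww.npp_D4
  | 6 => exact g.npp_AccD g.ww.npp_D5

/-- for every input length one of the procedures is correct -/
theorem exists_proc (hL : g.Dec L) (n : ℕ) :
    ∃ i : Fin 7, ∀ x : Str, x.length = n → (x ∈ L ↔ g.Proc i x) := by
  by_cases hR : ∀ ψ : Str, ψ.length ≤ g.M1 n → ψ ∉ SAT → g.R n ψ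
  · exact ⟨0, fun x hx => Acc0_iff hL (by rw [hx]; exact hR)⟩
  · push Not at hR
    obtain ⟨ψ, h1, h2, h3⟩ := hR
    obtain ⟨A, hA, hG⟩ := exists_Good h1 h2 h3
    rcases g.ww.winwin n with h | h | h | h | h | h
    · exact ⟨1, fun x hx => by subst hx; exact AccT_iff hL hA hG h⟩
    · exact ⟨2, fun x hx => by subst hx; exact AccD_iff hL hA hG h⟩
    · exact ⟨3, fun x hx => by subst hx; exact AccD_iff hL hA hG h⟩
    · exact ⟨4, fun x hx => by subst hx; exact AccD_iff hL hA hG h⟩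
    · exact ⟨5, fun x hx => by subst hx; exact AccD_iff hL hA hG h⟩
    · exact ⟨6, fun x hx => by subst hx; exact AccD_iff hL hA hG h⟩

end Lev

end Pool.Agent.Helper33.TQ

end

section
/-!
Assembly, part 3: advice, and the theorem.
-/

namespace Pool.Agent.Helper33.TQ

open Function Pool.Agent.Helper72

/-- three bits naming one of at most eight procedures -/
def code3 (i : Fin 7) : Str := [decide (i.1 % 2 = 1), decide (i.1 / 2 % 2 = 1),
  decide (i.1 / 4 = 1)]

theorem length_code3 (i : Fin 7) : (code3 i).length = 3 := rfl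

theorem code3_injective : Injective code3 := by
  intro i j h
  revert i j
  decide

/-- finitely many NP procedures, one of them correct for every input length -/
theorem npAdvice_of_procs {L : Set Str} (Pr : Fin 7 → Str → Prop)
    (hP : ∀ i, NPP (fun x : Str => Pr i x))
    (h : ∀ n, ∃ i, ∀ x : Str, x.length = n → (x ∈ L ↔ Pr i x)) : InNPAdvice 3 L := by
  classical
  choose i hi using h
  have hNP : NPP (fun w : Str => w ∈ {w : Str | ∃ i ∈ List.finRange 7,
      (unp w).2 = code3 i ∧ Pr i (unp w).1}) := by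
    have hu1 : PTF (fun w : Str => (unp w).1) := PTime.unp1 PTime.id
    have hu2 : PTF (fun w : Str => (unp w).2) := PTime.unp2 PTime.id
    have key : ∀ l : List (Fin 7), NPP (fun w : Str => ∃ i ∈ l,
        (unp w).2 = code3 i ∧ Pr i (unp w).1) := by
      intro l
      induction l with
      | nil => exact NPP.congr (NPP.of_PTF (PTF.const False)) (by simp)
      | cons i l ih =>
        have h1 : NPP (fun w : Str => (unp w).2 = code3 i ∧ Pr i (unp w).1) :=
          NPP.and (NPP.of_PTF (PTF.eq hu2 (PTF.const _))) (NPP.comp (hP i) hu1)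
        exact NPP.congr (NPP.or h1 ih) (by simp)
    exact key _
  refine ⟨_, fun n => code3 (i n), (inNP_iff _).2 hNP, fun n => length_code3 _, fun x => ?_⟩
  rw [hi x.length x rfl]
  simp only [Set.mem_ofPred_eq, unp_pairCode, List.mem_finRange, true_and]
  constructor
  · intro hx
    exact ⟨i x.length, rfl, hx⟩
  · rintro ⟨j, hj, hx⟩
    rwa [code3_injective hj]

/-- the two queries assumption implies `AM ⊆ NP/3` -/
theorem main (h : ∀ L, InPSAT2 L → InPSAT1 L) {L : Set Str} (hL : InAM L) :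
    InNPAdvice 3 L := by
  obtain ⟨D⟩ := exists_TQD h
  obtain ⟨A⟩ := exists_AMD hL
  obtain ⟨l, V, hl, hV, hlV⟩ := NPP.exact A.hr A.hSat
  let g : Lev :=
    { D := D, r := A.r, k := A.k, l := l, V := V, hr := A.hr, hk := A.hk, hl := hl, hV := hV,
      hr0 := A.hr0 }
  have hS : ∀ x ρ : Str, ρ.length = A.r x.length → (A.Sat x ρ ↔ g.Sat x ρ) := hlV
  have hdec : g.Dec L := by
    refine ⟨fun x hx => ?_, fun x hx U hU => ?_⟩
    · obtain ⟨U, h1, h2, h3⟩ := A.yes x hx
      refine ⟨U, ⟨h1, h2⟩, fun ρ hρ => ?_⟩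
      obtain ⟨u, hu, hs⟩ := h3 ρ hρ
      exact ⟨u, hu, (hS _ _ (Lev.length_xorS_eq hρ (h2 u hu))).1 hs⟩
    · have h1 := A.no x hx U hU.1 hU.2
      have hset : {ρ : Str | ρ.length = A.r x.length ∧ ∀ u ∈ U, ¬ A.Sat x (xorS ρ u)} =
          {ρ : Str | ρ.length = g.r x.length ∧ ∀ u ∈ U, ¬ g.Sat x (xorS ρ u)} := by
        ext ρ
        simp only [Set.mem_ofPred_eq]
        refine and_congr_right fun hρ => ?_
        refine forall_congr' fun u => forall_congr' fun hu => not_congr ?_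
        exact hS _ _ (Lev.length_xorS_eq hρ (hU.2 u hu))
      rw [hset] at h1
      exact h1
  exact npAdvice_of_procs g.Proc (Lev.npp_Proc g) fun n => Lev.exists_proc hdec n

end Pool.Agent.Helper33.TQ

end
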