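import Pool.Agent.Helper33.TQ.StrB

/-! Module TQ Log: binary logarithm of unary numbers. -/

namespace Pool.Agent.Helper33.TQ

open Function

/-- capped powers of two -/
theorem iterate_min_two_mul {n : ℕ} (hn : 1 ≤ n) (i : ℕ) :
    (fun x => min (2 * x) n)^[i] 1 = min (2 ^ i) n := by
  induction i with
  | zero => simp [hn]
  | succ i ih =>
    rw [iterate_succ_apply', ih, pow_succ]
    rcases le_total (2 ^ i) n with h | h
    · rw [min_eq_left h, mul_comm]
    · rw [min_eq_right h, min_eq_right (by omega), min_eq_right (by omega)]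

private theorem log_range (K n : ℕ) :
    (List.range n).countP (fun i => decide (i < K)) = min n K := by
  induction n with
  | zero => simp
  | succ n ih =>
    rw [List.range_succ, List.countP_append, ih, List.countP_singleton]
    by_cases h : n < K
    · rw [if_pos (by simpa using h)]
      omega
    · rw [if_neg (by simpa using h)]
      omega

private theorem log_count (n : ℕ) :
    (List.range n).countP (fun i => decide ((fun x => min (2 * x) n)^[i] 1 < n)) =
      Nat.clog 2 n := by
  rcases Nat.eq_zero_or_pos n with rfl | hn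
  · simp
  have h1 : ∀ i, ((fun x => min (2 * x) n)^[i] 1 < n) ↔ i < Nat.clog 2 n := by
    intro i
    rw [iterate_min_two_mul hn, Nat.lt_clog_iff_pow_lt (by norm_num)]
    constructor
    · intro h
      rcases min_lt_iff.1 h with h | h
      · exact h
      · exact absurd h (lt_irrefl _)
    · intro h
      exact min_lt_iff.2 (Or.inl h)
  have h2 : Nat.clog 2 n ≤ n := Nat.clog_le_of_le_pow (Nat.lt_two_pow_self).le
  have h3 : (fun i => decide ((fun x => min (2 * x) n)^[i] 1 < n)) =
      fun i => decide (i < Nat.clog 2 n) := by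
    funext i
    exact decide_eq_decide.2 (h1 i)
  rw [h3, log_range, min_eq_right h2]

private theorem log_iter : PTF (fun p : ℕ × ℕ => (fun x => min (2 * x) p.1)^[p.2] 1) := by
  refine PTF.iterate (g := fun (p : ℕ × ℕ) (x : ℕ) => min (2 * x) p.1) (s := fun _ => 1)
    (n := fun p => p.2) (B := fun p => p.1 + 1) (by fun_prop) (by fun_prop) (by fun_prop)
    (by fun_prop) ?_
  rintro ⟨n, j⟩ i -
  rw [sz_nat]
  cases i with
  | zero => simp
  | succ i =>
    rw [iterate_succ_apply']
    exact (min_le_right _ _).trans (Nat.le_succ _)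

private theorem log_ptf : PTF (fun n : ℕ => Nat.clog 2 n) := by
  have h := log_iter
  refine PTF.congr (f := fun n : ℕ => (List.range n).countP
    (fun i => decide ((fun x => min (2 * x) n)^[i] 1 < n))) ?_ log_count
  have h1 : PTF (fun x : ℕ × ℕ => (fun y => min (2 * y) x.1)^[x.2] 1 < x.1) :=
    PTF.lt h (PTF.fst PTF.id)
  exact PTF.countP (p := fun (n : ℕ) (i : ℕ) => (fun x => min (2 * x) n)^[i] 1 < n)
    (PTF.range PTF.id) h1

/-- `clog 2 n` is the number of `i < n` with `2 ^ i < n`, that is, with
`(fun x => min (2 * x) n)^[i] 1 < n` (for `n ≥ 1`) -/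
@[fun_prop] theorem PTF.clog {α : Type} [Cd α] {f : α → ℕ} (hf : PTF f) :
    PTF (fun a => Nat.clog 2 (f a)) := PTF.comp log_ptf hf

theorem two_pow_clog_le {n : ℕ} (hn : 1 ≤ n) : 2 ^ Nat.clog 2 n ≤ 2 * n := by
  rcases Nat.lt_or_ge 1 n with h | h
  · have h1 : 0 < Nat.clog 2 n := Nat.clog_pos (by norm_num) h
    have h2 : 2 ^ (Nat.clog 2 n - 1) < n := by
      have := Nat.pow_pred_clog_lt_self (b := 2) (by norm_num) h
      simpa using this
    have h3 : 2 ^ Nat.clog 2 n = 2 * 2 ^ (Nat.clog 2 n - 1) := by
      rw [← pow_succ', Nat.sub_add_cancel h1]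
    omega
  · have : n = 1 := by omega
    subst this
    simp

end Pool.Agent.Helper33.TQ
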