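import Pool.Agent.Helper33.TQ.Hw
import Pool.Agent.Helper33.TQ.Log

section
/-! Module TQ Hpar: Parseval. -/

namespace Pool.Agent.Helper33.TQ

open Function

open scoped Classical in
/-- number of `z` with `e z (¬ ⟨v,z⟩)` -/
noncomputable def sa (b : ℕ) (e : Str → Bool → Prop) (v : Str) : ℕ :=
  ((wds b).filter fun z => e z (!ip v z)).card

open scoped Classical in
/-- number of `z` with `e z ⟨v,z⟩` -/
noncomputable def sb (b : ℕ) (e : Str → Bool → Prop) (v : Str) : ℕ :=
  ((wds b).filter fun z => e z (ip v z)).card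

theorem sa_le (b : ℕ) (e : Str → Bool → Prop) (v : Str) : sa b e v ≤ 2 ^ b := by
  classical
  exact (Finset.card_filter_le _ _).trans_eq (card_wds b)

/-- the sign of the inner product -/
def hsg (v z : Str) : ℤ := if ip v z then -1 else 1

theorem hsg_ff (v z : Str) : hsg (false :: v) (false :: z) = hsg v z := by
  simp [hsg, ip_cons]

theorem hsg_ft (v z : Str) : hsg (false :: v) (true :: z) = hsg v z := by
  simp [hsg, ip_cons]

theorem hsg_tf (v z : Str) : hsg (true :: v) (false :: z) = hsg v z := by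
  simp [hsg, ip_cons]

theorem hsg_tt (v z : Str) : hsg (true :: v) (true :: z) = - hsg v z := by
  unfold hsg
  rw [ip_cons]
  cases ip v z <;> simp

theorem hpars_aux (b : ℕ) : ∀ g : Str → ℤ,
    ∑ v ∈ wds b, (∑ z ∈ wds b, g z * hsg v z) ^ 2 = 2 ^ b * ∑ z ∈ wds b, (g z) ^ 2 := by
  induction b with
  | zero =>
    intro g
    simp only [sum_wds_zero]
    have h : hsg [] [] = 1 ∨ hsg [] [] = -1 := by
      unfold hsg; split_ifs <;> simp
    rcases h with h | h <;> rw [h] <;> ring
  | succ b ih =>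
    intro g
    have h0 : ∀ v, ∑ z ∈ wds (b + 1), g z * hsg (false :: v) z =
        ∑ z ∈ wds b, g (false :: z) * hsg v z + ∑ z ∈ wds b, g (true :: z) * hsg v z := by
      intro v
      rw [sum_wds_succ, ← Finset.sum_add_distrib]
      refine Finset.sum_congr rfl fun z _ => ?_
      rw [hsg_ff, hsg_ft]
    have h1 : ∀ v, ∑ z ∈ wds (b + 1), g z * hsg (true :: v) z =
        ∑ z ∈ wds b, g (false :: z) * hsg v z - ∑ z ∈ wds b, g (true :: z) * hsg v z := by
      intro v
      rw [sum_wds_succ, ← Finset.sum_sub_distrib]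
      refine Finset.sum_congr rfl fun z _ => ?_
      rw [hsg_tf, hsg_tt]
      ring
    rw [sum_wds_succ]
    have e1 : ∑ x ∈ wds b, ((∑ z ∈ wds (b + 1), g z * hsg (false :: x) z) ^ 2 +
        (∑ z ∈ wds (b + 1), g z * hsg (true :: x) z) ^ 2) =
        2 * ∑ x ∈ wds b, (∑ z ∈ wds b, g (false :: z) * hsg x z) ^ 2 +
        2 * ∑ x ∈ wds b, (∑ z ∈ wds b, g (true :: z) * hsg x z) ^ 2 := by
      rw [Finset.mul_sum, Finset.mul_sum, ← Finset.sum_add_distrib]
      refine Finset.sum_congr rfl fun x _ => ?_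
      rw [h0, h1]
      ring
    rw [e1, ih (fun z => g (false :: z)), ih (fun z => g (true :: z)), sum_wds_succ,
      Finset.sum_add_distrib, pow_succ]
    ring

/-- `sa - sb = ∑_z g(z) (-1)^⟨v,z⟩` with `g z = [e z true] - [e z false] ∈ {-1, 0, 1}`; and
`∑_v (-1)^⟨v,z⟩ (-1)^⟨v,z'⟩ = 2 ^ b` if `z = z'` and `0` otherwise (induction on `b`, or
prove `∑_v (∑_z g z (-1)^⟨v,z⟩)^2 = 2^b ∑_z (g z)^2` directly by induction on `b` with
`sum_wds_succ`) -/
theorem parseval (b : ℕ) (e : Str → Bool → Prop) :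
    ∑ v ∈ wds b, ((sa b e v : ℤ) - sb b e v) ^ 2 ≤ 4 ^ b := by
  classical
  set g : Str → ℤ := fun z => (if e z true then 1 else 0) - (if e z false then 1 else 0) with hg
  have h1 : ∀ v, ((sa b e v : ℤ) - sb b e v) = ∑ z ∈ wds b, g z * hsg v z := by
    intro v
    have ha : (sa b e v : ℤ) = ∑ z ∈ wds b, (if e z (!ip v z) then (1 : ℤ) else 0) := by
      unfold sa
      rw [Finset.sum_boole]
    have hb : (sb b e v : ℤ) = ∑ z ∈ wds b, (if e z (ip v z) then (1 : ℤ) else 0) := by
      unfold sb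
      rw [Finset.sum_boole]
    rw [ha, hb, ← Finset.sum_sub_distrib]
    refine Finset.sum_congr rfl fun z _ => ?_
    rw [hg]
    unfold hsg
    cases ip v z <;> simp
  have h2 : ∀ z, (g z) ^ 2 ≤ 1 := by
    intro z
    rw [hg]
    by_cases h3 : e z true <;> by_cases h4 : e z false <;> simp [h3, h4]
  calc ∑ v ∈ wds b, ((sa b e v : ℤ) - sb b e v) ^ 2
      = ∑ v ∈ wds b, (∑ z ∈ wds b, g z * hsg v z) ^ 2 :=
        Finset.sum_congr rfl fun v _ => by rw [h1]
    _ = 2 ^ b * ∑ z ∈ wds b, (g z) ^ 2 := hpars_aux b g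
    _ ≤ 2 ^ b * ∑ z ∈ wds b, 1 := by
        refine mul_le_mul_of_nonneg_left (Finset.sum_le_sum fun z _ => h2 z) (by positivity)
    _ = 4 ^ b := by
        rw [Finset.sum_const, card_wds, nsmul_eq_mul, mul_one]
        push_cast
        rw [← mul_pow]
        norm_num

open scoped Classical in
/-- few `v` have a large correlation -/
theorem card_cand_le (b r : ℕ) (e : Str → Bool → Prop) :
    ((wds b).filter fun v => 2 ^ b + 2 * r * sb b e v ≤ 2 * r * sa b e v).card ≤ 4 * r ^ 2 := by
  set C := (wds b).filter fun v => 2 ^ b + 2 * r * sb b e v ≤ 2 * r * sa b e v with hC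
  have h1 : ∀ v ∈ C, (4 : ℤ) ^ b ≤ 4 * (r : ℤ) ^ 2 * ((sa b e v : ℤ) - sb b e v) ^ 2 := by
    intro v hv
    rw [hC, Finset.mem_filter] at hv
    have h2 : (2 : ℤ) ^ b + 2 * r * sb b e v ≤ 2 * r * sa b e v := by exact_mod_cast hv.2
    have h3 : (2 : ℤ) ^ b ≤ 2 * r * ((sa b e v : ℤ) - sb b e v) := by linarith
    have h4 : ((2 : ℤ) ^ b) ^ 2 ≤ (2 * r * ((sa b e v : ℤ) - sb b e v)) ^ 2 :=
      pow_le_pow_left₀ (by positivity) h3 2
    have h5 : ((2 : ℤ) ^ b) ^ 2 = 4 ^ b := by
      rw [← pow_mul, mul_comm, pow_mul]; norm_num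
    rw [h5] at h4
    calc (4 : ℤ) ^ b ≤ (2 * r * ((sa b e v : ℤ) - sb b e v)) ^ 2 := h4
      _ = _ := by ring
  have h6 : (C.card : ℤ) * 4 ^ b ≤ (4 * (r : ℤ) ^ 2) * 4 ^ b := by
    calc (C.card : ℤ) * 4 ^ b = ∑ v ∈ C, (4 : ℤ) ^ b := by
          rw [Finset.sum_const, nsmul_eq_mul]
      _ ≤ ∑ v ∈ C, 4 * (r : ℤ) ^ 2 * ((sa b e v : ℤ) - sb b e v) ^ 2 := Finset.sum_le_sum h1
      _ = 4 * (r : ℤ) ^ 2 * ∑ v ∈ C, ((sa b e v : ℤ) - sb b e v) ^ 2 := by
          rw [Finset.mul_sum]
      _ ≤ 4 * (r : ℤ) ^ 2 * ∑ v ∈ wds b, ((sa b e v : ℤ) - sb b e v) ^ 2 := by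
          refine mul_le_mul_of_nonneg_left ?_ (by positivity)
          exact Finset.sum_le_sum_of_subset_of_nonneg (Finset.filter_subset _ _)
            fun v _ _ => sq_nonneg _
      _ ≤ (4 * (r : ℤ) ^ 2) * 4 ^ b := by
          exact mul_le_mul_of_nonneg_left (parseval b e) (by positivity)
  have h7 : (C.card : ℤ) ≤ 4 * (r : ℤ) ^ 2 := le_of_mul_le_mul_right h6 (by positivity)
  exact_mod_cast h7

end Pool.Agent.Helper33.TQ

end

section
/-! Module TQ Hhyb: the hybrid argument. -/

namespace Pool.Agent.Helper33.TQ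

open Function

/-- row `j` of a block consisting of rows of length `b` -/
def row (b j : ℕ) (B : Str) : Str := (B.drop (j * b)).take b

/-- the first `j` inner products of the rows of `B` with `z` -/
def smp (b j : ℕ) (B z : Str) : Str :=
  (List.range j).map fun i => decide (ip (row b i B) z = true)

@[simp] theorem length_smp (b j : ℕ) (B z : Str) : (smp b j B z).length = j := by
  simp [smp]

theorem smp_succ (b j : ℕ) (B z : Str) :
    smp b (j + 1) B z = smp b j B z ++ [ip (row b j B) z] := by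
  simp [smp, List.range_succ]

/-- the test `E` with prefix given by the rows before `j` of `B` and suffix `u` -/
def tst (E : Str → Prop) (b j : ℕ) (u B : Str) (z : Str) (c : Bool) : Prop :=
  E (smp b j B z ++ c :: u)

open scoped Classical in
/-- the sums of the hybrid argument -/
private noncomputable def hybF (E : Str → Prop) (r b j : ℕ) (B : Str) : ℤ :=
  ∑ z ∈ wds b, ∑ u ∈ wds (r - j), if E (smp b j B z ++ u) then 1 else 0

/-- the differences -/
private noncomputable def hybD (E : Str → Prop) (b j : ℕ) (u B : Str) : ℤ :=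
  (sa b (tst E b j u B) (row b j B) : ℤ) - sb b (tst E b j u B) (row b j B)

private theorem hybF_step {E : Str → Prop} {r b j : ℕ} (hj : j < r) (B : Str) :
    hybF E r b j B = 2 * hybF E r b (j + 1) B + ∑ u ∈ wds (r - 1 - j), hybD E b j u B := by
  classical
  have e1 : r - j = (r - 1 - j) + 1 := by omega
  have e2 : r - (j + 1) = r - 1 - j := by omega
  have h3 : ∑ u ∈ wds (r - 1 - j), hybD E b j u B = ∑ z ∈ wds b, ∑ u ∈ wds (r - 1 - j),
      ((if E (smp b j B z ++ (!ip (row b j B) z) :: u) then (1 : ℤ) else 0) -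
        (if E (smp b j B z ++ (ip (row b j B) z) :: u) then (1 : ℤ) else 0)) := by
    rw [Finset.sum_comm]
    refine Finset.sum_congr rfl fun u _ => ?_
    rw [Finset.sum_sub_distrib]
    unfold hybD sa sb
    rw [Finset.card_filter, Finset.card_filter]
    push_cast
    rfl
  rw [h3]
  unfold hybF
  rw [e1, e2, Finset.mul_sum, ← Finset.sum_add_distrib]
  refine Finset.sum_congr rfl fun z _ => ?_
  rw [sum_wds_succ, Finset.mul_sum, ← Finset.sum_add_distrib]
  refine Finset.sum_congr rfl fun u _ => ?_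
  rw [smp_succ, List.append_assoc, List.singleton_append]
  cases ip (row b j B) z
  · simp only [Bool.not_false]
    ring
  · simp only [Bool.not_true]
    ring

private theorem hybF_tel {E : Str → Prop} {r b : ℕ} (B : Str) (k : ℕ) (hk : k ≤ r) :
    hybF E r b 0 B = 2 ^ k * hybF E r b k B +
      ∑ j ∈ Finset.range k, 2 ^ j * ∑ u ∈ wds (r - 1 - j), hybD E b j u B := by
  induction k with
  | zero => simp
  | succ k ih =>
    rw [ih (by omega), Finset.sum_range_succ, hybF_step (by omega : k < r) B]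
    ring

private theorem hyb_swap {α : Type*} (s : Finset α) (Bs : List Str) (f : α → Str → ℤ) :
    ∑ x ∈ s, (Bs.map (f x)).sum = (Bs.map fun B => ∑ x ∈ s, f x B).sum := by
  induction Bs with
  | nil => simp
  | cons B Bs ih =>
    simp only [List.map_cons, List.sum_cons, Finset.sum_add_distrib, ih]

private theorem hyb_mul (c : ℤ) (Bs : List Str) (f : Str → ℤ) :
    c * (Bs.map f).sum = (Bs.map fun B => c * f B).sum := by
  induction Bs with
  | nil => simp
  | cons B Bs ih =>
    simp only [List.map_cons, List.sum_cons, mul_add, ih]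

open scoped Classical in
/-- Hybrid argument. Let `S j B = ∑_{z ∈ wds b} #{u ∈ wds (r - j) | E (smp b j B z ++ u)}`.
`S 0 B = 2^b #{ρ ∈ wds r | E ρ}`, `S r B = 0`, and
`S j B - 2 S (j+1) B = ∑_{u ∈ wds (r-1-j)} (sa - sb)` with `e = tst E b j u B`, `v = row b j B`.
Hence `∑_{j<r} 2^j ∑_{u ∈ wds (r-1-j)} (sa - sb) = S 0 B ≥ 2^(b+r-1)`. Sum over the blocks; if
all `r * ∑_B (sa - sb) < |Bs| 2^b` then `r 2^(b+r-1) |Bs| < ∑_{j<r} 2^j 2^(r-1-j) |Bs| 2^b`,
a contradiction. -/
theorem hybrid {E : Str → Prop} {r b : ℕ}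
    (hE : 2 ^ r ≤ 2 * ((wds r).filter E).card) (Bs : List Str) (hBs : Bs ≠ [])
    (hno : ∀ B ∈ Bs, ∀ z ∈ wds b, ¬ E (smp b r B z)) :
    ∃ j < r, ∃ u ∈ wds (r - 1 - j), (Bs.length : ℤ) * 2 ^ b ≤
      r * (Bs.map fun B => ((sa b (tst E b j u B) (row b j B) : ℤ) -
        sb b (tst E b j u B) (row b j B))).sum := by
  classical
  have hr : 1 ≤ r := by
    rcases Nat.eq_zero_or_pos r with rfl | h
    · exfalso
      obtain ⟨B, hB⟩ := List.exists_mem_of_ne_nil Bs hBs
      have h1 := hno B hB (List.replicate b false) (by simp)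
      have h2 : (wds 0).filter E = ∅ := by
        rw [Finset.filter_eq_empty_iff]
        intro x hx
        rw [mem_wds, List.length_eq_zero_iff] at hx
        subst hx
        simpa [smp] using h1
      rw [h2] at hE
      simp at hE
    · exact h
  by_contra hcon
  push Not at hcon
  set c : ℤ := (Bs.length : ℤ) * 2 ^ b with hc
  have hc0 : 0 < c := by
    have : 0 < Bs.length := List.length_pos_iff.2 hBs
    positivity
  set e : ℤ := (((wds r).filter E).card : ℤ) with he
  have hE' : (2 : ℤ) ^ r ≤ 2 * e := by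
    rw [he]
    exact_mod_cast hE
  -- the telescoping sum
  have h1 : ∑ j ∈ Finset.range r, 2 ^ j * ∑ u ∈ wds (r - 1 - j), (Bs.map (hybD E b j u)).sum =
      c * e := by
    have h2 : ∀ j, (2 : ℤ) ^ j * ∑ u ∈ wds (r - 1 - j), (Bs.map (hybD E b j u)).sum =
        (Bs.map fun B => 2 ^ j * ∑ u ∈ wds (r - 1 - j), hybD E b j u B).sum := by
      intro j
      rw [hyb_swap, hyb_mul]
    simp only [h2]
    rw [hyb_swap]
    have h3 : ∀ x ∈ (Bs.map fun B => ∑ j ∈ Finset.range r,
        2 ^ j * ∑ u ∈ wds (r - 1 - j), hybD E b j u B), x = 2 ^ b * e := by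
      intro x hx
      obtain ⟨B, hB, rfl⟩ := List.mem_map.1 hx
      have h4 := hybF_tel (E := E) (r := r) (b := b) B r le_rfl
      have h5 : hybF E r b r B = 0 := by
        unfold hybF
        rw [Nat.sub_self]
        refine Finset.sum_eq_zero fun z hz => ?_
        rw [sum_wds_zero, List.append_nil, if_neg (hno B hB z hz)]
      have h6 : hybF E r b 0 B = 2 ^ b * e := by
        unfold hybF
        have h7 : ∀ z, smp b 0 B z = [] := fun z => by simp [smp]
        simp only [h7, List.nil_append, Nat.sub_zero]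
        rw [Finset.sum_const, card_wds, he, Finset.card_filter]
        push_cast
        rw [nsmul_eq_mul]
        push_cast
        rfl
      rw [h5, h6, mul_zero, zero_add] at h4
      exact h4.symm
    rw [List.sum_eq_card_nsmul _ _ h3, List.length_map, nsmul_eq_mul, hc]
    ring
  have h2 : (r : ℤ) * (c * e) < r * (2 ^ (r - 1) * c) := by
    rw [← h1, Finset.mul_sum]
    have h3 : ∑ j ∈ Finset.range r, (2 : ℤ) ^ j * ∑ u ∈ wds (r - 1 - j), c =
        r * (2 ^ (r - 1) * c) := by
      have h4 : ∀ j ∈ Finset.range r, (2 : ℤ) ^ j * ∑ u ∈ wds (r - 1 - j), c =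
          2 ^ (r - 1) * c := by
        intro j hj
        rw [Finset.mem_range] at hj
        rw [Finset.sum_const, card_wds, nsmul_eq_mul]
        have h5 : r - 1 = j + (r - 1 - j) := by omega
        conv_rhs => rw [h5, pow_add]
        push_cast
        ring
      rw [Finset.sum_congr rfl h4, Finset.sum_const, Finset.card_range, nsmul_eq_mul]
    rw [← h3]
    refine Finset.sum_lt_sum_of_nonempty ⟨0, Finset.mem_range.2 hr⟩ fun j hj => ?_
    rw [Finset.mem_range] at hj
    have h4 : (r : ℤ) * (2 ^ j * ∑ u ∈ wds (r - 1 - j), (Bs.map (hybD E b j u)).sum) =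
        2 ^ j * ∑ u ∈ wds (r - 1 - j), (r : ℤ) * (Bs.map (hybD E b j u)).sum := by
      rw [← Finset.mul_sum]
      ring
    rw [h4]
    refine mul_lt_mul_of_pos_left ?_ (by positivity)
    refine Finset.sum_lt_sum_of_nonempty ⟨List.replicate (r - 1 - j) false, by simp⟩
      fun u hu => ?_
    exact hcon j hj u hu
  have hr0 : (0 : ℤ) < r := by exact_mod_cast hr
  have h3 : c * e < 2 ^ (r - 1) * c := lt_of_mul_lt_mul_left h2 hr0.le
  have h4 : e < 2 ^ (r - 1) := by
    rw [mul_comm] at h3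
    exact lt_of_mul_lt_mul_right h3 hc0.le
  have h5 : (2 : ℤ) ^ r = 2 * 2 ^ (r - 1) := by
    rw [← pow_succ']
    congr 1
    omega
  omega

/-- the block is compressible: its row `j` has a large correlation with the prediction -/
def goodB (E : Str → Prop) (r b j : ℕ) (u B : Str) : Prop :=
  2 ^ b + 2 * r * sb b (tst E b j u B) (row b j B) ≤ 2 * r * sa b (tst E b j u B) (row b j B)

open scoped Classical in
/-- many blocks are good -/
theorem exists_good {E : Str → Prop} {r b : ℕ}
    (hE : 2 ^ r ≤ 2 * ((wds r).filter E).card) (Bs : List Str) (hBs : Bs ≠ [])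
    (hno : ∀ B ∈ Bs, ∀ z ∈ wds b, ¬ E (smp b r B z)) :
    ∃ j < r, ∃ u ∈ wds (r - 1 - j),
      Bs.length ≤ 2 * r * Bs.countP (fun B => decide (goodB E r b j u B)) := by
  classical
  obtain ⟨j, hj, u, hu, h⟩ := hybrid hE Bs hBs hno
  refine ⟨j, hj, u, hu, ?_⟩
  have key : ∀ Cs : List Str, 2 * (r : ℤ) * (Cs.map (hybD E b j u)).sum ≤
      2 * r * (Cs.countP (fun B => decide (goodB E r b j u B)) : ℤ) * 2 ^ b +
        (Cs.length : ℤ) * 2 ^ b := by
    intro Cs
    induction Cs with
    | nil => simp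
    | cons B Cs ih =>
      simp only [List.map_cons, List.sum_cons, List.length_cons, List.countP_cons]
      have h1 : hybD E b j u B ≤ 2 ^ b := by
        have h2 : ((sa b (tst E b j u B) (row b j B) : ℕ) : ℤ) ≤ 2 ^ b := by
          exact_mod_cast sa_le b (tst E b j u B) (row b j B)
        have h3 : (0 : ℤ) ≤ ((sb b (tst E b j u B) (row b j B) : ℕ) : ℤ) := by positivity
        unfold hybD
        linarith
      have h0 : (0 : ℤ) < 2 ^ b := by positivity
      by_cases hg : goodB E r b j u B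
      · simp only [hg, decide_true, if_true]
        push_cast
        have h4 : 2 * (r : ℤ) * hybD E b j u B ≤ 2 * r * 2 ^ b :=
          mul_le_mul_of_nonneg_left h1 (by positivity)
        nlinarith
      · simp only [hg, decide_false, Bool.false_eq_true, if_false]
        push_cast
        have h4 : 2 * (r : ℤ) * hybD E b j u B < 2 ^ b := by
          unfold goodB at hg
          push Not at hg
          have h5 : (2 * r * sa b (tst E b j u B) (row b j B) : ℤ) <
              2 ^ b + 2 * r * sb b (tst E b j u B) (row b j B) := by exact_mod_cast hg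
          unfold hybD
          linarith
        nlinarith
  have h1 := key Bs
  have h2 : (Bs.length : ℤ) * 2 ^ b ≤ r * (Bs.map (hybD E b j u)).sum := h
  have h0 : (0 : ℤ) < 2 ^ b := by positivity
  have h3 : (Bs.length : ℤ) * 2 ^ b ≤
      (2 * r * (Bs.countP (fun B => decide (goodB E r b j u B)) : ℤ)) * 2 ^ b := by
    linarith
  have h4 := le_of_mul_le_mul_right h3 h0
  exact_mod_cast h4

end Pool.Agent.Helper33.TQ

end

section
/-!
The compressor: words `T` whose affine families do not hit a dense test are in the range of a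
polynomial time map `G0`.
-/

namespace Pool.Agent.Helper33.TQ

open Function

/-- a family of tests on words of length `r n` with descriptions of size at most `s n` -/
structure HP (δ : Type) [Cd δ] where
  Ev : ℕ → δ → Str → Prop
  hEv : PTF (fun x : ℕ × δ × Str => Ev x.1 x.2.1 x.2.2)
  r : ℕ → ℕ
  s : ℕ → ℕ
  hr : PTF r
  hs : PTF s
  hr0 : ∀ n, 0 < r n

namespace HP

variable {δ : Type} [Cd δ] (P : HP δ) (n : ℕ)

/-- length of the header -/
def h : ℕ := P.s n + 1 + P.r n

/-- number of blocks -/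
def N : ℕ := 2 * P.r n * (P.h n + 1)

/-- length of the code of a position -/
def w1 : ℕ := Nat.clog 2 (P.N n)

/-- length of the code of an index in the list of candidates -/
def w2 : ℕ := Nat.clog 2 (4 * P.r n ^ 2)

/-- length of a row -/
def b : ℕ := P.w1 n + P.w2 n + 1

/-- bounds for the numbers of words -/
def Q1 : ℕ := 2 * P.N n
def Q2 : ℕ := 8 * P.r n ^ 2
def Qb : ℕ := 32 * P.N n * P.r n ^ 2

/-- input length of the generator -/
def m : ℕ := P.N n * (P.r n * P.b n) - 1

/-- the blocks of a word -/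
def blocks (T : Str) : List Str :=
  (List.range (P.N n)).map fun i => (T.drop (i * (P.r n * P.b n))).take (P.r n * P.b n)

/-- the hitting set given by the word `T` -/
def H (T : Str) : List Str :=
  (P.blocks n T).flatMap fun B => (allS (P.Qb n) (P.b n)).map fun z => smp (P.b n) (P.r n) B z

variable (d : δ) (j : ℕ) (u : Str)

open scoped Classical in
/-- counting in the list of all words -/
noncomputable def cA (R v : Str) : ℕ :=
  (allS (P.Qb n) (P.b n)).countP fun z =>
    decide (P.Ev n d (smp (P.b n) j R z ++ decide (¬ ip v z = true) :: u))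

open scoped Classical in
noncomputable def cB (R v : Str) : ℕ :=
  (allS (P.Qb n) (P.b n)).countP fun z =>
    decide (P.Ev n d (smp (P.b n) j R z ++ decide (ip v z = true) :: u))

/-- candidates for row `j` of a block starting with `R` -/
noncomputable def Cand (R : Str) : List Str :=
  (allS (P.Qb n) (P.b n)).filter fun v =>
    decide ((allS (P.Qb n) (P.b n)).length + 2 * P.r n * P.cB n d j u R v ≤
      2 * P.r n * P.cA n d j u R v)

/-- position coded by a chunk -/
def pos (c : Str) : ℕ := (allS (P.Q1 n) (P.w1 n)).idxOf (c.take (P.w1 n))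

/-- block coded by a chunk -/
noncomputable def blk (c : Str) : Str :=
  (c.drop (P.w1 n + P.w2 n)).take (j * P.b n) ++
    ((P.Cand n d j u ((c.drop (P.w1 n + P.w2 n)).take (j * P.b n))).getD
      ((allS (P.Q2 n) (P.w2 n)).idxOf ((c.drop (P.w1 n)).take (P.w2 n))) [] ++
    (c.drop (P.w1 n + P.w2 n)).drop (j * P.b n))

/-- all chunks inserted into the verbatim blocks `V` -/
noncomputable def ins (V cs : List Str) : List Str :=
  cs.foldl (fun L c => L.insertIdx (P.pos n c) (P.blk n d j u c)) V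

/-- the description in the header -/
def hd1 (x : Str) : δ := Cd.dec (unpad ((x.take (P.h n)).take (P.s n + 1)))
def hd2 (x : Str) : ℕ := ((x.take (P.h n)).drop (P.s n + 1)).idxOf true
def hd3 (x : Str) : Str := ((x.take (P.h n)).drop (P.s n + 1)).drop (P.hd2 n x + 1)

/-- the chunks and the verbatim blocks in an input -/
def chunks (x : Str) : List Str :=
  (List.range (P.h n + 1)).map fun i =>
    (x.drop (P.h n + i * (P.r n * P.b n - 1))).take (P.r n * P.b n - 1)

def verb (x : Str) : List Str :=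
  (List.range (P.N n - (P.h n + 1))).map fun i =>
    (x.drop (P.h n + (P.h n + 1) * (P.r n * P.b n - 1) + i * (P.r n * P.b n))).take
      (P.r n * P.b n)

/-- the generator -/
noncomputable def G0 (x : Str) : Str :=
  fixLen (P.m n + 1) (P.ins n (P.hd1 n x) (P.hd2 n x) (P.hd3 n x) (P.verb n x)
    (P.chunks n x)).flatten

end HP

end Pool.Agent.Helper33.TQ

end

section
/-! Module TQ Hbd: the numerical parameters. -/

namespace Pool.Agent.Helper33.TQ

open Function

namespace HP

variable {δ : Type} [Cd δ] (P : HP δ)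

section ptf

variable {α : Type} [Cd α] {f : α → ℕ}

@[fun_prop] theorem ptf_r (hf : PTF f) : PTF (fun a => P.r (f a)) := PTF.comp P.hr hf
@[fun_prop] theorem ptf_s (hf : PTF f) : PTF (fun a => P.s (f a)) := PTF.comp P.hs hf
@[fun_prop] theorem ptf_h (hf : PTF f) : PTF (fun a => P.h (f a)) := by
  unfold h; fun_prop
@[fun_prop] theorem ptf_N (hf : PTF f) : PTF (fun a => P.N (f a)) := by
  unfold N; fun_prop
@[fun_prop] theorem ptf_w1 (hf : PTF f) : PTF (fun a => P.w1 (f a)) := by
  unfold w1; fun_prop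
@[fun_prop] theorem ptf_w2 (hf : PTF f) : PTF (fun a => P.w2 (f a)) := by
  unfold w2; fun_prop
@[fun_prop] theorem ptf_b (hf : PTF f) : PTF (fun a => P.b (f a)) := by
  unfold b; fun_prop
@[fun_prop] theorem ptf_Q1 (hf : PTF f) : PTF (fun a => P.Q1 (f a)) := by
  unfold Q1; fun_prop
@[fun_prop] theorem ptf_Q2 (hf : PTF f) : PTF (fun a => P.Q2 (f a)) := by
  unfold Q2; fun_prop
@[fun_prop] theorem ptf_Qb (hf : PTF f) : PTF (fun a => P.Qb (f a)) := by
  unfold Qb; fun_prop
@[fun_prop] theorem ptf_m (hf : PTF f) : PTF (fun a => P.m (f a)) := by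
  unfold m; fun_prop

end ptf

variable (n : ℕ)

theorem N_pos : 0 < P.N n := by
  have := P.hr0 n
  unfold N
  exact Nat.mul_pos (Nat.mul_pos (by norm_num) this) (Nat.succ_pos _)

theorem b_pos : 0 < P.b n := Nat.succ_pos _

private theorem Hbd_N_ge : 2 ≤ P.N n := by
  have h1 := P.hr0 n
  unfold N
  have h2 : 1 ≤ P.h n + 1 := Nat.succ_pos _
  calc 2 = 2 * 1 * 1 := rfl
    _ ≤ 2 * P.r n * (P.h n + 1) := Nat.mul_le_mul (Nat.mul_le_mul le_rfl h1) h2

private theorem Hbd_rb_pos : 0 < P.r n * P.b n := Nat.mul_pos (P.hr0 n) (P.b_pos n)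

private theorem Hbd_Nrb : 2 ≤ P.N n * (P.r n * P.b n) := by
  calc 2 = 2 * 1 := rfl
    _ ≤ P.N n * (P.r n * P.b n) := Nat.mul_le_mul (P.Hbd_N_ge n) (P.Hbd_rb_pos n)

theorem m_pos : 0 < P.m n := by
  have := P.Hbd_Nrb n
  unfold m
  omega

theorem m_succ : P.m n + 1 = P.N n * (P.r n * P.b n) := by
  have := P.Hbd_Nrb n
  unfold m
  omega

theorem N_le : P.N n ≤ 2 ^ P.w1 n := Nat.le_pow_clog (by norm_num) _

theorem r_le : 4 * P.r n ^ 2 ≤ 2 ^ P.w2 n := Nat.le_pow_clog (by norm_num) _

theorem le_Q1 : 2 ^ P.w1 n ≤ P.Q1 n := two_pow_clog_le (P.N_pos n)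

theorem le_Q2 : 2 ^ P.w2 n ≤ P.Q2 n := by
  have h1 : 1 ≤ 4 * P.r n ^ 2 := by
    have : 0 < P.r n ^ 2 := pow_pos (P.hr0 n) 2
    omega
  have h2 := two_pow_clog_le h1
  unfold w2 Q2
  omega

theorem le_Qb : 2 ^ P.b n ≤ P.Qb n := by
  have h1 := P.le_Q1 n
  have h2 := P.le_Q2 n
  unfold b Qb
  unfold Q1 at h1
  unfold Q2 at h2
  calc 2 ^ (P.w1 n + P.w2 n + 1) = 2 ^ P.w1 n * 2 ^ P.w2 n * 2 := by rw [pow_succ, pow_add]
    _ ≤ (2 * P.N n) * (8 * P.r n ^ 2) * 2 :=
        Nat.mul_le_mul (Nat.mul_le_mul h1 h2) le_rfl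
    _ = 32 * P.N n * P.r n ^ 2 := by ring

theorem h_lt_N : P.h n + 1 ≤ P.N n := by
  have h1 := P.hr0 n
  unfold N
  calc P.h n + 1 = 1 * (P.h n + 1) := (one_mul _).symm
    _ ≤ 2 * P.r n * (P.h n + 1) := Nat.mul_le_mul (by omega) le_rfl

/-- the length of an input: header, chunks, verbatim blocks -/
theorem m_eq : P.m n = P.h n + (P.h n + 1) * (P.r n * P.b n - 1) +
    (P.N n - (P.h n + 1)) * (P.r n * P.b n) := by
  have h1 := P.m_succ n
  have h2 := P.h_lt_N n
  have h3 := P.Hbd_rb_pos n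
  obtain ⟨k, hk⟩ : ∃ k, P.N n = P.h n + 1 + k := ⟨P.N n - (P.h n + 1), by omega⟩
  obtain ⟨c, hc⟩ : ∃ c, P.r n * P.b n = c + 1 := ⟨P.r n * P.b n - 1, by omega⟩
  rw [hk, hc] at h1
  rw [hk, hc]
  have h4 : P.h n + 1 + k - (P.h n + 1) = k := by omega
  have h5 : c + 1 - 1 = c := rfl
  rw [h4, h5]
  have h6 : (P.h n + 1 + k) * (c + 1) = (P.h n + 1) * c + (P.h n + 1) + k * (c + 1) := by ring
  omega

end HP

end Pool.Agent.Helper33.TQ

end
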