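import Pool.Agent.Helper33.TQ.Hbd

section
/-! Module TQ Hcand: the list of candidates. -/

namespace Pool.Agent.Helper33.TQ

open Function

namespace HP

variable {δ : Type} [Cd δ] (P : HP δ) (n : ℕ) (d : δ) (j : ℕ) (u : Str)

theorem Hcand_row_take (b j i : ℕ) (B : Str) (hi : i < j) :
    row b i (B.take (j * b)) = row b i B := by
  unfold row
  rw [List.drop_take, List.take_take]
  congr 1
  have h1 : (i + 1) * b ≤ j * b := Nat.mul_le_mul_right b hi
  rw [Nat.add_mul, Nat.one_mul] at h1
  omega

theorem smp_take (b j : ℕ) (B z : Str) : smp b j (B.take (j * b)) z = smp b j B z := by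
  unfold smp
  refine List.map_congr_left fun i hi => ?_
  rw [Hcand_row_take b j i B (List.mem_range.1 hi)]

theorem Hcand_not (x : Bool) : decide (¬ x = true) = !x := by
  cases x <;> simp

theorem Hcand_yes (x : Bool) : decide (x = true) = x := by
  cases x <;> simp

theorem Hcand_cA (R v : Str) : P.cA n d j u R v =
    sa (P.b n) (tst (P.Ev n d) (P.b n) j u R) v := by
  classical
  unfold cA sa
  rw [countP_allS (P.le_Qb n) (fun z => P.Ev n d
      (smp (P.b n) j R z ++ decide (¬ ip v z = true) :: u))]
  congr 1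
  ext z
  rw [Finset.mem_filter, Finset.mem_filter]
  unfold tst
  rw [Hcand_not]

theorem Hcand_cB (R v : Str) : P.cB n d j u R v =
    sb (P.b n) (tst (P.Ev n d) (P.b n) j u R) v := by
  classical
  unfold cB sb
  rw [countP_allS (P.le_Qb n) (fun z => P.Ev n d
      (smp (P.b n) j R z ++ decide (ip v z = true) :: u))]
  congr 1
  ext z
  rw [Finset.mem_filter, Finset.mem_filter]
  unfold tst
  rw [Hcand_yes]

theorem mem_Cand {R v : Str} : v ∈ P.Cand n d j u R ↔ v.length = P.b n ∧
    2 ^ P.b n + 2 * P.r n * sb (P.b n) (tst (P.Ev n d) (P.b n) j u R) v ≤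
      2 * P.r n * sa (P.b n) (tst (P.Ev n d) (P.b n) j u R) v := by
  unfold Cand
  rw [List.mem_filter, mem_allS (P.le_Qb n), decide_eq_true_iff, length_allS (P.le_Qb n),
    Hcand_cA, Hcand_cB]

theorem length_Cand_le (R : Str) : (P.Cand n d j u R).length ≤ 4 * P.r n ^ 2 := by
  classical
  have hnd : (P.Cand n d j u R).Nodup := by
    unfold Cand
    exact (nodup_allS _ _).filter _
  rw [← List.toFinset_card_of_nodup hnd]
  refine le_trans (Finset.card_le_card ?_)
    (card_cand_le (P.b n) (P.r n) (tst (P.Ev n d) (P.b n) j u R))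
  intro v hv
  rw [List.mem_toFinset, mem_Cand] at hv
  rw [Finset.mem_filter, mem_wds]
  exact hv

/-- the row of a good block is a candidate -/
theorem row_mem_Cand {B : Str} (hj : j < P.r n) (hB : B.length = P.r n * P.b n)
    (hg : goodB (P.Ev n d) (P.r n) (P.b n) j u B) :
    row (P.b n) j B ∈ P.Cand n d j u (B.take (j * P.b n)) := by
  rw [mem_Cand]
  constructor
  · unfold row
    rw [List.length_take, List.length_drop, hB]
    have h1 : (j + 1) * P.b n ≤ P.r n * P.b n := Nat.mul_le_mul_right _ hj
    rw [Nat.add_mul, Nat.one_mul] at h1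
    omega
  · have h : tst (P.Ev n d) (P.b n) j u (B.take (j * P.b n)) =
        tst (P.Ev n d) (P.b n) j u B := by
      funext z c
      unfold tst
      rw [smp_take]
    rw [h]
    exact hg

end HP

end Pool.Agent.Helper33.TQ

end

section
/-! Module TQ Hchunk: compression of one block, and of a list of blocks. -/

namespace Pool.Agent.Helper33.TQ

open Function

namespace HP

variable {δ : Type} [Cd δ] (P : HP δ) (n : ℕ) (d : δ) (j : ℕ) (u : Str)

/-- `c = σ₁ ++ (σ₂ ++ (B.take (j b) ++ B.drop ((j+1) b)))` where `σ₁` is the word number `p` in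
`allS Q1 w1` and `σ₂` the word whose number in `allS Q2 w2` is the position of the row in the
list of candidates -/
theorem exists_chunk {B : Str} {p : ℕ} (hp : p < P.N n) (hj : j < P.r n)
    (hB : B.length = P.r n * P.b n) (hg : goodB (P.Ev n d) (P.r n) (P.b n) j u B) :
    ∃ c : Str, c.length = P.r n * P.b n - 1 ∧ P.pos n c = p ∧ P.blk n d j u c = B := by
  have hv := P.row_mem_Cand n d j u hj hB hg
  set R : Str := B.take (j * P.b n) with hR
  set v : Str := row (P.b n) j B with hvd
  have hi := List.idxOf_lt_length_of_mem hv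
  have hlen := P.length_Cand_le n d j u R
  have h1 : p < (allS (P.Q1 n) (P.w1 n)).length := by
    rw [length_allS (P.le_Q1 n)]
    exact lt_of_lt_of_le hp (P.N_le n)
  have h2 : (P.Cand n d j u R).idxOf v < (allS (P.Q2 n) (P.w2 n)).length := by
    rw [length_allS (P.le_Q2 n)]
    have := P.r_le n
    omega
  set σ₁ : Str := (allS (P.Q1 n) (P.w1 n))[p] with hs1
  set σ₂ : Str := (allS (P.Q2 n) (P.w2 n))[(P.Cand n d j u R).idxOf v] with hs2
  have l1 : σ₁.length = P.w1 n := length_mem_allS (List.getElem_mem h1)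
  have l2 : σ₂.length = P.w2 n := length_mem_allS (List.getElem_mem h2)
  have hb : P.b n = P.w1 n + P.w2 n + 1 := rfl
  have hjb : j * P.b n + P.b n ≤ P.r n * P.b n := by
    have h := Nat.mul_le_mul_right (P.b n) (Nat.succ_le_iff.2 hj)
    rwa [Nat.succ_mul] at h
  have lR : R.length = j * P.b n := by
    rw [hR, List.length_take, hB]
    omega
  have lD : (B.drop ((j + 1) * P.b n)).length = P.r n * P.b n - (j * P.b n + P.b n) := by
    rw [List.length_drop, hB, Nat.succ_mul]
  refine ⟨σ₁ ++ (σ₂ ++ (R ++ B.drop ((j + 1) * P.b n))), ?_, ?_, ?_⟩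
  · rw [List.length_append, List.length_append, List.length_append, l1, l2, lR, lD]
    omega
  · rw [pos, List.take_left' l1, hs1]
    exact (nodup_allS _ _).idxOf_getElem p h1
  · have e1 : (σ₁ ++ (σ₂ ++ (R ++ B.drop ((j + 1) * P.b n)))).drop (P.w1 n + P.w2 n) =
        R ++ B.drop ((j + 1) * P.b n) := by
      rw [← List.append_assoc]
      exact List.drop_left' (by rw [List.length_append, l1, l2])
    have e2 : ((σ₁ ++ (σ₂ ++ (R ++ B.drop ((j + 1) * P.b n)))).drop (P.w1 n)).take (P.w2 n) =
        σ₂ := by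
      rw [List.drop_left' l1, List.take_left' l2]
    have e3 : (allS (P.Q2 n) (P.w2 n)).idxOf σ₂ = (P.Cand n d j u R).idxOf v := by
      rw [hs2]
      exact (nodup_allS _ _).idxOf_getElem _ h2
    rw [blk, e1, e2, List.take_left' lR, List.drop_left' lR, e3,
      List.getD_eq_getElem _ _ hi, List.getElem_idxOf hi, hvd, row, hR]
    have e4 : B.drop ((j + 1) * P.b n) = (B.drop (j * P.b n)).drop (P.b n) := by
      rw [List.drop_drop, Nat.succ_mul]
    rw [e4, List.take_append_drop, List.take_append_drop]

open scoped Classical in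
/-- induction on `k`: erase a good block (at position `p`), compress the rest, insert it back
with the last chunk (`List.insertIdx` of `List.eraseIdx`) -/
theorem exists_chunks (hj : j < P.r n) (k : ℕ) : ∀ L : List Str, L.length ≤ P.N n →
    (∀ B ∈ L, B.length = P.r n * P.b n) →
    k ≤ L.countP (fun B => decide (goodB (P.Ev n d) (P.r n) (P.b n) j u B)) →
    ∃ V cs : List Str, V.length + k = L.length ∧ (∀ B ∈ V, B.length = P.r n * P.b n) ∧
      cs.length = k ∧ (∀ c ∈ cs, c.length = P.r n * P.b n - 1) ∧ P.ins n d j u V cs = L := by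
  induction k with
  | zero =>
    intro L hL hB _
    exact ⟨L, [], rfl, hB, rfl, by simp, rfl⟩
  | succ k ih =>
    intro L hL hB hk
    have h0 : 0 < L.countP (fun B => decide (goodB (P.Ev n d) (P.r n) (P.b n) j u B)) := by
      omega
    obtain ⟨B, hBL, hgood⟩ := List.countP_pos_iff.1 h0
    obtain ⟨p, hp, hpB⟩ := List.getElem_of_mem hBL
    have hg : goodB (P.Ev n d) (P.r n) (P.b n) j u B := of_decide_eq_true hgood
    have hperm := List.getElem_cons_eraseIdx_perm hp
    rw [hpB] at hperm
    have hc := hperm.countP_eq (fun B => decide (goodB (P.Ev n d) (P.r n) (P.b n) j u B))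
    rw [List.countP_cons_of_pos (p := fun B => decide (goodB (P.Ev n d) (P.r n) (P.b n) j u B))
      (a := B) (decide_eq_true hg)] at hc
    have hl := hperm.length_eq
    rw [List.length_cons] at hl
    obtain ⟨V, cs, h1, h2, h3, h4, h5⟩ := ih (L.eraseIdx p) (by omega)
      (fun B' hB' => hB B' (List.mem_of_mem_eraseIdx hB')) (by omega)
    obtain ⟨c, c1, c2, c3⟩ := P.exists_chunk n d j u (lt_of_lt_of_le hp hL) hj (hB B hBL) hg
    refine ⟨V, cs ++ [c], by omega, h2, by rw [List.length_append, h3]; rfl, ?_, ?_⟩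
    · intro c' hc'
      rcases List.mem_append.1 hc' with h | h
      · exact h4 c' h
      · rw [List.mem_singleton.1 h]
        exact c1
    · rw [ins, List.foldl_append, List.foldl_cons, List.foldl_nil]
      rw [ins] at h5
      rw [h5, c2, c3, ← hpB]
      exact List.insertIdx_eraseIdx_getElem hp

end HP

end Pool.Agent.Helper33.TQ

end
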