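import Pool.Agent.Helper33.TQ.RawAll

/-! Module TQ RawEq. -/

namespace Pool.Agent.Helper33.TQ

open Function Pool.Agent.Helper72

/-- one step of the equality test: remove the first letters if they agree -/
private def eqF : Str × Str → Str × Str
  | (a :: u, b :: v) => if a = b then (u, v) else (a :: u, b :: v)
  | (u, v) => (u, v)

private theorem eqF_iff (p : Str × Str) : ((eqF p).1 = (eqF p).2) ↔ (p.1 = p.2) := by
  obtain ⟨u, v⟩ := p
  rcases u with _ | ⟨a, u⟩
  · simp [eqF]
  · rcases v with _ | ⟨b, v⟩
    · simp [eqF]
    · by_cases h : a = b
      · simp [eqF, h]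
      · simp [eqF, h]

private theorem eqF_iter_iff (n : ℕ) (p : Str × Str) :
    ((eqF^[n] p).1 = (eqF^[n] p).2) ↔ (p.1 = p.2) := by
  induction n with
  | zero => simp
  | succ n ih => rw [Function.iterate_succ_apply', eqF_iff, ih]

private theorem eqF_same (u : Str) : eqF (u, u) = (u.tail, u.tail) := by
  rcases u with _ | ⟨a, u⟩ <;> simp [eqF]

private theorem eqF_iter_same (n : ℕ) (u : Str) : eqF^[n] (u, u) = (u.drop n, u.drop n) := by
  induction n with
  | zero => simp
  | succ n ih => rw [Function.iterate_succ_apply', ih, eqF_same, List.tail_drop]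

private theorem eqF_len (p : Str × Str) :
    (eqF p).1.length ≤ p.1.length ∧ (eqF p).2.length ≤ p.2.length := by
  obtain ⟨u, v⟩ := p
  rcases u with _ | ⟨a, u⟩
  · simp [eqF]
  · rcases v with _ | ⟨b, v⟩
    · simp [eqF]
    · by_cases h : a = b
      · simp [eqF, h]
      · simp [eqF, h]

private theorem eqF_iter_len (n : ℕ) (p : Str × Str) :
    (eqF^[n] p).1.length ≤ p.1.length ∧ (eqF^[n] p).2.length ≤ p.2.length := by
  induction n with
  | zero => simp
  | succ n ih =>
    rw [Function.iterate_succ_apply']
    have := eqF_len (eqF^[n] p)
    omega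

/-- word version of `eqF` -/
private def eqStep (x : Str) : Str :=
  if (unp (unp x).2).1 = [] then (unp x).2 else
    if (unp (unp x).2).2 = [] then (unp x).2 else
      if (unp (unp x).2).1.head? = some true then
        if (unp (unp x).2).2.head? = some true then
          pairCode ((unp (unp x).2).1.tail, (unp (unp x).2).2.tail)
        else (unp x).2
      else
        if (unp (unp x).2).2.head? = some true then (unp x).2
        else pairCode ((unp (unp x).2).1.tail, (unp (unp x).2).2.tail)

private theorem ptime_unp2 : PTime (fun x => (unp x).2) := PTime.unp2 PTime.id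

private theorem ptime_eqStep : PTime eqStep := by
  have h0 : PTime (fun x => (unp x).2) := ptime_unp2
  have h1 : PTime (fun x => (unp (unp x).2).1) := PTime.unp1 h0
  have h2 : PTime (fun x => (unp (unp x).2).2) := PTime.unp2 h0
  have h3 : PTime (fun x => pairCode ((unp (unp x).2).1.tail, (unp (unp x).2).2.tail)) :=
    PTime.pair (PTime.tail h1) (PTime.tail h2)
  exact PTime.iteNil h1 h0 (PTime.iteNil h2 h0
    (PTime.ite h1 (PTime.ite h2 h3 h0) (PTime.ite h2 h0 h3)))

private theorem eqStep_pair (e : Str) (p : Str × Str) :
    eqStep (pairCode (e, pairCode p)) = pairCode (eqF p) := by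
  obtain ⟨u, v⟩ := p
  simp only [eqStep, unp_pairCode]
  rcases u with _ | ⟨a, u⟩
  · simp [eqF]
  · rcases v with _ | ⟨b, v⟩
    · simp [eqF]
    · cases a <;> cases b <;> simp [eqF]

private theorem eqStep_iter (e : Str) (n : ℕ) (p : Str × Str) :
    (fun s => eqStep (pairCode (e, s)))^[n] (pairCode p) = pairCode (eqF^[n] p) := by
  induction n with
  | zero => simp
  | succ n ih =>
    rw [Function.iterate_succ_apply', Function.iterate_succ_apply', ih, eqStep_pair]

/-- equality test of words: iterate (remove the first letters of both words if they agree,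
otherwise keep the words); final test that both words are empty -/
theorem PTime.eqR {u v : Str → Str} (hu : PTime u) (hv : PTime v) :
    PTime (fun w => if u w = v w then [true] else []) := by
  obtain ⟨q1, hq1, -, hl1⟩ := hu.len
  obtain ⟨q2, hq2, -, hl2⟩ := hv.len
  have hit : PTime (fun w => (fun s => eqStep (pairCode ((fun _ => []) w, s)))^[(u w).length]
      ((fun w => pairCode (u w, v w)) w)) := by
    refine PTime.iter (PTime.const []) hu (PTime.pair hu hv) ptime_eqStep
      (B := fun n => 2 * q1 n + 2 + q2 n)
      ((((PB.const 2).mul hq1).add (PB.const 2)).add hq2) ?_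
    intro w i _
    simp only [eqStep_iter]
    rw [length_pairCode]
    have h1 := eqF_iter_len i (u w, v w)
    have h2 := hl1 w
    have h3 := hl2 w
    simp only at h1
    omega
  have hfin : PTime (fun w => if (unp ((fun s => eqStep (pairCode ((fun _ => []) w, s)))^[
      (u w).length] ((fun w => pairCode (u w, v w)) w))).1 = [] then
        (if (unp ((fun s => eqStep (pairCode ((fun _ => []) w, s)))^[
          (u w).length] ((fun w => pairCode (u w, v w)) w))).2 = [] then [true] else [])
        else []) :=
    PTime.iteNil (PTime.unp1 hit) (PTime.iteNil (PTime.unp2 hit) (PTime.const [true])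
      (PTime.const [])) (PTime.const [])
  refine (funext fun w => ?_ : (fun w => if u w = v w then [true] else []) = _) ▸ hfin
  simp only [eqStep_iter, unp_pairCode]
  by_cases h : u w = v w
  · rw [if_pos h, ← h, eqF_iter_same]
    simp
  · rw [if_neg h]
    have h1 := (eqF_iter_iff (u w).length (u w, v w)).not.2 h
    split_ifs with h2 h3
    · rw [h2, h3] at h1
      exact absurd rfl h1
    · rfl
    · rfl

/-- unary length -/
theorem PTime.unlen {u : Str → Str} (hu : PTime u) :
    PTime (fun w => List.replicate (u w).length true) := by
  obtain ⟨q1, hq1, -, hl1⟩ := hu.len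
  have hstep : PTime (fun x => true :: (unp x).2) := PTime.cons true ptime_unp2
  have key : ∀ (e : Str) (n : ℕ),
      (fun s => (fun x => true :: (unp x).2) (pairCode (e, s)))^[n] [] =
        List.replicate n true := by
    intro e n
    induction n with
    | zero => simp
    | succ n ih =>
      rw [Function.iterate_succ_apply', ih]
      simp [List.replicate_succ]
  have hit := PTime.iter (PTime.const []) hu (PTime.const []) hstep (B := q1) hq1 (by
    intro w i hi
    rw [key, List.length_replicate]
    exact hi.trans (hl1 w))
  refine (funext fun w => ?_ :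
    (fun w => List.replicate (u w).length true) = _) ▸ hit
  rw [key]

/-- word version of one step of the reversal -/
private def revStep (x : Str) : Str :=
  if (unp (unp x).2).1 = [] then (unp x).2 else
    if (unp (unp x).2).1.head? = some true then
      pairCode ((unp (unp x).2).1.tail, true :: (unp (unp x).2).2)
    else pairCode ((unp (unp x).2).1.tail, false :: (unp (unp x).2).2)

private theorem ptime_revStep : PTime revStep := by
  have h0 : PTime (fun x => (unp x).2) := ptime_unp2
  have h1 : PTime (fun x => (unp (unp x).2).1) := PTime.unp1 h0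
  have h2 : PTime (fun x => (unp (unp x).2).2) := PTime.unp2 h0
  exact PTime.iteNil h1 h0 (PTime.ite h1
    (PTime.pair (PTime.tail h1) (PTime.cons true h2))
    (PTime.pair (PTime.tail h1) (PTime.cons false h2)))

private theorem revStep_cons (e : Str) (a : Bool) (u v : Str) :
    revStep (pairCode (e, pairCode (a :: u, v))) = pairCode (u, a :: v) := by
  cases a <;> simp [revStep]

private theorem revStep_iter (e : Str) (u v : Str) (n : ℕ) (hn : n ≤ u.length) :
    (fun s => revStep (pairCode (e, s)))^[n] (pairCode (u, v)) =
      pairCode (u.drop n, (u.take n).reverse ++ v) := by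
  induction n with
  | zero => simp
  | succ n ih =>
    rw [Function.iterate_succ_apply', ih (by omega)]
    have hlt : n < u.length := hn
    rw [List.drop_eq_getElem_cons hlt, revStep_cons, List.take_succ_eq_append_getElem hlt,
      List.reverse_append]
    rfl

/-- reversal onto a word -/
private theorem ptime_revAppend {u v : Str → Str} (hu : PTime u) (hv : PTime v) :
    PTime (fun w => (u w).reverse ++ v w) := by
  obtain ⟨q1, hq1, -, hl1⟩ := hu.len
  obtain ⟨q2, hq2, -, hl2⟩ := hv.len
  have hit := PTime.unp2 (PTime.iter (PTime.const []) hu (PTime.pair hu hv) ptime_revStep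
    (B := fun n => 2 * q1 n + 2 + (q1 n + q2 n))
    ((((PB.const 2).mul hq1).add (PB.const 2)).add (hq1.add hq2)) (by
      intro w i hi
      rw [revStep_iter _ _ _ _ hi, length_pairCode, List.length_append, List.length_reverse,
        List.length_take, List.length_drop]
      have h2 := hl1 w
      have h3 := hl2 w
      omega))
  refine (funext fun w => ?_ : (fun w => (u w).reverse ++ v w) = _) ▸ hit
  rw [revStep_iter _ _ _ _ le_rfl]
  simp

theorem PTime.append {u v : Str → Str} (hu : PTime u) (hv : PTime v) :
    PTime (fun w => u w ++ v w) := by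
  have h := ptime_revAppend (ptime_revAppend hu (PTime.const [])) hv
  simpa using h

theorem PTime.reverse {u : Str → Str} (hu : PTime u) : PTime (fun w => (u w).reverse) := by
  have h := ptime_revAppend hu (PTime.const [])
  simpa using h

end Pool.Agent.Helper33.TQ
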