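import Pool.Agent.Helper33.TQ.RawAll
import Pool.Agent.Helper33.TQ.RawEq
import Pool.Agent.Helper72.Inst

/-! Module TQ KarpA: generation of the tableau formula with a fixed first input. -/

namespace Pool.Agent.Helper33.TQ

open Function Pool.Agent.Helper72

/-- the tableau formula with stack 0 at time 0 fixed to `z` -/
def karpF (P : List Instr) (k acc : ℕ) (z : Str) (B : ℕ) : BForm :=
  addF (endC (z.length * nCh P k)) (addF (prefC (nCh P k) 0 z) (tabF P k acc B))

/-- computing a word function of register 0 in register `t` -/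
theorem KarpA_stage {h : Str → Str} (hp : PTime h) (t : ℕ) (ht0 : 0 ≠ t) (ht30 : 30 ≠ t)
    (ht : t < 100) : ∃ (c : Cmd) (T : ℕ → ℕ), PB T ∧ Monotone T ∧ c.ok = true ∧
      ∀ s : St, s 30 = [] → (∀ r, 100 ≤ r → s r = []) → s t = [] →
        c.LB (T (s 0).length) s ∧ c.eval s = update s t (h (s 0)) := by
  obtain ⟨q, hq, hqm, hql⟩ := PTime.len hp
  obtain ⟨d, T, hT, hTm, hok, hwr, hspec⟩ := (ptime_iff_CF _).1 hp 100
  refine ⟨Cmd.seq (Cmd.copy 0 100 30) (Cmd.seq d (Cmd.seq (Cmd.mv 100 30) (Cmd.mv 30 t))),
    fun n => n + T n + q n, (PB.id.add hT).add hq, fun a b hab => ?_, ?_, fun s h30 h100 hst => ?_⟩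
  · have h1 := hTm hab
    have h2 := hqm hab
    show a + T a + q a ≤ b + T b + q b
    omega
  · simp [Cmd.ok, Cmd.ok_copy (a := 0) (b := 100) (t := 30) (by norm_num) (by norm_num), hok, ht30]
  · have e1 : (Cmd.copy 0 100 30).eval s = update s 100 (s 0) := by
      rw [Cmd.eval_copy (by norm_num) (by norm_num) (by norm_num) h30, h100 100 le_rfl,
        List.append_nil]
    obtain ⟨l2, e2⟩ := hspec (s 0) (update s 100 (s 0)) (fun r hr => by
      rw [update_of_ne (by omega)]
      exact h100 r (by omega)) (by simp)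
    rw [update_idem] at e2
    have e3 : (Cmd.mv 100 30).eval (update s 100 (h (s 0))) =
        update s 30 (h (s 0)).reverse := by
      rw [Cmd.eval_mv (by norm_num)]
      funext r
      by_cases q1 : r = 30
      · subst q1; simp [h30]
      · by_cases q2 : r = 100
        · subst q2; simp [h100 100 le_rfl]
        · simp [q1, q2]
    have e4 : (Cmd.mv 30 t).eval (update s 30 (h (s 0)).reverse) = update s t (h (s 0)) := by
      rw [Cmd.eval_mv ht30]
      funext r
      by_cases q1 : r = t
      · subst q1; simp [ht30.symm, hst]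
      · by_cases q2 : r = 30
        · subst q2; simp [h30, q1]
        · simp [q1, q2]
    beta_reduce
    constructor
    · rw [Cmd.LB_seq, Cmd.LB_seq, Cmd.LB_seq, e1, e2, e3]
      refine ⟨Cmd.LB_copy (by norm_num) (by norm_num) (by norm_num) h30 (by omega),
        l2.mono (by omega), Cmd.LB_mv (by norm_num) ?_, Cmd.LB_mv ht30 ?_⟩
      · rw [update_self]
        have := hql (s 0)
        omega
      · rw [update_self, List.length_reverse]
        have := hql (s 0)
        omega
    · rw [Cmd.eval_seq, Cmd.eval_seq, Cmd.eval_seq, e1, e2, e3, e4]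

/-- Program: split `w` into `z = (unp w).1` (register 11) and `un (unp w).2.length`
(register 10), then run the programs of `exists_genSpec`, `exists_prefSpec`, `exists_endSpec`
(`Pool/Agent/Helper72/Inst.lean`, interfaces in `ProgV.lean`), output in register 9, and use
`PTime.of_cmd`. Or prove first that `w ↦ (tabF P k acc w.length).code` is `PTime` and then do
the rest inside the calculus. -/
theorem karpF_ptime (P : List Instr) (k acc : ℕ) :
    PTime (fun w => (karpF P k acc (unp w).1 (unp w).2.length).code) := by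
  obtain ⟨c1, T1, hT1, hm1, ok1, sp1⟩ := KarpA_stage (PTime.unp1 PTime.id) 11 (by norm_num)
    (by norm_num) (by norm_num)
  obtain ⟨c2, T2, hT2, hm2, ok2, sp2⟩ := KarpA_stage (PTime.unlen (PTime.unp2 PTime.id)) 10
    (by norm_num) (by norm_num) (by norm_num)
  obtain ⟨gG, TG, hG⟩ := exists_genSpec P k acc
  obtain ⟨gP, TP, hP⟩ := exists_prefSpec (nCh P k)
  obtain ⟨gE, TE, hE⟩ := exists_endSpec
  refine PTime.of_cmd (Cmd.seq c1 (Cmd.seq c2 (Cmd.seq gG (Cmd.seq gP gE)))) ?_ 9
    (T := fun n => T1 n + T2 n + TG n + TP n + TE (n * nCh P k))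
    ((((hT1.add hT2).add hG.pb).add hP.pb).add (hE.pb.comp (PB.id.mul (PB.const _)))) ?_
  · simp [Cmd.ok, ok1, ok2, hG.ok, hP.ok, hE.ok]
  · intro y
    have hlen := unp_length y
    set Cn := nCh P k with hCn
    set z := (unp y).1 with hz
    set B := (unp y).2.length with hB
    have s0 : initSt 0 y 0 = y := rfl
    have sr : ∀ r, r ≠ 0 → initSt 0 y r = [] := fun r hr => by simp [initSt, hr]
    obtain ⟨l1, e1⟩ := sp1 (initSt 0 y) (sr 30 (by norm_num)) (fun r hr => sr r (by omega))
      (sr 11 (by norm_num))
    rw [s0] at l1 e1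
    obtain ⟨l2, e2⟩ := sp2 (update (initSt 0 y) 11 z) (by
        rw [update_of_ne (by norm_num)]; exact sr 30 (by norm_num))
      (fun r hr => by rw [update_of_ne (by omega)]; exact sr r (by omega))
      (by rw [update_of_ne (by norm_num)]; exact sr 10 (by norm_num))
    rw [update_of_ne (by norm_num), s0] at l2 e2
    set s2 : St := update (update (initSt 0 y) 11 z) 10 (un B) with hs2
    have s2r : ∀ r, r ≠ 0 → r ≠ 11 → r ≠ 10 → s2 r = [] := fun r h0 h11 h10 => by
      rw [hs2, update_of_ne h10, update_of_ne h11, sr r h0]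
    obtain ⟨e3, l3⟩ := hG.spec B s2 (s2r 9 (by norm_num) (by norm_num) (by norm_num))
      (by simp [hs2]) (fun r h1 h2 => s2r r (by omega) (by omega) (by omega))
    obtain ⟨e4, l4⟩ := hP.spec (update s2 9 (tabF P k acc B).code) (fun r h1 h2 => by
      rw [update_of_ne (by omega)]
      exact s2r r (by omega) (by omega) (by omega))
    have x11 : (update s2 9 (tabF P k acc B).code) 11 = z := by simp [hs2]
    have x9 : (update s2 9 (tabF P k acc B).code) 9 = (tabF P k acc B).code := by simp
    rw [x11, x9, update_idem] at e4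
    rw [x11] at l4
    obtain ⟨e5, l5⟩ := hE.spec (z.length * Cn) (update (update s2 9
      (addCode (prefC Cn 0 z) (tabF P k acc B).code)) 13 (un (z.length * Cn)))
      (by simp) (fun r h1 h2 => by
        rw [update_of_ne (by omega), update_of_ne (by omega)]
        exact s2r r (by omega) (by omega) (by omega))
    have e2' : c2.eval (update (initSt 0 y) 11 z) = s2 := e2
    have e1' : c1.eval (initSt 0 y) = update (initSt 0 y) 11 z := e1
    constructor
    · rw [Cmd.LB_seq, Cmd.LB_seq, Cmd.LB_seq, Cmd.LB_seq, e1', e2', e3, e4]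
      have g3 : TG B ≤ TG y.length := hG.mono (by omega)
      have g4 : TP z.length ≤ TP y.length := hP.mono (by omega)
      have g5 : TE (z.length * Cn) ≤ TE (y.length * Cn) :=
        hE.mono (Nat.mul_le_mul_right _ (by omega))
      exact ⟨l1.mono (by omega), l2.mono (by omega), l3.mono (by omega), l4.mono (by omega),
        l5.mono (by omega)⟩
    · rw [Cmd.eval_seq, Cmd.eval_seq, Cmd.eval_seq, Cmd.eval_seq, e1', e2', e3, e4, e5]
      rw [update_of_ne (by norm_num), update_self, update_of_ne (by norm_num), update_self]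
      rw [addCode_code, addCode_code]
      rfl

end Pool.Agent.Helper33.TQ
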