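import Pool.Agent.Helper33.TQ.KarpA
import Pool.Agent.Helper72.TabSpec
import Pool.Agent.Helper72.CodeInj
import Pool.Agent.Helper72.Refute

/-! Module TQ KarpB: correctness of the tableau formula with a fixed first input. -/

namespace Pool.Agent.Helper33.TQ

open Function Pool.Agent.Helper72

theorem KarpB_eq (P : List Instr) (k acc : ℕ) (z : Str) (B : ℕ) :
    karpF P k acc z B = endF (nCh P k) (tabF P k acc B) z := rfl

/-- from `tabF_complete` (`Pool/Agent/Helper72/TabSpec.lean`) -/
theorem karpF_of_accept {c : Cmd} {k acc B : ℕ} (hok : c.ok = true) (hbd : c.bd ≤ k)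
    (hk : 2 ≤ k) (hacc : acc < k) {z w : Str}
    (hB : max z.length w.length + c.time (init2 z w) ≤ B)
    (hac : (c.eval (init2 z w) acc)[0]? = some true) :
    (karpF c.code k acc z B).code ∈ SAT := by
  obtain ⟨v, hv, hcell⟩ := tabF_complete hok hbd hacc hB hac
  have hz : z.length ≤ B := by
    have := le_max_left z.length w.length
    omega
  refine ⟨karpF c.code k acc z B, rfl, v, ?_⟩
  rw [KarpB_eq, eval_endF, eval_prefF]
  refine ⟨fun b => ?_, fun i x hi => ?_, hv⟩
  · have h := hcell z.length hz b
    rw [List.getElem?_eq_none le_rfl] at h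
    by_contra hc
    have h2 : nval v (z.length * nCh c.code k + b.toNat) = true := by
      rcases hb : nval v (z.length * nCh c.code k + b.toNat) with _ | _
      · exact absurd hb hc
      · rfl
    have h3 := h.1 h2
    simp at h3
  · have hi' : i < z.length := by
      by_contra hc
      rw [List.getElem?_eq_none (by omega)] at hi
      simp at hi
    exact (hcell i (by omega) x).2 hi

/-- from `tabF_sound` and injectivity of the code (`Pool/Agent/Helper72/CodeInj.lean`) -/
theorem accept_of_karpF {c : Cmd} {k acc B : ℕ} (hok : c.ok = true) (hbd : c.bd ≤ k)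
    (hk : 2 ≤ k) (hacc : acc < k) {z : Str} (hz : z.length ≤ B) (hB : 0 < B)
    (h : (karpF c.code k acc z B).code ∈ SAT) :
    ∃ w : Str, (c.eval (init2 z w) acc)[0]? = some true := by
  obtain ⟨φ, hφ, v, hv⟩ := h
  have e := code_injective hφ
  rw [e] at hv
  have hb : Base (nCh c.code k) B (tabF c.code k acc B)
      (fun z' => ∃ w : Str, (c.eval (init2 z' w) acc)[0]? = some true) := by
    refine ⟨fun v hv => ?_⟩
    obtain ⟨z', w, h1, _, h3, h4⟩ := tabF_sound hok hbd hk hacc hB hv
    exact ⟨z', h1, ⟨w, h4⟩, h3⟩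
  exact hb.end_acc hz ⟨v, hv⟩

end Pool.Agent.Helper33.TQ
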