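import Pool.Agent.Helper33.TQ.Dich
import Pool.Agent.Helper33.TQ.WWdef
import Pool.Agent.Helper33.TQ.AMd
import Pool.Agent.Helper33.TQ.Exact

/-!
The search tree of an Arthur-Merlin game, its items and formulas, deciding with advice.
-/

namespace Pool.Agent.Helper33.TQ

open Function Pool.Agent.Helper72

/-- a two queries reduction and an Arthur-Merlin game with witnesses of exact length -/
structure Lev where
  D : TQD
  r : ℕ → ℕ
  k : ℕ → ℕ
  l : ℕ → ℕ
  V : Str → Str → Str → Prop
  hr : PTF r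
  hk : PTF k
  hl : PTF l
  hV : PTF (fun x : Str × Str × Str => V x.1 x.2.1 x.2.2)
  hr0 : ∀ n, 0 < r n

/-- items: an input, coins, the beginning of a witness -/
abbrev Itm := Str × Str × Str

namespace Lev

variable (g : Lev)

@[fun_prop] theorem ptf_r {α : Type} [Cd α] {f : α → ℕ} (hf : PTF f) :
    PTF (fun a => g.r (f a)) := PTF.comp g.hr hf
@[fun_prop] theorem ptf_k {α : Type} [Cd α] {f : α → ℕ} (hf : PTF f) :
    PTF (fun a => g.k (f a)) := PTF.comp g.hk hf
@[fun_prop] theorem ptf_l {α : Type} [Cd α] {f : α → ℕ} (hf : PTF f) :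
    PTF (fun a => g.l (f a)) := PTF.comp g.hl hf
@[fun_prop] theorem ptf_V {α : Type} [Cd α] {x ρ w : α → Str} (hx : PTF x) (hρ : PTF ρ)
    (hw : PTF w) : PTF (fun a => g.V (x a) (ρ a) (w a)) :=
  PTF.comp (f := fun x : Str × Str × Str => g.V x.1 x.2.1 x.2.2) g.hV (hx.mk (hρ.mk hw))
@[fun_prop] theorem ptf_T {α : Type} [Cd α] {x y : α → Str} (hx : PTF x) (hy : PTF y) :
    PTF (fun a => g.D.T (x a) (y a)) := g.D.ptf_T hx hy
@[fun_prop] theorem ptf_q {α : Type} [Cd α] {x y : α → Str} (hx : PTF x) (hy : PTF y) :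
    PTF (fun a => g.D.q (x a) (y a)) := g.D.ptf_q hx hy

/-- Merlin wins -/
def Sat (x ρ : Str) : Prop := ∃ w : Str, w.length = g.l x.length ∧ g.V x ρ w

/-- the item is satisfiable -/
def itm (x ρ lam : Str) : Prop :=
  ∃ w : Str, w.length = g.l x.length ∧ lam <+: w ∧ g.V x ρ w

theorem npp_Sat' : NPP (fun i : Str × Str => g.Sat i.1 i.2) := by
  refine NPP.ex (p := fun (i : Str × Str) (w : Str) => w.length = g.l i.1.length ∧
    g.V i.1 i.2 w) (by fun_prop) (g := fun i => g.l i.1.length) (by fun_prop) ?_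
  rintro i w ⟨h, -⟩
  simp [h]

@[fun_prop] theorem npp_Sat {α : Type} [Cd α] {x ρ : α → Str} (hx : PTF x) (hρ : PTF ρ) :
    NPP (fun a => g.Sat (x a) (ρ a)) :=
  NPP.comp (p := fun i : Str × Str => g.Sat i.1 i.2) g.npp_Sat' (hx.mk hρ)

theorem npp_itm' : NPP (fun i : Itm => g.itm i.1 i.2.1 i.2.2) := by
  refine NPP.ex (p := fun (i : Itm) (w : Str) => w.length = g.l i.1.length ∧ i.2.2 <+: w ∧
    g.V i.1 i.2.1 w) (by fun_prop) (g := fun i => g.l i.1.length) (by fun_prop) ?_
  rintro i w ⟨h, -⟩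
  simp [h]

@[fun_prop] theorem npp_itm {α : Type} [Cd α] {x ρ lam : α → Str} (hx : PTF x) (hρ : PTF ρ)
    (hl : PTF lam) : NPP (fun a => g.itm (x a) (ρ a) (lam a)) :=
  NPP.comp (p := fun i : Itm => g.itm i.1 i.2.1 i.2.2) g.npp_itm' (hx.mk (hρ.mk hl))

/-- formula of an item -/
noncomputable def κ (x ρ lam : Str) : Str := karp g.npp_itm' (x, ρ, lam)

@[simp] theorem mem_κ (x ρ lam : Str) : g.κ x ρ lam ∈ SAT ↔ g.itm x ρ lam := by simp [κ]

@[fun_prop] theorem ptf_κ {α : Type} [Cd α] {x ρ lam : α → Str} (hx : PTF x) (hρ : PTF ρ)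
    (hl : PTF lam) : PTF (fun a => g.κ (x a) (ρ a) (lam a)) :=
  PTF.comp (karp_ptf g.npp_itm') (hx.mk (hρ.mk hl))

theorem itm_nil {x ρ : Str} : g.itm x ρ [] ↔ g.Sat x ρ := by
  simp [itm, Sat]

theorem itm_leaf {x ρ lam : Str} (h : lam.length = g.l x.length) :
    g.itm x ρ lam ↔ g.V x ρ lam := by
  constructor
  · rintro ⟨w, h1, h2, h3⟩
    have := h2.eq_of_length (h.trans h1.symm)
    rwa [this]
  · intro h1
    exact ⟨lam, h, List.prefix_rfl, h1⟩

theorem itm_step {x ρ lam : Str} (h : lam.length < g.l x.length) :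
    g.itm x ρ lam ↔ g.itm x ρ (lam ++ [false]) ∨ g.itm x ρ (lam ++ [true]) := by
  constructor
  · rintro ⟨w, h1, ⟨v, rfl⟩, h3⟩
    cases v with
    | nil => simp at h1; omega
    | cons b v =>
      cases b
      · exact Or.inl ⟨_, h1, ⟨v, by simp⟩, h3⟩
      · exact Or.inr ⟨_, h1, ⟨v, by simp⟩, h3⟩
  · rintro (⟨w, h1, h2, h3⟩ | ⟨w, h1, h2, h3⟩)
    · exact ⟨w, h1, (List.prefix_append _ _).trans h2, h3⟩
    · exact ⟨w, h1, (List.prefix_append _ _).trans h2, h3⟩

/-- items for inputs of length `n` -/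
def items (n : ℕ) : Set Itm :=
  {i | i.1.length = n ∧ i.2.1.length = g.r n ∧ i.2.2.length ≤ g.l n}

theorem items_ncard (n : ℕ) : (g.items n).Finite ∧
    (g.items n).ncard < 2 ^ (n + g.r n + g.l n + 1) := by
  classical
  let f : Itm → Str := fun i =>
    i.1 ++ (i.2.1 ++ (i.2.2 ++ true :: List.replicate (g.l n - i.2.2.length) false))
  have hinj : Set.InjOn f (g.items n) := by
    rintro ⟨x, ρ, lam⟩ ⟨h1, h2, h3⟩ ⟨x', ρ', lam'⟩ ⟨h1', h2', h3'⟩ h
    simp only at h1 h2 h3 h1' h2' h3'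
    have h4 := List.append_inj h (h1.trans h1'.symm)
    have h5 := List.append_inj h4.2 (h2.trans h2'.symm)
    have h6 := congrArg unpad h5.2
    simp only [unpad_pad] at h6
    obtain ⟨rfl, -⟩ := h4
    obtain ⟨rfl, -⟩ := h5
    subst h6
    rfl
  set N := n + g.r n + g.l n + 1 with hN
  have hsub : f '' g.items n ⊆ ((wds N).erase (List.replicate N false) : Finset Str) := by
    rintro _ ⟨⟨x, ρ, lam⟩, ⟨h1, h2, h3⟩, rfl⟩
    simp only at h1 h2 h3
    simp only [Finset.coe_erase, Set.mem_sdiff, Finset.mem_coe, mem_wds, Set.mem_singleton_iff]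
    constructor
    · simp only [f, List.length_append, List.length_cons, List.length_replicate]
      omega
    · intro h
      have : true ∈ f (x, ρ, lam) := by simp [f]
      rw [h] at this
      have := List.eq_of_mem_replicate this
      simp at this
  have hfin : (f '' g.items n).Finite := (Finset.finite_toSet _).subset hsub
  have hfin' : (g.items n).Finite := Set.Finite.of_finite_image hfin hinj
  refine ⟨hfin', ?_⟩
  rw [← hinj.ncard_image]
  refine (Set.ncard_le_ncard hsub (Finset.finite_toSet _)).trans_lt ?_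
  rw [Set.ncard_coe_finset]
  have hmem : List.replicate N false ∈ wds N := by simp
  rw [Finset.card_erase_of_mem hmem, card_wds]
  have : 0 < 2 ^ N := by positivity
  omega

/-- the search tree for inputs of length `n` -/
noncomputable def tree (n : ℕ) : STree Itm where
  It := g.items n
  fin := (g.items_ncard n).1
  F := fun i => g.κ i.1 i.2.1 i.2.2
  S := fun i => g.itm i.1 i.2.1 i.2.2
  leaf := fun i => i.2.2.length = g.l i.1.length
  ch := fun b i => (i.1, i.2.1, i.2.2 ++ [b])
  rk := fun i => g.l i.1.length + 1 - i.2.2.length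
  hF := fun i _ => g.mem_κ _ _ _
  hch := by
    rintro ⟨x, ρ, lam⟩ ⟨h1, h2, h3⟩ h4 b
    simp only at h1 h2 h3 h4
    refine ⟨h1, h2, ?_⟩
    simp only [List.length_append, List.length_singleton]
    rw [h1] at h4
    omega
  hS := by
    rintro ⟨x, ρ, lam⟩ ⟨h1, h2, h3⟩ h4
    simp only at h1 h2 h3 h4
    refine g.itm_step ?_
    rw [h1] at h4 ⊢
    show lam.length < g.l n
    omega
  hrk := by
    rintro ⟨x, ρ, lam⟩ ⟨h1, h2, h3⟩ h4 b
    simp only at h1 h2 h3 h4
    simp only [List.length_append, List.length_singleton]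
    rw [h1] at h4 ⊢
    omega

/-- certificates of unsatisfiability at level `n` -/
def R (n : ℕ) (ψ : Str) : Prop := (g.tree n).R g.D ψ

/-- deciding an item with advice `A` -/
def dec1 (A : List Str) (x ρ lam : Str) : Prop := ∀ α ∈ A, g.D.T (g.κ x ρ lam) α

open scoped Classical in
/-- one step of the walk -/
noncomputable def step (A : List Str) (x ρ lam : Str) : Str :=
  if g.dec1 A x ρ (lam ++ [false]) then lam ++ [false] else lam ++ [true]

/-- the walk towards a witness with advice `A` -/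
noncomputable def walk (A : List Str) (x ρ : Str) : Str :=
  (g.step A x ρ)^[g.l x.length] []

/-- the walk finds a witness -/
def Pos (A : List Str) (x ρ : Str) : Prop := g.V x ρ (g.walk A x ρ)

/-- `A` decides all items at level `n` -/
def Good (n : ℕ) (A : List Str) : Prop :=
  ∀ x ρ lam : Str, x.length = n → ρ.length = g.r n → lam.length ≤ g.l n →
    (g.itm x ρ lam ↔ g.dec1 A x ρ lam)

end Lev

end Pool.Agent.Helper33.TQ
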