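import Pool.Agent.Helper33.TQ.Lev

/-! Module TQ LevR: the certificates are in NP. -/

namespace Pool.Agent.Helper33.TQ

open Function Pool.Agent.Helper72

namespace Lev

variable (g : Lev)

/-- bound for the sizes of items of level `n` -/
def itmB (n : ℕ) : ℕ := 2 * n + 2 + (2 * g.r n + 2 + g.l n)

@[fun_prop] theorem ptf_itmB {α : Type} [Cd α] {f : α → ℕ} (hf : PTF f) :
    PTF (fun a => g.itmB (f a)) := by
  unfold itmB
  fun_prop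

/-- explicit form of the items of level `n` -/
def IsI (n : ℕ) (i : Itm) : Prop :=
  i.1.length = n ∧ i.2.1.length = g.r n ∧ i.2.2.length ≤ g.l n

@[fun_prop] theorem ptf_IsI {α : Type} [Cd α] {n : α → ℕ} {i : α → Itm} (hn : PTF n)
    (hi : PTF i) : PTF (fun a => g.IsI (n a) (i a)) := by
  unfold IsI
  fun_prop

theorem sz_IsI {n : ℕ} {i : Itm} (h : g.IsI n i) : sz i ≤ g.itmB n := by
  obtain ⟨x, ρ, lam⟩ := i
  obtain ⟨h1, h2, h3⟩ := h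
  simp only at h1 h2 h3
  simp only [sz_pair, sz_str, itmB]
  omega

/-- `R1` with its quantifier over items of level `n` -/
theorem npp_R1 : NPP (fun t : ℕ × Str => (g.tree t.1).R1 g.D t.2) := by
  refine NPP.congr (p := fun t : ℕ × Str => ∃ i : Itm, g.IsI t.1 i ∧
    g.itm i.1 i.2.1 i.2.2 ∧ ¬ g.D.T (g.κ i.1 i.2.1 i.2.2) t.2 ∧
    g.D.q (g.κ i.1 i.2.1 i.2.2) t.2 ∈ SAT) ?_ (fun t => Iff.rfl)
  refine NPP.ex (p := fun (t : ℕ × Str) (i : Itm) => g.IsI t.1 i ∧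
    g.itm i.1 i.2.1 i.2.2 ∧ ¬ g.D.T (g.κ i.1 i.2.1 i.2.2) t.2 ∧
    g.D.q (g.κ i.1 i.2.1 i.2.2) t.2 ∈ SAT) ?_ (g := fun t => g.itmB t.1) (by fun_prop) ?_
  · fun_prop
  · rintro t i ⟨h, -⟩
    exact g.sz_IsI h

@[fun_prop] theorem npp_R1c {α : Type} [Cd α] {n : α → ℕ} {ψ : α → Str} (hn : PTF n)
    (hψ : PTF ψ) : NPP (fun a => (g.tree (n a)).R1 g.D (ψ a)) :=
  NPP.comp (p := fun t : ℕ × Str => (g.tree t.1).R1 g.D t.2) g.npp_R1 (hn.mk hψ)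

/-- `C` for items of level `n`: by `itm_leaf` the first alternative is
`i.2.2.length = l ∧ ¬ V i` -/
theorem npp_C : NPP (fun t : ℕ × Itm => (g.tree t.1).C g.D t.2) := by
  refine NPP.congr (p := fun t : ℕ × Itm =>
    (t.2.2.2.length = g.l t.2.1.length ∧ ¬ g.V t.2.1 t.2.2.1 t.2.2.2) ∨
      (g.tree t.1).R1 g.D (g.κ t.2.1 t.2.2.1 t.2.2.2)) (by fun_prop) (fun t => ?_)
  have h : (g.tree t.1).C g.D t.2 ↔
      (t.2.2.2.length = g.l t.2.1.length ∧ ¬ g.itm t.2.1 t.2.2.1 t.2.2.2) ∨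
      (g.tree t.1).R1 g.D (g.κ t.2.1 t.2.2.1 t.2.2.2) := Iff.rfl
  rw [h]
  refine or_congr (and_congr_right fun h1 => ?_) Iff.rfl
  rw [g.itm_leaf h1]

@[fun_prop] theorem npp_Cc {α : Type} [Cd α] {n : α → ℕ} {i : α → Itm} (hn : PTF n)
    (hi : PTF i) : NPP (fun a => (g.tree (n a)).C g.D (i a)) :=
  NPP.comp (p := fun t : ℕ × Itm => (g.tree t.1).C g.D t.2) g.npp_C (hn.mk hi)

@[fun_prop] theorem npp_eqv {α : Type} [Cd α] {u v : α → Str} (hu : PTF u) (hv : PTF v) :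
    NPP (fun a => g.D.eqv (u a) (v a)) := by
  unfold TQD.eqv
  fun_prop

/-- the child of an item -/
def chI (b : Bool) (i : Itm) : Itm := (i.1, i.2.1, i.2.2 ++ [b])

@[fun_prop] theorem ptf_chI {α : Type} [Cd α] {b : Bool} {i : α → Itm} (hi : PTF i) :
    PTF (fun a => chI b (i a)) := by
  unfold chI
  fun_prop

theorem npp_R' : NPP (fun t : ℕ × Str => g.R t.1 t.2) := by
  refine NPP.congr (p := fun t : ℕ × Str => (g.tree t.1).R1 g.D t.2 ∨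
    (∃ i : Itm, g.IsI t.1 i ∧ (g.tree t.1).C g.D i ∧ g.D.eqv (g.κ i.1 i.2.1 i.2.2) t.2) ∨
    (∃ y : Itm × Itm, g.IsI t.1 y.1 ∧ g.IsI t.1 y.2 ∧
      ¬ y.1.2.2.length = g.l y.1.1.length ∧ (g.tree t.1).C g.D (chI false y.1) ∧
      (g.tree t.1).C g.D (chI true y.1) ∧
      g.D.eqv (g.κ y.2.1 y.2.2.1 y.2.2.2) (g.κ y.1.1 y.1.2.1 y.1.2.2) ∧
      g.D.eqv (g.κ y.2.1 y.2.2.1 y.2.2.2) t.2)) ?_ (fun t => ?_)
  · refine NPP.or (by fun_prop) (NPP.or ?_ ?_)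
    · refine NPP.ex (p := fun (t : ℕ × Str) (i : Itm) => g.IsI t.1 i ∧
        (g.tree t.1).C g.D i ∧ g.D.eqv (g.κ i.1 i.2.1 i.2.2) t.2) ?_
        (g := fun t => g.itmB t.1) (by fun_prop) ?_
      · fun_prop
      · rintro t i ⟨h, -⟩
        exact g.sz_IsI h
    · refine NPP.ex (p := fun (t : ℕ × Str) (y : Itm × Itm) => g.IsI t.1 y.1 ∧ g.IsI t.1 y.2 ∧
        ¬ y.1.2.2.length = g.l y.1.1.length ∧ (g.tree t.1).C g.D (chI false y.1) ∧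
        (g.tree t.1).C g.D (chI true y.1) ∧
        g.D.eqv (g.κ y.2.1 y.2.2.1 y.2.2.2) (g.κ y.1.1 y.1.2.1 y.1.2.2) ∧
        g.D.eqv (g.κ y.2.1 y.2.2.1 y.2.2.2) t.2) ?_
        (g := fun t => 2 * g.itmB t.1 + 2 + g.itmB t.1) (by fun_prop) ?_
      · fun_prop
      · rintro t ⟨y, z⟩ ⟨h1, h2, -⟩
        have h3 := g.sz_IsI h1
        have h4 := g.sz_IsI h2
        rw [sz_pair]
        simp only at h3 h4
        omega
  · have h : g.R t.1 t.2 ↔ (g.tree t.1).R1 g.D t.2 ∨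
        (∃ i : Itm, g.IsI t.1 i ∧ (g.tree t.1).C g.D i ∧ g.D.eqv (g.κ i.1 i.2.1 i.2.2) t.2) ∨
        (∃ i : Itm, g.IsI t.1 i ∧ ∃ j : Itm, g.IsI t.1 j ∧
          ¬ i.2.2.length = g.l i.1.length ∧ (g.tree t.1).C g.D (chI false i) ∧
          (g.tree t.1).C g.D (chI true i) ∧
          g.D.eqv (g.κ j.1 j.2.1 j.2.2) (g.κ i.1 i.2.1 i.2.2) ∧
          g.D.eqv (g.κ j.1 j.2.1 j.2.2) t.2) := Iff.rfl
    rw [h]
    refine or_congr Iff.rfl (or_congr Iff.rfl ?_)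
    constructor
    · rintro ⟨⟨i, j⟩, h1, h2, h3⟩
      exact ⟨i, h1, j, h2, h3⟩
    · rintro ⟨i, h1, j, h2, h3⟩
      exact ⟨(i, j), h1, h2, h3⟩

@[fun_prop] theorem npp_R {α : Type} [Cd α] {n : α → ℕ} {ψ : α → Str} (hn : PTF n)
    (hψ : PTF ψ) : NPP (fun t => g.R (n t) (ψ t)) :=
  NPP.comp (p := fun t : ℕ × Str => g.R t.1 t.2) g.npp_R' (hn.mk hψ)

theorem R_sound {n : ℕ} {ψ : Str} (h : g.R n ψ) : ψ ∉ SAT := STree.R_sound h

end Lev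

end Pool.Agent.Helper33.TQ
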