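import Pool.Agent.Helper33.TQ.Nat

section
/-! Module TQ ListA: lists, part 1. -/

namespace Pool.Agent.Helper33.TQ

open Function Pool.Agent.Helper72

variable {α β γ δ : Type} [Cd α] [Cd β] [Guard β] [Cd γ] [Guard γ] [Cd δ]

private theorem listA_enc (l : List β) : (enc l : Str) = encR (l.map enc) := rfl

private theorem listA_len (l : List β) : l.length ≤ sz l := by
  induction l with
  | nil => simp
  | cons b l ih => rw [sz_cons, List.length_cons]; omega

private theorem listA_append (l m : List β) : sz (l ++ m) = sz l + sz m := by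
  induction l with
  | nil => simp
  | cons b l ih => rw [List.cons_append, sz_cons, sz_cons, ih]; omega

private theorem listA_sub {l m : List β} (h : l.Sublist m) : sz l ≤ sz m := by
  induction h with
  | slnil => simp
  | cons a _ ih => rw [sz_cons]; omega
  | cons_cons a _ ih => rw [sz_cons, sz_cons]; omega

@[fun_prop] theorem PTF.cons {f : α → β} {l : α → List β} (hf : PTF f) (hl : PTF l) :
    PTF (fun a => f a :: l a) := PTime.pair hf hl

@[fun_prop] theorem PTF.tail {l : α → List β} (hl : PTF l) : PTF (fun a => (l a).tail) := by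
  refine PTF.of_PTime (PTime.unp2 hl) fun a => ?_
  simp only [Cd.dec_enc]
  cases h : l a with
  | nil => simp
  | cons b t => simp

@[fun_prop] theorem PTF.headD {l : α → List β} {d : α → β} (hl : PTF l) (hd : PTF d) :
    PTF (fun a => (l a).headD (d a)) := by
  refine PTF.of_PTime (PTime.iteNil hl hd (PTime.unp1 hl)) fun a => ?_
  simp only [Cd.dec_enc]
  cases h : l a with
  | nil => simp
  | cons b t =>
    rw [if_neg]
    · simp
    · rw [enc_cons]
      exact pairCode_ne_nil _

/-- from `PTime.mapR` -/
@[fun_prop] theorem PTF.map {l : α → List β} {g : α → β → γ} (hl : PTF l)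
    (hg : PTF (fun p : α × β => g p.1 p.2)) : PTF (fun a => (l a).map (g a)) := by
  refine PTF.of_PTime (PTime.mapR (Cd.norm (α := α)) hl hg) fun a => ?_
  simp only [Cd.dec_enc, listA_enc, decR_encR, List.map_map]
  congr 1
  refine List.map_congr_left fun b _ => ?_
  show (enc (g (dec (unp (pairCode (enc a, enc b))).1) (dec (unp (pairCode (enc a, enc b))).2)) :
    Str) = enc (g a b)
  simp

/-- from `PTime.revR` -/
@[fun_prop] theorem PTF.reverse {l : α → List β} (hl : PTF l) :
    PTF (fun a => (l a).reverse) := by
  refine PTF.of_PTime (PTime.revR hl) fun a => ?_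
  simp only [Cd.dec_enc, listA_enc, decR_encR, List.map_reverse]

omit [Cd β] in
private theorem listA_foldlen (l : List β) (n : ℕ) : l.foldl (fun s _ => s + 1) n =
    n + l.length := by
  induction l generalizing n with
  | nil => simp
  | cons b l ih => rw [List.foldl_cons, ih, List.length_cons]; omega

@[fun_prop] theorem PTF.length {l : α → List β} (hl : PTF l) :
    PTF (fun a => (l a).length) := by
  have h : PTF (fun a => (l a).foldl ((fun (_ : α) (s : ℕ) (_ : β) => s + 1) a) ((fun _ => 0) a)) :=
    PTF.foldl (B := fun a => sz (l a)) hl (PTF.const 0)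
      (PTF.add (PTF.fst (PTF.snd PTF.id)) (PTF.const 1)) (PTF.sz_fun hl) (by
        intro a i hi
        show sz (((l a).take i).foldl (fun (s : ℕ) (_ : β) => s + 1) 0) ≤ sz (l a)
        rw [listA_foldlen, sz_nat, List.length_take]
        have := listA_len (l a)
        omega)
  refine PTF.congr h fun a => ?_
  show (l a).foldl (fun (s : ℕ) (_ : β) => s + 1) 0 = (l a).length
  rw [listA_foldlen]
  omega

theorem length_le_sz (l : List β) : l.length ≤ sz l := listA_len l

theorem sz_le_of_mem {b : β} {l : List β} (h : b ∈ l) : sz b ≤ sz l := by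
  induction l with
  | nil => simp at h
  | cons c l ih =>
    rw [sz_cons]
    rcases List.mem_cons.1 h with rfl | h
    · omega
    · have := ih h
      omega

theorem sz_append (l m : List β) : sz (l ++ m) = sz l + sz m := listA_append l m

/-- sizes of lists -/
theorem sz_list_le {l : List β} {n k : ℕ} (hl : l.length ≤ n) (hk : ∀ b ∈ l, sz b ≤ k) :
    sz l ≤ n * (2 * k + 2) := by
  have h : sz l ≤ l.length * (2 * k + 2) := by
    clear hl
    induction l with
    | nil => simp
    | cons c l ih =>
      rw [sz_cons, List.length_cons, Nat.succ_mul l.length]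
      have h1 := ih fun b hb => hk b (List.mem_cons_of_mem _ hb)
      have h2 := hk c List.mem_cons_self
      omega
  exact h.trans (Nat.mul_le_mul_right _ hl)

/-- sizes of parts -/
theorem sz_sublist {l m : List β} (h : l.Sublist m) : sz l ≤ sz m := listA_sub h

omit [Cd β] in
private theorem listA_foldcons (l m : List β) : l.foldl (fun s b => b :: s) m =
    l.reverse ++ m := by
  induction l generalizing m with
  | nil => simp
  | cons b l ih => rw [List.foldl_cons, ih]; simp

@[fun_prop] theorem PTF.append {l m : α → List β} (hl : PTF l) (hm : PTF m) :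
    PTF (fun a => l a ++ m a) := by
  have h : PTF (fun a => (l a).reverse.foldl
      ((fun (_ : α) (s : List β) (b : β) => b :: s) a) (m a)) :=
    PTF.foldl (B := fun a => sz (l a) + sz (m a)) (PTF.reverse hl) hm
      (PTF.cons (PTF.snd (PTF.snd PTF.id)) (PTF.fst (PTF.snd PTF.id)))
      (PTF.add (PTF.sz_fun hl) (PTF.sz_fun hm)) (by
        intro a i hi
        show sz (((l a).reverse.take i).foldl (fun (s : List β) (b : β) => b :: s) (m a)) ≤ _
        rw [listA_foldcons, listA_append]
        refine Nat.add_le_add_right ?_ _
        refine listA_sub ?_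
        have := (List.take_sublist i (l a).reverse).reverse
        rwa [List.reverse_reverse] at this)
  refine PTF.congr h fun a => ?_
  show (l a).reverse.foldl (fun (s : List β) (b : β) => b :: s) (m a) = l a ++ m a
  rw [listA_foldcons, List.reverse_reverse]

end Pool.Agent.Helper33.TQ

end

section
/-! Module TQ ListA2: lists, part 2. -/

namespace Pool.Agent.Helper33.TQ

open Function Pool.Agent.Helper72

variable {α β γ δ : Type} [Cd α] [Cd β] [Guard β] [Cd γ] [Guard γ] [Cd δ]

private theorem la2_tail_iterate {β : Type} (l : List β) (k : ℕ) :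
    (fun x : List β => x.tail)^[k] l = l.drop k := by
  induction k with
  | zero => simp
  | succ k ih => rw [Function.iterate_succ_apply', ih, List.tail_drop]

private theorem la2_drop {l : α → List β} {n : α → ℕ} (hn : PTF n) (hl : PTF l) :
    PTF (fun a => (l a).drop (n a)) := by
  have h := PTF.iterate (g := fun (_ : α) (x : List β) => x.tail) hn hl
    (PTF.tail (PTF.snd PTF.id)) (PTF.sz_fun hl) (by
      intro a i _
      rw [la2_tail_iterate]
      exact sz_sublist (List.drop_sublist _ _))
  exact h.congr fun a => la2_tail_iterate _ _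

@[fun_prop] theorem PTF.take {l : α → List β} {n : α → ℕ} (hn : PTF n) (hl : PTF l) :
    PTF (fun a => (l a).take (n a)) := by
  have h := PTF.reverse (la2_drop (PTF.sub (PTF.length hl) hn) (PTF.reverse hl))
  refine h.congr fun a => ?_
  rw [← List.reverse_take, List.reverse_reverse]

@[fun_prop] theorem PTF.drop {l : α → List β} {n : α → ℕ} (hn : PTF n) (hl : PTF l) :
    PTF (fun a => (l a).drop (n a)) := la2_drop hn hl

@[fun_prop] theorem PTF.getD {l : α → List β} {n : α → ℕ} {d : α → β} (hl : PTF l)
    (hn : PTF n) (hd : PTF d) : PTF (fun a => (l a).getD (n a) (d a)) := by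
  refine (PTF.headD (la2_drop hn hl) hd).congr fun a => ?_
  rw [List.headD_eq_head?_getD, List.head?_drop, List.getD_eq_getElem?_getD]

@[fun_prop] theorem PTF.range {n : α → ℕ} (hn : PTF n) :
    PTF (fun a => List.range (n a)) := by
  have hit : ∀ i : ℕ, (fun x : List ℕ => x.length :: x)^[i] [] = (List.range i).reverse := by
    intro i
    induction i with
    | zero => simp
    | succ i ih =>
      rw [Function.iterate_succ_apply', ih, List.range_succ, List.reverse_append]
      simp
  have hs : PTF (fun _ : α => ([] : List ℕ)) := PTF.const []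
  have hB : PTF (fun a => n a * (2 * n a + 2)) :=
    PTF.mul hn (PTF.add (PTF.mul (PTF.const 2) hn) (PTF.const 2))
  have h := PTF.iterate (g := fun (_ : α) (x : List ℕ) => x.length :: x) hn hs
    (PTF.cons (PTF.length (PTF.snd PTF.id)) (PTF.snd PTF.id)) hB (by
      intro a i hi
      rw [hit]
      apply sz_list_le
      · simpa using hi
      · intro b hb
        rw [List.mem_reverse, List.mem_range] at hb
        rw [sz_nat]
        omega)
  refine (PTF.reverse h).congr fun a => ?_
  rw [hit, List.reverse_reverse]

@[fun_prop] theorem PTF.replicate {n : α → ℕ} {f : α → β} (hn : PTF n) (hf : PTF f) :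
    PTF (fun a => List.replicate (n a) (f a)) := by
  refine (PTF.map (g := fun (a : α) (_ : ℕ) => f a) (PTF.range hn)
    (PTF.comp hf (PTF.fst PTF.id))).congr fun a => ?_
  simp

end Pool.Agent.Helper33.TQ

end

section
/-! Module TQ ListB: lists, part 3. -/

namespace Pool.Agent.Helper33.TQ

open Function Pool.Agent.Helper72

variable {α β γ δ : Type} [Cd α] [Cd β] [Guard β] [Cd γ] [Guard γ] [Cd δ]

private theorem lb_foldl {ε : Type} (l : List (List ε)) : ∀ s : List ε,
    l.foldl (fun s x => s ++ x) s = s ++ l.flatten := by
  induction l with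
  | nil => intro s; simp
  | cons x l ih => intro s; rw [List.foldl_cons, ih, List.flatten_cons, List.append_assoc]

private theorem lb_sz (l : List (List β)) : sz l.flatten ≤ sz l := by
  induction l with
  | nil => simp
  | cons x l ih =>
    rw [List.flatten_cons, sz_append, sz_cons]
    omega

@[fun_prop] theorem PTF.flatten {l : α → List (List β)} (hl : PTF l) :
    PTF (fun a => (l a).flatten) := by
  have h := PTF.foldl (l := l) (s := fun _ => ([] : List β))
    (g := fun (_ : α) (s : List β) (x : List β) => s ++ x) hl (PTF.const [])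
    (PTF.append (PTF.fst (PTF.snd PTF.id)) (PTF.snd (PTF.snd PTF.id)))
    (B := fun a => sz (l a)) (PTF.sz_fun hl) (fun a i hi => by
      rw [lb_foldl, List.nil_append]
      exact (lb_sz _).trans (sz_sublist (List.take_sublist _ _)))
  exact h.congr fun a => by rw [lb_foldl, List.nil_append]

@[fun_prop] theorem PTF.flatMap {l : α → List β} {g : α → β → List γ} (hl : PTF l)
    (hg : PTF (fun p : α × β => g p.1 p.2)) : PTF (fun a => (l a).flatMap (g a)) := by
  have h := PTF.flatten (PTF.map hl hg)
  exact h.congr fun a => (List.flatMap_def ..).symm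

private theorem lb_filter {ε : Type} (p : ε → Prop) [DecidablePred p] (l : List ε) :
    l.flatMap (fun b => if p b then [b] else []) = l.filter (fun b => decide (p b)) := by
  induction l with
  | nil => rfl
  | cons x l ih =>
    rw [List.flatMap_cons, ih, List.filter_cons]
    by_cases h : p x <;> simp [h]

@[fun_prop] theorem PTF.filter {l : α → List β} {p : α → β → Prop}
    [∀ a, DecidablePred (p a)] (hl : PTF l) (hp : PTF (fun x : α × β => p x.1 x.2)) :
    PTF (fun a => (l a).filter (fun b => decide (p a b))) := by
  have h := PTF.flatMap (g := fun a b => if p a b then [b] else []) hl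
    (PTF.ite (p := fun x : α × β => p x.1 x.2) hp
      (PTF.cons (PTF.snd PTF.id) (PTF.const [])) (PTF.const []))
  exact h.congr fun a => lb_filter (p a) (l a)

@[fun_prop] theorem PTF.countP {l : α → List β} {p : α → β → Prop}
    [∀ a, DecidablePred (p a)] (hl : PTF l) (hp : PTF (fun x : α × β => p x.1 x.2)) :
    PTF (fun a => (l a).countP (fun b => decide (p a b))) := by
  have h := PTF.length (PTF.filter hl hp)
  exact h.congr fun a => (List.countP_eq_length_filter).symm

end Pool.Agent.Helper33.TQ

end

section
/-! Module TQ ListB2: lists, part 4. -/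

namespace Pool.Agent.Helper33.TQ

open Function Pool.Agent.Helper72

variable {α β γ δ : Type} [Cd α] [Cd β] [Guard β] [Cd γ] [Guard γ] [Cd δ]


@[fun_prop] theorem PTF.ball {l : α → List β} {p : α → β → Prop} (hl : PTF l)
    (hp : PTF (fun x : α × β => p x.1 x.2)) : PTF (fun a => ∀ b ∈ l a, p a b) := by
  classical
  have h1 : PTF (fun a => (l a).filter (fun b => decide (¬ p a b))) :=
    PTF.filter (p := fun a b => ¬ p a b) hl (PTF.not hp)
  refine (PTF.eq h1 (PTF.const [])).congr fun a => ?_
  rw [List.filter_eq_nil_iff]
  simp

@[fun_prop] theorem PTF.bex {l : α → List β} {p : α → β → Prop} (hl : PTF l)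
    (hp : PTF (fun x : α × β => p x.1 x.2)) : PTF (fun a => ∃ b ∈ l a, p a b) := by
  refine (PTF.not (PTF.ball (p := fun a b => ¬ p a b) hl (PTF.not hp))).congr fun a => ?_
  push Not
  rfl

@[fun_prop] theorem PTF.ball_lt {n : α → ℕ} {p : α → ℕ → Prop} (hn : PTF n)
    (hp : PTF (fun x : α × ℕ => p x.1 x.2)) : PTF (fun a => ∀ i < n a, p a i) := by
  refine (PTF.ball (PTF.range hn) hp).congr fun a => ?_
  simp only [List.mem_range]

@[fun_prop] theorem PTF.bex_lt {n : α → ℕ} {p : α → ℕ → Prop} (hn : PTF n)
    (hp : PTF (fun x : α × ℕ => p x.1 x.2)) : PTF (fun a => ∃ i < n a, p a i) := by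
  refine (PTF.bex (PTF.range hn) hp).congr fun a => ?_
  simp only [List.mem_range]

@[fun_prop] theorem PTF.mem {l : α → List β} {f : α → β} (hf : PTF f) (hl : PTF l) :
    PTF (fun a => f a ∈ l a) := by
  refine (PTF.bex (p := fun a b => b = f a) hl
    (PTF.eq (PTF.snd PTF.id) (PTF.comp hf (PTF.fst PTF.id)))).congr fun a => ?_
  simp

omit [Cd β] in
private theorem listB2_idx [DecidableEq β] (l : List β) (x : β) :
    (List.range l.length).countP (fun i => decide (x ∉ l.take (i + 1))) = l.idxOf x := by
  induction l with
  | nil => simp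
  | cons b l ih =>
    rw [List.length_cons, List.range_succ_eq_map, List.countP_cons, List.countP_map,
      List.idxOf_cons]
    by_cases hb : b = x
    · subst hb
      simp [Function.comp_def]
    · have hb' : x ≠ b := fun h => hb h.symm
      simp only [Function.comp_def, List.take_succ_cons, List.mem_cons, hb', false_or]
      rw [ih, beq_false_of_ne hb]
      simp

@[fun_prop] theorem PTF.idxOf [DecidableEq β] {l : α → List β} {f : α → β} (hf : PTF f)
    (hl : PTF l) : PTF (fun a => (l a).idxOf (f a)) := by
  have hp : PTF (fun x : α × ℕ => f x.1 ∉ (l x.1).take (x.2 + 1)) :=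
    PTF.not (PTF.mem (PTF.comp hf (PTF.fst PTF.id))
      (PTF.take (PTF.add (PTF.snd PTF.id) (PTF.const 1)) (PTF.comp hl (PTF.fst PTF.id))))
  refine (PTF.countP (p := fun a i => f a ∉ (l a).take (i + 1))
    (PTF.range (PTF.length hl)) hp).congr fun a => ?_
  rw [← listB2_idx]

omit [Cd β] in
private theorem listB2_ins (l : List β) (n : ℕ) (x : β) :
    l.insertIdx n x = if n ≤ l.length then l.take n ++ x :: l.drop n else l := by
  induction l generalizing n with
  | nil => cases n <;> simp
  | cons b l ih =>
    cases n with
    | zero => simp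
    | succ n =>
      rw [List.insertIdx_succ_cons, ih]
      by_cases h : n ≤ l.length
      · rw [if_pos h, if_pos (by simpa using h)]
        simp
      · rw [if_neg h, if_neg (by simpa using h)]

@[fun_prop] theorem PTF.insertIdx {l : α → List β} {n : α → ℕ} {f : α → β} (hl : PTF l)
    (hn : PTF n) (hf : PTF f) : PTF (fun a => (l a).insertIdx (n a) (f a)) := by
  refine (PTF.ite (PTF.le hn (PTF.length hl))
    (PTF.append (PTF.take hn hl) (PTF.cons hf (PTF.drop hn hl))) hl).congr fun a => ?_
  rw [listB2_ins]

end Pool.Agent.Helper33.TQ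

end
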