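import Pool.Agent.Helper33.TQ.StrB

section
/-! NP predicates on coded types: definition and basic closure. -/

namespace Pool.Agent.Helper33.TQ

open Function Pool.Agent.Helper72

/-- NP predicates on coded types -/
@[fun_prop]
def NPP {α : Type} [Cd α] (p : α → Prop) : Prop :=
  ∃ (R : α → Str → Prop) (b : α → ℕ), PTF (fun x : α × Str => R x.1 x.2) ∧ PTF b ∧
    ∀ a, p a ↔ ∃ w : Str, w.length ≤ b a ∧ R a w

variable {α β γ : Type} [Cd α] [Cd β] [Cd γ]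

@[fun_prop] theorem NPP.of_PTF {p : α → Prop} (hp : PTF p) : NPP p := by
  refine ⟨fun a _ => p a, fun _ => 0, by fun_prop, by fun_prop, fun a => ?_⟩
  exact ⟨fun h => ⟨[], by simp, h⟩, fun ⟨_, _, h⟩ => h⟩

@[fun_prop] theorem NPP.comp {p : β → Prop} {f : α → β} (hp : NPP p) (hf : PTF f) :
    NPP (fun a => p (f a)) := by
  obtain ⟨R, b, hR, hb, h⟩ := hp
  refine ⟨fun a w => R (f a) w, fun a => b (f a), ?_, by fun_prop, fun a => h (f a)⟩
  exact PTF.comp hR (PTF.mk (PTF.comp hf PTF.id.fst) PTF.id.snd)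

theorem NPP.congr {p q : α → Prop} (hp : NPP p) (h : ∀ a, p a ↔ q a) : NPP q := by
  have : p = q := funext fun a => propext (h a)
  rwa [← this]

end Pool.Agent.Helper33.TQ

end

section
/-! Module TQ NPa: closure properties of NP predicates. -/

namespace Pool.Agent.Helper33.TQ

open Function Pool.Agent.Helper72

variable {α β γ : Type} [Cd α] [Cd β] [Cd γ]

/-- decoding is polynomial time -/
@[fun_prop] theorem PTF.decNPa {f : α → Str} (hf : PTF f) : PTF (fun a => (dec (f a) : β)) := by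
  have h : PTF (fun w : Str => (dec w : β)) := Cd.norm
  exact PTF.comp h hf

/-- decoding of pairs is polynomial time -/
@[fun_prop] theorem PTF.unpNPa {f : α → Str} (hf : PTF f) : PTF (fun a => unp (f a)) := by
  have h : PTF (fun w : Str => (dec w : Str × Str)) := Cd.norm
  exact PTF.comp h hf

@[fun_prop] theorem NPP.and {p q : α → Prop} (hp : NPP p) (hq : NPP q) :
    NPP (fun a => p a ∧ q a) := by
  obtain ⟨R1, b1, h1, hb1, e1⟩ := hp
  obtain ⟨R2, b2, h2, hb2, e2⟩ := hq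
  refine ⟨fun a w => ((unp w).1.length ≤ b1 a ∧ R1 a (unp w).1) ∧
      ((unp w).2.length ≤ b2 a ∧ R2 a (unp w).2),
    fun a => 2 * b1 a + 2 + b2 a, by fun_prop, by fun_prop, fun a => ?_⟩
  show (p a ∧ q a) ↔ _
  rw [e1, e2]
  constructor
  · rintro ⟨⟨w1, l1, r1⟩, ⟨w2, l2, r2⟩⟩
    refine ⟨pairCode (w1, w2), ?_, ?_⟩
    · rw [length_pairCode]
      show _ ≤ 2 * b1 a + 2 + b2 a
      omega
    · simp only [unp_pairCode]
      exact ⟨⟨l1, r1⟩, ⟨l2, r2⟩⟩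
  · rintro ⟨w, _, ⟨l1, r1⟩, ⟨l2, r2⟩⟩
    exact ⟨⟨_, l1, r1⟩, ⟨_, l2, r2⟩⟩

@[fun_prop] theorem NPP.or {p q : α → Prop} (hp : NPP p) (hq : NPP q) :
    NPP (fun a => p a ∨ q a) := by
  obtain ⟨R1, b1, h1, hb1, e1⟩ := hp
  obtain ⟨R2, b2, h2, hb2, e2⟩ := hq
  refine ⟨fun a w => (w.length ≤ b1 a ∧ R1 a w) ∨ (w.length ≤ b2 a ∧ R2 a w),
    fun a => b1 a + b2 a, by fun_prop, by fun_prop, fun a => ?_⟩
  show (p a ∨ q a) ↔ ∃ w : Str, w.length ≤ b1 a + b2 a ∧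
    ((w.length ≤ b1 a ∧ R1 a w) ∨ (w.length ≤ b2 a ∧ R2 a w))
  rw [e1, e2]
  constructor
  · rintro (⟨w, l, r⟩ | ⟨w, l, r⟩)
    · exact ⟨w, by omega, Or.inl ⟨l, r⟩⟩
    · exact ⟨w, by omega, Or.inr ⟨l, r⟩⟩
  · rintro ⟨w, _, (⟨l, r⟩ | ⟨l, r⟩)⟩
    · exact Or.inl ⟨w, l, r⟩
    · exact Or.inr ⟨w, l, r⟩

/-- the premise of an implication must be in P -/
@[fun_prop] theorem NPP.imp {p q : α → Prop} (hp : PTF p) (hq : NPP q) :
    NPP (fun a => p a → q a) :=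
  NPP.congr (NPP.or (NPP.of_PTF (PTF.not hp)) hq) (fun a => by tauto)

/-- bounded existential quantification -/
theorem NPP.ex {p : α → β → Prop} (hp : NPP (fun x : α × β => p x.1 x.2)) {g : α → ℕ}
    (hg : PTF g) (hb : ∀ a b, p a b → sz b ≤ g a) : NPP (fun a => ∃ b, p a b) := by
  obtain ⟨R, b, hR, hbb, e⟩ := hp
  obtain ⟨P, hP, hPm, hPb⟩ := PTF.bound hbb
  have hR' : PTF (fun x : (α × β) × Str => R x.1 x.2) := hR
  refine ⟨fun a u => sz (dec (unp u).1 : β) ≤ g a ∧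
      (unp u).2.length ≤ b (a, (dec (unp u).1 : β)) ∧
      R (a, (dec (unp u).1 : β)) (unp u).2,
    fun a => 2 * g a + 2 + P (2 * sz a + 2 + g a), by fun_prop, by fun_prop, fun a => ?_⟩
  constructor
  · rintro ⟨y, hy⟩
    obtain ⟨w, l, r⟩ := (e (a, y)).1 hy
    have h1 := hb a y hy
    have h2 := hPb (a, y)
    rw [sz_nat, sz_pair] at h2
    have h3 : P (2 * sz a + 2 + sz y) ≤ P (2 * sz a + 2 + g a) := hPm (by omega)
    refine ⟨pairCode ((enc y : Str), w), ?_, ?_⟩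
    · rw [length_pairCode]
      have h4 : (enc y : Str).length = sz y := rfl
      show _ ≤ 2 * g a + 2 + P (2 * sz a + 2 + g a)
      omega
    · simp only [unp_pairCode, Cd.dec_enc]
      exact ⟨h1, l, r⟩
  · rintro ⟨u, _, _, l, r⟩
    exact ⟨_, (e (a, _)).2 ⟨_, l, r⟩⟩

end Pool.Agent.Helper33.TQ

end
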