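import Pool.Agent.Helper33.TQ.NPa

/-! Module TQ NPb: bounded quantifiers. -/

namespace Pool.Agent.Helper33.TQ

open Function Pool.Agent.Helper72

variable {α β γ : Type} [Cd α] [Cd β] [Cd γ]

/-- the witness is the list of the witnesses for the members -/
@[fun_prop] theorem NPP.ball {l : α → List β} {p : α → β → Prop} (hl : PTF l)
    (hp : NPP (fun x : α × β => p x.1 x.2)) : NPP (fun a => ∀ b ∈ l a, p a b) := by
  obtain ⟨R, b, hR, hbb, e⟩ := hp
  obtain ⟨P, hP, hPm, hPb⟩ := PTF.bound hbb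
  have hR' : PTF (fun x : (α × β) × Str => R x.1 x.2) := hR
  have h1 : PTF (fun x : α × List Str => ∀ y ∈ l x.1, ∃ w ∈ x.2, w.length ≤ b (x.1, y) ∧
      R (x.1, y) w) := by
    refine PTF.ball (l := fun x : α × List Str => l x.1)
      (p := fun (x : α × List Str) (y : β) => ∃ w ∈ x.2, w.length ≤ b (x.1, y) ∧ R (x.1, y) w)
      (by fun_prop) ?_
    refine PTF.bex (l := fun x : (α × List Str) × β => x.1.2)
      (p := fun (x : (α × List Str) × β) (w : Str) => w.length ≤ b (x.1.1, x.2) ∧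
        R (x.1.1, x.2) w) (by fun_prop) ?_
    fun_prop
  have h2 : PTF (fun a => sz (l a) * (2 * P (2 * sz a + 2 + sz (l a)) + 2)) := by fun_prop
  have h3 : NPP (fun a => ∃ W : List Str,
      sz W ≤ sz (l a) * (2 * P (2 * sz a + 2 + sz (l a)) + 2) ∧
      ∀ y ∈ l a, ∃ w ∈ W, w.length ≤ b (a, y) ∧ R (a, y) w) := by
    refine NPP.ex (p := fun (a : α) (W : List Str) =>
      sz W ≤ sz (l a) * (2 * P (2 * sz a + 2 + sz (l a)) + 2) ∧
      ∀ y ∈ l a, ∃ w ∈ W, w.length ≤ b (a, y) ∧ R (a, y) w) ?_ h2 (fun a W h => h.1)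
    refine NPP.of_PTF (PTF.and ?_ h1)
    fun_prop
  refine NPP.congr h3 fun a => ?_
  constructor
  · rintro ⟨W, _, h⟩ y hy
    obtain ⟨w, _, l1, r⟩ := h y hy
    exact (e (a, y)).2 ⟨w, l1, r⟩
  · intro h
    have hw : ∀ y : β, ∃ w : Str, y ∈ l a → (w.length ≤ b (a, y) ∧ R (a, y) w) := by
      intro y
      by_cases hy : y ∈ l a
      · obtain ⟨w, hw⟩ := (e (a, y)).1 (h y hy)
        exact ⟨w, fun _ => hw⟩
      · exact ⟨[], fun h => absurd h hy⟩
    choose f hf using hw
    refine ⟨(l a).map f, ?_, fun y hy => ⟨f y, List.mem_map_of_mem hy, hf y hy⟩⟩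
    refine sz_list_le ?_ ?_
    · rw [List.length_map]
      exact length_le_sz _
    · intro w hw
      obtain ⟨y, hy, rfl⟩ := List.mem_map.1 hw
      have h4 := (hf y hy).1
      have h5 := hPb (a, y)
      rw [sz_nat, sz_pair] at h5
      have h6 : P (2 * sz a + 2 + sz y) ≤ P (2 * sz a + 2 + sz (l a)) :=
        hPm (by have := sz_le_of_mem hy; omega)
      rw [sz_str]
      omega

@[fun_prop] theorem NPP.bex {l : α → List β} {p : α → β → Prop} (hl : PTF l)
    (hp : NPP (fun x : α × β => p x.1 x.2)) : NPP (fun a => ∃ b ∈ l a, p a b) := by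
  have h1 : PTF (fun x : α × β => x.2 ∈ l x.1) := by fun_prop
  have h2 : NPP (fun a => ∃ b, b ∈ l a ∧ p a b) :=
    NPP.ex (p := fun a b => b ∈ l a ∧ p a b) (NPP.and (NPP.of_PTF h1) hp)
      (g := fun a => sz (l a)) (by fun_prop) (fun a b h => sz_le_of_mem h.1)
  exact h2

@[fun_prop] theorem NPP.ball_lt {n : α → ℕ} {p : α → ℕ → Prop} (hn : PTF n)
    (hp : NPP (fun x : α × ℕ => p x.1 x.2)) : NPP (fun a => ∀ i < n a, p a i) := by
  refine NPP.congr (NPP.ball (l := fun a => List.range (n a)) (by fun_prop) hp) fun a => ?_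
  simp only [List.mem_range]

@[fun_prop] theorem NPP.bex_lt {n : α → ℕ} {p : α → ℕ → Prop} (hn : PTF n)
    (hp : NPP (fun x : α × ℕ => p x.1 x.2)) : NPP (fun a => ∃ i < n a, p a i) := by
  refine NPP.congr (NPP.bex (l := fun a => List.range (n a)) (by fun_prop) hp) fun a => ?_
  simp only [List.mem_range]

end Pool.Agent.Helper33.TQ
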