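import Pool.Agent.Helper33.TQ.Typed

section
/-! Module TQ Logic: truth values. Propositions are coded by `[true]` / `[]`. -/

namespace Pool.Agent.Helper33.TQ

open Function Pool.Agent.Helper72

variable {α β γ δ : Type} [Cd α] [Cd β] [Cd γ] [Cd δ]

open scoped Classical in
private theorem logic_enc (p : Prop) : (enc p : Str) = if p then [true] else [] := rfl

private theorem logic_head (p : Prop) : (enc p : Str).head? = some true ↔ p := by
  classical
  rw [logic_enc]
  by_cases h : p <;> simp [h]

/-- `PTF p` for a predicate, in terms of a word function deciding it -/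
theorem PTF.prop_iff {p : α → Prop} :
    PTF p ↔ ∃ g : Str → Str, PTime g ∧ ∀ a, ((g (enc a)).head? = some true ↔ p a) := by
  classical
  constructor
  · intro h
    refine ⟨fun w => enc (p (dec w)), h, fun a => ?_⟩
    show (enc (p (dec (enc a))) : Str).head? = some true ↔ p a
    rw [Cd.dec_enc, logic_head]
  · rintro ⟨g, hg, h⟩
    refine PTF.of_PTime (PTime.ite hg (PTime.const [true]) (PTime.const [])) fun a => ?_
    rw [logic_enc]
    by_cases hp : p a
    · rw [if_pos hp, if_pos ((h a).2 hp)]
    · rw [if_neg hp, if_neg (fun h' => hp ((h a).1 h'))]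

@[fun_prop] theorem PTF.ite {p : α → Prop} [DecidablePred p] {f g : α → β} (hp : PTF p)
    (hf : PTF f) (hg : PTF g) : PTF (fun a => if p a then f a else g a) := by
  refine PTF.of_PTime (PTime.ite hp hf hg) fun a => ?_
  simp only [Cd.dec_enc]
  by_cases h : p a
  · rw [if_pos h, if_pos ((logic_head _).2 h)]
  · rw [if_neg h, if_neg (fun h' => h ((logic_head _).1 h'))]

@[fun_prop] theorem PTF.and {p q : α → Prop} (hp : PTF p) (hq : PTF q) :
    PTF (fun a => p a ∧ q a) := by
  classical
  refine PTF.congr (PTF.ite hp hq (PTF.const False)) fun a => ?_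
  by_cases h : p a <;> simp [h]

@[fun_prop] theorem PTF.or {p q : α → Prop} (hp : PTF p) (hq : PTF q) :
    PTF (fun a => p a ∨ q a) := by
  classical
  refine PTF.congr (PTF.ite hp (PTF.const True) hq) fun a => ?_
  by_cases h : p a <;> simp [h]

@[fun_prop] theorem PTF.not {p : α → Prop} (hp : PTF p) : PTF (fun a => ¬ p a) := by
  classical
  refine PTF.congr (PTF.ite hp (PTF.const False) (PTF.const True)) fun a => ?_
  by_cases h : p a <;> simp [h]

@[fun_prop] theorem PTF.imp {p q : α → Prop} (hp : PTF p) (hq : PTF q) :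
    PTF (fun a => p a → q a) := by
  classical
  refine PTF.congr (PTF.ite hp hq (PTF.const True)) fun a => ?_
  by_cases h : p a <;> simp [h]

@[fun_prop] theorem PTF.iff {p q : α → Prop} (hp : PTF p) (hq : PTF q) :
    PTF (fun a => p a ↔ q a) := by
  classical
  refine PTF.congr (PTF.ite hp hq (PTF.not hq)) fun a => ?_
  by_cases h : p a <;> simp [h]

/-- equality in any coded type; from `PTime.eqR` and `enc_injective` -/
@[fun_prop] theorem PTF.eq [Guard β] {f g : α → β} (hf : PTF f) (hg : PTF g) :
    PTF (fun a => f a = g a) := by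
  classical
  refine PTF.of_PTime (PTime.eqR hf hg) fun a => ?_
  simp only [Cd.dec_enc]
  rw [logic_enc]
  by_cases h : f a = g a
  · rw [if_pos h, if_pos (by rw [h])]
  · rw [if_neg h, if_neg (fun h' => h (enc_injective h'))]

@[fun_prop] theorem PTF.ne [Guard β] {f g : α → β} (hf : PTF f) (hg : PTF g) :
    PTF (fun a => f a ≠ g a) := PTF.not (PTF.eq hf hg)

/-- a function with finitely many cases depending on a truth value -/
theorem PTF.cases_prop {f : Prop → α → β} (h1 : PTF (f True)) (h2 : PTF (f False))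
    {p : α → Prop} (hp : PTF p) : PTF (fun a => f (p a) a) := by
  classical
  refine PTF.congr (PTF.ite hp h1 h2) fun a => ?_
  by_cases h : p a <;> simp [h]

end Pool.Agent.Helper33.TQ

end

section
/-! Module TQ Iter: bounded iteration and bounded folds for coded types. -/

namespace Pool.Agent.Helper33.TQ

open Function Pool.Agent.Helper72

variable {α β γ σ : Type} [Cd α] [Cd β] [Cd γ] [Cd σ]

private theorem iter_bound {B : α → ℕ} (hB : PTF B) :
    ∃ q : ℕ → ℕ, PB q ∧ ∀ w : Str, B (dec w) ≤ q w.length := by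
  obtain ⟨q, h1, h2, h3⟩ := hB.sz_le
  obtain ⟨r, r1, r2, r3⟩ := PTime.len (Cd.norm (α := α))
  refine ⟨fun n => q (r n), h1.comp r1, fun w => ?_⟩
  have h4 := h3 (dec w : α)
  rw [sz_nat] at h4
  exact h4.trans (h2 (r3 w))

/-- bounded iteration (from `PTime.iter` and `PTF.sz_le`) -/
theorem PTF.iterate {n : α → ℕ} {s : α → σ} {g : α → σ → σ} (hn : PTF n) (hs : PTF s)
    (hg : PTF (fun p : α × σ => g p.1 p.2)) {B : α → ℕ} (hB : PTF B)
    (hb : ∀ a, ∀ i ≤ n a, sz ((g a)^[i] (s a)) ≤ B a) :
    PTF (fun a => (g a)^[n a] (s a)) := by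
  obtain ⟨q, hq, hqB⟩ := iter_bound hB
  have hstep : PTime (fun z : Str => (enc (g (dec (unp z).1) (dec (unp z).2)) : Str)) := hg
  have hit : ∀ (a : α) (x : σ) (i : ℕ),
      (fun t => (fun z : Str => (enc (g (dec (unp z).1) (dec (unp z).2)) : Str))
        (pairCode (enc a, t)))^[i] (enc x) = enc ((g a)^[i] x) := by
    intro a x i
    induction i with
    | zero => rfl
    | succ i ih =>
      rw [Function.iterate_succ_apply', ih, Function.iterate_succ_apply']
      simp
  have hlen : ∀ w : Str, (enc (n (dec w : α)) : Str).length = n (dec w : α) := fun w =>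
    sz_nat _
  have key := PTime.iter (Cd.norm (α := α)) hn hs hstep hq (by
    intro w i hi
    have h1 := hit (dec w : α) (s (dec w : α)) i
    refine le_trans (le_of_eq (congrArg List.length h1)) ?_
    refine (hb (dec w) i ?_).trans (hqB w)
    rw [← hlen w]
    exact hi)
  have h : (fun w : Str => (enc ((g (dec w))^[n (dec w : α)] (s (dec w))) : Str)) = fun w : Str =>
      (fun t => (fun z : Str => (enc (g (dec (unp z).1) (dec (unp z).2)) : Str))
        (pairCode (enc (dec w : α), t)))^[(enc (n (dec w : α)) : Str).length]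
          (enc (s (dec w : α))) := by
    funext w
    rw [hit, hlen]
  unfold PTF
  rw [h]
  exact key

/-- bounded fold over a list (from `PTime.foldR` and `PTF.sz_le`) -/
theorem PTF.foldl {l : α → List β} {s : α → σ} {g : α → σ → β → σ} (hl : PTF l) (hs : PTF s)
    (hg : PTF (fun p : α × σ × β => g p.1 p.2.1 p.2.2)) {B : α → ℕ} (hB : PTF B)
    (hb : ∀ a, ∀ i ≤ (l a).length, sz (((l a).take i).foldl (g a) (s a)) ≤ B a) :
    PTF (fun a => (l a).foldl (g a) (s a)) := by
  obtain ⟨q, hq, hqB⟩ := iter_bound hB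
  have hstep : PTime (fun z : Str =>
      (enc (g (dec (unp z).1) (dec (unp (unp z).2).1) (dec (unp (unp z).2).2)) : Str)) := hg
  have hfold : ∀ (a : α) (L : List β) (x : σ),
      (L.map (enc : β → Str)).foldl (fun t c => (fun z : Str =>
        (enc (g (dec (unp z).1) (dec (unp (unp z).2).1) (dec (unp (unp z).2).2)) : Str))
          (pairCode (enc a, pairCode (t, c)))) (enc x) = enc (L.foldl (g a) x) := by
    intro a L
    induction L with
    | nil => intro x; rfl
    | cons b L ih =>
      intro x
      rw [List.map_cons, List.foldl_cons, List.foldl_cons, ← ih]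
      simp
  have hdec : ∀ w : Str, decR (enc (l (dec w : α)) : Str) = (l (dec w : α)).map enc := fun w =>
    decR_encR _
  have key := PTime.foldR (Cd.norm (α := α)) hl hs hstep hq (by
    intro w i hi
    rw [hdec, List.length_map] at hi
    have h1 := hfold (dec w : α) ((l (dec w : α)).take i) (s (dec w : α))
    rw [List.map_take] at h1
    rw [hdec]
    refine le_trans (le_of_eq (congrArg List.length h1)) ?_
    exact (hb (dec w) i hi).trans (hqB w))
  have h : (fun w : Str => (enc ((l (dec w : α)).foldl (g (dec w)) (s (dec w))) : Str)) =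
      fun w : Str => (decR (enc (l (dec w : α)) : Str)).foldl (fun t c => (fun z : Str =>
        (enc (g (dec (unp z).1) (dec (unp (unp z).2).1) (dec (unp (unp z).2).2)) : Str))
          (pairCode (enc (dec w : α), pairCode (t, c)))) (enc (s (dec w : α))) := by
    funext w
    rw [hdec, hfold]
  unfold PTF
  rw [h]
  exact key

end Pool.Agent.Helper33.TQ

end

section
/-! Module TQ Nat1: unary arithmetic, part 1. -/

namespace Pool.Agent.Helper33.TQ

open Function Pool.Agent.Helper72

variable {α β γ δ : Type} [Cd α] [Cd β] [Cd γ] [Cd δ]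

private theorem nat1_succ {f : α → ℕ} (hf : PTF f) : PTF (fun a => f a + 1) :=
  PTime.cons true hf

private theorem nat1_pred {f : α → ℕ} (hf : PTF f) : PTF (fun a => f a - 1) := by
  have h := PTime.tail hf
  have e : (fun w => enc (f (dec w) - 1)) = fun w => (enc (f (dec w)) : Str).tail := by
    funext w
    rw [enc_nat, enc_nat, List.tail_replicate]
  unfold PTF
  rw [e]
  exact h

@[fun_prop] theorem PTF.add {f g : α → ℕ} (hf : PTF f) (hg : PTF g) :
    PTF (fun a => f a + g a) := by
  have hit : ∀ (i m : ℕ), (fun s : ℕ => s + 1)^[i] m = m + i := by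
    intro i
    induction i with
    | zero => intro m; rfl
    | succ i ih => intro m; rw [iterate_succ_apply, ih]; omega
  have h := PTF.iterate (n := g) (s := f) (g := fun (_ : α) (s : ℕ) => s + 1) hg hf
    (nat1_succ (f := fun p : α × ℕ => p.2) (PTF.snd PTF.id))
    (B := fun a => sz (f a, g a)) (PTF.sz_fun (PTF.mk hf hg)) (fun a i hi => by
      rw [hit, sz_nat, sz_pair, sz_nat, sz_nat]
      omega)
  exact h.congr fun a => hit _ _

@[fun_prop] theorem PTF.sub {f g : α → ℕ} (hf : PTF f) (hg : PTF g) :
    PTF (fun a => f a - g a) := by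
  have hit : ∀ (i m : ℕ), (fun s : ℕ => s - 1)^[i] m = m - i := by
    intro i
    induction i with
    | zero => intro m; rfl
    | succ i ih => intro m; rw [iterate_succ_apply, ih]; omega
  have h := PTF.iterate (n := g) (s := f) (g := fun (_ : α) (s : ℕ) => s - 1) hg hf
    (nat1_pred (f := fun p : α × ℕ => p.2) (PTF.snd PTF.id))
    (B := f) hf (fun a i hi => by
      rw [hit, sz_nat]
      omega)
  exact h.congr fun a => hit _ _

@[fun_prop] theorem PTF.mul {f g : α → ℕ} (hf : PTF f) (hg : PTF g) :
    PTF (fun a => f a * g a) := by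
  obtain ⟨q₁, a1, b1, c1⟩ := PTime.len hf
  obtain ⟨q₂, a2, b2, c2⟩ := PTime.len hg
  have hstep : PTime (fun w => (enc ((dec (unp w).1 : ℕ) + (dec (unp w).2 : ℕ)) : Str)) :=
    PTF.add (f := fun p : ℕ × ℕ => p.1) (g := fun p : ℕ × ℕ => p.2)
      (PTF.fst PTF.id) (PTF.snd PTF.id)
  have hit : ∀ (m i : ℕ), (fun s : Str => (fun w => (enc ((dec (unp w).1 : ℕ) +
      (dec (unp w).2 : ℕ)) : Str)) (pairCode (enc m, s)))^[i] [] = enc (m * i) := by
    intro m i
    induction i with
    | zero => rfl
    | succ i ih =>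
      rw [iterate_succ_apply', ih]
      simp only [unp_pairCode, Cd.dec_enc]
      rw [Nat.mul_succ, Nat.add_comm]
  have h := PTime.iter (e := fun w => enc (f (dec w))) (l := fun w => enc (g (dec w)))
    (s₀ := fun _ => ([] : Str)) hf hg (PTime.const []) hstep
    (B := fun n => q₁ n * q₂ n) (a1.mul a2) (fun w i hi => by
      rw [hit]
      have h1 := c1 w
      have h2 := c2 w
      rw [enc_nat, List.length_replicate] at h1 h2 hi ⊢
      exact Nat.mul_le_mul h1 (hi.trans h2))
  unfold PTF
  convert h using 1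
  funext w
  rw [hit, enc_nat (g (dec w)), List.length_replicate]

@[fun_prop] theorem PTF.le {f g : α → ℕ} (hf : PTF f) (hg : PTF g) :
    PTF (fun a => f a ≤ g a) := by
  have h := PTF.eq (PTF.sub hf hg) (PTF.const (α := α) (0 : ℕ))
  exact h.congr fun a => propext Nat.sub_eq_zero_iff_le

@[fun_prop] theorem PTF.lt {f g : α → ℕ} (hf : PTF f) (hg : PTF g) :
    PTF (fun a => f a < g a) :=
  PTF.le (nat1_succ hf) hg

end Pool.Agent.Helper33.TQ

end

section
/-! Module TQ Nat: unary arithmetic, part 2. -/

namespace Pool.Agent.Helper33.TQ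

open Function Pool.Agent.Helper72

variable {α β γ δ : Type} [Cd α] [Cd β] [Cd γ] [Cd δ]


@[fun_prop] theorem PTF.succ {f : α → ℕ} (hf : PTF f) : PTF (fun a => Nat.succ (f a)) :=
  PTF.add hf (PTF.const 1)

@[fun_prop] theorem PTF.pow {f : α → ℕ} (hf : PTF f) (k : ℕ) : PTF (fun a => f a ^ k) := by
  induction k with
  | zero => exact (PTF.const 1).congr fun a => (pow_zero _).symm
  | succ k ih => exact (PTF.mul ih hf).congr fun a => (pow_succ _ _).symm

@[fun_prop] theorem PTF.max {f g : α → ℕ} (hf : PTF f) (hg : PTF g) :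
    PTF (fun a => max (f a) (g a)) :=
  (PTF.ite (PTF.le hf hg) hg hf).congr fun a => (max_def (f a) (g a)).symm

@[fun_prop] theorem PTF.min {f g : α → ℕ} (hf : PTF f) (hg : PTF g) :
    PTF (fun a => min (f a) (g a)) :=
  (PTF.ite (PTF.le hf hg) hf hg).congr fun a => (min_def (f a) (g a)).symm

/-- polynomially bounded functions have a polynomial time computable bound -/
theorem PB.exists_ptf {q : ℕ → ℕ} (hq : PB q) :
    ∃ p : ℕ → ℕ, PTF p ∧ Monotone p ∧ ∀ n, q n ≤ p n := by
  obtain ⟨a, d, h⟩ := hq
  refine ⟨fun n => a * (n + 1) ^ d, ?_, ?_, h⟩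
  · exact PTF.mul (PTF.const a) (PTF.pow (PTF.add PTF.id (PTF.const 1)) d)
  · intro m n hmn
    exact Nat.mul_le_mul le_rfl (Nat.pow_le_pow_left (by omega) d)

/-- values of polynomial time functions have size bounded by a polynomial time computable
monotone function of the size -/
theorem PTF.bound {f : α → β} (hf : PTF f) :
    ∃ p : ℕ → ℕ, PTF p ∧ Monotone p ∧ ∀ a, sz (f a) ≤ p (sz a) := by
  obtain ⟨q, hq, -, hb⟩ := PTF.sz_le hf
  obtain ⟨p, hp, hm, hle⟩ := PB.exists_ptf hq
  exact ⟨p, hp, hm, fun a => (hb a).trans (hle _)⟩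

theorem PTF.polynomial (q : Polynomial ℕ) : PTF (fun n : ℕ => q.eval n) := by
  induction q using Polynomial.induction_on' with
  | add p q hp hq => exact (PTF.add hp hq).congr fun n => Polynomial.eval_add.symm
  | monomial k a =>
    exact (PTF.mul (PTF.const a) (PTF.pow PTF.id k)).congr fun n =>
      (Polynomial.eval_monomial).symm

/-- unary functions are polynomially bounded -/
theorem PTF.pb {f : ℕ → ℕ} (hf : PTF f) : PB f := by
  obtain ⟨q, hq, -, hb⟩ := PTF.sz_le hf
  exact hq.mono fun n => by simpa using hb n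

end Pool.Agent.Helper33.TQ

end
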