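import Pool.Agent.Helper33.TQ.NPa

/-! Module TQ OffP: comparison with the official definition of P. -/

namespace Pool.Agent.Helper33.TQ

open Function Turing Computability Pool.Agent.Helper72

/-- `→`: a machine computing `χ : Str → Bool` with output code `encodeBool` computes the word
function `w ↦ [χ w]`; `←`: similarly, from `[true] / []` to `[χ w]` by a case distinction. -/
theorem inP_iff (L : Set Str) : InP L ↔ PTF (fun w : Str => w ∈ L) := by
  classical
  constructor
  · rintro ⟨χ, hχ, ⟨M⟩⟩
    refine PTF.prop_iff.2 ⟨fun w => encodeBool (χ w),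
      ⟨{ toTM2ComputableAux := M.toTM2ComputableAux
         time := M.time
         outputsFun := M.outputsFun }⟩, fun a => ?_⟩
    show (encodeBool (χ a)).head? = some true ↔ a ∈ L
    rw [← hχ a]
    cases χ a <;> simp [encodeBool]
  · intro h
    obtain ⟨g, hg, hgs⟩ := PTF.prop_iff.1 h
    have h2 := PTime.ite hg (PTime.const [true]) (PTime.const [false])
    obtain ⟨M⟩ := h2
    have e : ∀ a : Str, (if (g a).head? = some true then ([true] : Str) else [false]) =
        encodeBool (decide (a ∈ L)) := by
      intro a
      have h3 : (g a).head? = some true ↔ a ∈ L := hgs a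
      by_cases h4 : a ∈ L
      · rw [if_pos (h3.2 h4)]
        simp [encodeBool, h4]
      · rw [if_neg (fun h5 => h4 (h3.1 h5))]
        simp [encodeBool, h4]
    refine ⟨fun w => decide (w ∈ L), fun x => by simp,
      ⟨{ toTM2ComputableAux := M.toTM2ComputableAux
         time := M.time
         outputsFun := fun a => ?_ }⟩⟩
    have h5 := M.outputsFun a
    simp only [e] at h5
    exact h5

end Pool.Agent.Helper33.TQ
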