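import Pool.Agent.Helper33.TQ.Defs
import Pool.Agent.Helper9.FunCmd
import Pool.Agent.Helper4.Glue

/-!
Raw layer: word functions computed by programs of the loop language (`Cmd`) in any register.
-/

namespace Pool.Agent.Helper33.TQ

open Function Pool.Agent.Helper72

/-- binary words -/
abbrev Str := List Bool

/-- programs computing the word function `h` in register `base`, using only registers
`≥ base` (those above `base` being empty before and after) -/
def CF (h : Str → Str) : Prop := ∀ base : ℕ, ∃ (c : Cmd) (T : ℕ → ℕ), PB T ∧ Monotone T ∧
  c.ok = true ∧ (∀ x < base, c.wr x = false) ∧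
  ∀ (a : Str) (s : St), (∀ r, base < r → s r = []) → s base = a →
    c.LB (T a.length) s ∧ c.eval s = update s base (h a)

/-- decoding of pairs: inverse of `pairCode`, total on all words -/
def unp : Str → Str × Str
  | b :: c :: w => if b = c then (b :: (unp w).1, (unp w).2) else ([], w)
  | _ => ([], [])

@[simp] theorem unp_nil : unp [] = ([], []) := rfl
@[simp] theorem unp_single (b : Bool) : unp [b] = ([], []) := rfl

theorem pairCode_nil (y : Str) : pairCode ([], y) = false :: true :: y := rfl

theorem pairCode_cons (b : Bool) (x y : Str) :
    pairCode (b :: x, y) = b :: b :: pairCode (x, y) := rfl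

@[simp] theorem unp_pairCode (p : Str × Str) : unp (pairCode p) = p := by
  obtain ⟨x, y⟩ := p
  induction x with
  | nil => simp [pairCode_nil, unp]
  | cons b x ih => simp [pairCode_cons, unp, ih]

theorem unp_length (w : Str) : (unp w).1.length + (unp w).2.length ≤ w.length := by
  fun_induction unp w with
  | case1 b w ih => simp; omega
  | case2 b c w h => simp; omega
  | case3 w h => simp

theorem unp_snd_lt {w : Str} (hw : w ≠ []) : (unp w).2.length < w.length := by
  fun_induction unp w with
  | case1 b w ih =>
    rcases eq_or_ne w [] with rfl | h
    · simp
    · have := ih h; simp; omega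
  | case2 b c w h => simp
  | case3 w h =>
    simp; exact List.length_pos_iff.2 hw

theorem length_pairCode (x y : Str) :
    (pairCode (x, y)).length = 2 * x.length + 2 + y.length := by
  induction x with
  | nil => simp [pairCode_nil]; omega
  | cons b x ih => simp [pairCode_cons, ih]; omega

theorem pairCode_ne_nil (p : Str × Str) : pairCode p ≠ [] := by
  obtain ⟨x, y⟩ := p
  intro h
  have := length_pairCode x y
  rw [h] at this
  simp at this
  omega

end Pool.Agent.Helper33.TQ
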