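import Pool.Agent.Helper33.TQ.CFeq
import Pool.Agent.Helper33.TQ.CFpair
import Pool.Agent.Helper33.TQ.CFunp
import Pool.Agent.Helper33.TQ.CFite
import Pool.Agent.Helper33.TQ.CFiter

/-! The raw layer for `PTime`. -/

namespace Pool.Agent.Helper33.TQ

open Function Pool.Agent.Helper72

theorem PTime.id : PTime (fun w => w) := (ptime_iff_CF _).2 CF.id

theorem PTime.const (v : Str) : PTime (fun _ => v) := (ptime_iff_CF _).2 (CF.const v)

theorem PTime.comp {f g : Str → Str} (hf : PTime f) (hg : PTime g) :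
    PTime (fun w => f (g w)) :=
  (ptime_iff_CF _).2 (((ptime_iff_CF _).1 hf).comp ((ptime_iff_CF _).1 hg))

theorem PTime.cons (b : Bool) {f : Str → Str} (hf : PTime f) : PTime (fun w => b :: f w) :=
  PTime.comp ((ptime_iff_CF _).2 (CF.cons b)) hf

theorem PTime.tail {f : Str → Str} (hf : PTime f) : PTime (fun w => (f w).tail) :=
  PTime.comp ((ptime_iff_CF _).2 CF.tail) hf

theorem PTime.len {h : Str → Str} (hh : PTime h) :
    ∃ q : ℕ → ℕ, PB q ∧ Monotone q ∧ ∀ w, (h w).length ≤ q w.length :=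
  ((ptime_iff_CF _).1 hh).len

theorem PTime.pair {f g : Str → Str} (hf : PTime f) (hg : PTime g) :
    PTime (fun w => pairCode (f w, g w)) :=
  (ptime_iff_CF _).2 (((ptime_iff_CF _).1 hf).pair ((ptime_iff_CF _).1 hg))

theorem PTime.unp1 {f : Str → Str} (hf : PTime f) : PTime (fun w => (unp (f w)).1) :=
  PTime.comp (f := fun w => (unp w).1) ((ptime_iff_CF _).2 CF.unp1) hf

theorem PTime.unp2 {f : Str → Str} (hf : PTime f) : PTime (fun w => (unp (f w)).2) :=
  PTime.comp (f := fun w => (unp w).2) ((ptime_iff_CF _).2 CF.unp2) hf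

theorem PTime.ite {c f g : Str → Str} (hc : PTime c) (hf : PTime f) (hg : PTime g) :
    PTime (fun w => if (c w).head? = some true then f w else g w) :=
  (ptime_iff_CF _).2 (CF.ite ((ptime_iff_CF _).1 hc) ((ptime_iff_CF _).1 hf)
    ((ptime_iff_CF _).1 hg))

theorem PTime.iteNil {c f g : Str → Str} (hc : PTime c) (hf : PTime f) (hg : PTime g) :
    PTime (fun w => if c w = [] then f w else g w) :=
  (ptime_iff_CF _).2 (CF.iteNil ((ptime_iff_CF _).1 hc) ((ptime_iff_CF _).1 hf)
    ((ptime_iff_CF _).1 hg))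

theorem PTime.iter {e l s₀ step : Str → Str} (he : PTime e) (hl : PTime l) (hs : PTime s₀)
    (hstep : PTime step) {B : ℕ → ℕ} (hB : PB B)
    (hb : ∀ w, ∀ i ≤ (l w).length,
      ((fun s => step (pairCode (e w, s)))^[i] (s₀ w)).length ≤ B w.length) :
    PTime (fun w => (fun s => step (pairCode (e w, s)))^[(l w).length] (s₀ w)) :=
  (ptime_iff_CF _).2 (CF.iter ((ptime_iff_CF _).1 he) ((ptime_iff_CF _).1 hl)
    ((ptime_iff_CF _).1 hs) ((ptime_iff_CF _).1 hstep) hB hb)

end Pool.Agent.Helper33.TQ
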