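import Pool.Agent.Helper33.TQ.RawAll

section
/-! Raw lists of words: a list is coded as an iterated pair. -/

namespace Pool.Agent.Helper33.TQ

open Function Pool.Agent.Helper72

/-- code of a list of words -/
def encR : List Str → Str
  | [] => []
  | a :: l => pairCode (a, encR l)

/-- decoding of lists of words, total -/
def decR (w : Str) : List Str :=
  if h : w = [] then [] else (unp w).1 :: decR (unp w).2
termination_by w.length
decreasing_by exact unp_snd_lt h

@[simp] theorem encR_nil : encR [] = [] := rfl
@[simp] theorem encR_cons (a : Str) (l : List Str) : encR (a :: l) = pairCode (a, encR l) := rfl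

@[simp] theorem decR_nil : decR [] = [] := by rw [decR]; simp

theorem decR_of_ne {w : Str} (h : w ≠ []) : decR w = (unp w).1 :: decR (unp w).2 := by
  rw [decR, dif_neg h]

@[simp] theorem decR_encR (l : List Str) : decR (encR l) = l := by
  induction l with
  | nil => simp
  | cons a l ih => rw [encR_cons, decR_of_ne (pairCode_ne_nil _), unp_pairCode, ih]

end Pool.Agent.Helper33.TQ

end

section
/-! Module TQ RawFold. -/

namespace Pool.Agent.Helper33.TQ

open Function Pool.Agent.Helper72

theorem length_decR (w : Str) : (decR w).length ≤ w.length := by
  induction hn : w.length using Nat.strong_induction_on generalizing w with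
  | _ n ih =>
    by_cases h : w = []
    · subst h
      simp
    · have h1 := unp_snd_lt h
      have h2 := ih _ (hn ▸ h1) (unp w).2 rfl
      rw [decR_of_ne h, List.length_cons]
      omega

theorem length_encR (l : List Str) :
    (encR l).length = (l.map fun a => 2 * a.length + 2).sum := by
  induction l with
  | nil => simp
  | cons a l ih =>
    rw [encR_cons, length_pairCode, ih]
    simp

theorem sum_decR (w : Str) : ((decR w).map fun a => a.length).sum ≤ w.length := by
  induction hn : w.length using Nat.strong_induction_on generalizing w with
  | _ n ih =>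
    by_cases h : w = []
    · subst h
      simp
    · have h1 := unp_snd_lt h
      have h2 := ih _ (hn ▸ h1) (unp w).2 rfl
      have h3 := unp_length w
      rw [decR_of_ne h, List.map_cons, List.sum_cons]
      omega

private theorem rf_decR_eq_nil {w : Str} (h : decR w = []) : w = [] := by
  by_contra hw
  rw [decR_of_ne hw] at h
  exact absurd h (by simp)

/-- one step of the fold -/
private def rfStep (step : Str → Str) (z : Str) : Str :=
  if (unp (unp z).2).1 = [] then (unp z).2
  else pairCode ((unp (unp (unp z).2).1).2,
    step (pairCode ((unp z).1, pairCode ((unp (unp z).2).2, (unp (unp (unp z).2).1).1))))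

private theorem rfStep_ptime {step : Str → Str} (hstep : PTime step) :
    PTime (rfStep step) := by
  have h2 : PTime fun z => (unp z).2 := PTime.unp2 PTime.id
  have h1 : PTime fun z => (unp z).1 := PTime.unp1 PTime.id
  have h21 : PTime fun z => (unp (unp z).2).1 := PTime.unp1 h2
  have h22 : PTime fun z => (unp (unp z).2).2 := PTime.unp2 h2
  exact PTime.iteNil h21 h2 (PTime.pair (PTime.unp2 h21)
    (PTime.comp hstep (PTime.pair h1 (PTime.pair h22 (PTime.unp1 h21)))))

private theorem rf_iter {step : Str → Str} (e w s₀ : Str) (i : ℕ) :
    ∃ rest : Str, decR rest = (decR w).drop i ∧ rest.length ≤ w.length ∧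
      (fun s => rfStep step (pairCode (e, s)))^[i] (pairCode (w, s₀)) =
        pairCode (rest, ((decR w).take i).foldl
          (fun s a => step (pairCode (e, pairCode (s, a)))) s₀) := by
  induction i with
  | zero => exact ⟨w, by simp, le_rfl, by simp⟩
  | succ i ih =>
    obtain ⟨rest, h1, h2, h3⟩ := ih
    rw [Function.iterate_succ_apply', h3]
    by_cases hr : rest = []
    · subst hr
      have h4 : (decR w).drop i = [] := by rw [← h1]; simp
      have h5 : (decR w).length ≤ i := List.drop_eq_nil_iff.1 h4
      refine ⟨[], ?_, by simp, ?_⟩
      · rw [List.drop_eq_nil_iff.2 (by omega)]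
        simp
      · have t1 : (decR w).take (i + 1) = decR w := List.take_of_length_le (by omega)
        have t2 : (decR w).take i = decR w := List.take_of_length_le h5
        rw [t1, t2]
        simp [rfStep]
    · have h4 : (decR w).drop i = (unp rest).1 :: decR (unp rest).2 := by
        rw [← h1, decR_of_ne hr]
      have h5 : i < (decR w).length := by
        by_contra hcon
        rw [List.drop_eq_nil_iff.2 (by omega)] at h4
        exact absurd h4 (by simp)
      have h6 : (decR w).drop i = (decR w)[i] :: (decR w).drop (i + 1) :=
        (List.getElem_cons_drop (h := h5)).symm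
      rw [h6] at h4
      have h7 := List.cons.inj h4
      refine ⟨(unp rest).2, h7.2.symm, ?_, ?_⟩
      · have := unp_length rest
        omega
      · rw [List.take_succ_eq_append_getElem h5, List.foldl_append, List.foldl_cons,
          List.foldl_nil, h7.1]
        simp [rfStep, hr]

/-- bounded fold over a coded list. From `PTime.iter` with states `pairCode (rest, s)` and
`w.length` iterations (at `rest = []` the step does nothing). -/
theorem PTime.foldR {e l s₀ step : Str → Str} (he : PTime e) (hl : PTime l) (hs : PTime s₀)
    (hstep : PTime step) {B : ℕ → ℕ} (hB : PB B)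
    (hb : ∀ w, ∀ i ≤ (decR (l w)).length,
      (((decR (l w)).take i).foldl (fun s a => step (pairCode (e w, pairCode (s, a))))
        (s₀ w)).length ≤ B w.length) :
    PTime (fun w => (decR (l w)).foldl (fun s a => step (pairCode (e w, pairCode (s, a))))
      (s₀ w)) := by
  obtain ⟨q, hq, hqm, hql⟩ := hl.len
  have hB2 : PB fun n => 2 * q n + 2 + B n :=
    (((PB.const 2).mul hq).add (PB.const 2)).add hB
  have key := PTime.iter he hl (PTime.pair hl hs) (rfStep_ptime hstep) hB2 (by
    intro w i hi
    obtain ⟨rest, h1, h2, h3⟩ := rf_iter (step := step) (e w) (l w) (s₀ w) i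
    rw [h3, length_pairCode]
    have h4 : (((decR (l w)).take i).foldl (fun s a => step (pairCode (e w, pairCode (s, a))))
        (s₀ w)).length ≤ B w.length := by
      rcases le_total i (decR (l w)).length with h | h
      · exact hb w i h
      · rw [List.take_of_length_le h]
        have := hb w _ le_rfl
        rwa [List.take_length] at this
    have h5 := hql w
    exact Nat.add_le_add (by omega) h4)
  have key2 := PTime.unp2 key
  have h : (fun w => (decR (l w)).foldl (fun s a => step (pairCode (e w, pairCode (s, a))))
      (s₀ w)) = fun w => (unp ((fun s => rfStep step (pairCode (e w, s)))^[(l w).length]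
        (pairCode (l w, s₀ w)))).2 := by
    funext w
    obtain ⟨rest, h1, h2, h3⟩ := rf_iter (step := step) (e w) (l w) (s₀ w) (l w).length
    rw [h3, unp_pairCode, List.take_of_length_le (length_decR (l w))]
  rw [h]
  exact key2

private theorem rf_foldl_enc (g : Str → Str) (l : List Str) (acc : List Str) :
    l.foldl (fun s a => pairCode (g a, s)) (encR acc) =
      encR ((l.map g).reverse ++ acc) := by
  induction l generalizing acc with
  | nil => simp
  | cons a l ih =>
    rw [List.foldl_cons, ← encR_cons, ih]
    simp

private theorem rf_sum_le (l : List Str) {c : ℕ} (h : ∀ a ∈ l, a.length ≤ c) :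
    (l.map fun a => 2 * a.length + 2).sum ≤ l.length * (2 * c + 2) := by
  induction l with
  | nil => simp
  | cons a l ih =>
    have h1 := h a (by simp)
    have h2 := ih fun b hb => h b (List.mem_cons_of_mem _ hb)
    rw [List.map_cons, List.sum_cons, List.length_cons, Nat.add_mul, Nat.one_mul]
    omega

private theorem rf_mem_le {w a : Str} (h : a ∈ decR w) : a.length ≤ w.length :=
  (List.single_le_sum (by simp) _ (List.mem_map_of_mem h)).trans (sum_decR w)

/-- the fold which codes the reversed image -/
private theorem rf_rev {e l g : Str → Str} (he : PTime e) (hl : PTime l) (hg : PTime g) :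
    PTime (fun w => encR ((decR (l w)).map fun a => g (pairCode (e w, a))).reverse) := by
  obtain ⟨q, hq, hqm, hql⟩ := hl.len
  obtain ⟨r, hr, hrm, hrl⟩ := hg.len
  obtain ⟨t, ht, htm, htl⟩ := he.len
  have hstep : PTime fun z => pairCode (g (pairCode ((unp z).1, (unp (unp z).2).2)),
      (unp (unp z).2).1) := by
    have h2 : PTime fun z => (unp z).2 := PTime.unp2 PTime.id
    have h1 : PTime fun z => (unp z).1 := PTime.unp1 PTime.id
    exact PTime.pair (PTime.comp hg (PTime.pair h1 (PTime.unp2 h2))) (PTime.unp1 h2)
  have hB : PB fun n => q n * (2 * r (2 * t n + 2 + q n) + 2) :=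
    hq.mul (((PB.const 2).mul (hr.comp ((((PB.const 2).mul ht).add (PB.const 2)).add hq))).add
      (PB.const 2))
  have hval : ∀ (w : Str) (L : List Str), L.foldl (fun s a =>
      (fun z => pairCode (g (pairCode ((unp z).1, (unp (unp z).2).2)), (unp (unp z).2).1))
        (pairCode (e w, pairCode (s, a)))) [] =
      encR (L.map fun a => g (pairCode (e w, a))).reverse := by
    intro w L
    simp only [unp_pairCode]
    have := rf_foldl_enc (fun a => g (pairCode (e w, a))) L []
    rw [encR_nil, List.append_nil] at this
    exact this
  have key := PTime.foldR he hl (PTime.const []) hstep hB (by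
    intro w i hi
    rw [hval w, length_encR]
    refine (rf_sum_le _ (c := r (2 * t w.length + 2 + q w.length)) ?_).trans ?_
    · intro a ha
      rw [List.mem_reverse, List.mem_map] at ha
      obtain ⟨b, hb, rfl⟩ := ha
      have h1 : b.length ≤ (l w).length := rf_mem_le (List.mem_of_mem_take hb)
      refine (hrl _).trans (hrm ?_)
      rw [length_pairCode]
      have h2 := htl w
      have h3 := hql w
      omega
    · refine Nat.mul_le_mul_right _ ?_
      rw [List.length_reverse, List.length_map, List.length_take]
      exact (min_le_right _ _).trans ((length_decR _).trans (hql w)))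
  have h : (fun w => encR ((decR (l w)).map fun a => g (pairCode (e w, a))).reverse) =
      fun w => (decR (l w)).foldl (fun s a =>
      (fun z => pairCode (g (pairCode ((unp z).1, (unp (unp z).2).2)), (unp (unp z).2).1))
        (pairCode (e w, pairCode (s, a)))) [] := by
    funext w
    exact (hval w _).symm
  rw [h]
  exact key

theorem PTime.revR {l : Str → Str} (hl : PTime l) :
    PTime (fun w => encR (decR (l w)).reverse) := by
  have h := rf_rev (PTime.const []) hl (g := fun z => (unp z).2) (PTime.unp2 PTime.id)
  simpa using h

theorem PTime.mapR {e l g : Str → Str} (he : PTime e) (hl : PTime l) (hg : PTime g) :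
    PTime (fun w => encR ((decR (l w)).map fun a => g (pairCode (e w, a)))) := by
  have h := PTime.revR (rf_rev he hl hg)
  simpa using h

end Pool.Agent.Helper33.TQ

end
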