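import Pool.Agent.Helper33.TQ.Nat

section
/-! Module TQ StrA: operations on words (type `List Bool`, coded by itself), part 1. -/

namespace Pool.Agent.Helper33.TQ

open Function Pool.Agent.Helper72

variable {α β γ σ : Type} [Cd α] [Cd β] [Cd γ] [Cd σ]


@[fun_prop] theorem PTF.consS (b : Bool) {l : α → List Bool} (hl : PTF l) :
    PTF (fun a => b :: l a) := PTime.cons b hl

@[fun_prop] theorem PTF.tailS {l : α → List Bool} (hl : PTF l) :
    PTF (fun a => (l a).tail) := PTime.tail hl

@[fun_prop] theorem PTF.lengthS {l : α → List Bool} (hl : PTF l) :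
    PTF (fun a => (l a).length) := PTF.sz_fun hl

private theorem StrA_headT {l : α → List Bool} (hl : PTF l) :
    PTF (fun a => (l a).head? = some true) := by
  refine PTF.prop_iff.2 ⟨fun w => l (dec w), hl, fun a => ?_⟩
  show (l (dec (enc a))).head? = some true ↔ _
  rw [Cd.dec_enc]

private theorem StrA_head? {l : α → List Bool} (hl : PTF l) (b : Bool) :
    PTF (fun a => (l a).head? = some b) := by
  cases b with
  | true => exact StrA_headT hl
  | false =>
    have h1 : PTF (fun a => ¬ ((l a).head? = some true) ∧ l a ≠ []) :=
      PTF.and (PTF.not (StrA_headT hl)) (PTF.ne hl (PTF.const []))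
    refine PTF.congr h1 fun a => ?_
    rcases l a with _ | ⟨b, t⟩
    · simp
    · cases b <;> simp

@[fun_prop] theorem PTF.head?S {l : α → List Bool} (hl : PTF l) (b : Bool) :
    PTF (fun a => (l a).head? = some b) := StrA_head? hl b

@[fun_prop] theorem PTF.headDS {l : α → List Bool} (hl : PTF l) :
    PTF (fun a => (l a).headD false = true) := by
  refine PTF.congr (PTF.head?S hl true) fun a => ?_
  rcases l a with _ | ⟨b, t⟩
  · simp
  · simp

/-- a letter given by a truth value -/
@[fun_prop] theorem PTF.consP {p : α → Prop} [DecidablePred p] {l : α → List Bool}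
    (hp : PTF p) (hl : PTF l) : PTF (fun a => decide (p a) :: l a) := by
  refine PTF.congr (PTF.ite hp (PTF.consS true hl) (PTF.consS false hl)) fun a => ?_
  by_cases h : p a
  · rw [if_pos h, decide_eq_true h]
  · rw [if_neg h, decide_eq_false h]

/-- bounded fold over the letters of a word -/
theorem PTF.foldlS {l : α → List Bool} {s : α → σ} {g : α → σ → Bool → σ} (hl : PTF l)
    (hs : PTF s) (hg : ∀ b, PTF (fun p : α × σ => g p.1 p.2 b)) {B : α → ℕ} (hB : PTF B)
    (hb : ∀ a, ∀ i ≤ (l a).length, sz (((l a).take i).foldl (g a) (s a)) ≤ B a) :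
    PTF (fun a => (l a).foldl (g a) (s a)) := by
  have hst : ∀ a i, i ≤ (l a).length → (fun q : σ × List Bool =>
      ((if q.2.head? = some true then g a q.1 true else g a q.1 false), q.2.tail))^[i]
        (s a, l a) = (((l a).take i).foldl (g a) (s a), (l a).drop i) := by
    intro a i
    induction i with
    | zero =>
      intro _
      simp
    | succ i ih =>
      intro hi
      rw [Function.iterate_succ_apply', ih (Nat.le_of_succ_le hi)]
      obtain ⟨b, t, hbt⟩ : ∃ b t, (l a).drop i = b :: t := by
        rcases h : (l a).drop i with _ | ⟨b, t⟩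
        · rw [List.drop_eq_nil_iff] at h
          omega
        · exact ⟨b, t, rfl⟩
      have h1 : (l a).drop (i + 1) = t := by
        rw [← List.tail_drop, hbt, List.tail_cons]
      have h2 : (l a).take (i + 1) = (l a).take i ++ [b] := by
        rw [List.take_add_one]
        congr 1
        have : (l a)[i]? = some b := by
          rw [← List.head?_drop, hbt, List.head?_cons]
        rw [this]
        rfl
      rw [hbt, h1, h2, List.foldl_append]
      cases b <;> simp
  have h0 : PTF (fun a => (fun q : σ × List Bool =>
      ((if q.2.head? = some true then g a q.1 true else g a q.1 false), q.2.tail))^[(l a).length]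
        (s a, l a)) := by
    refine PTF.iterate (n := fun a => (l a).length) (s := fun a => (s a, l a))
      (g := fun a q => ((if q.2.head? = some true then g a q.1 true else g a q.1 false), q.2.tail))
      (PTF.lengthS hl) (PTF.mk hs hl) ?_ (B := fun a => 2 * B a + 2 + (l a).length) ?_ ?_
    · have hp : PTF (fun p : α × (σ × List Bool) => (p.1, p.2.1)) :=
        PTF.mk (PTF.fst PTF.id) (PTF.fst (PTF.snd PTF.id))
      have h1 : PTF (fun p : α × (σ × List Bool) => g p.1 p.2.1 true) :=
        PTF.comp (f := fun p : α × σ => g p.1 p.2 true) (hg true) hp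
      have h2 : PTF (fun p : α × (σ × List Bool) => g p.1 p.2.1 false) :=
        PTF.comp (f := fun p : α × σ => g p.1 p.2 false) (hg false) hp
      have h3 : PTF (fun p : α × (σ × List Bool) => p.2.2) := PTF.snd (PTF.snd PTF.id)
      exact PTF.mk (PTF.ite (PTF.head?S h3 true) h1 h2) (PTF.tailS h3)
    · exact PTF.add (PTF.add (PTF.mul (PTF.const 2) hB) (PTF.const 2)) (PTF.lengthS hl)
    · intro a i hi
      rw [hst a i hi, sz_pair, sz_str, List.length_drop]
      have := hb a i hi
      omega
  refine PTF.congr (PTF.fst h0) fun a => ?_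
  rw [hst a _ le_rfl, List.take_length]

private theorem StrA_foldl_cons (m l : List Bool) :
    l.foldl (fun s b => b :: s) m = l.reverse ++ m := by
  induction l generalizing m with
  | nil => rfl
  | cons b l ih => rw [List.foldl_cons, ih, List.reverse_cons, List.append_assoc]; rfl

private theorem StrA_revAppend {l m : α → List Bool} (hl : PTF l) (hm : PTF m) :
    PTF (fun a => (l a).reverse ++ m a) := by
  have h : PTF (fun a => (l a).foldl (fun s b => b :: s) (m a)) := by
    refine PTF.foldlS (g := fun _ s b => b :: s) hl hm (fun b => PTF.consS b (PTF.snd PTF.id))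
      (B := fun a => (l a).length + (m a).length) (PTF.add (PTF.lengthS hl) (PTF.lengthS hm)) ?_
    intro a i _
    rw [StrA_foldl_cons, sz_str, List.length_append, List.length_reverse, List.length_take]
    omega
  exact PTF.congr h fun a => StrA_foldl_cons _ _

@[fun_prop] theorem PTF.reverseS {l : α → List Bool} (hl : PTF l) :
    PTF (fun a => (l a).reverse) := by
  refine PTF.congr (StrA_revAppend hl (PTF.const [])) fun a => ?_
  rw [List.append_nil]

@[fun_prop] theorem PTF.appendS {l m : α → List Bool} (hl : PTF l) (hm : PTF m) :
    PTF (fun a => l a ++ m a) := by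
  refine PTF.congr (StrA_revAppend (PTF.reverseS hl) hm) fun a => ?_
  rw [List.reverse_reverse]

end Pool.Agent.Helper33.TQ

end

section
/-! Module TQ StrA2: operations on words (type `List Bool`, coded by itself), part 2. -/

namespace Pool.Agent.Helper33.TQ

open Function Pool.Agent.Helper72

variable {α β γ σ : Type} [Cd α] [Cd β] [Cd γ] [Cd σ]

private theorem strA2_tail (l : List Bool) (n : ℕ) : (fun s : List Bool => s.tail)^[n] l =
    l.drop n := by
  induction n generalizing l with
  | zero => rfl
  | succ n ih =>
    rw [iterate_succ_apply, ih]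
    cases l <;> simp

private theorem strA2_rep (b : Bool) (l : List Bool) (n : ℕ) :
    (fun s : List Bool => b :: s)^[n] l = List.replicate n b ++ l := by
  induction n generalizing l with
  | zero => rfl
  | succ n ih =>
    rw [iterate_succ_apply, ih, List.replicate_succ']
    simp

private theorem strA2_drop {l : α → List Bool} {n : α → ℕ} (hn : PTF n) (hl : PTF l) :
    PTF (fun a => (l a).drop (n a)) := by
  have h : PTF (fun a => ((fun (_ : α) (s : List Bool) => s.tail) a)^[n a] (l a)) :=
    PTF.iterate (B := fun a => sz (l a)) hn hl (PTF.tailS (PTF.snd PTF.id)) (PTF.sz_fun hl) (by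
      intro a i hi
      show sz ((fun s : List Bool => s.tail)^[i] (l a)) ≤ sz (l a)
      rw [strA2_tail, sz_str, sz_str, List.length_drop]
      omega)
  refine PTF.congr h fun a => ?_
  show (fun s : List Bool => s.tail)^[n a] (l a) = _
  rw [strA2_tail]

@[fun_prop] theorem PTF.takeS {l : α → List Bool} {n : α → ℕ} (hn : PTF n) (hl : PTF l) :
    PTF (fun a => (l a).take (n a)) := by
  have h : PTF (fun a => ((l a).reverse.drop ((l a).length - n a)).reverse) :=
    PTF.reverseS (strA2_drop (PTF.sub (PTF.lengthS hl) hn) (PTF.reverseS hl))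
  refine PTF.congr h fun a => ?_
  rw [List.drop_reverse, List.reverse_reverse]
  rcases Nat.le_total (n a) (l a).length with h1 | h1
  · rw [Nat.sub_sub_self h1]
  · rw [List.take_of_length_le h1, List.take_of_length_le (by omega)]

@[fun_prop] theorem PTF.dropS {l : α → List Bool} {n : α → ℕ} (hn : PTF n) (hl : PTF l) :
    PTF (fun a => (l a).drop (n a)) := strA2_drop hn hl

@[fun_prop] theorem PTF.getDS {l : α → List Bool} {n : α → ℕ} (hl : PTF l) (hn : PTF n) :
    PTF (fun a => (l a).getD (n a) false = true) := by
  refine PTF.congr (PTF.headDS (PTF.dropS hn hl)) fun a => ?_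
  rw [List.headD_eq_head?_getD, List.head?_drop, List.getD_eq_getElem?_getD]

@[fun_prop] theorem PTF.replicateS {n : α → ℕ} (hn : PTF n) (b : Bool) :
    PTF (fun a => List.replicate (n a) b) := by
  have h : PTF (fun a => ((fun (_ : α) (s : List Bool) => b :: s) a)^[n a]
      ((fun _ => ([] : List Bool)) a)) :=
    PTF.iterate (B := fun a => n a) hn (PTF.const []) (PTF.consS b (PTF.snd PTF.id)) hn (by
      intro a i hi
      show sz ((fun s : List Bool => b :: s)^[i] []) ≤ n a
      rw [strA2_rep, sz_str, List.append_nil, List.length_replicate]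
      exact hi)
  refine PTF.congr h fun a => ?_
  show (fun s : List Bool => b :: s)^[n a] [] = _
  rw [strA2_rep, List.append_nil]

end Pool.Agent.Helper33.TQ

end
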