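import Pool.Agent.Helper33.TQ.StrB1

/-! Module TQ StrB3: operations on words (type `List Bool`, coded by itself), part 5. -/

namespace Pool.Agent.Helper33.TQ

open Function Pool.Agent.Helper72

variable {α β γ σ : Type} [Cd α] [Cd β] [Cd γ] [Cd σ]


/-- all words of length `b`, cut to at most `Q` words -/
def allS (Q : ℕ) : ℕ → List Str
  | 0 => [[]]
  | b + 1 => ((allS Q b).flatMap fun v => [false :: v, true :: v]).take Q

theorem length_mem_allS {Q b : ℕ} {v : Str} (h : v ∈ allS Q b) : v.length = b := by
  induction b generalizing v with
  | zero => simpa [allS] using h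
  | succ b ih =>
    have h1 := List.mem_of_mem_take h
    rw [List.mem_flatMap] at h1
    obtain ⟨u, hu, hv⟩ := h1
    have h2 := ih hu
    simp only [List.mem_cons, List.not_mem_nil, or_false] at hv
    rcases hv with rfl | rfl <;> simp [h2]

private theorem allS_len_le (Q b : ℕ) : (allS Q b).length ≤ Q + 1 := by
  cases b with
  | zero => simp [allS]
  | succ b =>
    rw [allS, List.length_take]
    omega

private theorem allS_iter (Q b : ℕ) :
    (fun l : List Str => (l.flatMap fun v => [false :: v, true :: v]).take Q)^[b] [[]] =
      allS Q b := by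
  induction b with
  | zero => rfl
  | succ b ih => rw [Function.iterate_succ_apply', ih]; rfl

@[fun_prop] theorem PTF.allS {Q b : α → ℕ} (hQ : PTF Q) (hb : PTF b) :
    PTF (fun a => allS (Q a) (b a)) := by
  have hB : PTF (fun a => (Q a + 1) * (2 * b a + 2)) :=
    PTF.mul (PTF.add hQ (PTF.const 1)) (PTF.add (PTF.mul (PTF.const 2) hb) (PTF.const 2))
  have hstep : PTF (fun p : α × List Str =>
      (p.2.flatMap fun v => [false :: v, true :: v]).take (Q p.1)) := by
    refine PTF.take (PTF.comp hQ (PTF.fst PTF.id)) ?_
    refine PTF.flatMap (g := fun (_ : α × List Str) (v : Str) => [false :: v, true :: v])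
      (PTF.snd PTF.id) ?_
    exact PTF.cons (PTF.consS false (PTF.snd PTF.id))
      (PTF.cons (PTF.consS true (PTF.snd PTF.id)) (PTF.const []))
  have hs : PTF (fun _ : α => ([[]] : List Str)) := PTF.const _
  have h := PTF.iterate
    (g := fun (a : α) (l : List Str) => (l.flatMap fun v => [false :: v, true :: v]).take (Q a))
    hb hs hstep hB (by
      intro a i hi
      rw [allS_iter]
      apply sz_list_le (allS_len_le _ _)
      intro v hv
      rw [sz_str, length_mem_allS hv]
      exact hi)
  exact h.congr fun a => allS_iter _ _

private theorem allS_nodup_step {l : List Str} (h : l.Nodup) :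
    (l.flatMap fun v => [false :: v, true :: v]).Nodup := by
  induction l with
  | nil => simp
  | cons x l ih =>
    rw [List.nodup_cons] at h
    rw [List.flatMap_cons, List.nodup_append]
    refine ⟨by simp, ih h.2, ?_⟩
    intro u hu v hv huv
    subst huv
    rw [List.mem_flatMap] at hv
    obtain ⟨y, hy, hv⟩ := hv
    simp only [List.mem_cons, List.not_mem_nil, or_false] at hu hv
    rcases hu with rfl | rfl <;> rcases hv with hv | hv <;> simp at hv <;>
      exact h.1 (hv ▸ hy)

theorem nodup_allS (Q b : ℕ) : (allS Q b).Nodup := by
  induction b with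
  | zero => simp [allS]
  | succ b ih => exact (allS_nodup_step ih).sublist (List.take_sublist _ _)

private theorem allS_length_step (l : List Str) :
    (l.flatMap fun v => [false :: v, true :: v]).length = 2 * l.length := by
  induction l with
  | nil => simp
  | cons x l ih =>
    rw [List.flatMap_cons, List.length_append, ih, List.length_cons]
    simp only [List.length_cons, List.length_nil]
    omega

theorem length_allS {Q b : ℕ} (hQ : 2 ^ b ≤ Q) : (allS Q b).length = 2 ^ b := by
  induction b with
  | zero => simp [allS]
  | succ b ih =>
    have h1 : 2 ^ b ≤ Q := le_trans (Nat.pow_le_pow_right (by norm_num) (Nat.le_succ b)) hQ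
    rw [allS, List.length_take, allS_length_step, ih h1]
    rw [pow_succ] at hQ ⊢
    omega

theorem mem_allS {Q b : ℕ} (hQ : 2 ^ b ≤ Q) {v : Str} : v ∈ allS Q b ↔ v.length = b := by
  refine ⟨length_mem_allS, ?_⟩
  induction b generalizing v with
  | zero =>
    intro h
    simp [allS, List.length_eq_zero_iff.1 h]
  | succ b ih =>
    intro h
    have h1 : 2 ^ b ≤ Q := le_trans (Nat.pow_le_pow_right (by norm_num) (Nat.le_succ b)) hQ
    have h2 : ((allS Q b).flatMap fun v => [false :: v, true :: v]).length ≤ Q := by
      rw [allS_length_step, length_allS h1]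
      rw [pow_succ] at hQ
      omega
    rw [allS, List.take_of_length_le h2, List.mem_flatMap]
    cases v with
    | nil => simp at h
    | cons x v =>
      refine ⟨v, ih h1 (by simpa using h), ?_⟩
      cases x <;> simp

end Pool.Agent.Helper33.TQ
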