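import Pool.Agent.Helper33.TQ.StrB1

/-! Module TQ StrB4: operations on words (type `List Bool`, coded by itself), part 6. -/

namespace Pool.Agent.Helper33.TQ

open Function Pool.Agent.Helper72

variable {α β γ σ : Type} [Cd α] [Cd β] [Cd γ] [Cd σ]


/-- removing a padding `1 0 ... 0` -/
def unpad (w : Str) : Str := ((w.reverse.dropWhile (fun b => !b)).tail).reverse

theorem unpad_pad (w : Str) (k : ℕ) : unpad (w ++ true :: List.replicate k false) = w := by
  have h : ∀ (k : ℕ) (v : Str), (List.replicate k false ++ true :: v).dropWhile (fun b => !b) =
      true :: v := by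
    intro k v
    induction k with
    | zero => simp
    | succ k ih => simp [List.replicate_succ, ih]
  unfold unpad
  rw [List.reverse_append, List.reverse_cons, List.reverse_replicate, List.append_assoc]
  show (List.dropWhile (fun b => !b) (List.replicate k false ++ true :: w.reverse)).tail.reverse = w
  rw [h]
  simp

theorem length_unpad_le (w : Str) : (unpad w).length ≤ w.length - 1 := by
  unfold unpad
  rw [List.length_reverse, List.length_tail]
  have h := (List.dropWhile_sublist (l := w.reverse) (fun b => !b)).length_le
  rw [List.length_reverse] at h
  omega

private def strB4_step (s : Str) : Str := if s.headD false = true then s else s.tail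

private theorem strB4_len (s : Str) : (strB4_step s).length ≤ s.length := by
  unfold strB4_step
  split_ifs
  · exact le_rfl
  · rw [List.length_tail]
    omega

private theorem strB4_iter (s : Str) : ∀ n, s.length ≤ n →
    strB4_step^[n] s = s.dropWhile (fun b => !b) := by
  induction s with
  | nil =>
    intro n _
    have h : strB4_step [] = [] := rfl
    rw [iterate_fixed h]
    simp
  | cons b s ih =>
    intro n hn
    cases b with
    | true =>
      have h : strB4_step (true :: s) = true :: s := rfl
      rw [iterate_fixed h]
      simp
    | false =>
      obtain ⟨m, rfl⟩ : ∃ m, n = m + 1 := ⟨n - 1, by simp at hn; omega⟩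
      have h : strB4_step (false :: s) = s := rfl
      rw [iterate_succ_apply, h, ih m (by simp at hn; omega)]
      simp

@[fun_prop] theorem PTF.unpad {u : α → List Bool} (hu : PTF u) :
    PTF (fun a => unpad (u a)) := by
  have hstep : PTF (fun p : α × Str => strB4_step p.2) := by
    unfold strB4_step
    exact PTF.ite (PTF.headDS (PTF.snd PTF.id)) (PTF.snd PTF.id) (PTF.tailS (PTF.snd PTF.id))
  have h1 : PTF (fun a => ((fun (_ : α) (s : Str) => strB4_step s) a)^[(u a).length]
      ((u a).reverse)) :=
    PTF.iterate (B := fun a => sz (u a)) (PTF.lengthS hu) (PTF.reverseS hu) hstep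
      (PTF.sz_fun hu) (by
        intro a i hi
        show sz (strB4_step^[i] (u a).reverse) ≤ sz (u a)
        clear hi
        induction i with
        | zero => simp
        | succ i ih =>
          rw [iterate_succ_apply']
          refine le_trans ?_ ih
          rw [sz_str, sz_str]
          exact strB4_len _)
  refine PTF.congr (PTF.reverseS (PTF.tailS h1)) fun a => ?_
  show ((strB4_step^[(u a).length] (u a).reverse).tail).reverse = Pool.Agent.Helper33.TQ.unpad (u a)
  rw [strB4_iter _ _ (by simp)]
  rfl

end Pool.Agent.Helper33.TQ
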