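import Pool.Agent.Helper33.TQ.StrB2
import Pool.Agent.Helper33.TQ.StrB3
import Pool.Agent.Helper33.TQ.StrB4

/-! Collects the calculus of polynomial time functions. -/
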