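import Pool.Agent.Helper33.TQ.StrA2
import Pool.Agent.Helper33.TQ.ListB2

/-! Module TQ StrB1: operations on words (type `List Bool`, coded by itself), part 3. -/

namespace Pool.Agent.Helper33.TQ

open Function Pool.Agent.Helper72

variable {α β γ σ : Type} [Cd α] [Cd β] [Cd γ] [Cd σ]

private theorem strB1_foldl_map {β : Type} (h : β → Bool) (L : List β) (acc : List Bool) :
    L.foldl (fun s b => h b :: s) acc = (L.map h).reverse ++ acc := by
  induction L generalizing acc with
  | nil => simp
  | cons b L ih =>
    rw [List.foldl_cons, ih]
    simp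

/-- a word given letter by letter -/
@[fun_prop] theorem PTF.mapS {l : α → List β} {p : α → β → Prop} [∀ a, DecidablePred (p a)]
    (hl : PTF l) (hp : PTF (fun x : α × β => p x.1 x.2)) :
    PTF (fun a => (l a).map (fun b => decide (p a b))) := by
  have hg : PTF (fun q : α × List Bool × β => decide (p q.1 q.2.2) :: q.2.1) :=
    PTF.consP (PTF.comp (f := fun x : α × β => p x.1 x.2)
      (g := fun q : α × List Bool × β => (q.1, q.2.2)) hp
      (PTF.mk (PTF.fst PTF.id) (PTF.snd (PTF.snd PTF.id)))) (PTF.fst (PTF.snd PTF.id))
  have hs : PTF (fun _ : α => ([] : List Bool)) := PTF.const []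
  have h := PTF.foldl (g := fun (a : α) (s : List Bool) (b : β) => decide (p a b) :: s) hl hs hg
    (PTF.sz_fun hl) (by
      intro a i hi
      rw [strB1_foldl_map (fun b => decide (p a b)), sz_str]
      have := length_le_sz (l a)
      simp only [List.append_nil, List.length_reverse, List.length_map, List.length_take]
      omega)
  refine (PTF.reverseS h).congr fun a => ?_
  rw [strB1_foldl_map (fun b => decide (p a b))]
  simp

private theorem strB1_foldl_app (L : List (List Bool)) (acc : List Bool) :
    L.foldl (fun s b => s ++ b) acc = acc ++ L.flatten := by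
  induction L generalizing acc with
  | nil => simp
  | cons b L ih =>
    rw [List.foldl_cons, ih]
    simp

private theorem strB1_len (L : List (List Bool)) : L.flatten.length ≤ sz L := by
  induction L with
  | nil => simp
  | cons b L ih =>
    rw [sz_cons, sz_str, List.flatten_cons, List.length_append]
    omega

private theorem strB1_flatten {l : α → List (List Bool)} (hl : PTF l) :
    PTF (fun a => (l a).flatten) := by
  have hs : PTF (fun _ : α => ([] : List Bool)) := PTF.const []
  have hg : PTF (fun q : α × List Bool × List Bool => q.2.1 ++ q.2.2) :=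
    PTF.appendS (PTF.fst (PTF.snd PTF.id)) (PTF.snd (PTF.snd PTF.id))
  have h := PTF.foldl (g := fun (_ : α) (s b : List Bool) => s ++ b) hl hs hg
    (PTF.sz_fun hl) (by
      intro a i hi
      rw [strB1_foldl_app, sz_str, List.nil_append]
      exact (strB1_len _).trans (sz_sublist (List.take_sublist _ _)))
  refine h.congr fun a => ?_
  rw [strB1_foldl_app, List.nil_append]

@[fun_prop] theorem PTF.flatMapS {l : α → List β} {g : α → β → List Bool} (hl : PTF l)
    (hg : PTF (fun p : α × β => g p.1 p.2)) : PTF (fun a => (l a).flatMap (g a)) := by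
  refine (strB1_flatten (PTF.map hl hg)).congr fun a => ?_
  rw [List.flatMap_def]

@[fun_prop] theorem PTF.flattenS {l : α → List (List Bool)} (hl : PTF l) :
    PTF (fun a => (l a).flatten) := strB1_flatten hl

end Pool.Agent.Helper33.TQ
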