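import Pool.Agent.Helper33.TQ.StrB1

/-! Module TQ StrB2: operations on words (type `List Bool`, coded by itself), part 4. -/

namespace Pool.Agent.Helper33.TQ

open Function Pool.Agent.Helper72

variable {α β γ σ : Type} [Cd α] [Cd β] [Cd γ] [Cd σ]

/-- a letterwise operation given by a truth table -/
private theorem strB2_zip (f : Bool → Bool → Bool) (P : Prop → Prop → Prop)
    (hP : ∀ b c : Bool, P (b = true) (c = true) ↔ f b c = true)
    {u v : α → List Bool} (h : PTF (fun x : α × ℕ =>
      P ((u x.1).getD x.2 false = true) ((v x.1).getD x.2 false = true)))
    (hu : PTF u) (hv : PTF v) : PTF (fun a => List.zipWith f (u a) (v a)) := by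
  classical
  have h1 : PTF (fun a => (List.range (min (u a).length (v a).length)).map
      (fun i => decide (P ((u a).getD i false = true) ((v a).getD i false = true)))) := by
    refine PTF.mapS (p := fun a i => P ((u a).getD i false = true) ((v a).getD i false = true))
      ?_ h
    fun_prop
  refine h1.congr fun a => ?_
  refine List.ext_getElem ?_ ?_
  · simp
  · intro i hi1 hi2
    have hi3 : i < min (u a).length (v a).length := by simpa using hi1
    have hi4 : i < (u a).length := lt_of_lt_of_le hi3 (min_le_left _ _)
    have hi5 : i < (v a).length := lt_of_lt_of_le hi3 (min_le_right _ _)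
    simp only [List.getElem_map, List.getElem_range, List.getElem_zipWith]
    rw [List.getD_eq_getElem _ _ hi4, List.getD_eq_getElem _ _ hi5]
    rw [Bool.eq_iff_iff, decide_eq_true_iff]
    exact hP _ _

/-- letterwise exclusive or -/
def xorS (u v : Str) : Str := List.zipWith xor u v

@[simp] theorem length_xorS (u v : Str) : (xorS u v).length = min u.length v.length := by
  simp [xorS]

@[fun_prop] theorem PTF.xorS {u v : α → List Bool} (hu : PTF u) (hv : PTF v) :
    PTF (fun a => xorS (u a) (v a)) := by
  refine strB2_zip xor (fun p q => ¬ (p ↔ q)) ?_ ?_ hu hv
  · intro b c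
    cases b <;> cases c <;> simp
  · fun_prop

/-- inner product modulo 2 -/
def ip (u v : Str) : Bool := (List.zipWith and u v).foldr xor false

private theorem strB2_foldr (w : List Bool) :
    (w.reverse.foldl (fun (s : Prop) (b : Bool) => if b = true then ¬ s else s) False ↔
      w.foldr xor false = true) := by
  rw [List.foldl_reverse]
  induction w with
  | nil => simp
  | cons b w ih =>
    simp only [List.foldr_cons]
    cases b
    · simpa using ih
    · simp only [if_true, Bool.true_xor, Bool.not_eq_true']
      rw [ih]
      simp

@[fun_prop] theorem PTF.ip {u v : α → List Bool} (hu : PTF u) (hv : PTF v) :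
    PTF (fun a => ip (u a) (v a) = true) := by
  have hw : PTF (fun a => List.zipWith Bool.and (u a) (v a)) := by
    refine strB2_zip Bool.and (fun p q => p ∧ q) ?_ ?_ hu hv
    · intro b c
      cases b <;> cases c <;> simp
    · fun_prop
  have h1 : PTF (fun a => (List.zipWith Bool.and (u a) (v a)).reverse.foldl
      ((fun (_ : α) (s : Prop) (b : Bool) => if b = true then ¬ s else s) a) False) := by
    refine PTF.foldlS (l := fun a => (List.zipWith Bool.and (u a) (v a)).reverse)
      (s := fun _ => False)
      (g := fun (_ : α) (s : Prop) (b : Bool) => if b = true then ¬ s else s)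
      (B := fun _ => 1) (PTF.reverseS hw) (PTF.const False) ?_ (PTF.const 1) ?_
    · intro b
      cases b
      · simp only [Bool.false_eq_true, if_false]
        fun_prop
      · simp only [if_true]
        fun_prop
    · intro a i _
      exact sz_prop _
  exact h1.congr fun a => propext (strB2_foldr _)

/-- initial segment relation -/
@[fun_prop] theorem PTF.isPrefix {u v : α → List Bool} (hu : PTF u) (hv : PTF v) :
    PTF (fun a => u a <+: v a) := by
  have h : PTF (fun a => u a = (v a).take (u a).length) := by fun_prop
  exact h.congr fun a => propext List.prefix_iff_eq_take.symm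

/-- number of letters `true` -/
@[fun_prop] theorem PTF.countS {u : α → List Bool} (hu : PTF u) :
    PTF (fun a => (u a).count true) := by
  have hle : ∀ (l : List Bool) (n : ℕ),
      l.foldl (fun (s : ℕ) (b : Bool) => if b = true then s + 1 else s) n = n + l.count true := by
    intro l
    induction l with
    | nil => simp
    | cons b l ih =>
      intro n
      rw [List.foldl_cons, ih]
      cases b
      · simp
      · simp
        omega
  have h1 : PTF (fun a => (u a).foldl
      ((fun (_ : α) (s : ℕ) (b : Bool) => if b = true then s + 1 else s) a) 0) := by
    refine PTF.foldlS (l := u) (s := fun _ => 0)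
      (g := fun (_ : α) (s : ℕ) (b : Bool) => if b = true then s + 1 else s)
      (B := fun a => (u a).length) hu (PTF.const 0) ?_ (PTF.lengthS hu) ?_
    · intro b
      cases b
      · simp only [Bool.false_eq_true, if_false]
        fun_prop
      · simp only [if_true]
        fun_prop
    · intro a i hi
      rw [sz_nat, hle, zero_add]
      exact (List.count_le_length).trans (by simp)
  exact h1.congr fun a => by rw [hle, zero_add]

/-- position of the first letter `true` -/
@[fun_prop] theorem PTF.idxOfS {u : α → List Bool} (hu : PTF u) :
    PTF (fun a => (u a).idxOf true) := by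
  have hle : ∀ l : List Bool, l.length ≤ l.length →
      l.reverse.foldl (fun (s : ℕ) (b : Bool) => if b = true then 0 else s + 1) 0 =
        l.idxOf true := by
    intro l _
    rw [List.foldl_reverse]
    induction l with
    | nil => simp
    | cons b l ih =>
      rw [List.foldr_cons, ih le_rfl]
      cases b
      · rw [List.idxOf_cons_ne _ (by simp)]
        simp
      · simp
  have hbd : ∀ (l : List Bool) (n : ℕ),
      l.foldl (fun (s : ℕ) (b : Bool) => if b = true then 0 else s + 1) n ≤ n + l.length := by
    intro l
    induction l with
    | nil => simp
    | cons b l ih =>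
      intro n
      rw [List.foldl_cons]
      refine (ih _).trans ?_
      cases b
      · simp
        omega
      · simp
        omega
  have h1 : PTF (fun a => (u a).reverse.foldl
      ((fun (_ : α) (s : ℕ) (b : Bool) => if b = true then 0 else s + 1) a) 0) := by
    refine PTF.foldlS (l := fun a => (u a).reverse) (s := fun _ => 0)
      (g := fun (_ : α) (s : ℕ) (b : Bool) => if b = true then 0 else s + 1)
      (B := fun a => (u a).length) (PTF.reverseS hu) (PTF.const 0) ?_ (PTF.lengthS hu) ?_
    · intro b
      cases b
      · simp only [Bool.false_eq_true, if_false]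
        fun_prop
      · simp only [if_true]
        fun_prop
    · intro a i hi
      rw [sz_nat]
      refine (hbd _ _).trans ?_
      simp
  exact h1.congr fun a => hle _ le_rfl

/-- cut or pad a word to length `n` -/
def fixLen (n : ℕ) (w : Str) : Str := (w ++ List.replicate n false).take n

@[simp] theorem length_fixLen (n : ℕ) (w : Str) : (fixLen n w).length = n := by
  simp [fixLen]

theorem fixLen_of_length {n : ℕ} {w : Str} (h : w.length = n) : fixLen n w = w := by
  simp [fixLen, ← h]

@[fun_prop] theorem PTF.fixLen {n : α → ℕ} {u : α → List Bool} (hn : PTF n) (hu : PTF u) :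
    PTF (fun a => fixLen (n a) (u a)) := by
  unfold Pool.Agent.Helper33.TQ.fixLen
  fun_prop

end Pool.Agent.Helper33.TQ
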