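import Pool.Agent.Helper33.TQ.RawFold
import Pool.Agent.Helper33.TQ.RawEq

/-!
Typed layer: coded types and polynomial time functions between them, with `fun_prop`.
Natural numbers are coded in UNARY. There is deliberately no instance for `Bool`:
truth values are propositions (`Cd Prop`), `List Bool` (= `Str`) is coded by itself.
-/

namespace Pool.Agent.Helper33.TQ

open Function Pool.Agent.Helper72

/-- coded types -/
class Cd (α : Type) where
  /-- code of an object -/
  enc : α → Str
  /-- decoding, total -/
  dec : Str → α
  dec_enc : ∀ a, dec (enc a) = a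
  norm : PTime (fun w => enc (dec w))

export Cd (enc dec)

/-- Every coded type satisfies this. It is a `Prop` valued class, so `fun_prop` stops
immediately when it tries to use a lemma about coded types for `Bool`. -/
class Guard (α : Type) : Prop where
  guard : Nonempty (Cd α)

instance instGuard {α : Type} [h : Cd α] : Guard α := ⟨⟨h⟩⟩

attribute [simp] Cd.dec_enc

/-- size of an object: length of its code -/
def sz {α : Type} [Cd α] (a : α) : ℕ := (enc a).length

theorem enc_injective {α : Type} [Cd α] : Injective (enc : α → Str) := fun a b h => by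
  rw [← Cd.dec_enc a, h, Cd.dec_enc]

instance instCdStr : Cd (List Bool) where
  enc := fun w => w
  dec := fun w => w
  dec_enc := fun _ => rfl
  norm := PTime.id

open scoped Classical in
noncomputable instance instCdProp : Cd Prop where
  enc := fun p => if p then [true] else []
  dec := fun w => w.head? = some true
  dec_enc := fun p => by by_cases h : p <;> simp [h]
  norm := by
    have h := PTime.ite PTime.id (PTime.const [true]) (PTime.const [])
    have e : (fun w : Str => if w.head? = some true then ([true] : Str) else []) =
        fun w => if (w.head? = some true : Prop) then ([true] : Str) else [] := rfl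
    convert h using 3

instance instCdNat : Cd ℕ where
  enc := fun n => List.replicate n true
  dec := fun w => w.length
  dec_enc := fun n => by simp
  norm := PTime.unlen PTime.id

instance instCdProd {α β : Type} [Cd α] [Cd β] : Cd (α × β) where
  enc := fun p => pairCode (enc p.1, enc p.2)
  dec := fun w => (dec (unp w).1, dec (unp w).2)
  dec_enc := fun p => by simp
  norm := PTime.pair (PTime.comp (f := fun w => enc (dec w : α)) Cd.norm (PTime.unp1 PTime.id))
    (PTime.comp (f := fun w => enc (dec w : β)) Cd.norm (PTime.unp2 PTime.id))

instance instCdList {α : Type} [Cd α] : Cd (List α) where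
  enc := fun l => encR (l.map enc)
  dec := fun w => (decR w).map dec
  dec_enc := fun l => by simp [Function.comp_def]
  norm := by
    have h := PTime.mapR (PTime.const []) PTime.id
      (PTime.comp (f := fun w => enc (dec w : α)) Cd.norm (PTime.unp2 PTime.id))
    have e : (fun w => encR (((decR w).map (dec : Str → α)).map enc)) =
        fun w => encR ((decR w).map fun a =>
          (enc (dec (unp (pairCode (([] : Str), a))).2 : α) : Str)) := by
      funext w
      simp [Function.comp_def]
    rw [e]
    exact h

@[simp] theorem enc_str (w : Str) : (enc w : Str) = w := rfl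
@[simp] theorem dec_str (w : Str) : (dec w : Str) = w := rfl
theorem enc_nat (n : ℕ) : enc n = List.replicate n true := rfl
@[simp] theorem enc_pair {α β : Type} [Cd α] [Cd β] (p : α × β) :
    enc p = pairCode (enc p.1, enc p.2) := rfl
@[simp] theorem enc_nil {α : Type} [Cd α] : enc ([] : List α) = [] := rfl
@[simp] theorem enc_cons {α : Type} [Cd α] (a : α) (l : List α) :
    enc (a :: l) = pairCode (enc a, enc l) := rfl

@[simp] theorem sz_str (w : Str) : sz w = w.length := rfl
@[simp] theorem sz_nat (n : ℕ) : sz n = n := by simp [sz, enc_nat]
@[simp] theorem sz_pair {α β : Type} [Cd α] [Cd β] (a : α) (b : β) :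
    sz (a, b) = 2 * sz a + 2 + sz b := by simp [sz, length_pairCode]
@[simp] theorem sz_nil {α : Type} [Cd α] : sz ([] : List α) = 0 := rfl
@[simp] theorem sz_cons {α : Type} [Cd α] (a : α) (l : List α) :
    sz (a :: l) = 2 * sz a + 2 + sz l := by simp [sz, length_pairCode]
theorem sz_prop (p : Prop) : sz p ≤ 1 := by
  classical
  unfold sz
  show (if p then [true] else [] : Str).length ≤ 1
  split_ifs <;> simp

/-- polynomial time functions between coded types -/
@[fun_prop]
def PTF {α β : Type} [Cd α] [Cd β] (f : α → β) : Prop :=
  PTime (fun w => enc (f (dec w)))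

section basic

variable {α β γ δ : Type} [Cd α] [Cd β] [Cd γ] [Cd δ]

theorem PTF.of_PTime {f : α → β} {g : Str → Str} (hg : PTime g)
    (h : ∀ a, g (enc a) = enc (f a)) : PTF f := by
  have h1 := PTime.comp hg (Cd.norm (α := α))
  have e : (fun w => enc (f (dec w))) = fun w => g (enc (dec w : α)) := by
    funext w
    rw [h]
  unfold PTF
  rw [e]
  exact h1

theorem PTime.of_PTF {f : α → β} (hf : PTF f) {g : Str → α} (hg : PTF g) :
    PTime (fun w => enc (f (g w))) := by
  have h := PTime.comp hf hg
  simpa using h

@[fun_prop] theorem PTF.id : PTF (fun a : α => a) := Cd.norm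

@[fun_prop] theorem PTF.const (b : β) : PTF (fun _ : α => b) := PTime.const (enc b)

@[fun_prop] theorem PTF.comp {f : β → γ} {g : α → β} (hf : PTF f) (hg : PTF g) :
    PTF (fun a => f (g a)) := by
  have h := PTime.comp hf hg
  simpa [PTF] using h

@[fun_prop] theorem PTF.mk {f : α → β} {g : α → γ} (hf : PTF f) (hg : PTF g) :
    PTF (fun a => (f a, g a)) := PTime.pair hf hg

@[fun_prop] theorem PTF.fst {f : α → β × γ} (hf : PTF f) : PTF (fun a => (f a).1) := by
  have h := PTime.unp1 hf
  simpa [PTF] using h

@[fun_prop] theorem PTF.snd {f : α → β × γ} (hf : PTF f) : PTF (fun a => (f a).2) := by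
  have h := PTime.unp2 hf
  simpa [PTF] using h

/-- values are polynomially large -/
theorem PTF.sz_le {f : α → β} (hf : PTF f) :
    ∃ q : ℕ → ℕ, PB q ∧ Monotone q ∧ ∀ a, sz (f a) ≤ q (sz a) := by
  obtain ⟨q, h1, h2, h3⟩ := PTime.len hf
  refine ⟨q, h1, h2, fun a => ?_⟩
  have := h3 (enc a)
  simpa [sz] using this

/-- the size in unary -/
@[fun_prop] theorem PTF.sz_fun {f : α → β} (hf : PTF f) : PTF (fun a => sz (f a)) := by
  have h := PTime.unlen hf
  exact h

@[fun_prop] theorem PTF.enc_fun {f : α → β} (hf : PTF f) : PTF (fun a => (enc (f a) : Str)) := hf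

theorem PTF.congr {f g : α → β} (hf : PTF f) (h : ∀ a, f a = g a) : PTF g := by
  have : f = g := funext h
  rwa [← this]

end basic

end Pool.Agent.Helper33.TQ
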