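import Pool.Agent.Helper33.TQ.WWdef

/-! Module TQ WWrun: the iterated generator is polynomial time computable. -/

namespace Pool.Agent.Helper33.TQ

open Function Pool.Agent.Helper72

namespace GData

variable (g : GData)

theorem length_run {n j : ℕ} {x : Str} (hx : x.length = g.m n) :
    (g.run n j x).length = j + g.m n := by
  induction j generalizing x with
  | zero => simp [run, hx]
  | succ j ih =>
    have h1 : ((g.G0 n x).tail).length = g.m n := by
      rw [List.length_tail, g.hlen]; omega
    have h2 := g.hlen n x
    rw [run, List.length_append, ih h1, List.length_take, h2]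
    omega

private theorem length_G_all (n : ℕ) (x : Str) : (g.G n x).length = 2 * g.m n := by
  have h0 := g.hm0 n
  obtain ⟨k, hk⟩ : ∃ k, g.m n = k + 1 := ⟨g.m n - 1, by omega⟩
  have h1 : ((g.G0 n x).tail).length = g.m n := by
    rw [List.length_tail, g.hlen]; omega
  have h2 := g.hlen n x
  have h3 := g.length_run (n := n) (j := k) h1
  unfold G
  rw [hk, run, List.length_append, h3, List.length_take, h2]
  omega

theorem length_G {n : ℕ} {x : Str} (hx : x.length = g.m n) :
    (g.G n x).length = 2 * g.m n := length_G_all g n x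

private theorem length_run_le (n j : ℕ) (x : Str) :
    (g.run n j x).length ≤ j + (x.length + g.m n) := by
  cases j with
  | zero => simp [run]
  | succ j =>
    have h1 : ((g.G0 n x).tail).length = g.m n := by
      rw [List.length_tail, g.hlen]; omega
    have h2 := g.hlen n x
    have h3 := g.length_run (n := n) (j := j) h1
    rw [run, List.length_append, h3, List.length_take, h2]
    omega

private theorem run_iter (n i : ℕ) (o x : Str) :
    (fun s : Str × Str => (s.1 ++ (g.G0 n s.2).take 1, (g.G0 n s.2).tail))^[i] (o, x) =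
      (o ++ (g.run n i x).take i, (g.run n i x).drop i) := by
  induction i generalizing o x with
  | zero => simp [run]
  | succ i ih =>
    have h2 := g.hlen n x
    have h3 : ((g.G0 n x).take 1).length = 1 := by
      rw [List.length_take, h2]; omega
    rw [Function.iterate_succ_apply]
    rw [ih]
    rw [run, List.append_assoc, List.take_append, List.drop_append, h3]
    rw [List.take_of_length_le (i := i + 1) (by rw [h3]; omega)]
    rw [List.drop_eq_nil_of_le (i := i + 1) (by rw [h3]; omega)]
    simp

/-- use `PTF.iterate` with states `(output so far, current state)`: the `j`-fold iterate of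
`(o, x) ↦ (o ++ (G0 n x).take 1, (G0 n x).tail)` started at `([], x)` -/
@[fun_prop] theorem ptf_run {α : Type} [Cd α] {n j : α → ℕ} {x : α → Str} (hn : PTF n)
    (hj : PTF j) (hx : PTF x) : PTF (fun a => g.run (n a) (j a) (x a)) := by
  have hm := g.hm
  have hG := g.hG0
  have hstep : PTF (fun p : α × (Str × Str) =>
      ((p.2.1 ++ (g.G0 (n p.1) p.2.2).take 1, (g.G0 (n p.1) p.2.2).tail) : Str × Str)) := by
    have h1 : PTF (fun p : α × (Str × Str) => g.G0 (n p.1) p.2.2) :=
      PTF.comp (f := fun x : ℕ × Str => g.G0 x.1 x.2) hG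
        (PTF.mk (PTF.comp hn (PTF.fst PTF.id)) (PTF.snd (PTF.snd PTF.id)))
    exact PTF.mk (PTF.appendS (PTF.fst (PTF.snd PTF.id)) (PTF.takeS (PTF.const 1) h1))
      (PTF.tailS h1)
  have hB : PTF (fun a => 2 * j a + 2 + (j a + ((x a).length + g.m (n a)))) :=
    PTF.add (PTF.add (PTF.mul (PTF.const 2) hj) (PTF.const 2))
      (PTF.add hj (PTF.add (PTF.lengthS hx) (PTF.comp hm hn)))
  have h := PTF.iterate (n := j) (s := fun a => (([] : Str), x a))
    (g := fun (a : α) (s : Str × Str) => (s.1 ++ (g.G0 (n a) s.2).take 1, (g.G0 (n a) s.2).tail))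
    hj (PTF.mk (PTF.const []) hx) hstep hB (by
      intro a i hi
      rw [run_iter]
      rw [sz_pair, sz_str, sz_str, List.nil_append, List.length_take, List.length_drop]
      have := g.length_run_le (n a) i (x a)
      omega)
  refine (PTF.appendS (PTF.fst h) (PTF.snd h)).congr fun a => ?_
  rw [run_iter]
  simp

@[fun_prop] theorem ptf_G {α : Type} [Cd α] {n : α → ℕ} {x : α → Str} (hn : PTF n)
    (hx : PTF x) : PTF (fun a => g.G (n a) (x a)) :=
  g.ptf_run hn (PTF.comp g.hm hn) hx

private theorem length_half_le (n : ℕ) (b : Bool) (y : Str) :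
    (g.half n b y).length ≤ y.length := by
  unfold half
  split_ifs
  · rw [List.length_drop]; omega
  · rw [List.length_take]; omega

private theorem length_foldl_le (n K : ℕ) (hK : 2 * g.m n ≤ K) (l : Str) (y : Str)
    (hy : y.length ≤ K) :
    (l.foldl (fun y b => g.half n b (g.G n y)) y).length ≤ K := by
  induction l generalizing y with
  | nil => exact hy
  | cons b l ih =>
    rw [List.foldl_cons]
    apply ih
    have h1 := g.length_half_le n b (g.G n y)
    have h2 := g.length_G_all n y
    omega

/-- use `PTF.foldlS`; note that `half` of `G n y` has at most `m n + y.length` letters, and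
at most `2 * m n` letters after the first step -/
@[fun_prop] theorem ptf_decG {α : Type} [Cd α] {n : α → ℕ} {x i : α → Str} (hn : PTF n)
    (hx : PTF x) (hi : PTF i) : PTF (fun a => g.decG (n a) (x a) (i a)) := by
  have hm := g.hm
  have hB : PTF (fun a => (x a).length + 2 * g.m (n a)) :=
    PTF.add (PTF.lengthS hx) (PTF.mul (PTF.const 2) (PTF.comp hm hn))
  refine PTF.foldlS (l := i) (s := x) (g := fun a y b => g.half (n a) b (g.G (n a) y))
    hi hx ?_ hB ?_
  · intro b
    have h1 : PTF (fun p : α × Str => g.G (n p.1) p.2) :=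
      g.ptf_G (PTF.comp hn (PTF.fst PTF.id)) (PTF.snd PTF.id)
    have h2 : PTF (fun p : α × Str => g.m (n p.1)) :=
      PTF.comp hm (PTF.comp hn (PTF.fst PTF.id))
    cases b with
    | true =>
      refine (PTF.dropS h2 h1).congr fun a => ?_
      simp [half]
    | false =>
      refine (PTF.takeS h2 h1).congr fun a => ?_
      simp [half]
  · intro a k _
    rw [sz_str]
    exact g.length_foldl_le (n a) _ (by omega) _ _ (by omega)

theorem length_decG {n : ℕ} {x i : Str} (hx : x.length = g.m n) :
    (g.decG n x i).length = g.m n := by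
  unfold decG
  induction i generalizing x with
  | nil => exact hx
  | cons b i ih =>
    rw [List.foldl_cons]
    apply ih
    have h2 := g.length_G_all n x
    unfold half
    split_ifs
    · rw [List.length_drop]; omega
    · rw [List.length_take]; omega

theorem npp_Inc : NPP (fun x : ℕ × Str × Str => g.Inc x.1 x.2.1 x.2.2) := by
  have hm := g.hm
  refine NPP.ex (p := fun (x : ℕ × Str × Str) (i : Str) =>
    x.2.1.length + i.length = 2 * g.m x.1 ∧ g.G x.1 (g.decG x.1 x.2.2 i) ≠ x.2.1 ++ i)
    (NPP.of_PTF ?_) (g := fun x => 2 * g.m x.1) (by fun_prop) ?_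
  · fun_prop
  · rintro x i ⟨h, -⟩
    rw [sz_str]
    omega

theorem npp_Pk : NPP (fun x : ℕ × ℕ × Str => g.Pk x.1 x.2.1 x.2.2) := by
  have hm := g.hm
  refine NPP.ex (p := fun (x : ℕ × ℕ × Str) (z : Str) =>
    z.length = g.m x.1 ∧ g.run x.1 (g.m x.1 - x.2.1) z = x.2.2.drop x.2.1)
    (NPP.of_PTF ?_) (g := fun x => g.m x.1) (by fun_prop) ?_
  · fun_prop
  · rintro x z ⟨h, -⟩
    rw [sz_str]
    omega

end GData

end Pool.Agent.Helper33.TQ
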