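import Pool.Agent.Helper33.TQ.Calc

/-!
The two queries assumption in the form of a one query reduction for the parity of two `SAT`
questions; easy and hard words.
-/

namespace Pool.Agent.Helper33.TQ

open Function Pool.Agent.Helper72

/-- one query reduction for the exclusive or of two `SAT` questions -/
structure TQD where
  T : Str → Str → Prop
  q : Str → Str → Str
  hT : PTF (fun x : Str × Str => T x.1 x.2)
  hq : PTF (fun x : Str × Str => q x.1 x.2)
  spec : ∀ F G, (F ∈ SAT ↔ G ∈ SAT) ↔ (q F G ∈ SAT ↔ T F G)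

namespace TQD

variable (D : TQD)

/-- `z` has a certificate of unsatisfiability consisting of a satisfiable word of length at
most `M` -/
def easy (M : ℕ) (z : Str) : Prop := ∃ F : Str, F.length ≤ M ∧ F ∈ SAT ∧ ¬ D.T F z ∧ D.q F z ∈ SAT

/-- nondeterministic test for unsatisfiability of `F`, correct if `z` is hard -/
def N (z F : Str) : Prop := z ∈ SAT ∨ ¬ D.T F z ∨ D.q F z ∈ SAT

/-- certificate of equal status -/
def eqv (F G : Str) : Prop := D.T F G ∧ D.q F G ∈ SAT

variable {D}

theorem easy_sound {M : ℕ} {z : Str} (h : D.easy M z) : z ∉ SAT := by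
  obtain ⟨F, -, h1, h2, h3⟩ := h
  have := D.spec F z
  tauto

theorem eqv_sound {F G : Str} (h : D.eqv F G) : F ∈ SAT ↔ G ∈ SAT := by
  have := D.spec F G
  obtain ⟨h1, h2⟩ := h
  tauto

theorem N_of_not_mem {z F : Str} (h : F ∉ SAT) : D.N z F := by
  have := D.spec F z
  unfold N
  tauto

theorem N_iff {M : ℕ} {z F : Str} (hz : z ∉ SAT) (he : ¬ D.easy M z) (hF : F.length ≤ M) :
    D.N z F ↔ F ∉ SAT := by
  refine ⟨fun h hS => ?_, N_of_not_mem⟩
  have := D.spec F z
  have h1 : ¬ (¬ D.T F z ∧ D.q F z ∈ SAT) := fun h1 => he ⟨F, hF, hS, h1⟩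
  unfold N at h
  tauto

variable (D)

theorem ptf_T {α : Type} [Cd α] {f g : α → Str} (hf : PTF f) (hg : PTF g) :
    PTF (fun a => D.T (f a) (g a)) :=
  PTF.comp (f := fun x : Str × Str => D.T x.1 x.2) D.hT (hf.mk hg)

theorem ptf_q {α : Type} [Cd α] {f g : α → Str} (hf : PTF f) (hg : PTF g) :
    PTF (fun a => D.q (f a) (g a)) :=
  PTF.comp (f := fun x : Str × Str => D.q x.1 x.2) D.hq (hf.mk hg)

theorem npp_easy' : NPP (fun x : ℕ × Str => D.easy x.1 x.2) := by
  have hT := D.hT
  have hq := D.hq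
  refine NPP.ex (p := fun (x : ℕ × Str) (F : Str) => F.length ≤ x.1 ∧ F ∈ SAT ∧ ¬ D.T F x.2 ∧
    D.q F x.2 ∈ SAT) ?_ (g := fun x => x.1) (by fun_prop) ?_
  · fun_prop
  · rintro a F ⟨h, -⟩
    simpa using h

@[fun_prop] theorem npp_easy {α : Type} [Cd α] {f : α → ℕ} {g : α → Str} (hf : PTF f)
    (hg : PTF g) : NPP (fun a => D.easy (f a) (g a)) :=
  NPP.comp (p := fun x : ℕ × Str => D.easy x.1 x.2) D.npp_easy' (hf.mk hg)

@[fun_prop] theorem npp_N {α : Type} [Cd α] {f g : α → Str} (hf : PTF f)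
    (hg : PTF g) : NPP (fun a => D.N (f a) (g a)) := by
  have h : NPP (fun x : Str × Str => D.N x.1 x.2) := by
    have hT := D.hT
    have hq := D.hq
    unfold N
    fun_prop
  exact NPP.comp (p := fun x : Str × Str => D.N x.1 x.2) h (hf.mk hg)

end TQD

/-- the two queries assumption gives the reduction: the language of all `w` such that exactly
one of the components of `unp w` is in `SAT` is in `P_||^SAT[2]`, hence in `P^SAT[1]`. -/
theorem exists_TQD (h : ∀ L, InPSAT2 L → InPSAT1 L) : Nonempty TQD := by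
  classical
  have h2 : InPSAT2 {w : Str | ¬ ((unp w).1 ∈ SAT ↔ (unp w).2 ∈ SAT)} := by
    refine ⟨fun w => (unp w).1, fun w => (unp w).2, fun b c => {w | b ≠ c},
      PTime.unp1 PTime.id, PTime.unp2 PTime.id, fun b c => ?_, fun w => ?_⟩
    · rw [inP_iff]
      exact PTF.const (β := Prop) (b ≠ c)
    · by_cases h1 : (unp w).1 ∈ SAT <;> by_cases h2 : (unp w).2 ∈ SAT <;> simp [h1, h2]
  obtain ⟨f, D, hf, hD, hx⟩ := h _ h2
  have hnil : ([] : Str) ∉ SAT := by
    rintro ⟨φ, hφ, -⟩
    cases φ <;> simp [BForm.code] at hφ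
  have hf' : PTF f := hf
  have h0 : PTF (fun w : Str => w ∈ D false) := (inP_iff _).1 (hD false)
  have h1 : PTF (fun w : Str => w ∈ D true) := (inP_iff _).1 (hD true)
  -- `q w = f w` if the answer matters, `[]` otherwise; `T` = the decision for the answer `no`
  refine ⟨⟨fun F G => pairCode (F, G) ∈ D false,
    fun F G => if (pairCode (F, G) ∈ D false ↔ pairCode (F, G) ∈ D true) then []
      else f (pairCode (F, G)), ?_, ?_, fun F G => ?_⟩⟩
  · have : PTF (fun x : Str × Str => pairCode (x.1, x.2)) := PTF.id.enc_fun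
    fun_prop
  · have : PTF (fun x : Str × Str => pairCode (x.1, x.2)) := PTF.id.enc_fun
    fun_prop
  · have := hx (pairCode (F, G))
    simp only [Set.mem_ofPred_eq, unp_pairCode] at this
    by_cases e : (pairCode (F, G) ∈ D false ↔ pairCode (F, G) ∈ D true)
    · simp only [if_pos e, hnil, false_iff]
      rcases hdec : decide (f (pairCode (F, G)) ∈ SAT) with _ | _ <;> rw [hdec] at this <;> tauto
    · simp only [if_neg e]
      by_cases hs : f (pairCode (F, G)) ∈ SAT
      · simp only [hs, decide_true] at this ⊢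
        tauto
      · simp only [hs, decide_false] at this ⊢
        tauto

end Pool.Agent.Helper33.TQ
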